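import Pool.Agent.FD.Spec

/-!
# FD: the all-tight solution of the strip
-/

open Finset Filter Topology

namespace Pool.Agent.FD

/-! ### the decay rate -/

theorem aa_eq {N k : ℕ} (hk : k ∈ range (N / 2)) (h : 2 < be N k) :
    aa N k ^ 2 - be N k * aa N k + 1 = 0 := by
  have h1 : √(be N k ^ 2 - 4) ^ 2 = be N k ^ 2 - 4 := Real.sq_sqrt (by nlinarith)
  unfold aa
  nlinarith

theorem aa_pos {N k : ℕ} (hk : k ∈ range (N / 2)) (h : 2 < be N k) : 0 < aa N k := by
  have h1 : √(be N k ^ 2 - 4) < be N k := by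
    rw [Real.sqrt_lt' (by linarith)]
    linarith
  unfold aa
  linarith

theorem aa_lt_one {N k : ℕ} (hk : k ∈ range (N / 2)) (h : 2 < be N k) : aa N k < 1 := by
  have h1 : be N k - 2 < √(be N k ^ 2 - 4) := by
    apply Real.lt_sqrt_of_sq_lt
    nlinarith
  unfold aa
  linarith

theorem two_aa {N k : ℕ} (hk : k ∈ range (N / 2)) (h : 2 < be N k) :
    2 * (1 + aa N k) / (2 + be N k) = 1 - √((be N k - 2) / (be N k + 2)) := by
  have h1 : 0 < be N k + 2 := by linarith
  have h2 : √((be N k - 2) / (be N k + 2)) = √(be N k ^ 2 - 4) / (be N k + 2) := by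
    have h3 : (be N k - 2) / (be N k + 2) = (be N k ^ 2 - 4) / (be N k + 2) ^ 2 := by
      field_simp
      ring
    rw [h3, Real.sqrt_div' _ (by positivity), Real.sqrt_sq h1.le]
  rw [h2]
  unfold aa
  field_simp
  ring

/-! ### the modes -/

private theorem allt_cos_ph {N k : ℕ} (hk : k ∈ range (N / 2)) (h : ¬ 2 < be N k) :
    Real.cos (ph N k) = -(be N k) / 2 := by
  have h1 := be_gt hk
  unfold ph
  rw [Real.cos_arccos] <;> linarith

private theorem allt_sin_ph {N k : ℕ} (hk : k ∈ range (N / 2)) (_h : ¬ 2 < be N k) :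
    2 * Real.sin (ph N k) / (2 + be N k) = √((2 - be N k) / (2 + be N k)) := by
  have h1 := be_gt hk
  have h2 : 0 < 2 + be N k := by linarith
  have h3 : Real.sin (ph N k) = √(1 - (-(be N k) / 2) ^ 2) := by
    unfold ph
    rw [Real.sin_arccos]
  have h4 : (2 - be N k) / (2 + be N k) =
      (1 - (-(be N k) / 2) ^ 2) / ((2 + be N k) / 2) ^ 2 := by
    field_simp
    ring
  rw [h3, h4, Real.sqrt_div' _ (by positivity), Real.sqrt_sq (by positivity)]
  field_simp

private theorem allt_tau {N M k : ℕ} (hk : k ∈ range (N / 2)) (hA : Adm N M)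
    (h : ¬ 2 < be N k) : tau N M k * (1 + Real.cos (M * ph N k)) = Real.sin (M * ph N k) := by
  unfold tau
  exact div_mul_cancel₀ _ (hA.cos k hk (not_lt.mp h))

private theorem allt_den {N M k : ℕ} (hk : k ∈ range (N / 2)) (h : 2 < be N k) :
    0 < 1 + aa N k ^ M := by
  have := aa_pos hk h
  positivity

private theorem allt_w0 {N M k : ℕ} (hk : k ∈ range (N / 2)) : wM N M k 0 = 1 := by
  unfold wM
  split_ifs with h
  · have h1 := allt_den (M := M) hk h
    simp only [pow_zero, Nat.sub_zero, one_mul]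
    exact div_self h1.ne'
  · simp

private theorem allt_wsymm {N M k j : ℕ} (hA : Adm N M) (hk : k ∈ range (N / 2)) (hj : j ≤ M) :
    wM N M k (M - j) = wM N M k j := by
  unfold wM
  split_ifs with h
  · have h1 : ((-1 : ℝ)) ^ (M - j) = (-1) ^ j := by
      have h2 : ((-1 : ℝ)) ^ (M - j) * (-1) ^ j = 1 := by
        rw [← pow_add, Nat.sub_add_cancel hj]
        exact hA.even.neg_one_pow
      have h3 : ((-1 : ℝ)) ^ j * (-1) ^ j = 1 := by
        rw [← mul_pow]
        norm_num
      have h4 : ((-1 : ℝ)) ^ j ≠ 0 := by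
        intro h5
        rw [h5] at h3
        norm_num at h3
      exact mul_right_cancel₀ h4 (h2.trans h3.symm)
    rw [h1, Nat.sub_sub_self hj, add_comm (aa N k ^ (M - j))]
  · have h1 := allt_tau hk hA h
    rw [Nat.cast_sub hj, sub_mul, Real.cos_sub, Real.sin_sub]
    have h2 := Real.sin_sq_add_cos_sq ((M : ℝ) * ph N k)
    have h0 := hA.cos k hk (not_lt.mp h)
    have h3 : Real.cos (M * ph N k) + tau N M k * Real.sin (M * ph N k) = 1 := by
      have h4 : (1 + Real.cos (M * ph N k)) *
          (Real.cos (M * ph N k) + tau N M k * Real.sin (M * ph N k) - 1) = 0 := by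
        linear_combination Real.sin (M * ph N k) * h1 + h2
      rcases mul_eq_zero.mp h4 with h5 | h5
      · exact absurd h5 h0
      · linarith
    linear_combination Real.cos (j * ph N k) * h3 - Real.sin (j * ph N k) * h1

private theorem allt_wM {N M k : ℕ} (hA : Adm N M) (hk : k ∈ range (N / 2)) : wM N M k M = 1 := by
  have h1 := allt_wsymm hA hk (Nat.zero_le M)
  rw [Nat.sub_zero] at h1
  rw [h1, allt_w0 hk]

private theorem allt_wrec {N M k j : ℕ} (hk : k ∈ range (N / 2)) (hj : j + 2 ≤ M) :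
    wM N M k j + wM N M k (j + 2) + be N k * wM N M k (j + 1) = 0 := by
  unfold wM
  split_ifs with h
  · have h1 := allt_den (M := M) hk h
    have h2 := aa_eq hk h
    obtain ⟨l, hl⟩ := Nat.exists_eq_add_of_le hj
    have e1 : M - j = l + 2 := by omega
    have e2 : M - (j + 2) = l := by omega
    have e3 : M - (j + 1) = l + 1 := by omega
    rw [e1, e2, e3, mul_div_assoc', ← add_div, ← add_div]
    apply div_eq_zero_iff.mpr
    left
    simp only [pow_add, pow_one]
    linear_combination ((-1 : ℝ)) ^ j * (aa N k ^ j + aa N k ^ l) * h2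
  · have h1 := allt_cos_ph hk h
    have e1 : Real.cos ((j : ℝ) * ph N k) + Real.cos (((j + 2 : ℕ) : ℝ) * ph N k) =
        2 * Real.cos (ph N k) * Real.cos (((j + 1 : ℕ) : ℝ) * ph N k) := by
      have a1 : (j : ℝ) * ph N k = ((j + 1 : ℕ) : ℝ) * ph N k - ph N k := by push_cast; ring
      have a2 : ((j + 2 : ℕ) : ℝ) * ph N k = ((j + 1 : ℕ) : ℝ) * ph N k + ph N k := by
        push_cast; ring
      rw [a1, a2, Real.cos_sub, Real.cos_add]
      ring
    have e2 : Real.sin ((j : ℝ) * ph N k) + Real.sin (((j + 2 : ℕ) : ℝ) * ph N k) =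
        2 * Real.cos (ph N k) * Real.sin (((j + 1 : ℕ) : ℝ) * ph N k) := by
      have a1 : (j : ℝ) * ph N k = ((j + 1 : ℕ) : ℝ) * ph N k - ph N k := by push_cast; ring
      have a2 : ((j + 2 : ℕ) : ℝ) * ph N k = ((j + 1 : ℕ) : ℝ) * ph N k + ph N k := by
        push_cast; ring
      rw [a1, a2, Real.sin_sub, Real.sin_add]
      ring
    rw [h1] at e1 e2
    linear_combination e1 + tau N M k * e2

/-! ### the array -/

theorem xM_bd {N M : ℕ} (hN : 2 ≤ N) (h : Adm N M) : Bd (N - 1) (M - 1) (xM N M) := by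
  have hM := h.two
  have e1 : N - 1 + 1 = N := by omega
  have e2 : M - 1 + 1 = M := by omega
  refine ⟨?_, ?_, ?_, ?_⟩
  · intro j
    unfold xM
    rw [bb_zero]
    simp
  · intro j
    rw [e1]
    unfold xM
    rw [bb_N (by omega)]
    have h1 : ∀ k ∈ range (N / 2), kap N k * Real.sin (N * th N k) * wM N M k j = 0 := by
      intro k _
      rw [sin_N N k (by omega)]
      ring
    rw [sum_congr rfl h1]
    simp
  · intro r
    unfold xM
    have h1 : ∀ k ∈ range (N / 2), kap N k * Real.sin (r * th N k) * wM N M k 0 =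
        kap N k * Real.sin (r * th N k) := by
      intro k hk
      rw [allt_w0 hk, mul_one]
    rw [sum_congr rfl h1]
    unfold bb
    ring
  · intro r
    rw [e2]
    unfold xM
    have h1 : ∀ k ∈ range (N / 2), kap N k * Real.sin (r * th N k) * wM N M k M =
        kap N k * Real.sin (r * th N k) := by
      intro k hk
      rw [allt_wM h hk, mul_one]
    rw [sum_congr rfl h1]
    unfold bb
    ring

theorem xM_nb {N M r j : ℕ} (h : Adm N M) (hr : r ∈ Icc 1 (N - 1)) (hj : j ∈ Icc 1 (M - 1)) :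
    nb (xM N M) r j = 1 := by
  rw [mem_Icc] at hr hj
  obtain ⟨i, rfl⟩ : ∃ i, j = i + 1 := ⟨j - 1, by omega⟩
  unfold nb xM
  have h1 := bb_eq (N := N) (r := r) hr.1 (by omega)
  have h2 : ∑ k ∈ range (N / 2), kap N k * Real.sin (r * th N k) * wM N M k (i + 1) +
      ∑ k ∈ range (N / 2), kap N k * Real.sin ((r - 1 : ℕ) * th N k) * wM N M k (i + 1) +
      ∑ k ∈ range (N / 2), kap N k * Real.sin ((r + 1 : ℕ) * th N k) * wM N M k (i + 1) +
      ∑ k ∈ range (N / 2), kap N k * Real.sin (r * th N k) * wM N M k (i + 1 - 1) +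
      ∑ k ∈ range (N / 2), kap N k * Real.sin (r * th N k) * wM N M k (i + 1 + 1) = 0 := by
    rw [← sum_add_distrib, ← sum_add_distrib, ← sum_add_distrib, ← sum_add_distrib]
    apply sum_eq_zero
    intro k hk
    have h3 := sin_rec (N := N) k hr.1
    have h4 := allt_wrec (N := N) (M := M) (k := k) (j := i) hk (by omega)
    rw [Nat.add_sub_cancel]
    linear_combination kap N k * wM N M k (i + 1) * h3 + kap N k * Real.sin (r * th N k) * h4
  linarith

theorem xM_symm {N M r j : ℕ} (h : Adm N M) (hj : j ≤ M) : xM N M r (M - j) = xM N M r j := by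
  unfold xM
  congr 1
  apply sum_congr rfl
  intro k hk
  rw [allt_wsymm h hk hj]

theorem xM_close {N M r j : ℕ} (h : Adm N M) (hj : 2 * j ≤ M) :
    |xM N M r j - xt N (tau N M) r j| ≤
      ∑ k ∈ range (N / 2), kap N k * (if 2 < be N k then aa N k ^ (M / 2) else 0) := by
  have e1 : xM N M r j - xt N (tau N M) r j =
      ∑ k ∈ range (N / 2), kap N k * Real.sin (r * th N k) *
        (wt N (tau N M) k j - wM N M k j) := by
    unfold xM xt
    rw [sub_sub_sub_cancel_left, ← sum_sub_distrib]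
    apply sum_congr rfl
    intro k _
    ring
  rw [e1]
  apply (abs_sum_le_sum_abs _ _).trans
  apply sum_le_sum
  intro k hk
  have hkap := kap_pos hk
  rw [abs_mul, abs_mul, abs_of_pos hkap, mul_assoc]
  apply mul_le_mul_of_nonneg_left _ hkap.le
  have hs : |Real.sin (r * th N k)| ≤ 1 := Real.abs_sin_le_one _
  have hw : |wt N (tau N M) k j - wM N M k j| ≤
      (if 2 < be N k then aa N k ^ (M / 2) else 0) := by
    unfold wt wM
    split_ifs with h2
    · have ha := aa_pos hk h2
      have ha1 := aa_lt_one hk h2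
      have hden := allt_den (M := M) hk h2
      have hjM : j ≤ M := by omega
      have e2 : (-1 : ℝ) ^ j * aa N k ^ j -
          (-1) ^ j * (aa N k ^ j + aa N k ^ (M - j)) / (1 + aa N k ^ M) =
          (-1) ^ j * ((aa N k ^ (j + M) - aa N k ^ (M - j)) / (1 + aa N k ^ M)) := by
        rw [pow_add]
        field_simp
        ring
      rw [e2, abs_mul, abs_pow, abs_neg, abs_one, one_pow, one_mul, abs_div,
        abs_of_pos hden, div_le_iff₀ hden]
      have h3 : aa N k ^ (j + M) ≤ aa N k ^ (M - j) :=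
        pow_le_pow_of_le_one ha.le ha1.le (by omega)
      have h4 : aa N k ^ (M - j) ≤ aa N k ^ (M / 2) :=
        pow_le_pow_of_le_one ha.le ha1.le (by omega)
      have h5 : 0 < aa N k ^ (j + M) := by positivity
      have h6 : 0 < aa N k ^ (M / 2) := by positivity
      have h7 : 0 < aa N k ^ M := by positivity
      rw [abs_of_nonpos (by linarith)]
      nlinarith
    · simp
  calc |Real.sin (r * th N k)| * |wt N (tau N M) k j - wM N M k j| ≤
      1 * |wt N (tau N M) k j - wM N M k j| :=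
        mul_le_mul_of_nonneg_right hs (abs_nonneg _)
    _ ≤ _ := by
        rw [one_mul]
        exact hw

private theorem allt_sum {N M k : ℕ} (hA : Adm N M) (hk : k ∈ range (N / 2)) :
    (2 + be N k) * ∑ j ∈ Icc 1 (M - 1), wM N M k j = 2 * wM N M k 1 - 2 := by
  have hM := hA.two
  obtain ⟨n, rfl⟩ : ∃ n, M = n + 2 := ⟨M - 2, by omega⟩
  have e0 : Icc 1 (n + 2 - 1) = Ico 1 (n + 2) := by
    ext i
    simp only [mem_Icc, mem_Ico]
    omega
  rw [e0, sum_Ico_eq_sum_range, show n + 2 - 1 = n + 1 by omega]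
  simp only [add_comm 1]
  have h1 : ∑ i ∈ range (n + 1), (wM N (n + 2) k i + wM N (n + 2) k (i + 2) +
      be N k * wM N (n + 2) k (i + 1)) = 0 := by
    apply sum_eq_zero
    intro i hi
    rw [mem_range] at hi
    exact allt_wrec hk (by omega)
  rw [sum_add_distrib, sum_add_distrib, ← mul_sum] at h1
  have h2 : ∑ i ∈ range (n + 1), wM N (n + 2) k i + wM N (n + 2) k (n + 1) =
      ∑ i ∈ range (n + 1), wM N (n + 2) k (i + 1) + wM N (n + 2) k 0 := by
    rw [← sum_range_succ, ← sum_range_succ']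
  have h3 : ∑ i ∈ range (n + 1), wM N (n + 2) k (i + 2) + wM N (n + 2) k 1 =
      ∑ i ∈ range (n + 1), wM N (n + 2) k (i + 1) + wM N (n + 2) k (n + 2) := by
    have h4 := sum_range_succ' (fun i => wM N (n + 2) k (i + 1)) (n + 1)
    rw [sum_range_succ] at h4
    exact h4.symm
  have h5 : wM N (n + 2) k (n + 1) = wM N (n + 2) k 1 := by
    have h6 := allt_wsymm (j := 1) hA hk (by omega)
    exact h6
  have h6 := allt_w0 (M := n + 2) hk
  have h7 := allt_wM hA hk
  linear_combination h1 - h2 - h3 + h5 - h6 - h7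

theorem xM_tot {N M : ℕ} (hN : 2 ≤ N) (h : Adm N M) :
    tot (N - 1) (M - 1) (xM N M) = (M - 1) * alph N -
      ∑ k ∈ range (N / 2), kap N k * ct N k *
        (if 2 < be N k then
          -(2 * (1 + (aa N k + aa N k ^ (M - 1)) / (1 + aa N k ^ M)) / (2 + be N k))
        else -(1 - tau N M k * √((2 - be N k) / (2 + be N k)))) := by
  have hM := h.two
  have h1 : tot (N - 1) (M - 1) (xM N M) =
      ∑ r ∈ Icc 1 (N - 1), ((M - 1 : ℝ) * bb N r - ∑ k ∈ range (N / 2), kap N k *
        Real.sin (r * th N k) * ∑ j ∈ Icc 1 (M - 1), wM N M k j) := by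
    unfold tot xM
    apply sum_congr rfl
    intro r _
    rw [sum_sub_distrib, sum_const, Nat.card_Icc, sum_comm, nsmul_eq_mul,
      show M - 1 + 1 - 1 = M - 1 by omega, Nat.cast_sub (by omega), Nat.cast_one]
    congr 1
    apply sum_congr rfl
    intro k _
    rw [mul_sum]
  rw [h1, sum_sub_distrib, ← mul_sum, alph_eq hN, sum_comm]
  congr 1
  apply sum_congr rfl
  intro k hk
  have h2 : ∑ r ∈ Icc 1 (N - 1), kap N k * Real.sin (r * th N k) *
      ∑ j ∈ Icc 1 (M - 1), wM N M k j = kap N k * ct N k * ∑ j ∈ Icc 1 (M - 1), wM N M k j := by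
    rw [← sum_mul, ← mul_sum, sum_sin hk]
  rw [h2]
  congr 1
  have hb : 0 < 2 + be N k := by
    have := be_gt hk
    linarith
  have h3 := allt_sum h hk
  have h4 : ∑ j ∈ Icc 1 (M - 1), wM N M k j = (2 * wM N M k 1 - 2) / (2 + be N k) := by
    rw [eq_div_iff hb.ne', ← h3]
    ring
  rw [h4]
  unfold wM
  split_ifs with h5
  · rw [pow_one, pow_one]
    ring
  · have h6 := allt_cos_ph hk h5
    have h7 := allt_sin_ph hk h5
    rw [← h7, Nat.cast_one, one_mul, h6]
    field_simp
    ring

end Pool.Agent.FD
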