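import Pool.Agent.FD.CertPos

/-!
# End corrections for `N = 8`
-/

open Finset

namespace Pool.Agent.FD

theorem cert8 : ∃ (t t' : ℕ → ℝ) (lam : ℝ) (e e' : ℕ → ℕ → ℝ) (J : ℕ) (δ : ℝ),
    t 0 = 0 ∧ t' 0 = 0 ∧ EndData 8 t lam e J δ ∧ UpC 8 lam e ∧ EndData 8 t' lam e' J δ ∧
      LoC 8 lam e' ∧
      lam * Vt 8 t + 2 * ∑ r ∈ Icc 1 7, ∑ j ∈ Icc 1 J, e r j <
        lam * Vt 8 t' + 2 * ∑ r ∈ Icc 1 7, ∑ j ∈ Icc 1 J, e' r j :=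
  ⟨t8, t8', 19 / 25, e8, e8', 6, 1 / 10000, by simp [t8], by simp [t8', t8],
    endData8 (by norm_num) pos8, up8, endData8' (by norm_num) pos8', lo8, val8⟩

end Pool.Agent.FD
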