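import Pool.Agent.FD.CertPos

/-!
# End corrections for `N = 9`
-/

open Finset

namespace Pool.Agent.FD

theorem cert9 : ∃ (t t' : ℕ → ℝ) (lam : ℝ) (e e' : ℕ → ℕ → ℝ) (J : ℕ) (δ : ℝ),
    (t 0 = 0 ∧ t' 0 = 0 ∧ t 1 = 0 ∧ t' 1 = 0) ∧ EndData 9 t lam e J δ ∧ UpC 9 lam e ∧
      EndData 9 t' lam e' J δ ∧ LoC 9 lam e' ∧
      lam * Vt 9 t + 2 * ∑ r ∈ Icc 1 8, ∑ j ∈ Icc 1 J, e r j <
        lam * Vt 9 t' + 2 * ∑ r ∈ Icc 1 8, ∑ j ∈ Icc 1 J, e' r j :=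
  ⟨t9, t9', 1, e9, fun _ _ => 0, 2, 1 / 10000, ⟨by simp [t9], by simp [t9', t9], by simp [t9],
    by simp [t9', t9]⟩, endData9 (by norm_num) pos9, up9, endData9' (by norm_num) pos9', lo9, val9⟩

end Pool.Agent.FD
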