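import Pool.Agent.FD.IvDefs

/-!
# FD: module IVL (interval arithmetic)
-/

open Finset Filter Topology

namespace Pool.Agent.FD

section
open Iv
variable {I J : Iv} {x y : ℝ}

theorem ivl_SC_pos : (0 : ℝ) < (SC : ℝ) := by norm_num [SC]

theorem ivl_SC_pos' : (0 : ℤ) < SC := by norm_num [SC]

theorem ivl_floor_le (a : ℤ) {b : ℤ} (hb : 0 < b) : ((a / b : ℤ) : ℝ) ≤ (a : ℝ) / b := by
  have hb' : (0 : ℝ) < b := by exact_mod_cast hb
  rw [le_div_iff₀ hb']
  exact_mod_cast Int.ediv_mul_le a hb.ne'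

theorem ivl_le_cdiv (a : ℤ) {b : ℤ} (hb : 0 < b) : (a : ℝ) / b ≤ (cdiv a b : ℤ) := by
  have h := ivl_floor_le (-a) hb
  unfold cdiv
  push_cast at h ⊢
  have e : (-(a : ℝ)) / b = -((a : ℝ) / b) := by ring
  rw [e] at h
  linarith

theorem has_rat (p : ℤ) {q : ℤ} (hq : 0 < q) : (rat p q).Has (p / q) := by
  have h1 := ivl_floor_le (p * SC) hq
  have h2 := ivl_le_cdiv (p * SC) hq
  have e : ((p * SC : ℤ) : ℝ) / q = SC * ((p : ℝ) / q) := by push_cast; ring
  rw [e] at h1 h2
  exact ⟨h1, h2⟩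

theorem Has.neg (h : I.Has x) : I.neg.Has (-x) := by
  obtain ⟨h1, h2⟩ := h
  constructor
  · simp only [Iv.neg]; push_cast; linarith
  · simp only [Iv.neg]; push_cast; linarith

theorem Has.add (h : I.Has x) (h' : J.Has y) : (I.add J).Has (x + y) := by
  obtain ⟨h1, h2⟩ := h
  obtain ⟨h3, h4⟩ := h'
  constructor
  · simp only [Iv.add]; push_cast; linarith
  · simp only [Iv.add]; push_cast; linarith

theorem Has.sub (h : I.Has x) (h' : J.Has y) : (I.sub J).Has (x - y) := by
  obtain ⟨h1, h2⟩ := h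
  obtain ⟨h3, h4⟩ := h'
  constructor
  · simp only [Iv.sub]; push_cast; linarith
  · simp only [Iv.sub]; push_cast; linarith

theorem Has.nmul {n : ℤ} (hn : 0 ≤ n) (h : I.Has x) : (I.nmul n).Has (n * x) := by
  obtain ⟨h1, h2⟩ := h
  have hn' : (0 : ℝ) ≤ n := by exact_mod_cast hn
  have h3 := mul_le_mul_of_nonneg_left h1 hn'
  have h4 := mul_le_mul_of_nonneg_left h2 hn'
  constructor
  · simp only [Iv.nmul]; push_cast; linarith
  · simp only [Iv.nmul]; push_cast; linarith

theorem Has.ndiv {n : ℤ} (hn : 0 < n) (h : I.Has x) : (I.ndiv n).Has (x / n) := by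
  obtain ⟨h1, h2⟩ := h
  have hn' : (0 : ℝ) < n := by exact_mod_cast hn
  have h3 := ivl_floor_le I.lo hn
  have h4 := ivl_le_cdiv I.hi hn
  have h5 := div_le_div_of_nonneg_right h1 hn'.le
  have h6 := div_le_div_of_nonneg_right h2 hn'.le
  have e : (SC : ℝ) * x / n = SC * (x / n) := by ring
  rw [e] at h5 h6
  exact ⟨h3.trans h5, h6.trans h4⟩

/-- corner bounds of a product -/
theorem ivl_mul_corner {a b c d X Y : ℝ} (h1 : a ≤ X) (h2 : X ≤ b) (h3 : c ≤ Y) (h4 : Y ≤ d) :
    min (min (a * c) (a * d)) (min (b * c) (b * d)) ≤ X * Y ∧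
      X * Y ≤ max (max (a * c) (a * d)) (max (b * c) (b * d)) := by
  have key1 : ∀ t : ℝ, c ≤ t → t ≤ d → ∀ s, min (s * c) (s * d) ≤ s * t ∧
      s * t ≤ max (s * c) (s * d) := by
    intro t ht1 ht2 s
    rcases le_total 0 s with hs | hs
    · exact ⟨(min_le_left _ _).trans (mul_le_mul_of_nonneg_left ht1 hs),
        (mul_le_mul_of_nonneg_left ht2 hs).trans (le_max_right _ _)⟩
    · exact ⟨(min_le_right _ _).trans (mul_le_mul_of_nonpos_left ht2 hs),
        (mul_le_mul_of_nonpos_left ht1 hs).trans (le_max_left _ _)⟩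
  obtain ⟨ha1, ha2⟩ := key1 Y h3 h4 a
  obtain ⟨hb1, hb2⟩ := key1 Y h3 h4 b
  rcases le_total 0 Y with hY | hY
  · have e1 : a * Y ≤ X * Y := mul_le_mul_of_nonneg_right h1 hY
    have e2 : X * Y ≤ b * Y := mul_le_mul_of_nonneg_right h2 hY
    exact ⟨(min_le_left _ _).trans (ha1.trans e1), e2.trans (hb2.trans (le_max_right _ _))⟩
  · have e1 : b * Y ≤ X * Y := mul_le_mul_of_nonpos_right h2 hY
    have e2 : X * Y ≤ a * Y := mul_le_mul_of_nonpos_right h1 hY
    exact ⟨(min_le_right _ _).trans (hb1.trans e1), e2.trans (ha2.trans (le_max_left _ _))⟩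

theorem Has.mul (h : I.Has x) (h' : J.Has y) : (I.mul J).Has (x * y) := by
  obtain ⟨h1, h2⟩ := h
  obtain ⟨h3, h4⟩ := h'
  obtain ⟨h5, h6⟩ := ivl_mul_corner h1 h2 h3 h4
  have hS := ivl_SC_pos
  have e : (SC : ℝ) * (x * y) = (SC * x) * (SC * y) / SC := by
    field_simp
  constructor
  · simp only [Iv.mul]
    refine (ivl_floor_le _ ivl_SC_pos').trans ?_
    rw [e]
    refine div_le_div_of_nonneg_right ?_ hS.le
    push_cast
    exact h5
  · simp only [Iv.mul]
    refine le_trans ?_ (ivl_le_cdiv _ ivl_SC_pos')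
    rw [e]
    refine div_le_div_of_nonneg_right ?_ hS.le
    push_cast
    exact h6

theorem Has.inv (h : I.Has x) (hp : 0 < I.lo) : I.inv.Has (x⁻¹) := by
  obtain ⟨h1, h2⟩ := h
  have hS := ivl_SC_pos
  have hlo : (0 : ℝ) < I.lo := by exact_mod_cast hp
  have hx : 0 < (SC : ℝ) * x := hlo.trans_le h1
  have hx0 : 0 < x := by
    by_contra hc
    have := mul_nonpos_of_nonneg_of_nonpos hS.le (not_lt.1 hc)
    linarith
  have hhi : (0 : ℝ) < I.hi := hx.trans_le h2
  have hhi' : 0 < I.hi := by exact_mod_cast hhi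
  have e : (SC : ℝ) * x⁻¹ = (SC * SC) / (SC * x) := by
    field_simp
  constructor
  · simp only [Iv.inv]
    refine (ivl_floor_le _ hhi').trans ?_
    rw [e]
    push_cast
    exact div_le_div_of_nonneg_left (by positivity) hx h2
  · simp only [Iv.inv]
    refine le_trans ?_ (ivl_le_cdiv _ hp)
    rw [e]
    push_cast
    exact div_le_div_of_nonneg_left (by positivity) hlo h1

theorem Has.abs (h : I.Has x) : I.abs.Has |x| := by
  obtain ⟨h1, h2⟩ := h
  have hS := ivl_SC_pos
  have e : (SC : ℝ) * |x| = |(SC : ℝ) * x| := by rw [abs_mul, abs_of_pos hS]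
  constructor
  · simp only [Iv.abs]
    rw [e]
    push_cast
    refine max_le (abs_nonneg _) (max_le (h1.trans (le_abs_self _)) ?_)
    exact (neg_le_neg h2).trans (neg_le_abs _)
  · simp only [Iv.abs]
    rw [e]
    push_cast
    refine abs_le'.2 ⟨h2.trans (le_max_left _ _), (neg_le_neg h1).trans (le_max_right _ _)⟩

theorem Has.sq (h : I.Has x) : I.sq.Has (x ^ 2) := by
  obtain ⟨h1, h2⟩ := Has.abs h
  have hS := ivl_SC_pos
  have h0 : (0 : ℝ) ≤ I.abs.lo := by
    simp only [Iv.abs]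
    push_cast
    exact le_max_left _ _
  have e : (SC : ℝ) * x ^ 2 = (SC * |x|) * (SC * |x|) / SC := by
    rw [eq_div_iff hS.ne']
    have := sq_abs x
    calc (SC : ℝ) * x ^ 2 * SC = SC * SC * x ^ 2 := by ring
      _ = SC * SC * |x| ^ 2 := by rw [this]
      _ = _ := by ring
  have hx : 0 ≤ (SC : ℝ) * |x| := by positivity
  constructor
  · simp only [Iv.sq]
    refine (ivl_floor_le _ ivl_SC_pos').trans ?_
    rw [e]
    refine div_le_div_of_nonneg_right ?_ hS.le
    push_cast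
    exact mul_le_mul h1 h1 h0 hx
  · simp only [Iv.sq]
    refine le_trans ?_ (ivl_le_cdiv _ ivl_SC_pos')
    rw [e]
    refine div_le_div_of_nonneg_right ?_ hS.le
    push_cast
    exact mul_le_mul h2 h2 hx (hx.trans h2)

theorem Has.imax (h : I.Has x) (h' : J.Has y) : (I.imax J).Has (max x y) := by
  obtain ⟨h1, h2⟩ := h
  obtain ⟨h3, h4⟩ := h'
  have hS := ivl_SC_pos
  have e : (SC : ℝ) * max x y = max (SC * x) (SC * y) := mul_max_of_nonneg _ _ hS.le
  constructor
  · simp only [Iv.imax]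
    rw [e]
    push_cast
    exact max_le_max h1 h3
  · simp only [Iv.imax]
    rw [e]
    push_cast
    exact max_le_max h2 h4

/-- no sign condition: `√x = 0` for negative `x` -/
theorem Has.sqrt (h : I.Has x) : I.sqrt.Has (√x) := by
  obtain ⟨h1, h2⟩ := h
  have hS := ivl_SC_pos
  have e : (SC : ℝ) * √x = √(SC * (SC * x)) := by
    rw [← mul_assoc, ← pow_two, Real.sqrt_mul (by positivity), Real.sqrt_sq hS.le]
  constructor
  · simp only [Iv.sqrt]
    split_ifs with hc
    · obtain ⟨h3, h4⟩ := hc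
      rw [e]
      refine Real.le_sqrt_of_sq_le ?_
      have h5 : ((isq (I.lo * SC).toNat - 3 : ℕ) : ℝ) * ((isq (I.lo * SC).toNat - 3 : ℕ) : ℝ) ≤
          (((I.lo * SC).toNat : ℕ) : ℝ) := by exact_mod_cast h4
      have h6 : (((I.lo * SC).toNat : ℕ) : ℝ) = (I.lo : ℝ) * SC := by
        have h7 : (((I.lo * SC).toNat : ℕ) : ℤ) = I.lo * SC :=
          Int.toNat_of_nonneg (mul_nonneg h3 ivl_SC_pos'.le)
        have h8 : ((((I.lo * SC).toNat : ℕ) : ℤ) : ℝ) = ((I.lo * SC : ℤ) : ℝ) := by rw [h7]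
        push_cast at h8
        exact h8
      rw [h6] at h5
      have h9 : (I.lo : ℝ) * SC ≤ SC * (SC * x) := by
        rw [mul_comm]
        exact mul_le_mul_of_nonneg_left h1 hS.le
      push_cast
      rw [pow_two]
      exact h5.trans h9
    · push_cast
      positivity
  · simp only [Iv.sqrt]
    have hn : ∀ k : ℤ, (k : ℝ) ≤ ((k.toNat : ℕ) : ℝ) := by
      intro k
      have := Int.self_le_toNat k
      exact_mod_cast this
    split_ifs with hc
    · rw [e]
      refine Real.sqrt_le_iff.2 ⟨by positivity, ?_⟩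
      have h3 : (((I.hi * SC).toNat : ℕ) : ℝ) ≤
          ((isq (I.hi * SC).toNat + 3 : ℕ) : ℝ) * ((isq (I.hi * SC).toNat + 3 : ℕ) : ℝ) := by
        exact_mod_cast hc
      have h4 := hn (I.hi * SC)
      have h5 : (SC : ℝ) * (SC * x) ≤ ((I.hi * SC : ℤ) : ℝ) := by
        push_cast
        rw [mul_comm (I.hi : ℝ)]
        exact mul_le_mul_of_nonneg_left h2 hS.le
      have h6 := (h5.trans h4).trans h3
      rw [pow_two]
      exact_mod_cast h6
    · have hpos : 0 < (I.hi * SC).toNat := by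
        rcases Nat.eq_zero_or_pos (I.hi * SC).toNat with h0 | h0
        · exact absurd (by rw [h0]; exact Nat.zero_le _) hc
        · exact h0
      have h3 : 0 < I.hi * SC := by
        by_contra hcon
        rw [Int.toNat_of_nonpos (not_lt.1 hcon)] at hpos
        exact lt_irrefl _ hpos
      have h4 : 0 < I.hi := by
        by_contra hcon
        have := mul_nonpos_of_nonpos_of_nonneg (not_lt.1 hcon) ivl_SC_pos'.le
        omega
      have h4' : (0 : ℝ) < I.hi := by exact_mod_cast h4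
      push_cast
      rcases le_total 0 x with hx | hx
      · have h5 : √x ≤ x + 1 := by
          rw [Real.sqrt_le_iff]
          constructor
          · linarith
          · nlinarith
        have h6 := mul_le_mul_of_nonneg_left h5 hS.le
        linarith
      · rw [Real.sqrt_eq_zero_of_nonpos hx]
        linarith

theorem Has.mono {I' : Iv} (h : I.Has x) (h1 : I'.lo ≤ I.lo) (h2 : I.hi ≤ I'.hi) : I'.Has x := by
  obtain ⟨h3, h4⟩ := h
  exact ⟨le_trans (by exact_mod_cast h1) h3, h4.trans (by exact_mod_cast h2)⟩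

theorem Has.nonneg (h : I.Has x) (h0 : 0 ≤ I.lo) : 0 ≤ x := by
  obtain ⟨h1, -⟩ := h
  have h2 : (0 : ℝ) ≤ I.lo := by exact_mod_cast h0
  by_contra hc
  have := mul_neg_of_pos_of_neg ivl_SC_pos (not_le.1 hc)
  linarith

end

end Pool.Agent.FD
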