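import Pool.Agent.FD.IvDefs

/-!
# FD: fixed point complex exponentials
-/

open Finset

namespace Pool.Agent.FD

namespace TrigAux

/-- the complex number of a pair of integers -/
noncomputable def cc (z : ℤ × ℤ) : ℂ := (z.1 : ℂ) + (z.2 : ℂ) * Complex.I

theorem near_iff {z : ℤ × ℤ} {θ E : ℝ} :
    Near z θ E ↔ ‖cc z - (SC : ℂ) * Complex.exp ((θ : ℂ) * Complex.I)‖ ≤ E := Iff.rfl

theorem SC_real : (SC : ℝ) = 10 ^ 15 := by norm_num [SC]
theorem SC_pos : (0 : ℝ) < SC := by rw [SC_real]; norm_num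
theorem SC_complex : (SC : ℂ) = ((SC : ℝ) : ℂ) := by norm_cast
theorem SC_ne : (SC : ℂ) ≠ 0 := by
  rw [SC_complex]; exact_mod_cast SC_pos.ne'

theorem norm_SC : ‖(SC : ℂ)‖ = SC := by
  rw [SC_complex, Complex.norm_real, Real.norm_of_nonneg SC_pos.le]

theorem floor_err (a : ℤ) {q : ℤ} (hq : 0 < q) : |((a / q : ℤ) : ℝ) - a / q| ≤ 1 := by
  have hq' : (0 : ℝ) < q := by exact_mod_cast hq
  have h1 := Int.emod_add_mul_ediv a q
  have h2 := Int.emod_nonneg a hq.ne'
  have h3 := Int.emod_lt_of_pos a hq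
  have h1' : ((a % q : ℤ) : ℝ) + q * ((a / q : ℤ) : ℝ) = a := by exact_mod_cast h1
  have h2' : (0 : ℝ) ≤ ((a % q : ℤ) : ℝ) := by exact_mod_cast h2
  have h3' : ((a % q : ℤ) : ℝ) < q := by exact_mod_cast h3
  have h4 : ((a / q : ℤ) : ℝ) - a / q = -(((a % q : ℤ) : ℝ) / q) := by
    rw [← h1']
    field_simp
    ring
  rw [h4, abs_neg, abs_of_nonneg (div_nonneg h2' hq'.le), div_le_one hq']
  exact h3'.le

theorem norm_le_two {a b : ℝ} (ha : |a| ≤ 1) (hb : |b| ≤ 1) : ‖(a : ℂ) + (b : ℂ) * Complex.I‖ ≤ 2 := by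
  calc ‖(a : ℂ) + (b : ℂ) * Complex.I‖ ≤ ‖(a : ℂ)‖ + ‖(b : ℂ) * Complex.I‖ := norm_add_le _ _
    _ = |a| + |b| := by simp
    _ ≤ 2 := by linarith

theorem norm_ex (θ : ℝ) : ‖Complex.exp ((θ : ℂ) * Complex.I)‖ = 1 := Complex.norm_exp_ofReal_mul_I θ

theorem cmul_err (z w : ℤ × ℤ) : ‖cc (cmul z w) - cc z * cc w / (SC : ℂ)‖ ≤ 2 := by
  have hSC : (0 : ℤ) < SC := by norm_num [SC]
  have h1 := floor_err (z.1 * w.1 - z.2 * w.2) hSC
  have h2 := floor_err (z.1 * w.2 + z.2 * w.1) hSC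
  have h3 : cc (cmul z w) - cc z * cc w / (SC : ℂ) =
      (((((z.1 * w.1 - z.2 * w.2) / SC : ℤ) : ℝ) - ((z.1 * w.1 - z.2 * w.2 : ℤ) : ℝ) / SC : ℝ) : ℂ) +
      (((((z.1 * w.2 + z.2 * w.1) / SC : ℤ) : ℝ) - ((z.1 * w.2 + z.2 * w.1 : ℤ) : ℝ) / SC : ℝ) : ℂ) *
        Complex.I := by
    have hI := Complex.I_mul_I
    have h := SC_ne
    unfold cc cmul
    push_cast
    field_simp
    linear_combination (-(z.2 : ℂ) * w.2) * hI
  rw [h3]
  exact norm_le_two h1 h2

theorem near_mul' {z w : ℤ × ℤ} {θ φ E F : ℝ} (hz : Near z θ E) (hw : Near w φ F) (hE : 0 ≤ E) :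
    Near (cmul z w) (θ + φ) (E + F * (1 + E / SC) + 2) := by
  rw [near_iff] at *
  have h0 := SC_ne
  set u := Complex.exp ((θ : ℂ) * Complex.I) with hu
  set v := Complex.exp ((φ : ℂ) * Complex.I) with hv
  have huv : Complex.exp (((θ + φ : ℝ) : ℂ) * Complex.I) = u * v := by
    rw [hu, hv, ← Complex.exp_add]
    push_cast
    ring_nf
  have hW : ‖cc w‖ ≤ SC + F := by
    calc ‖cc w‖ = ‖(SC : ℂ) * v + (cc w - (SC : ℂ) * v)‖ := by ring_nf
      _ ≤ ‖(SC : ℂ) * v‖ + ‖cc w - (SC : ℂ) * v‖ := norm_add_le _ _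
      _ ≤ SC + F := by
        rw [norm_mul, norm_SC, norm_ex, mul_one]
        linarith
  have h1 : cc (cmul z w) - (SC : ℂ) * Complex.exp (((θ + φ : ℝ) : ℂ) * Complex.I) =
      (cc (cmul z w) - cc z * cc w / (SC : ℂ)) + ((cc z - (SC : ℂ) * u) * (cc w / (SC : ℂ)) +
        u * (cc w - (SC : ℂ) * v)) := by
    rw [huv]
    field_simp
    ring
  rw [h1]
  have h2 : ‖(cc z - (SC : ℂ) * u) * (cc w / (SC : ℂ))‖ ≤ E * ((SC + F) / SC) := by
    rw [norm_mul, norm_div, norm_SC]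
    have h3 : ‖cc w‖ / SC ≤ (SC + F) / SC := div_le_div_of_nonneg_right hW SC_pos.le
    exact mul_le_mul hz h3 (div_nonneg (norm_nonneg _) SC_pos.le) hE
  have h4 : ‖u * (cc w - (SC : ℂ) * v)‖ ≤ F := by
    rw [norm_mul, norm_ex, one_mul]; exact hw
  have h5 := cmul_err z w
  have h6 : E * ((SC + F) / SC) = E + E * F / SC := by
    have := SC_pos.ne'
    field_simp
  calc _ ≤ ‖cc (cmul z w) - cc z * cc w / (SC : ℂ)‖ + ‖(cc z - (SC : ℂ) * u) * (cc w / (SC : ℂ)) +
        u * (cc w - (SC : ℂ) * v)‖ := norm_add_le _ _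
    _ ≤ 2 + (E * ((SC + F) / SC) + F) := by
      refine add_le_add h5 ((norm_add_le _ _).trans (add_le_add h2 h4))
    _ = E + F * (1 + E / SC) + 2 := by rw [h6]; ring

theorem powTab_aux {z : ℤ × ℤ} {θ E : ℝ} (hz : Near z θ E) (hE : 0 ≤ E) :
    ∀ (n i : ℕ) (w : ℤ × ℤ) (φ F : ℝ), i < n → Near w φ F → 0 ≤ F →
      Near ((powTab z n w).getD i (0, 0)) (φ + i * θ)
        ((1 + E / SC) ^ i * F + (E + 2) * i * (1 + E / SC) ^ i) := by
  have hd : 0 ≤ E / SC := div_nonneg hE SC_pos.le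
  intro n
  induction n with
  | zero => intro i w φ F h; omega
  | succ n ih =>
    intro i w φ F hi hw hF
    cases i with
    | zero => simpa [powTab] using hw
    | succ i =>
      have h1 := near_mul' hw hz hF
      have h2 : F + E * (1 + F / SC) + 2 = F * (1 + E / SC) + (E + 2) := by
        have := SC_pos.ne'
        field_simp
        ring
      rw [h2] at h1
      have h3 := ih i (cmul w z) (φ + θ) _ (by omega) h1 (by positivity)
      have h4 : (powTab z (n + 1) w).getD (i + 1) (0, 0) = (powTab z n (cmul w z)).getD i (0, 0) := by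
        simp [powTab]
      rw [h4]
      have h5 : φ + ((i + 1 : ℕ) : ℝ) * θ = φ + θ + i * θ := by push_cast; ring
      rw [h5]
      rw [near_iff] at h3 ⊢
      refine h3.trans ?_
      have h6 : (1 + E / SC) ^ i ≤ (1 + E / SC) ^ (i + 1) :=
        pow_le_pow_right₀ (by linarith) (by omega)
      have h7 : (E + 2) * (i + 1) * (1 + E / SC) ^ i ≤ (E + 2) * (i + 1) * (1 + E / SC) ^ (i + 1) :=
        mul_le_mul_of_nonneg_left h6 (by positivity)
      calc (1 + E / SC) ^ i * (F * (1 + E / SC) + (E + 2)) + (E + 2) * i * (1 + E / SC) ^ i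
          = (1 + E / SC) ^ (i + 1) * F + (E + 2) * (i + 1) * (1 + E / SC) ^ i := by ring
        _ ≤ _ := by push_cast; linarith

theorem tay_aux {X : ℤ} (hX0 : 0 ≤ X) (hX : (X : ℝ) / SC ≤ 0.64) :
    ∀ (f m : ℕ) (T : ℤ) (a : ℤ × ℤ), |(T : ℝ) - SC * ((X : ℝ) / SC) ^ m / m.factorial| ≤ 3 →
      ‖cc (tay X f m T a) - (cc a + (SC : ℂ) * ∑ j ∈ range f,
        ((((X : ℝ) / SC : ℝ) : ℂ) * Complex.I) ^ (m + j) / ((m + j).factorial : ℂ))‖ ≤ 3 * f := by
  have hx0 : 0 ≤ (X : ℝ) / SC := div_nonneg (by exact_mod_cast hX0) SC_pos.le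
  have hSC : (0 : ℤ) < SC := by norm_num [SC]
  intro f
  induction f with
  | zero => intro m T a _; simp [tay]
  | succ f ih =>
    intro m T a hT
    set x : ℝ := (X : ℝ) / SC with hx
    have hm1 : (0 : ℝ) < (m : ℝ) + 1 := by positivity
    have hT' : |((T * X / (SC * (m + 1)) : ℤ) : ℝ) - SC * x ^ (m + 1) / (m + 1).factorial| ≤ 3 := by
      have h1 := floor_err (T * X) (q := SC * (m + 1)) (by positivity)
      have h2 : ((T * X : ℤ) : ℝ) / ((SC * (m + 1) : ℤ) : ℝ) = T * (x / (m + 1)) := by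
        push_cast
        rw [hx]
        have := SC_pos.ne'
        field_simp
      have h3 : SC * x ^ (m + 1) / (m + 1).factorial = (SC * x ^ m / m.factorial) * (x / (m + 1)) := by
        rw [Nat.factorial_succ]
        push_cast
        have : (m.factorial : ℝ) ≠ 0 := by positivity
        field_simp
        ring
      rw [h2] at h1
      rw [h3]
      have h4 : |(T : ℝ) * (x / (m + 1)) - (SC * x ^ m / m.factorial) * (x / (m + 1))| ≤ 3 * 0.64 := by
        rw [← sub_mul, abs_mul]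
        have h5 : |x / (m + 1)| ≤ 0.64 := by
          rw [abs_of_nonneg (div_nonneg hx0 hm1.le)]
          exact (div_le_self hx0 (by linarith [hm1, (Nat.cast_nonneg m : (0 : ℝ) ≤ m)])).trans hX
        exact mul_le_mul hT h5 (abs_nonneg _) (by norm_num)
      calc _ ≤ |((T * X / (SC * (m + 1)) : ℤ) : ℝ) - (T : ℝ) * (x / (m + 1))| +
            |(T : ℝ) * (x / (m + 1)) - (SC * x ^ m / m.factorial) * (x / (m + 1))| :=
            abs_sub_le _ _ _
        _ ≤ 1 + 3 * 0.64 := add_le_add h1 h4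
        _ ≤ 3 := by norm_num
    set a' : ℤ × ℤ :=
      if m % 4 = 0 then (a.1 + T, a.2) else if m % 4 = 1 then (a.1, a.2 + T)
      else if m % 4 = 2 then (a.1 - T, a.2) else (a.1, a.2 - T) with ha'
    have hstep : tay X (f + 1) m T a = tay X f (m + 1) (T * X / (SC * (m + 1))) a' := rfl
    have hca : cc a' = cc a + (T : ℂ) * Complex.I ^ m := by
      rw [Complex.I_pow_eq_pow_mod m, ha']
      have h4 : m % 4 < 4 := Nat.mod_lt _ (by norm_num)
      unfold cc
      interval_cases hm : m % 4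
      · simp; ring
      · simp; ring
      · simp [Complex.I_sq]; ring
      · simp [Complex.I_pow_three]; ring
    have h1 := ih (m + 1) _ a' hT'
    rw [hstep]
    rw [sum_range_succ']
    have h2 : ∀ j, m + 1 + j = m + (j + 1) := fun j => by ring
    simp only [h2] at h1
    have h3 : ‖(T : ℂ) * Complex.I ^ m - (SC : ℂ) * (((x : ℂ) * Complex.I) ^ (m + 0) /
        ((m + 0).factorial : ℂ))‖ ≤ 3 := by
      have h5 : (T : ℂ) * Complex.I ^ m - (SC : ℂ) * (((x : ℂ) * Complex.I) ^ (m + 0) /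
        ((m + 0).factorial : ℂ)) = (((T : ℝ) - SC * x ^ m / m.factorial : ℝ) : ℂ) * Complex.I ^ m := by
        push_cast
        rw [add_zero, mul_pow]
        ring
      rw [h5, norm_mul, norm_pow, Complex.norm_I, one_pow, mul_one, Complex.norm_real]
      exact hT
    have h6 : cc (tay X f (m + 1) (T * X / (SC * (m + 1))) a') - (cc a + (SC : ℂ) *
        (∑ j ∈ range f, ((x : ℂ) * Complex.I) ^ (m + (j + 1)) / ((m + (j + 1)).factorial : ℂ) +
          ((x : ℂ) * Complex.I) ^ (m + 0) / ((m + 0).factorial : ℂ))) =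
        (cc (tay X f (m + 1) (T * X / (SC * (m + 1))) a') - (cc a' + (SC : ℂ) *
        ∑ j ∈ range f, ((x : ℂ) * Complex.I) ^ (m + (j + 1)) / ((m + (j + 1)).factorial : ℂ))) +
        ((T : ℂ) * Complex.I ^ m - (SC : ℂ) * (((x : ℂ) * Complex.I) ^ (m + 0) /
        ((m + 0).factorial : ℂ))) := by
      rw [hca]; ring
    rw [h6]
    calc _ ≤ _ := norm_add_le _ _
      _ ≤ 3 * f + 3 := add_le_add h1 h3
      _ = _ := by push_cast; ring

end TrigAux

open TrigAux

theorem near_one : Near (SC, 0) 0 0 := by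
  rw [near_iff]
  unfold cc
  simp

theorem near_mul {z w : ℤ × ℤ} {θ φ E F : ℝ} (hz : Near z θ E) (hw : Near w φ F) (hE : 0 ≤ E)
    (hF : 0 ≤ F) (hE' : E ≤ SC / 2) : Near (cmul z w) (θ + φ) (E + F * (1 + E / SC) + 2) :=
  near_mul' hz hw hE

theorem near_unit {N : ℕ} (hN : 5 ≤ N) (hN' : N ≤ 1000) : Near (unit N) (Real.pi / N) 100 := by
  have hN0 : (0 : ℝ) < N := by exact_mod_cast (by omega : 0 < N)
  have hN5 : (5 : ℝ) ≤ N := by exact_mod_cast hN
  have hp1 := Real.pi_gt_d20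
  have hp2 := Real.pi_lt_d20
  set X : ℤ := 3141592653589793 / N with hX
  have hX0 : 0 ≤ X := Int.ediv_nonneg (by norm_num) (by omega)
  have h1 : (X : ℝ) ≤ 3141592653589793 / N := by
    have h2 : X * N ≤ 3141592653589793 := Int.ediv_mul_le _ (by omega)
    rw [le_div_iff₀ hN0]
    exact_mod_cast h2
  have h1' : (3141592653589793 : ℝ) / N ≤ X + 1 := by
    have h2 : (3141592653589793 : ℤ) < (X + 1) * N := Int.lt_ediv_add_one_mul_self _ (by omega)
    rw [div_le_iff₀ hN0]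
    have h3 : (3141592653589793 : ℝ) < (X + 1) * N := by exact_mod_cast h2
    exact h3.le
  have hx : (X : ℝ) / SC ≤ 0.64 := by
    rw [div_le_iff₀ SC_pos]
    refine h1.trans ?_
    rw [div_le_iff₀ hN0, SC_real]
    nlinarith
  have hx0 : 0 ≤ (X : ℝ) / SC := div_nonneg (by exact_mod_cast hX0) SC_pos.le
  have h3 := tay_aux hX0 hx 18 0 SC (0, 0) (by simp)
  simp only [zero_add] at h3
  set x : ℝ := (X : ℝ) / SC with hxd
  have hcc0 : cc (0, 0) = 0 := by simp [cc]
  rw [hcc0, zero_add] at h3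
  have hnx : ‖(x : ℂ) * Complex.I‖ = x := by
    rw [norm_mul, Complex.norm_I, mul_one, Complex.norm_real, Real.norm_of_nonneg hx0]
  have h4 := Complex.exp_bound (x := (x : ℂ) * Complex.I) (by rw [hnx]; linarith) (n := 18)
    (by norm_num)
  rw [hnx] at h4
  have h5 : x ^ 18 * ((Nat.succ 18 : ℝ) * ((Nat.factorial 18 : ℕ) * (18 : ℕ) : ℝ)⁻¹) ≤ 1 / SC := by
    have h6 : x ^ 18 ≤ 1 := pow_le_one₀ hx0 (by linarith)
    have h7 : ((Nat.succ 18 : ℝ) * ((Nat.factorial 18 : ℕ) * (18 : ℕ) : ℝ)⁻¹) ≤ 1 / SC := by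
      rw [SC_real]
      norm_num [Nat.factorial]
    calc _ ≤ 1 * ((Nat.succ 18 : ℝ) * ((Nat.factorial 18 : ℕ) * (18 : ℕ) : ℝ)⁻¹) :=
          mul_le_mul_of_nonneg_right h6 (by positivity)
      _ ≤ 1 / SC := by rw [one_mul]; exact h7
  have h8 : ‖(SC : ℂ) * ∑ j ∈ range 18, ((x : ℂ) * Complex.I) ^ j / (j.factorial : ℂ) -
      (SC : ℂ) * Complex.exp ((x : ℂ) * Complex.I)‖ ≤ 1 := by
    rw [← mul_sub, norm_mul, norm_SC, norm_sub_rev]
    calc (SC : ℝ) * _ ≤ SC * (1 / SC) := mul_le_mul_of_nonneg_left (h4.trans h5) SC_pos.le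
      _ = 1 := by
        have := SC_pos.ne'
        field_simp
  have h9 : ‖(SC : ℂ) * Complex.exp ((x : ℂ) * Complex.I) -
      (SC : ℂ) * Complex.exp (((Real.pi / N : ℝ) : ℂ) * Complex.I)‖ ≤ 2 := by
    rw [← mul_sub, norm_mul, norm_SC]
    have h10 : ‖Complex.exp ((x : ℂ) * Complex.I) -
        Complex.exp (((Real.pi / N : ℝ) : ℂ) * Complex.I)‖ ≤ |x - Real.pi / N| := by
      have h11 : Complex.exp ((x : ℂ) * Complex.I) =
          Complex.exp (((Real.pi / N : ℝ) : ℂ) * Complex.I) *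
            Complex.exp (((x - Real.pi / N : ℝ) : ℂ) * Complex.I) := by
        rw [← Complex.exp_add]
        congr 1
        push_cast
        ring
      rw [h11, ← mul_sub_one, norm_mul, norm_ex, one_mul, mul_comm ((x - Real.pi / N : ℝ) : ℂ)]
      exact Real.norm_exp_I_mul_ofReal_sub_one_le
    have h12 : (SC : ℝ) * |x - Real.pi / N| ≤ 2 := by
      have h13 : (SC : ℝ) * |x - Real.pi / N| = |X - SC * (Real.pi / N)| := by
        rw [← abs_of_pos SC_pos, ← abs_mul, abs_of_pos SC_pos]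
        congr 1
        rw [hxd]
        have := SC_pos.ne'
        field_simp
      rw [h13, abs_le]
      have h14 : (SC : ℝ) * (Real.pi / N) = (10 ^ 15 * Real.pi) / N := by
        rw [SC_real]; ring
      rw [h14]
      have h15 : (10 : ℝ) ^ 15 * Real.pi / N ≤ 3141592653589793 / N + 1 := by
        have : (10 : ℝ) ^ 15 * Real.pi ≤ 3141592653589793 + N := by linarith
        calc (10 : ℝ) ^ 15 * Real.pi / N ≤ (3141592653589793 + N) / N :=
              div_le_div_of_nonneg_right this hN0.le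
          _ = _ := by field_simp
      have h16 : (3141592653589793 : ℝ) / N ≤ 10 ^ 15 * Real.pi / N :=
        div_le_div_of_nonneg_right (by linarith) hN0.le
      constructor <;> linarith
    exact (mul_le_mul_of_nonneg_left h10 SC_pos.le).trans h12
  rw [near_iff]
  have h20 : cc (unit N) - (SC : ℂ) * Complex.exp (((Real.pi / N : ℝ) : ℂ) * Complex.I) =
      (cc (tay X 18 0 SC (0, 0)) - (SC : ℂ) *
        ∑ j ∈ range 18, ((x : ℂ) * Complex.I) ^ j / (j.factorial : ℂ)) +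
      (((SC : ℂ) * ∑ j ∈ range 18, ((x : ℂ) * Complex.I) ^ j / (j.factorial : ℂ) -
        (SC : ℂ) * Complex.exp ((x : ℂ) * Complex.I)) +
      ((SC : ℂ) * Complex.exp ((x : ℂ) * Complex.I) -
        (SC : ℂ) * Complex.exp (((Real.pi / N : ℝ) : ℂ) * Complex.I))) := by
    have : unit N = tay X 18 0 SC (0, 0) := rfl
    rw [this]
    ring
  rw [h20]
  calc _ ≤ _ := norm_add_le _ _
    _ ≤ 3 * (18 : ℕ) + (1 + 2) := add_le_add h3 ((norm_add_le _ _).trans (add_le_add h8 h9))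
    _ ≤ 100 := by norm_num

theorem near_powTab {z w : ℤ × ℤ} {θ φ E F : ℝ} (hz : Near z θ E) (hw : Near w φ F) (hE : 0 ≤ E)
    (hF : 0 ≤ F) (hE' : E ≤ 10 ^ 8) (n i : ℕ) (hn : n ≤ 1000) (hi : i < n) :
    Near ((powTab z n w).getD i (0, 0)) (φ + i * θ) (2 * F + 2 * i * (E + 2)) := by
  have h1 := powTab_aux hz hE n i w φ F hi hw hF
  rw [near_iff] at h1 ⊢
  refine h1.trans ?_
  have hd : 0 ≤ E / SC := div_nonneg hE SC_pos.le
  have hd' : E / SC ≤ 1 / 10 ^ 7 := by
    rw [SC_real, div_le_div_iff₀ (by norm_num) (by norm_num)]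
    linarith
  have h2 : (1 + E / SC) ^ i ≤ 2 := by
    have h3 : (1 + E / SC) ^ i ≤ Real.exp (i * (E / SC)) := by
      rw [Real.exp_nat_mul]
      exact pow_le_pow_left₀ (by positivity) (by linarith [Real.add_one_le_exp (E / SC)]) i
    have h4 : (i : ℝ) * (E / SC) ≤ 1 / 2 := by
      have : (i : ℝ) ≤ 1000 := by exact_mod_cast (by omega : i ≤ 1000)
      calc (i : ℝ) * (E / SC) ≤ 1000 * (1 / 10 ^ 7) := mul_le_mul this hd' hd (by norm_num)
        _ ≤ 1 / 2 := by norm_num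
    have h5 : Real.exp (1 / 2) ≤ 2 := by
      have h6 : Real.exp (1 / 2) ^ 2 = Real.exp 1 := by
        rw [← Real.exp_nat_mul]; norm_num
      have h7 := Real.exp_one_lt_d9
      have h8 := Real.exp_pos (1 / 2 : ℝ)
      nlinarith
    exact h3.trans ((Real.exp_le_exp.2 h4).trans h5)
  have h3 : (1 + E / SC) ^ i * F ≤ 2 * F := mul_le_mul_of_nonneg_right h2 hF
  have h4 : (E + 2) * i * (1 + E / SC) ^ i ≤ (E + 2) * i * 2 :=
    mul_le_mul_of_nonneg_left h2 (by positivity)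
  linarith

theorem has_cos {z : ℤ × ℤ} {θ : ℝ} {E : ℤ} (h : Near z θ E) : (reI z E).Has (Real.cos θ) := by
  rw [near_iff] at h
  have h1 := (Complex.abs_re_le_norm _).trans h
  have h2 : (cc z - (SC : ℂ) * Complex.exp ((θ : ℂ) * Complex.I)).re = z.1 - SC * Real.cos θ := by
    rw [SC_complex, Complex.sub_re, Complex.re_ofReal_mul, Complex.exp_ofReal_mul_I_re]
    simp [cc]
  rw [h2, abs_le] at h1
  unfold reI Iv.Has
  push_cast
  constructor <;> linarith [h1.1, h1.2]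

theorem has_sin {z : ℤ × ℤ} {θ : ℝ} {E : ℤ} (h : Near z θ E) : (imI z E).Has (Real.sin θ) := by
  rw [near_iff] at h
  have h1 := (Complex.abs_im_le_norm _).trans h
  have h2 : (cc z - (SC : ℂ) * Complex.exp ((θ : ℂ) * Complex.I)).im = z.2 - SC * Real.sin θ := by
    rw [SC_complex, Complex.sub_im, Complex.im_ofReal_mul, Complex.exp_ofReal_mul_I_im]
    simp [cc]
  rw [h2, abs_le] at h1
  unfold imI Iv.Has
  push_cast
  constructor <;> linarith [h1.1, h1.2]

end Pool.Agent.FD
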