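import Pool.Agent.FD.Spec
import Pool.Agent.FD.Ivl
import Pool.Agent.FD.Trig

/-!
# The difference of the values `Vt` for opposite phases, `N = 8` and `N = 9`
-/

open Finset

namespace Pool.Agent.FD

/-- interval for `cos (i π / N)` -/
def cosI (N i : ℕ) : Iv := reI ((powTab (unit N) 30 (SC, 0)).getD i (0, 0)) (204 * i)

theorem has_cosI {N i : ℕ} (hN : 5 ≤ N) (hN' : N ≤ 1000) (hi : i < 30) :
    (cosI N i).Has (Real.cos (Real.pi * i / N)) := by
  have h := near_powTab (near_unit hN hN') near_one (by norm_num) (le_refl _) (by norm_num) 30 i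
    (by norm_num) hi
  have h' : Near ((powTab (unit N) 30 (SC, 0)).getD i (0, 0)) (Real.pi * i / N)
      ((204 * i : ℤ) : ℝ) := by
    have e1 : (0 : ℝ) + i * (Real.pi / N) = Real.pi * i / N := by ring
    have e2 : 2 * (0 : ℝ) + 2 * i * (100 + 2) = ((204 * i : ℤ) : ℝ) := by push_cast; ring
    rw [e1, e2] at h
    exact h
  exact has_cos h'

/-- interval for `β_k` -/
def beI (N k : ℕ) : Iv := (Iv.rat 1 1).add ((cosI N (2 * k + 1)).nmul 2)

theorem has_beI {N k : ℕ} (hN : 5 ≤ N) (hN' : N ≤ 1000) (hk : 2 * k + 1 < 30) :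
    (beI N k).Has (be N k) := by
  have h := has_cosI hN hN' hk
  have e : Real.pi * ((2 * k + 1 : ℕ) : ℝ) / N = th N k := by
    unfold th; push_cast; ring
  rw [e] at h
  have h2 := Has.add (has_rat 1 (q := 1) (by norm_num)) (Has.nmul (n := 2) (by norm_num) h)
  have e2 : ((1 : ℤ) : ℝ) / ((1 : ℤ) : ℝ) + ((2 : ℤ) : ℝ) * Real.cos (th N k) = be N k := by
    unfold be; push_cast; ring
  rw [e2] at h2
  exact h2

/-- the coefficient `κ_k cot(θ_k/2) √((2 - β) / (2 + β))` -/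
noncomputable def coA (N k : ℕ) : ℝ :=
  kap N k * ct N k * √((2 - be N k) / (2 + be N k))

theorem coA_eq {N k : ℕ} (hk : k ∈ range (N / 2)) :
    coA N k = 2 / N * ((1 + be N k) * ((3 - be N k) * (2 + be N k))⁻¹) *
      √((2 - be N k) * (2 + be N k)⁻¹) := by
  unfold coA kap
  have h1 := be_gt hk
  have h2 := be_lt hk
  have h := ct_sq hk
  have e : 2 / (N : ℝ) * ct N k / (2 + be N k) * ct N k = 2 / N * (ct N k ^ 2 / (2 + be N k)) := by
    ring
  rw [e, h, div_eq_mul_inv (2 - be N k)]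
  congr 2
  have h3 : (3 - be N k) ≠ 0 := by linarith
  have h4 : (2 + be N k) ≠ 0 := by linarith
  field_simp

/-- lower end of `coA` as an interval computation -/
def coAI (N k : ℕ) : Iv :=
  let B := beI N k
  let X := ((Iv.rat 1 1).add B).mul ((((Iv.rat 3 1).sub B).mul ((Iv.rat 2 1).add B)).inv)
  let Y := (((Iv.rat 2 1).sub B).mul (((Iv.rat 2 1).add B).inv)).sqrt
  ((X.nmul 2).ndiv N).mul Y

theorem has_coAI {N k : ℕ} (hk : k ∈ range (N / 2)) (hN : 5 ≤ N) (hN' : N ≤ 1000)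
    (hk' : 2 * k + 1 < 30) (h1 : 0 < (((Iv.rat 3 1).sub (beI N k)).mul
      ((Iv.rat 2 1).add (beI N k))).lo) (h2 : 0 < ((Iv.rat 2 1).add (beI N k)).lo) :
    (coAI N k).Has (coA N k) := by
  rw [coA_eq hk]
  have hB := has_beI hN hN' hk'
  have c1 : (Iv.rat 1 1).Has 1 := by simpa using has_rat 1 (q := 1) (by norm_num)
  have c2 : (Iv.rat 2 1).Has 2 := by simpa using has_rat 2 (q := 1) (by norm_num)
  have c3 : (Iv.rat 3 1).Has 3 := by simpa using has_rat 3 (q := 1) (by norm_num)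
  have hX := Has.mul (Has.add c1 hB) (Has.inv (Has.mul (Has.sub c3 hB) (Has.add c2 hB)) h1)
  have hY := Has.sqrt (Has.mul (Has.sub c2 hB) (Has.inv (Has.add c2 hB) h2))
  have hN0 : (0 : ℤ) < (N : ℤ) := by exact_mod_cast (by omega : 0 < N)
  have h := Has.mul (Has.ndiv hN0 (Has.nmul (n := 2) (by norm_num) hX)) hY
  have e : ((2 : ℤ) : ℝ) * ((1 + be N k) * ((3 - be N k) * (2 + be N k))⁻¹) / ((N : ℤ) : ℝ) =
      2 / N * ((1 + be N k) * ((3 - be N k) * (2 + be N k))⁻¹) := by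
    push_cast; ring
  rw [e] at h
  exact h

theorem coA_ge {N k : ℕ} (c : ℤ) (hk : k ∈ range (N / 2)) (hN : 5 ≤ N) (hN' : N ≤ 1000)
    (hk' : 2 * k + 1 < 30) (h1 : 0 < (((Iv.rat 3 1).sub (beI N k)).mul
      ((Iv.rat 2 1).add (beI N k))).lo) (h2 : 0 < ((Iv.rat 2 1).add (beI N k)).lo)
    (h3 : c * (SC / 10000) ≤ (coAI N k).lo) : (c : ℝ) / 10000 ≤ coA N k := by
  have h := (has_coAI hk hN hN' hk' h1 h2).1
  have hS : (SC : ℝ) = 10000 * ((SC / 10000 : ℤ) : ℝ) := by norm_num [SC]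
  have hS' : (0 : ℝ) < ((SC / 10000 : ℤ) : ℝ) := by norm_num [SC]
  have h3' : (c : ℝ) * ((SC / 10000 : ℤ) : ℝ) ≤ ((coAI N k).lo : ℝ) := by exact_mod_cast h3
  rw [hS] at h
  have h4 : (c : ℝ) * ((SC / 10000 : ℤ) : ℝ) ≤ 10000 * coA N k * ((SC / 10000 : ℤ) : ℝ) := by
    nlinarith
  have h5 := le_of_mul_le_mul_right h4 hS'
  rw [div_le_iff₀ (by norm_num)]
  linarith

theorem be_le_two {N k : ℕ} (hN : 5 ≤ N) (hN' : N ≤ 1000) (hk' : 2 * k + 1 < 30)
    (h : (beI N k).hi ≤ 2 * SC) : ¬ 2 < be N k := by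
  have h1 := (has_beI hN hN' hk').2
  have hS : (0 : ℝ) < (SC : ℝ) := by norm_num [SC]
  have h2 : ((beI N k).hi : ℝ) ≤ 2 * SC := by exact_mod_cast h
  intro h3
  nlinarith

/-- `Vt` at opposite phases -/
theorem Vt_neg_sub (N : ℕ) (t t' : ℕ → ℝ) (h : ∀ k, t' k = -t k) :
    Vt N t' - Vt N t = ∑ k ∈ range (N / 2), if 2 < be N k then 0 else 2 * t k * coA N k := by
  unfold Vt
  rw [← Finset.sum_sub_distrib]
  refine Finset.sum_congr rfl fun k _ => ?_
  split_ifs with h1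
  · ring
  · rw [h k]; unfold coA; ring

end Pool.Agent.FD
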