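import Pool.Agent.FD.EndDefs
import Pool.Agent.FD.CertV

/-!
# End corrections for `N = 8`: everything except positivity
-/

open Finset

namespace Pool.Agent.FD

/-- array of an integer table, rows `1 .. N - 1` (symmetric), columns `1 .. J` -/
def arrZ (N J : ℕ) (T : List (List ℤ)) (r j : ℕ) : ℤ :=
  if 1 ≤ r ∧ r ≤ N - 1 ∧ 1 ≤ j ∧ j ≤ J then ((T.getD (j - 1) []).getD (min r (N - r) - 1) 0) else 0

/-- the real array -/
noncomputable def arrR (N J : ℕ) (T : List (List ℤ)) (d : ℤ) (r j : ℕ) : ℝ := (arrZ N J T r j : ℝ) / d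

/-- closed neighbourhood sum of an integer array -/
def nbZ (x : ℕ → ℕ → ℤ) (r j : ℕ) : ℤ := x r j + x (r - 1) j + x (r + 1) j + x r (j - 1) + x r (j + 1)

theorem arrR_supp {N J : ℕ} {T : List (List ℤ)} {d : ℤ} (r j : ℕ) (h : arrR N J T d r j ≠ 0) :
    r ∈ Icc 1 (N - 1) ∧ j ∈ Icc 1 J := by
  unfold arrR arrZ at h
  split_ifs at h with h1
  · exact ⟨Finset.mem_Icc.mpr ⟨h1.1, h1.2.1⟩, Finset.mem_Icc.mpr ⟨h1.2.2.1, h1.2.2.2⟩⟩
  · simp at h

theorem nb_arrR (N J : ℕ) (T : List (List ℤ)) (d : ℤ) (r j : ℕ) :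
    nb (arrR N J T d) r j = (nbZ (arrZ N J T) r j : ℝ) / d := by
  unfold nb nbZ arrR
  push_cast
  ring

theorem nbZ_far {N J : ℕ} {T : List (List ℤ)} {r j : ℕ} (hj : J + 2 ≤ j) :
    nbZ (arrZ N J T) r j = 0 := by
  unfold nbZ arrZ
  rw [if_neg (by omega), if_neg (by omega), if_neg (by omega), if_neg (by omega),
    if_neg (by omega)]
  rfl

theorem sum_arrR (N J : ℕ) (T : List (List ℤ)) (d : ℤ) :
    ∑ r ∈ Icc 1 (N - 1), ∑ j ∈ Icc 1 J, arrR N J T d r j =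
      ((∑ r ∈ Icc 1 (N - 1), ∑ j ∈ Icc 1 J, arrZ N J T r j : ℤ) : ℝ) / d := by
  unfold arrR
  push_cast
  simp only [Finset.sum_div]

def T8 : List (List ℤ) :=
  [[1560, 3293, 1130, 2245],
    [1788, -1894, -1558, 95],
    [-1450, -335, 2232, 780],
    [1, 1452, -1114, -1114],
    [1, 1, -1450, 2568],
    [1, 1, 1, 1452]]

def T8' : List (List ℤ) :=
  [[5622, 3246, -278, 882],
    [-2232, -4508, 1253, 1253],
    [1115, 1858, 2275, -4647],
    [-745, -745, -745, -1161],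
    [371, 371, 371, -1],
    [-1, -373, -1, -1]]

/-- primal correction -/
noncomputable def e8 : ℕ → ℕ → ℝ := arrR 8 6 T8 100000
/-- dual correction -/
noncomputable def e8' : ℕ → ℕ → ℝ := arrR 8 6 T8' 100000
/-- phases -/
noncomputable def t8 (k : ℕ) : ℝ := if k = 1 then 2 / 5 else if k = 2 then 4 / 5 else if k = 3 then 2 / 5 else 0
noncomputable def t8' (k : ℕ) : ℝ := -t8 k

/-- numerators of `bb 8 r`, denominator `47` -/
def b8 (r : ℕ) : ℤ := [0, 13, 8, 10, 9, 10, 8, 13, 0].getD r 0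

theorem bb8 : ∀ r ≤ 8, bb 8 r = (b8 r : ℝ) / 47 := by
  have h0 := bb_zero 8
  have h8 := bb_N (N := 8) (by norm_num)
  have e1 := bb_eq (N := 8) (r := 1) (by norm_num) (by norm_num)
  have e2 := bb_eq (N := 8) (r := 2) (by norm_num) (by norm_num)
  have e3 := bb_eq (N := 8) (r := 3) (by norm_num) (by norm_num)
  have e4 := bb_eq (N := 8) (r := 4) (by norm_num) (by norm_num)
  have e5 := bb_eq (N := 8) (r := 5) (by norm_num) (by norm_num)
  have e6 := bb_eq (N := 8) (r := 6) (by norm_num) (by norm_num)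
  have e7 := bb_eq (N := 8) (r := 7) (by norm_num) (by norm_num)
  norm_num at e1 e2 e3 e4 e5 e6 e7
  intro r hr
  interval_cases r <;> norm_num [b8] <;> linarith

theorem up8 : UpC 8 (19 / 25) e8 := by
  have h1 : ∀ r ∈ Icc 1 7, 6 * 4000 * b8 r ≤ 47 * nbZ (arrZ 8 6 T8) r 1 := by decide +kernel
  have h2 : ∀ r ∈ Icc 1 7, ∀ j ∈ Icc 2 7, 0 ≤ nbZ (arrZ 8 6 T8) r j := by decide +kernel
  refine ⟨fun r hr => ?_, fun r hr j hj => ?_⟩
  · have h := h1 r hr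
    have h' : (6 * 4000 * (b8 r : ℝ)) ≤ 47 * (nbZ (arrZ 8 6 T8) r 1 : ℝ) := by exact_mod_cast h
    rw [bb8 r (by have := Finset.mem_Icc.mp hr; omega), e8, nb_arrR]
    rw [le_div_iff₀ (by norm_num)]
    push_cast
    linarith
  · rw [e8, nb_arrR]
    refine div_nonneg ?_ (by norm_num)
    rcases Nat.lt_or_ge j 8 with h | h
    · exact_mod_cast h2 r hr j (Finset.mem_Icc.mpr ⟨hj, by omega⟩)
    · rw [nbZ_far (by omega)]; simp

theorem lo8 : LoC 8 (19 / 25) e8' := by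
  have h1 : ∀ r ∈ Icc 1 7, 47 * nbZ (arrZ 8 6 T8') r 1 ≤ 6 * 4000 * b8 r := by decide +kernel
  have h2 : ∀ r ∈ Icc 1 7, ∀ j ∈ Icc 2 7, nbZ (arrZ 8 6 T8') r j ≤ 0 := by decide +kernel
  refine ⟨fun r hr => ?_, fun r hr j hj => ?_⟩
  · have h := h1 r hr
    have h' : 47 * (nbZ (arrZ 8 6 T8') r 1 : ℝ) ≤ (6 * 4000 * (b8 r : ℝ)) := by exact_mod_cast h
    rw [bb8 r (by have := Finset.mem_Icc.mp hr; omega), e8', nb_arrR]
    rw [div_le_iff₀ (by norm_num)]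
    push_cast
    linarith
  · rw [e8', nb_arrR]
    refine div_nonpos_of_nonpos_of_nonneg ?_ (by norm_num)
    rcases Nat.lt_or_ge j 8 with h | h
    · exact_mod_cast h2 r hr j (Finset.mem_Icc.mpr ⟨hj, by omega⟩)
    · rw [nbZ_far (by omega)]; simp

theorem val8 : (19 / 25 : ℝ) * Vt 8 t8 + 2 * ∑ r ∈ Icc 1 7, ∑ j ∈ Icc 1 6, e8 r j <
    19 / 25 * Vt 8 t8' + 2 * ∑ r ∈ Icc 1 7, ∑ j ∈ Icc 1 6, e8' r j := by
  have hs : ∑ r ∈ Icc 1 7, ∑ j ∈ Icc 1 6, e8 r j =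
      ((∑ r ∈ Icc 1 7, ∑ j ∈ Icc 1 6, arrZ 8 6 T8 r j : ℤ) : ℝ) / (100000 : ℤ) :=
    sum_arrR 8 6 T8 100000
  have hs' : ∑ r ∈ Icc 1 7, ∑ j ∈ Icc 1 6, e8' r j =
      ((∑ r ∈ Icc 1 7, ∑ j ∈ Icc 1 6, arrZ 8 6 T8' r j : ℤ) : ℝ) / (100000 : ℤ) :=
    sum_arrR 8 6 T8' 100000
  have hz : ∑ r ∈ Icc 1 7, ∑ j ∈ Icc 1 6, arrZ 8 6 T8 r j = 13346 := by decide +kernel
  have hz' : ∑ r ∈ Icc 1 7, ∑ j ∈ Icc 1 6, arrZ 8 6 T8' r j = 10033 := by decide +kernel
  rw [hs, hs', hz, hz']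
  have hV := Vt_neg_sub 8 t8 t8' (fun _ => rfl)
  have hr : range (8 / 2) = {0, 1, 2, 3} := by decide
  have n1 : ¬ 2 < be 8 1 := be_le_two (by norm_num) (by norm_num) (by norm_num) (by decide +kernel)
  have n2 : ¬ 2 < be 8 2 := be_le_two (by norm_num) (by norm_num) (by norm_num) (by decide +kernel)
  have n3 : ¬ 2 < be 8 3 := be_le_two (by norm_num) (by norm_num) (by norm_num) (by decide +kernel)
  have c1 : ((370 : ℤ) : ℝ) / 10000 ≤ coA 8 1 := coA_ge 370 (by decide) (by norm_num) (by norm_num)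
    (by norm_num) (by decide +kernel) (by decide +kernel) (by decide +kernel)
  have c2 : ((442 : ℤ) : ℝ) / 10000 ≤ coA 8 2 := coA_ge 442 (by decide) (by norm_num) (by norm_num)
    (by norm_num) (by decide +kernel) (by decide +kernel) (by decide +kernel)
  have c3 : ((134 : ℤ) : ℝ) / 10000 ≤ coA 8 3 := coA_ge 134 (by decide) (by norm_num) (by norm_num)
    (by norm_num) (by decide +kernel) (by decide +kernel) (by decide +kernel)
  rw [hr, Finset.sum_insert (by decide), Finset.sum_insert (by decide),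
    Finset.sum_insert (by decide), Finset.sum_singleton, if_neg n1, if_neg n2, if_neg n3] at hV
  have h0 : (if 2 < be 8 0 then (0 : ℝ) else 2 * t8 0 * coA 8 0) = 0 := by
    split_ifs
    · rfl
    · simp [t8]
  have e1 : t8 1 = 2 / 5 := by simp [t8]
  have e2 : t8 2 = 4 / 5 := by simp [t8]
  have e3 : t8 3 = 2 / 5 := by simp [t8]
  rw [h0, e1, e2, e3] at hV
  push_cast at c1 c2 c3 ⊢
  linarith

/-- `EndData` without positivity -/
theorem endData8 {δ : ℝ} (hδ : 0 < δ)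
    (hpos : ∀ r ∈ Icc 1 7, ∀ j : ℕ, 1 ≤ j →
      δ ≤ 19 / 25 * xt 8 t8 r j + (1 - 19 / 25) * bb 8 r + e8 r j) :
    EndData 8 t8 (19 / 25) e8 6 δ where
  lam0 := by norm_num
  lam1 := by norm_num
  supp := arrR_supp
  dpos := hδ
  pos := hpos

theorem endData8' {δ : ℝ} (hδ : 0 < δ)
    (hpos : ∀ r ∈ Icc 1 7, ∀ j : ℕ, 1 ≤ j →
      δ ≤ 19 / 25 * xt 8 t8' r j + (1 - 19 / 25) * bb 8 r + e8' r j) :
    EndData 8 t8' (19 / 25) e8' 6 δ where
  lam0 := by norm_num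
  lam1 := by norm_num
  supp := arrR_supp
  dpos := hδ
  pos := hpos

end Pool.Agent.FD
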