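import Pool.Agent.FD.CertDefs8

/-!
# End corrections for `N = 9`: everything except positivity
-/

open Finset

namespace Pool.Agent.FD

def T9 : List (List ℤ) := [[-122, 122, -122, 61], [0, 122, 0, 0]]

/-- primal correction -/
noncomputable def e9 : ℕ → ℕ → ℝ := arrR 9 2 T9 10000
/-- phases -/
noncomputable def t9 (k : ℕ) : ℝ := if k = 2 then 4 / 5 else if k = 3 then 1 / 5 else 0
noncomputable def t9' (k : ℕ) : ℝ := -t9 k

/-- numerators of `bb 9 r`, denominator `76` -/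
def b9 (r : ℕ) : ℤ := [0, 21, 13, 16, 15, 15, 16, 13, 21, 0].getD r 0

theorem bb9 : ∀ r ≤ 9, bb 9 r = (b9 r : ℝ) / 76 := by
  have h0 := bb_zero 9
  have h9 := bb_N (N := 9) (by norm_num)
  have e1 := bb_eq (N := 9) (r := 1) (by norm_num) (by norm_num)
  have e2 := bb_eq (N := 9) (r := 2) (by norm_num) (by norm_num)
  have e3 := bb_eq (N := 9) (r := 3) (by norm_num) (by norm_num)
  have e4 := bb_eq (N := 9) (r := 4) (by norm_num) (by norm_num)
  have e5 := bb_eq (N := 9) (r := 5) (by norm_num) (by norm_num)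
  have e6 := bb_eq (N := 9) (r := 6) (by norm_num) (by norm_num)
  have e7 := bb_eq (N := 9) (r := 7) (by norm_num) (by norm_num)
  have e8 := bb_eq (N := 9) (r := 8) (by norm_num) (by norm_num)
  norm_num at e1 e2 e3 e4 e5 e6 e7 e8
  intro r hr
  interval_cases r <;> norm_num [b9] <;> linarith

theorem up9 : UpC 9 1 e9 := by
  have h1 : ∀ r ∈ Icc 1 8, 0 ≤ nbZ (arrZ 9 2 T9) r 1 := by decide +kernel
  have h2 : ∀ r ∈ Icc 1 8, ∀ j ∈ Icc 2 3, 0 ≤ nbZ (arrZ 9 2 T9) r j := by decide +kernel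
  refine ⟨fun r hr => ?_, fun r hr j hj => ?_⟩
  · rw [sub_self, zero_mul, e9, nb_arrR]
    exact div_nonneg (by exact_mod_cast h1 r hr) (by norm_num)
  · rw [e9, nb_arrR]
    refine div_nonneg ?_ (by norm_num)
    rcases Nat.lt_or_ge j 4 with h | h
    · exact_mod_cast h2 r hr j (Finset.mem_Icc.mpr ⟨hj, by omega⟩)
    · rw [nbZ_far (by omega)]; simp

theorem lo9 : LoC 9 1 (fun _ _ => 0) :=
  ⟨fun _r _ => by simp [nb], fun _r _ _j _ => by simp [nb]⟩

theorem val9 : (1 : ℝ) * Vt 9 t9 + 2 * ∑ r ∈ Icc 1 8, ∑ j ∈ Icc 1 2, e9 r j <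
    1 * Vt 9 t9' + 2 * ∑ r ∈ Icc 1 8, ∑ j ∈ Icc 1 2, (0 : ℝ) := by
  have hs : ∑ r ∈ Icc 1 8, ∑ j ∈ Icc 1 2, e9 r j =
      ((∑ r ∈ Icc 1 8, ∑ j ∈ Icc 1 2, arrZ 9 2 T9 r j : ℤ) : ℝ) / (10000 : ℤ) :=
    sum_arrR 9 2 T9 10000
  have hz : ∑ r ∈ Icc 1 8, ∑ j ∈ Icc 1 2, arrZ 9 2 T9 r j = 122 := by decide +kernel
  rw [hs, hz]
  have hV := Vt_neg_sub 9 t9 t9' (fun _ => rfl)
  have hr : range (9 / 2) = {0, 1, 2, 3} := by decide
  have n2 : ¬ 2 < be 9 2 := be_le_two (by norm_num) (by norm_num) (by norm_num) (by decide +kernel)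
  have n3 : ¬ 2 < be 9 3 := be_le_two (by norm_num) (by norm_num) (by norm_num) (by decide +kernel)
  have c2 : ((410 : ℤ) : ℝ) / 10000 ≤ coA 9 2 := coA_ge 410 (by decide) (by norm_num) (by norm_num)
    (by norm_num) (by decide +kernel) (by decide +kernel) (by decide +kernel)
  have c3 : ((250 : ℤ) : ℝ) / 10000 ≤ coA 9 3 := coA_ge 250 (by decide) (by norm_num) (by norm_num)
    (by norm_num) (by decide +kernel) (by decide +kernel) (by decide +kernel)
  rw [hr, Finset.sum_insert (by decide), Finset.sum_insert (by decide),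
    Finset.sum_insert (by decide), Finset.sum_singleton, if_neg n2, if_neg n3] at hV
  have h0 : (if 2 < be 9 0 then (0 : ℝ) else 2 * t9 0 * coA 9 0) = 0 := by
    split_ifs
    · rfl
    · simp [t9]
  have h1 : (if 2 < be 9 1 then (0 : ℝ) else 2 * t9 1 * coA 9 1) = 0 := by
    split_ifs
    · rfl
    · simp [t9]
  have e2 : t9 2 = 4 / 5 := by simp [t9]
  have e3 : t9 3 = 1 / 5 := by simp [t9]
  rw [h0, h1, e2, e3] at hV
  simp only [Finset.sum_const_zero, mul_zero, add_zero]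
  push_cast at c2 c3 ⊢
  linarith

/-- `EndData` from positivity -/
theorem endData9 {δ : ℝ} (hδ : 0 < δ)
    (hpos : ∀ r ∈ Icc 1 8, ∀ j : ℕ, 1 ≤ j → δ ≤ xt 9 t9 r j + e9 r j) :
    EndData 9 t9 1 e9 2 δ where
  lam0 := by norm_num
  lam1 := by norm_num
  supp := arrR_supp
  dpos := hδ
  pos := fun r hr j hj => by
    have := hpos r hr j hj
    linarith

theorem endData9' {δ : ℝ} (hδ : 0 < δ)
    (hpos : ∀ r ∈ Icc 1 8, ∀ j : ℕ, 1 ≤ j → δ ≤ xt 9 t9' r j) :
    EndData 9 t9' 1 (fun _ _ => 0) 2 δ where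
  lam0 := by norm_num
  lam1 := by norm_num
  supp := fun r j h => absurd rfl h
  dpos := hδ
  pos := fun r hr j hj => by
    have := hpos r hr j hj
    linarith

end Pool.Agent.FD
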