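import Pool.Agent.FD.XtIv
import Pool.Agent.FD.CertDefs9

/-!
# Positivity of the corrected solutions for `N = 8` and `N = 9`
-/

namespace Pool.Agent.FD

open Finset XtIv

/-- four signed entries of a column -/
structure Q4 where
  a : ℤ
  b : ℤ
  c : ℤ
  d : ℤ

namespace Q4

/-- entry of row `i` -/
def get (q : Q4) : ℕ → ℤ
  | 1 => q.a
  | 2 => q.b
  | 3 => q.c
  | 4 => q.d
  | _ => 0

/-- next column; `ev` is true for even `N` -/
def step (ev : Bool) (p q : Q4) : Q4 :=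
  ⟨(S2 : ℤ) - p.a - (q.a + q.b), (S2 : ℤ) - p.b - (q.a + q.b + q.c),
    (S2 : ℤ) - p.c - (q.b + q.c + q.d), (S2 : ℤ) - p.d - (q.c + q.d + (if ev then q.c else q.d))⟩

end Q4

/-- the data of a certificate: multiplier `P`, offsets `g` -/
def nearOk (ev : Bool) (P : ℤ) (g : ℕ → ℕ → ℤ) (d : ℤ) : ℕ → ℕ → Q4 → Q4 → ℤ → ℤ → Bool
  | 0, _, _, _, _, _ => true
  | f + 1, j, p, q, ea, eb =>
    decide (d + P * eb ≤ P * q.a + (S2 : ℤ) * g 1 j) && (decide (d + P * eb ≤ P * q.b + (S2 : ℤ) * g 2 j) &&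
      (decide (d + P * eb ≤ P * q.c + (S2 : ℤ) * g 3 j) && (decide (d + P * eb ≤ P * q.d + (S2 : ℤ) * g 4 j) &&
        nearOk ev P g d f (j + 1) q (Q4.step ev p q) eb (ea + 3 * eb))))

/-- first column -/
def col1 (A : Acc) : ℤ := (S2 : ℤ) / 2 - ((A.pl : ℤ) - A.nl)

/-- far check -/
def farOk (P G d e : ℤ) (A : Acc) : Bool := decide (d + P * e ≤ P * ((A.pa : ℤ) - A.na) + (S2 : ℤ) * G)

/-- complete check -/
def chkQ (N J : ℕ) (tl : TL) (P : ℤ) (g : ℕ → ℕ → ℤ) (d : ℤ) : Bool :=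
  let T := pack (ZZ N)
  let L := LL N J tl
  let A1 := inr T N (2 * N) 1 L 1 ⟨0, 0, 0, 0⟩
  let A2 := inr T N (2 * N) 2 L 1 ⟨0, 0, 0, 0⟩
  let A3 := inr T N (2 * N) 3 L 1 ⟨0, 0, 0, 0⟩
  let A4 := inr T N (2 * N) 4 L 1 ⟨0, 0, 0, 0⟩
  let e : ℤ := (sumA L : ℤ)
  allOk L && (farOk P (g 1 J) d e A1 && (farOk P (g 2 J) d e A2 && (farOk P (g 3 J) d e A3 &&
    (farOk P (g 4 J) d e A4 &&
      nearOk (N % 2 == 0) P g d (J - 1) 1 ⟨0, 0, 0, 0⟩ ⟨col1 A1, col1 A2, col1 A3, col1 A4⟩ 0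
        (sumL L : ℤ)))))

section
variable {N : ℕ} {t : ℕ → ℝ}

/-- approximation of a column -/
def Ap4 (N : ℕ) (t : ℕ → ℝ) (j : ℕ) (q : Q4) (e : ℤ) : Prop :=
  ∀ i ∈ Icc 1 4, |(S2 : ℝ) * xt N t i j - (q.get i : ℝ)| ≤ e

theorem ap4_iff {j : ℕ} {q : Q4} {e : ℤ} : Ap4 N t j q e ↔
    |(S2 : ℝ) * xt N t 1 j - (q.a : ℝ)| ≤ e ∧ |(S2 : ℝ) * xt N t 2 j - (q.b : ℝ)| ≤ e ∧
      |(S2 : ℝ) * xt N t 3 j - (q.c : ℝ)| ≤ e ∧ |(S2 : ℝ) * xt N t 4 j - (q.d : ℝ)| ≤ e := by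
  unfold Ap4
  constructor
  · intro h
    exact ⟨h 1 (by decide), h 2 (by decide), h 3 (by decide), h 4 (by decide)⟩
  · rintro ⟨h1, h2, h3, h4⟩ i hi
    rw [Finset.mem_Icc] at hi
    obtain ⟨hi1, hi2⟩ := hi
    interval_cases i
    · exact h1
    · exact h2
    · exact h3
    · exact h4

theorem ap4_step (hN : N = 8 ∨ N = 9) {j : ℕ} {p q : Q4} {ea eb : ℤ} (hp : Ap4 N t j p ea)
    (hq : Ap4 N t (j + 1) q eb) :
    Ap4 N t (j + 2) (Q4.step (N % 2 == 0) p q) (ea + 3 * eb) := by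
  rw [ap4_iff] at hp hq ⊢
  obtain ⟨p1, p2, p3, p4⟩ := hp
  obtain ⟨q1, q2, q3, q4⟩ := hq
  have r1 := xt_rec (N := N) (r := 1) (by omega) (by omega) t j
  have r2 := xt_rec (N := N) (r := 2) (by omega) (by omega) t j
  have r3 := xt_rec (N := N) (r := 3) (by omega) (by omega) t j
  have r4 := xt_rec (N := N) (r := 4) (by omega) (by omega) t j
  have z0 := xt_r0 N t (j + 1)
  norm_num at r1 r2 r3 r4
  rw [abs_le] at p1 p2 p3 p4 q1 q2 q3 q4
  have q5 : |(S2 : ℝ) * xt N t 5 (j + 1) - ((if (N % 2 == 0) = true then q.c else q.d : ℤ) : ℝ)| ≤ eb := by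
    rcases hN with rfl | rfl
    · have hs := xt_symm (N := 8) (r := 5) (by norm_num) (by norm_num) t (j + 1)
      norm_num at hs
      rw [← hs]
      simpa using abs_le.mpr q3
    · have hs := xt_symm (N := 9) (r := 5) (by norm_num) (by norm_num) t (j + 1)
      norm_num at hs
      rw [← hs]
      simpa using abs_le.mpr q4
  rw [abs_le] at q5
  have x1 : xt N t 1 (j + 2) = 1 - xt N t 1 j - xt N t 1 (j + 1) - xt N t 2 (j + 1) := by linarith
  have x2 : xt N t 2 (j + 2) = 1 - xt N t 2 j - xt N t 1 (j + 1) - xt N t 2 (j + 1) -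
    xt N t 3 (j + 1) := by linarith
  have x3 : xt N t 3 (j + 2) = 1 - xt N t 3 j - xt N t 2 (j + 1) - xt N t 3 (j + 1) -
    xt N t 4 (j + 1) := by linarith
  have x4 : xt N t 4 (j + 2) = 1 - xt N t 4 j - xt N t 3 (j + 1) - xt N t 4 (j + 1) -
    xt N t 5 (j + 1) := by linarith
  rw [x1, x2, x3, x4]
  simp only [Q4.step]
  push_cast at q5 ⊢
  have e0 : (0 : ℝ) ≤ eb := by linarith [q1.1, q1.2]
  refine ⟨?_, ?_, ?_, ?_⟩ <;> rw [abs_le]
  · constructor <;> nlinarith [p1.1, p1.2, q1.1, q1.2, q2.1, q2.2]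
  · constructor <;> nlinarith [p2.1, p2.2, q1.1, q1.2, q2.1, q2.2, q3.1, q3.2]
  · constructor <;> nlinarith [p3.1, p3.2, q4.1, q4.2, q2.1, q2.2, q3.1, q3.2]
  · constructor <;> nlinarith [p4.1, p4.2, q4.1, q4.2, q3.1, q3.2, q5.1, q5.2]

theorem near_spec (hN : N = 8 ∨ N = 9) {P : ℤ} (hP : 0 ≤ P) {g : ℕ → ℕ → ℤ} {d : ℤ} (f : ℕ) :
    ∀ (j : ℕ) (p q : Q4) (ea eb : ℤ), Ap4 N t j p ea → Ap4 N t (j + 1) q eb →
      nearOk (N % 2 == 0) P g d f (j + 1) p q ea eb = true →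
      ∀ m < f, ∀ i ∈ Icc 1 4,
        (d : ℝ) ≤ P * (S2 * xt N t i (j + 1 + m)) + S2 * (g i (j + 1 + m) : ℝ) := by
  induction f with
  | zero => intro j p q ea eb _ _ _ m hm; omega
  | succ f ih =>
    intro j p q ea eb hp hq hc m hm i hi
    simp only [nearOk, Bool.and_eq_true, decide_eq_true_eq] at hc
    obtain ⟨h1, h2, h3, h4, h5⟩ := hc
    cases m with
    | zero =>
      have hge : d + P * eb ≤ P * q.get i + (S2 : ℤ) * g i (j + 1) := by
        rw [Finset.mem_Icc] at hi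
        obtain ⟨hi1, hi2⟩ := hi
        interval_cases i
        · exact h1
        · exact h2
        · exact h3
        · exact h4
      have hge' : (d : ℝ) + P * eb ≤ P * (q.get i : ℝ) + (S2 : ℝ) * (g i (j + 1) : ℝ) := by
        exact_mod_cast hge
      have hq' := (abs_le.mp (hq i hi)).1
      have hP' : (0 : ℝ) ≤ P := by exact_mod_cast hP
      have := mul_le_mul_of_nonneg_left hq' hP'
      rw [add_zero]
      linarith
    | succ m =>
      have := ih (j + 1) q _ eb (ea + 3 * eb) hq (ap4_step hN hp hq) h5 m (by omega) i hi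
      rwa [show j + 1 + 1 + m = j + 1 + (m + 1) by ring] at this

end

theorem far_spec {x : ℝ} {P G d e : ℤ} {A : Acc} (hP : 0 ≤ P) (h : farOk P G d e A = true)
    (hx : (A.pa : ℝ) - A.na - (e : ℝ) ≤ S2 * x) : (d : ℝ) ≤ P * (S2 * x) + S2 * (G : ℝ) := by
  simp only [farOk, decide_eq_true_eq] at h
  have h' : (d : ℝ) + P * e ≤ P * ((A.pa : ℝ) - A.na) + (S2 : ℝ) * (G : ℝ) := by exact_mod_cast h
  have hP' : (0 : ℝ) ≤ P := by exact_mod_cast hP
  have := mul_le_mul_of_nonneg_left hx hP'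
  linarith

theorem chkQ_sound {N J : ℕ} {tl : TL} {P : ℤ} {g : ℕ → ℕ → ℤ} {d : ℤ} (hN : N = 8 ∨ N = 9)
    (hJ : 1 ≤ J) (hT : okT tl = true) (hP : 0 ≤ P) (hg : ∀ r j, J ≤ j → g r j = g r J)
    (hsym : ∀ r ≤ N, ∀ j, g (N - r) j = g r j)
    (h : chkQ N J tl P g d = true) :
    ∀ r ∈ Icc 1 (N - 1), ∀ j : ℕ, 1 ≤ j →
      (d : ℝ) ≤ P * (S2 * xt N (tR tl) r j) + S2 * (g r j : ℝ) := by
  have hN5 : 5 ≤ N := by omega
  have hN9 : N ≤ 999 := by omega
  simp only [chkQ, Bool.and_eq_true] at h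
  obtain ⟨h0, f1, f2, f3, f4, h5⟩ := h
  have key : ∀ i ∈ Icc 1 4, ∀ j : ℕ, 1 ≤ j →
      (d : ℝ) ≤ P * (S2 * xt N (tR tl) i j) + S2 * (g i j : ℝ) := by
    intro i hi j hj
    rcases Nat.lt_or_ge j J with hlt | hge
    · have hA : Ap4 N (tR tl) 0 ⟨0, 0, 0, 0⟩ 0 := by
        rw [ap4_iff]
        simp [xt_zero]
      have hB : Ap4 N (tR tl) (0 + 1) ⟨col1 (RR N J tl 1), col1 (RR N J tl 2), col1 (RR N J tl 3),
          col1 (RR N J tl 4)⟩ (sumL (LL N J tl) : ℤ) := by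
        have hr := fun (r : ℕ) (h1 : 1 ≤ r) (h2 : r < N) => row_one (J := J) hN5 hN9 hT h0 h1 h2
        have e : ∀ A : Acc, ((col1 A : ℤ) : ℝ) = S2 / 2 - ((A.pl : ℝ) - A.nl) := by
          intro A
          have : (((S2 : ℤ) / 2 : ℤ) : ℝ) = (S2 : ℝ) / 2 := by norm_num [S2]
          unfold col1
          push_cast at this ⊢
          rw [this]
        rw [ap4_iff]
        simp only [e, zero_add, Int.cast_natCast]
        exact ⟨hr 1 (by omega) (by omega), hr 2 (by omega) (by omega), hr 3 (by omega) (by omega),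
          hr 4 (by omega) (by omega)⟩
      have := near_spec hN hP (J - 1) 0 _ _ 0 _ hA hB h5 (j - 1) (by omega) i hi
      rwa [show 0 + 1 + (j - 1) = j by omega] at this
    · have hr := row_far (J := J) hN5 hN9 hT h0 i hge
      rw [hg i j hge]
      rw [Finset.mem_Icc] at hi
      obtain ⟨hi1, hi2⟩ := hi
      interval_cases i
      · exact far_spec hP f1 (by rw [Int.cast_natCast]; exact hr)
      · exact far_spec hP f2 (by rw [Int.cast_natCast]; exact hr)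
      · exact far_spec hP f3 (by rw [Int.cast_natCast]; exact hr)
      · exact far_spec hP f4 (by rw [Int.cast_natCast]; exact hr)
  intro r hr j hj
  rw [Finset.mem_Icc] at hr
  rcases Nat.lt_or_ge 4 r with hlt | hge
  · have hs := xt_symm (N := N) (r := r) (by omega) (by omega) (tR tl) j
    rw [← hs, ← hsym r (by omega) j]
    exact key (N - r) (Finset.mem_Icc.mpr (by omega)) j hj
  · exact key r (Finset.mem_Icc.mpr (by omega)) j hj

theorem arrZ_symm {N J : ℕ} {T : List (List ℤ)} {r j : ℕ} (hr : r ≤ N) :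
    arrZ N J T (N - r) j = arrZ N J T r j := by
  unfold arrZ
  have e : min (N - r) (N - (N - r)) = min r (N - r) := by omega
  rw [e]
  by_cases h : 1 ≤ r ∧ r ≤ N - 1 ∧ 1 ≤ j ∧ j ≤ J
  · rw [if_pos h, if_pos (by omega)]
  · rw [if_neg h, if_neg (by omega)]

theorem arrZ_far {N J : ℕ} {T : List (List ℤ)} {r j : ℕ} (hj : J < j) : arrZ N J T r j = 0 := by
  unfold arrZ
  rw [if_neg (by omega)]

/-! ### the four certificates -/

def tl9 : TL := [(0, 1, false), (0, 1, false), (4, 5, false), (1, 5, false)]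
def tl9' : TL := [(0, 1, false), (0, 1, false), (4, 5, true), (1, 5, true)]
def tl8 : TL := [(0, 1, false), (2, 5, false), (4, 5, false), (2, 5, false)]
def tl8' : TL := [(0, 1, false), (2, 5, true), (4, 5, true), (2, 5, true)]

theorem tR9 : tR tl9 = t9 := by
  funext k
  rcases k with _ | _ | _ | _ | k
  · simp [tR, tl9, t9]
  · simp [tR, tl9, t9]
  · simp [tR, tl9, t9]
  · simp [tR, tl9, t9]
  · simp [tR, tl9, t9]

theorem tR9' : tR tl9' = t9' := by
  funext k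
  rcases k with _ | _ | _ | _ | k
  · simp [tR, tl9', t9', t9]
  · simp [tR, tl9', t9', t9]
  · simp [tR, tl9', t9', t9]
  · simp [tR, tl9', t9', t9]
  · simp [tR, tl9', t9', t9]

theorem tR8 : tR tl8 = t8 := by
  funext k
  rcases k with _ | _ | _ | _ | k
  · simp [tR, tl8, t8]
  · simp [tR, tl8, t8]
  · simp [tR, tl8, t8]
  · simp [tR, tl8, t8]
  · simp [tR, tl8, t8]

theorem tR8' : tR tl8' = t8' := by
  funext k
  rcases k with _ | _ | _ | _ | k
  · simp [tR, tl8', t8', t8]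
  · simp [tR, tl8', t8', t8]
  · simp [tR, tl8', t8', t8]
  · simp [tR, tl8', t8', t8]
  · simp [tR, tl8', t8', t8]

set_option maxRecDepth 100000 in
theorem chk9 : chkQ 9 8 tl9 10000 (arrZ 9 2 T9) S2 = true := by decide +kernel

set_option maxRecDepth 100000 in
theorem chk9' : chkQ 9 8 tl9' 10000 (fun _ _ => 0) S2 = true := by decide +kernel

def g8 (T : List (List ℤ)) (r j : ℕ) : ℤ := 24000 * b8 r + 47 * arrZ 8 6 T r j

set_option maxRecDepth 100000 in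
theorem chk8 : chkQ 8 8 tl8 3572000 (g8 T8) (470 * S2) = true := by decide +kernel

set_option maxRecDepth 100000 in
theorem chk8' : chkQ 8 8 tl8' 3572000 (g8 T8') (470 * S2) = true := by decide +kernel

theorem S2_pos : (0 : ℝ) < S2 := by norm_num [S2]

theorem b8_symm : ∀ r ≤ 8, b8 (8 - r) = b8 r := by decide

theorem pos9 : ∀ r ∈ Icc 1 8, ∀ j : ℕ, 1 ≤ j → (1 / 10000 : ℝ) ≤ xt 9 t9 r j + e9 r j := by
  intro r hr j hj
  have h := chkQ_sound (Or.inr rfl) (by norm_num) (by decide) (by norm_num)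
    (fun r j hj => by rw [arrZ_far (by omega), arrZ_far (by omega)])
    (fun r hr j => arrZ_symm hr) chk9 r hr j hj
  rw [tR9] at h
  have e : (S2 : ℝ) * 1 ≤ S2 * (10000 * xt 9 t9 r j + (arrZ 9 2 T9 r j : ℝ)) := by
    push_cast at h
    linarith
  have h2 := le_of_mul_le_mul_left e S2_pos
  unfold e9 arrR
  push_cast
  linarith

theorem pos9' : ∀ r ∈ Icc 1 8, ∀ j : ℕ, 1 ≤ j → (1 / 10000 : ℝ) ≤ xt 9 t9' r j := by
  intro r hr j hj
  have h := chkQ_sound (Or.inr rfl) (by norm_num) (by decide) (by norm_num)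
    (fun r j hj => rfl) (fun r hr j => rfl) chk9' r hr j hj
  rw [tR9'] at h
  have e : (S2 : ℝ) * 1 ≤ S2 * (10000 * xt 9 t9' r j) := by
    push_cast at h
    linarith
  have h2 := le_of_mul_le_mul_left e S2_pos
  linarith

theorem pos8_aux {T : List (List ℤ)} {tl : TL} (hT : okT tl = true)
    (hc : chkQ 8 8 tl 3572000 (g8 T) (470 * S2) = true) :
    ∀ r ∈ Icc 1 7, ∀ j : ℕ, 1 ≤ j →
      (1 / 10000 : ℝ) ≤ 19 / 25 * xt 8 (tR tl) r j + (1 - 19 / 25) * bb 8 r +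
        arrR 8 6 T 100000 r j := by
  intro r hr j hj
  have h := chkQ_sound (Or.inl rfl) (by norm_num) hT (by norm_num)
    (fun r j hj => by rw [g8, g8, arrZ_far (by omega), arrZ_far (by omega)])
    (fun r hr j => by rw [g8, g8, arrZ_symm hr, b8_symm r hr]) hc r hr j hj
  have e : (S2 : ℝ) * 470 ≤ S2 * (3572000 * xt 8 (tR tl) r j + (24000 * (b8 r : ℝ) +
      47 * (arrZ 8 6 T r j : ℝ))) := by
    unfold g8 at h
    push_cast at h
    linarith
  have h2 := le_of_mul_le_mul_left e S2_pos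
  rw [Finset.mem_Icc] at hr
  rw [bb8 r (by omega)]
  unfold arrR
  push_cast
  linarith

theorem pos8 : ∀ r ∈ Icc 1 7, ∀ j : ℕ, 1 ≤ j →
    (1 / 10000 : ℝ) ≤ 19 / 25 * xt 8 t8 r j + (1 - 19 / 25) * bb 8 r + e8 r j := by
  rw [← tR8]
  exact pos8_aux (by decide) chk8

theorem pos8' : ∀ r ∈ Icc 1 7, ∀ j : ℕ, 1 ≤ j →
    (1 / 10000 : ℝ) ≤ 19 / 25 * xt 8 t8' r j + (1 - 19 / 25) * bb 8 r + e8' r j := by
  rw [← tR8']
  exact pos8_aux (by decide) chk8'

end Pool.Agent.FD
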