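import Mathlib

/-!
# Fractional domination of grids: definitions

`N = m + 1`.  The paths `P_m` have vertices `r = 1, …, N - 1`; the modes are
`sin (r θ_k)`, `θ_k = π (2 k + 1) / N`, `k < N / 2` (only the symmetric ones occur).
-/

open Finset

namespace Pool.Agent.FD

/-- A fractional dominating function of a finite simple graph: values in `[0,1]`, sum at least `1`
over every closed neighbourhood. -/
def IsFDF {V : Type*} [Fintype V] (G : SimpleGraph V) (x : V → ℝ) : Prop :=
  (∀ v, 0 ≤ x v ∧ x v ≤ 1) ∧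
    ∀ v, 1 ≤ ∑ u : V, (open Classical in if u = v ∨ G.Adj v u then x u else 0)

/-- The fractional domination number. -/
noncomputable def gammaF {V : Type*} [Fintype V] (G : SimpleGraph V) : ℝ :=
  sInf {s | ∃ x : V → ℝ, IsFDF G x ∧ s = ∑ v, x v}

/-- The grid graph `P_m × P_n` (Cartesian product of two paths). -/
def grid (m n : ℕ) : SimpleGraph (Fin m × Fin n) :=
  SimpleGraph.boxProd (SimpleGraph.pathGraph m) (SimpleGraph.pathGraph n)

/-- `F` is given by an explicit expression in `n`: for some `q > 0`, on every residue class modulo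
`q` the value `F n` is a rational function of `n` with rational coefficients, for all but finitely
many `n`. -/
def ExplicitExpr (F : ℕ → ℝ) : Prop :=
  ∃ q : ℕ, 0 < q ∧ ∃ P Q : ℕ → Polynomial ℚ, ∃ n0 : ℕ, ∀ n : ℕ, n0 ≤ n →
    Polynomial.aeval (n : ℝ) (Q (n % q)) ≠ 0 ∧
      F n = Polynomial.aeval (n : ℝ) (P (n % q)) / Polynomial.aeval (n : ℝ) (Q (n % q))

/-! ### arrays -/

/-- closed neighbourhood sum of an array; `r, j ≥ 1` -/
def nb (x : ℕ → ℕ → ℝ) (r j : ℕ) : ℝ := x r j + x (r - 1) j + x (r + 1) j + x r (j - 1) + x r (j + 1)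

/-- zero boundary values -/
structure Bd (m n : ℕ) (x : ℕ → ℕ → ℝ) : Prop where
  r0 : ∀ j, x 0 j = 0
  rN : ∀ j, x (m + 1) j = 0
  j0 : ∀ r, x r 0 = 0
  jN : ∀ r, x r (n + 1) = 0

/-- total weight -/
def tot (m n : ℕ) (x : ℕ → ℕ → ℝ) : ℝ := ∑ r ∈ Icc 1 m, ∑ j ∈ Icc 1 n, x r j

/-! ### modes -/

/-- `θ_k` -/
noncomputable def th (N k : ℕ) : ℝ := Real.pi * (2 * k + 1) / N

/-- `β_k = 1 + 2 cos θ_k` -/
noncomputable def be (N k : ℕ) : ℝ := 1 + 2 * Real.cos (th N k)

/-- `cot (θ_k / 2)` -/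
noncomputable def ct (N k : ℕ) : ℝ := Real.cos (th N k / 2) / Real.sin (th N k / 2)

/-- `κ_k` -/
noncomputable def kap (N k : ℕ) : ℝ := 2 / N * ct N k / (2 + be N k)

/-- the bulk value `b_r` in row `r` -/
noncomputable def bb (N r : ℕ) : ℝ := ∑ k ∈ range (N / 2), kap N k * Real.sin (r * th N k)

/-- `α = ∑ b_r` -/
noncomputable def alph (N : ℕ) : ℝ := ∑ k ∈ range (N / 2), kap N k * ct N k

/-- the phase `φ_k` of an oscillating mode, `2 cos φ_k = - β_k` (`|β_k| ≤ 2`) -/
noncomputable def ph (N k : ℕ) : ℝ := Real.arccos (-(be N k) / 2)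

/-- the decay rate `a_k`, `a_k + 1 / a_k = β_k`, of a hyperbolic mode (`2 < β_k`) -/
noncomputable def aa (N k : ℕ) : ℝ := (be N k - √(be N k ^ 2 - 4)) / 2

/-- solution `w` of `w (j - 1) + w (j + 1) + β_k w j = 0`, `w 0 = 1` -/
noncomputable def wt (N : ℕ) (t : ℕ → ℝ) (k j : ℕ) : ℝ :=
  if 2 < be N k then (-1) ^ j * aa N k ^ j
  else Real.cos (j * ph N k) + t k * Real.sin (j * ph N k)

/-- the all-tight solution of the half strip -/
noncomputable def xt (N : ℕ) (t : ℕ → ℝ) (r j : ℕ) : ℝ :=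
  bb N r - ∑ k ∈ range (N / 2), kap N k * Real.sin (r * th N k) * wt N t k j

/-- `lim (γ_f - n α)` in the all-tight case -/
noncomputable def Vt (N : ℕ) (t : ℕ → ℝ) : ℝ :=
  ∑ k ∈ range (N / 2), kap N k * ct N k *
    (if 2 < be N k then 1 - √((be N k - 2) / (be N k + 2))
      else 1 - t k * √((2 - be N k) / (2 + be N k)))

/-- `ρ = (3 - √5) / 2` -/
noncomputable def rho : ℝ := (3 - √5) / 2

/-- `τ_k(M) = tan (φ_k M / 2)` -/
noncomputable def tau (N M k : ℕ) : ℝ :=
  Real.sin (M * ph N k) / (1 + Real.cos (M * ph N k))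

/-- solution `w` of the recurrence with `w 0 = w M = 1` -/
noncomputable def wM (N M k j : ℕ) : ℝ :=
  if 2 < be N k then (-1) ^ j * (aa N k ^ j + aa N k ^ (M - j)) / (1 + aa N k ^ M)
  else Real.cos (j * ph N k) + tau N M k * Real.sin (j * ph N k)

/-- the all-tight solution of the strip with `n = M - 1` columns -/
noncomputable def xM (N M r j : ℕ) : ℝ :=
  bb N r - ∑ k ∈ range (N / 2), kap N k * Real.sin (r * th N k) * wM N M k j

/-- `M` is admissible: even, at least `2`, and the oscillating modes are not resonant -/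
structure Adm (N M : ℕ) : Prop where
  two : 2 ≤ M
  even : Even M
  cos : ∀ k ∈ range (N / 2), be N k ≤ 2 → 1 + Real.cos (M * ph N k) ≠ 0

/-- the unimodular numbers `exp (i φ_k M)` -/
noncomputable def ex (N M k : ℕ) : ℂ := Complex.exp (Complex.I * ((M : ℝ) * ph N k : ℝ))

end Pool.Agent.FD
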