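import Pool.Agent.FD.Defs

/-!
# Modified ends and admissible sequences: definitions
-/

open Finset Filter Topology

namespace Pool.Agent.FD

/-- data of a modified end, the conditions common to primal and dual -/
structure EndData (N : ℕ) (t : ℕ → ℝ) (lam : ℝ) (e : ℕ → ℕ → ℝ) (J : ℕ) (δ : ℝ) : Prop where
  lam0 : 0 ≤ lam
  lam1 : lam ≤ 1
  supp : ∀ r j, e r j ≠ 0 → r ∈ Icc 1 (N - 1) ∧ j ∈ Icc 1 J
  dpos : 0 < δ
  pos : ∀ r ∈ Icc 1 (N - 1), ∀ j : ℕ, 1 ≤ j → δ ≤ lam * xt N t r j + (1 - lam) * bb N r + e r j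

/-- primal conditions -/
def UpC (N : ℕ) (lam : ℝ) (e : ℕ → ℕ → ℝ) : Prop :=
  (∀ r ∈ Icc 1 (N - 1), (1 - lam) * bb N r ≤ nb e r 1) ∧
    ∀ r ∈ Icc 1 (N - 1), ∀ j : ℕ, 2 ≤ j → 0 ≤ nb e r j

/-- dual conditions -/
def LoC (N : ℕ) (lam : ℝ) (e : ℕ → ℕ → ℝ) : Prop :=
  (∀ r ∈ Icc 1 (N - 1), nb e r 1 ≤ (1 - lam) * bb N r) ∧
    ∀ r ∈ Icc 1 (N - 1), ∀ j : ℕ, 2 ≤ j → nb e r j ≤ 0

/-- an admissible sequence with `τ_k (M i) → t k` -/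
structure AdmSeq (N : ℕ) (t : ℕ → ℝ) (M : ℕ → ℕ) : Prop where
  top : Tendsto M atTop atTop
  adm : ∀ i, Adm N (M i)
  tau : ∀ k ∈ range (N / 2), be N k ≤ 2 → Tendsto (fun i => tau N (M i) k) atTop (𝓝 (t k))

/-- `h_j(β_k)` -/
noncomputable def hh (N k j : ℕ) : ℝ :=
  if 2 < be N k then aa N k ^ j else Real.cos (j * Real.arccos (be N k / 2))

end Pool.Agent.FD
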