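import Pool.Agent.FD.Defs

/-!
# FD: an automorphism sending `ζ` to `ζ ^ k`
-/

open Polynomial

namespace Pool.Agent.FD

/-- for `k` prime to `2 N` there is a ring homomorphism from the algebraic numbers to `ℂ` with
`ζ ↦ ζ ^ k`, `ζ = exp (i π / N)` -/
theorem exists_sigma (N k : ℕ) (hN : 0 < N) (hk : Nat.Coprime k (2 * N)) :
    ∃ σ : (algebraicClosure ℚ ℂ) →ₐ[ℚ] ℂ, ∀ z : algebraicClosure ℚ ℂ,
      (z : ℂ) = Complex.exp (Complex.I * (Real.pi / N : ℝ)) →
        σ z = Complex.exp (Complex.I * (Real.pi / N : ℝ)) ^ k := by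
  set ζ : ℂ := Complex.exp (Complex.I * (Real.pi / N : ℝ)) with hζ
  have h2N : 0 < 2 * N := by omega
  have hprim : IsPrimitiveRoot ζ (2 * N) := by
    have := Complex.isPrimitiveRoot_exp (2 * N) (by omega)
    convert this using 2
    push_cast
    field_simp
  have hint : IsIntegral ℤ ζ := hprim.isIntegral h2N
  have hintQ : IsIntegral ℚ ζ := hint.tower_top
  have hmem : ζ ∈ algebraicClosure ℚ ℂ := mem_algebraicClosure_iff'.mpr hintQ
  let z0 : algebraicClosure ℚ ℂ := ⟨ζ, hmem⟩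
  have hmp : minpoly ℚ z0 = minpoly ℚ ζ :=
    (minpoly.algebraMap_eq (algebraMap (algebraicClosure ℚ ℂ) ℂ).injective z0).symm
  have hprimk : IsPrimitiveRoot (ζ ^ k) (2 * N) := hprim.pow_of_coprime k hk
  have hintk : IsIntegral ℤ (ζ ^ k) := hprimk.isIntegral h2N
  have hroot : aeval (ζ ^ k) (minpoly ℚ z0) = 0 := by
    rw [hmp, minpoly.isIntegrallyClosed_eq_field_fractions' ℚ hint,
      hprim.minpoly_eq_pow_coprime hk, ← minpoly.isIntegrallyClosed_eq_field_fractions' ℚ hintk]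
    exact minpoly.aeval ℚ _
  obtain ⟨σ, hσ⟩ := IntermediateField.exists_algHom_of_splits_of_aeval (F := ℚ)
    (E := algebraicClosure ℚ ℂ) (K := ℂ)
    (fun s => ⟨((algebraicClosure.isAlgebraic ℚ ℂ).isAlgebraic s).isIntegral,
      IsAlgClosed.splits _⟩) hroot
  refine ⟨(σ : (algebraicClosure ℚ ℂ) →+* ℂ).toRatAlgHom, fun z hz => ?_⟩
  have : z = z0 := Subtype.ext hz
  subst this
  exact hσ

end Pool.Agent.FD
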