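import Pool.Agent.FD.Defs

/-! # GRID: the fractional domination number of a grid and arrays -/

open Finset

namespace Pool.Agent.FD

namespace GRID

theorem sum_icc_eq (m : ℕ) (f : ℕ → ℝ) : ∑ r ∈ Icc 1 m, f r = ∑ i : Fin m, f (i + 1) := by
  rw [Fin.sum_univ_eq_sum_range (fun i => f (i + 1)) m, Finset.range_eq_Ico,
    Finset.sum_Ico_add' f 0 m 1]
  rfl

theorem tot_eq (m n : ℕ) (x : ℕ → ℕ → ℝ) :
    tot m n x = ∑ v : Fin m × Fin n, x (v.1 + 1) (v.2 + 1) := by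
  unfold tot
  rw [Fintype.sum_prod_type, sum_icc_eq]
  refine Finset.sum_congr rfl fun i _ => ?_
  rw [sum_icc_eq n (fun j => x (i + 1) j)]

/-- the sum over the vertices with prescribed coordinates -/
theorem sum_ite_coord {m n : ℕ} (p q : ℕ) (f : ℕ → ℕ → ℝ) :
    ∑ u : Fin m × Fin n, (if (u.1 : ℕ) = p ∧ (u.2 : ℕ) = q then f u.1 u.2 else 0) =
      if p < m ∧ q < n then f p q else 0 := by
  by_cases h : p < m ∧ q < n
  · rw [if_pos h, Finset.sum_eq_single (⟨p, h.1⟩, ⟨q, h.2⟩)]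
    · simp
    · rintro ⟨a, b⟩ _ hne
      rw [if_neg]
      rintro ⟨h1, h2⟩
      apply hne
      ext
      · exact h1
      · exact h2
    · intro h'
      exact absurd (Finset.mem_univ _) h'
  · rw [if_neg h]
    refine Finset.sum_eq_zero ?_
    rintro ⟨a, b⟩ _
    rw [if_neg]
    rintro ⟨h1, h2⟩
    exact h ⟨h1 ▸ a.2, h2 ▸ b.2⟩

theorem closed_iff {m n : ℕ} (v u : Fin m × Fin n) :
    (u = v ∨ (grid m n).Adj v u) ↔
      (((u.1 : ℕ) = v.1 ∧ (u.2 : ℕ) = v.2) ∨ ((u.1 : ℕ) + 1 = v.1 ∧ (u.2 : ℕ) = v.2) ∨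
      ((u.1 : ℕ) = v.1 + 1 ∧ (u.2 : ℕ) = v.2) ∨ ((u.1 : ℕ) = v.1 ∧ (u.2 : ℕ) + 1 = v.2) ∨
      ((u.1 : ℕ) = v.1 ∧ (u.2 : ℕ) = v.2 + 1)) := by
  obtain ⟨a, b⟩ := v
  obtain ⟨c, d⟩ := u
  unfold grid
  rw [SimpleGraph.boxProd_adj, SimpleGraph.pathGraph_adj, SimpleGraph.pathGraph_adj,
    Prod.mk.injEq, Fin.ext_iff, Fin.ext_iff]
  simp only [Fin.ext_iff]
  omega

theorem ite_split {m n : ℕ} (v u : Fin m × Fin n) (t : ℝ) :
    (open Classical in if u = v ∨ (grid m n).Adj v u then t else 0) =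
      (if (u.1 : ℕ) = v.1 ∧ (u.2 : ℕ) = v.2 then t else 0) +
      (if (u.1 : ℕ) + 1 = v.1 ∧ (u.2 : ℕ) = v.2 then t else 0) +
      (if (u.1 : ℕ) = v.1 + 1 ∧ (u.2 : ℕ) = v.2 then t else 0) +
      (if (u.1 : ℕ) = v.1 ∧ (u.2 : ℕ) + 1 = v.2 then t else 0) +
      (if (u.1 : ℕ) = v.1 ∧ (u.2 : ℕ) = v.2 + 1 then t else 0) := by
  classical
  rw [if_congr (closed_iff v u) rfl rfl]
  by_cases h1 : (u.1 : ℕ) = v.1 ∧ (u.2 : ℕ) = v.2
  · rw [if_pos (Or.inl h1), if_pos h1, if_neg (by omega), if_neg (by omega), if_neg (by omega),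
      if_neg (by omega)]
    ring
  by_cases h2 : (u.1 : ℕ) + 1 = v.1 ∧ (u.2 : ℕ) = v.2
  · rw [if_pos (Or.inr (Or.inl h2)), if_neg h1, if_pos h2, if_neg (by omega), if_neg (by omega),
      if_neg (by omega)]
    ring
  by_cases h3 : (u.1 : ℕ) = v.1 + 1 ∧ (u.2 : ℕ) = v.2
  · rw [if_pos (Or.inr (Or.inr (Or.inl h3))), if_neg h1, if_neg h2, if_pos h3,
      if_neg (by omega), if_neg (by omega)]
    ring
  by_cases h4 : (u.1 : ℕ) = v.1 ∧ (u.2 : ℕ) + 1 = v.2
  · rw [if_pos (Or.inr (Or.inr (Or.inr (Or.inl h4)))), if_neg h1, if_neg h2, if_neg h3, if_pos h4,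
      if_neg (by omega)]
    ring
  by_cases h5 : (u.1 : ℕ) = v.1 ∧ (u.2 : ℕ) = v.2 + 1
  · rw [if_pos (Or.inr (Or.inr (Or.inr (Or.inr h5)))), if_neg h1, if_neg h2, if_neg h3, if_neg h4,
      if_pos h5]
    ring
  · rw [if_neg (by tauto), if_neg h1, if_neg h2, if_neg h3, if_neg h4, if_neg h5]
    ring

theorem nb_eq {m n : ℕ} {x : ℕ → ℕ → ℝ} (hb : Bd m n x) (v : Fin m × Fin n) :
    ∑ u : Fin m × Fin n, (open Classical in if u = v ∨ (grid m n).Adj v u then
      x (u.1 + 1) (u.2 + 1) else 0) = nb x (v.1 + 1) (v.2 + 1) := by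
  obtain ⟨⟨a, ha⟩, ⟨b, hbn⟩⟩ := v
  simp only [ite_split, Finset.sum_add_distrib]
  have e1 := sum_ite_coord (m := m) (n := n) a b (fun p q => x (p + 1) (q + 1))
  have e3 := sum_ite_coord (m := m) (n := n) (a + 1) b (fun p q => x (p + 1) (q + 1))
  have e5 := sum_ite_coord (m := m) (n := n) a (b + 1) (fun p q => x (p + 1) (q + 1))
  have e2 : ∑ u : Fin m × Fin n, (if (u.1 : ℕ) + 1 = a ∧ (u.2 : ℕ) = b then
      x (u.1 + 1) (u.2 + 1) else 0) = x a (b + 1) := by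
    rcases Nat.eq_zero_or_pos a with h0 | h0
    · subst h0
      rw [hb.r0]
      refine Finset.sum_eq_zero fun u _ => ?_
      rw [if_neg (by omega)]
    · obtain ⟨c, rfl⟩ : ∃ c, a = c + 1 := ⟨a - 1, by omega⟩
      have e := sum_ite_coord (m := m) (n := n) c b (fun p q => x (p + 1) (q + 1))
      rw [if_pos ⟨by omega, hbn⟩] at e
      rw [← e]
      refine Finset.sum_congr rfl fun u _ => if_congr ?_ rfl rfl
      omega
  have e4 : ∑ u : Fin m × Fin n, (if (u.1 : ℕ) = a ∧ (u.2 : ℕ) + 1 = b then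
      x (u.1 + 1) (u.2 + 1) else 0) = x (a + 1) b := by
    rcases Nat.eq_zero_or_pos b with h0 | h0
    · subst h0
      rw [hb.j0]
      refine Finset.sum_eq_zero fun u _ => ?_
      rw [if_neg (by omega)]
    · obtain ⟨c, rfl⟩ : ∃ c, b = c + 1 := ⟨b - 1, by omega⟩
      have e := sum_ite_coord (m := m) (n := n) a c (fun p q => x (p + 1) (q + 1))
      rw [if_pos ⟨ha, by omega⟩] at e
      rw [← e]
      refine Finset.sum_congr rfl fun u _ => if_congr ?_ rfl rfl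
      omega
  rw [if_pos ⟨ha, hbn⟩] at e1
  have e3' : (if a + 1 < m ∧ b < n then x (a + 1 + 1) (b + 1) else 0) = x (a + 1 + 1) (b + 1) := by
    by_cases h : a + 1 < m
    · rw [if_pos ⟨h, hbn⟩]
    · have : a + 1 = m := by omega
      rw [if_neg (by omega), this, hb.rN]
  have e5' : (if a < m ∧ b + 1 < n then x (a + 1) (b + 1 + 1) else 0) = x (a + 1) (b + 1 + 1) := by
    by_cases h : b + 1 < n
    · rw [if_pos ⟨ha, h⟩]
    · have : b + 1 = n := by omega
      rw [if_neg (by omega), this, hb.jN]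
  rw [e3'] at e3
  rw [e5'] at e5
  simp only [nb, Nat.add_sub_cancel]
  rw [e1, e2, e3, e4, e5]

theorem mem_icc {m : ℕ} (i : Fin m) : (i : ℕ) + 1 ∈ Icc 1 m :=
  Finset.mem_Icc.2 ⟨by omega, by have := i.2; omega⟩

theorem bddBelow (V : Type*) [Fintype V] (G : SimpleGraph V) :
    BddBelow {s | ∃ x : V → ℝ, IsFDF G x ∧ s = ∑ v, x v} := by
  refine ⟨0, ?_⟩
  rintro s ⟨x, hx, rfl⟩
  exact Finset.sum_nonneg fun v _ => (hx.1 v).1

end GRID

theorem gamma_le {m n : ℕ} {x : ℕ → ℕ → ℝ} (hb : Bd m n x)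
    (h0 : ∀ r ∈ Icc 1 m, ∀ j ∈ Icc 1 n, 0 ≤ x r j)
    (h1 : ∀ r ∈ Icc 1 m, ∀ j ∈ Icc 1 n, 1 ≤ nb x r j) : gammaF (grid m n) ≤ tot m n x := by
  classical
  have hx0 : ∀ v : Fin m × Fin n, 0 ≤ x (v.1 + 1) (v.2 + 1) := fun v =>
    h0 _ (GRID.mem_icc v.1) _ (GRID.mem_icc v.2)
  set X : Fin m × Fin n → ℝ := fun v => min (x (v.1 + 1) (v.2 + 1)) 1 with hX
  have hX0 : ∀ v, 0 ≤ X v := fun v => le_min (hx0 v) zero_le_one
  have hF : IsFDF (grid m n) X := by
    refine ⟨fun v => ⟨hX0 v, min_le_right _ _⟩, fun v => ?_⟩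
    by_cases hbig : ∃ u, (u = v ∨ (grid m n).Adj v u) ∧ 1 ≤ x (u.1 + 1) (u.2 + 1)
    · obtain ⟨u, hu, hu1⟩ := hbig
      have h2 : (if u = v ∨ (grid m n).Adj v u then X u else 0) = 1 := by
        rw [if_pos hu, hX]
        exact min_eq_right hu1
      calc (1 : ℝ) = (if u = v ∨ (grid m n).Adj v u then X u else 0) := h2.symm
        _ ≤ ∑ u, (if u = v ∨ (grid m n).Adj v u then X u else 0) := by
            refine Finset.single_le_sum (f := fun u => if u = v ∨ (grid m n).Adj v u then X u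
              else 0) (fun w _ => ?_) (Finset.mem_univ u)
            split_ifs
            · exact hX0 w
            · exact le_rfl
        _ = _ := by
            refine Finset.sum_congr rfl fun w _ => ?_
            congr
    · push Not at hbig
      have h2 := GRID.nb_eq hb v
      have h3 := h1 _ (GRID.mem_icc v.1) _ (GRID.mem_icc v.2)
      rw [← h2] at h3
      refine h3.trans (le_of_eq ?_)
      refine Finset.sum_congr rfl fun w _ => ?_
      by_cases hw : w = v ∨ (grid m n).Adj v w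
      · rw [if_pos hw, if_pos hw, hX]
        exact (min_eq_left (hbig w hw).le).symm
      · rw [if_neg hw, if_neg hw]
  calc gammaF (grid m n) ≤ ∑ v, X v := csInf_le (GRID.bddBelow _ _) ⟨X, hF, rfl⟩
    _ ≤ ∑ v : Fin m × Fin n, x (v.1 + 1) (v.2 + 1) :=
        Finset.sum_le_sum fun v _ => min_le_left _ _
    _ = tot m n x := (GRID.tot_eq m n x).symm

theorem le_gamma {m n : ℕ} {x : ℕ → ℕ → ℝ} (hb : Bd m n x)
    (h0 : ∀ r ∈ Icc 1 m, ∀ j ∈ Icc 1 n, 0 ≤ x r j)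
    (h1 : ∀ r ∈ Icc 1 m, ∀ j ∈ Icc 1 n, nb x r j ≤ 1) : tot m n x ≤ gammaF (grid m n) := by
  classical
  refine le_csInf ?_ ?_
  · refine ⟨_, fun _ => 1, ⟨fun v => ⟨zero_le_one, le_rfl⟩, fun v => ?_⟩, rfl⟩
    have h2 : (if v = v ∨ (grid m n).Adj v v then (1 : ℝ) else 0) = 1 := if_pos (Or.inl rfl)
    calc (1 : ℝ) = (if v = v ∨ (grid m n).Adj v v then (1 : ℝ) else 0) := h2.symm
      _ ≤ ∑ u, (if u = v ∨ (grid m n).Adj v u then (1 : ℝ) else 0) := by
          refine Finset.single_le_sum (f := fun u => if u = v ∨ (grid m n).Adj v u then (1 : ℝ)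
            else 0) (fun w _ => ?_) (Finset.mem_univ v)
          split_ifs <;> norm_num
      _ = _ := by
          refine Finset.sum_congr rfl fun w _ => ?_
          congr
  · rintro s ⟨X, hX, rfl⟩
    rw [GRID.tot_eq]
    have hx0 : ∀ v : Fin m × Fin n, 0 ≤ x (v.1 + 1) (v.2 + 1) := fun v =>
      h0 _ (GRID.mem_icc v.1) _ (GRID.mem_icc v.2)
    calc ∑ v : Fin m × Fin n, x (v.1 + 1) (v.2 + 1)
        ≤ ∑ v : Fin m × Fin n, x (v.1 + 1) (v.2 + 1) *
          (∑ u : Fin m × Fin n, if u = v ∨ (grid m n).Adj v u then X u else 0) := by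
          refine Finset.sum_le_sum fun v _ => ?_
          have h2 : 1 ≤ ∑ u : Fin m × Fin n, (if u = v ∨ (grid m n).Adj v u then X u else 0) := by
            refine (hX.2 v).trans (le_of_eq ?_)
            refine Finset.sum_congr rfl fun w _ => ?_
            congr
          exact le_mul_of_one_le_right (hx0 v) h2
      _ = ∑ u : Fin m × Fin n, X u *
          (∑ v : Fin m × Fin n, if v = u ∨ (grid m n).Adj u v then x (v.1 + 1) (v.2 + 1)
            else 0) := by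
          simp only [Finset.mul_sum]
          rw [Finset.sum_comm]
          refine Finset.sum_congr rfl fun u _ => Finset.sum_congr rfl fun v _ => ?_
          have hiff : (u = v ∨ (grid m n).Adj v u) ↔ (v = u ∨ (grid m n).Adj u v) := by
            rw [SimpleGraph.adj_comm, eq_comm]
          by_cases h : u = v ∨ (grid m n).Adj v u
          · rw [if_pos h, if_pos (hiff.1 h), mul_comm]
          · rw [if_neg h, if_neg (fun h' => h (hiff.2 h')), mul_zero, mul_zero]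
      _ = ∑ u : Fin m × Fin n, X u * nb x (u.1 + 1) (u.2 + 1) := by
          refine Finset.sum_congr rfl fun u _ => ?_
          congr 1
          rw [← GRID.nb_eq hb u]
      _ ≤ ∑ u : Fin m × Fin n, X u := by
          refine Finset.sum_le_sum fun u _ => ?_
          exact mul_le_of_le_one_right (hX.1 u).1 (h1 _ (GRID.mem_icc u.1) _ (GRID.mem_icc u.2))

end Pool.Agent.FD
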