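import Pool.Agent.FD.IndepStep

/-!
# FD: independence of the phases, `N = 8`
-/

open Finset

namespace Pool.Agent.FD

/-- multiplicative form of a linear relation of the phases -/
theorem rel_exp (N : ℕ) (K : Finset ℕ) (h : ℕ → ℤ) (l : ℤ)
    (hl : ∑ k ∈ K, (h k : ℝ) * ph N k = l * Real.pi) :
    ∏ k ∈ K, Complex.exp (Complex.I * (ph N k : ℝ)) ^ (2 * h k) = 1 := by
  have h1 : ∀ k ∈ K, Complex.exp (Complex.I * (ph N k : ℝ)) ^ (2 * h k) =
      Complex.exp (2 * Complex.I * ((h k : ℝ) * ph N k : ℝ)) := by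
    intro k _
    rw [← Complex.exp_int_mul]
    push_cast
    ring_nf
  rw [Finset.prod_congr rfl h1, ← Complex.exp_sum, ← Finset.mul_sum, ← Complex.ofReal_sum, hl]
  have h2 : 2 * Complex.I * ((l * Real.pi : ℝ) : ℂ) = l * (2 * Real.pi * Complex.I) := by
    push_cast
    ring
  rw [h2]
  exact Complex.exp_int_mul_two_pi_mul_I l

/-- `cos` on `[π / 3, 5 π / 3]` is at most `1 / 2` -/
theorem cos_le_half {x : ℝ} (h1 : Real.pi / 3 ≤ x) (h2 : x ≤ 5 * Real.pi / 3) :
    Real.cos x ≤ 1 / 2 := by
  have hpi := Real.pi_pos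
  rw [← Real.cos_pi_div_three]
  rcases le_total x Real.pi with h | h
  · exact Real.cos_le_cos_of_nonneg_of_le_pi (by positivity) h h1
  · rw [show x = 2 * Real.pi - (2 * Real.pi - x) by ring, Real.cos_two_pi_sub]
    exact Real.cos_le_cos_of_nonneg_of_le_pi (by positivity) (by linarith) (by linarith)

theorem cos_gt_half {x : ℝ} (h1 : 0 ≤ x) (h2 : x < Real.pi / 3) : 1 / 2 < Real.cos x := by
  have hpi := Real.pi_pos
  rw [← Real.cos_pi_div_three]
  exact Real.cos_lt_cos_of_nonneg_of_le_pi h1 (by linarith) h2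

theorem cos_shift (x y : ℝ) (j : ℕ) (h : x = y + j * (2 * Real.pi)) : Real.cos x = Real.cos y := by
  rw [h, Real.cos_add_nat_mul_two_pi]

theorem be8_le {k : ℕ} (hk : k ∈ ({1, 2, 3} : Finset ℕ)) : |be 8 k| ≤ 2 := by
  have hpi := Real.pi_pos
  have h1 : Real.cos (th 8 k) ≤ 1 / 2 := by
    fin_cases hk <;> unfold th <;> apply cos_le_half <;> push_cast <;> linarith
  have h2 := Real.neg_one_le_cos (th 8 k)
  unfold be
  rw [abs_le]
  constructor <;> linarith

theorem indep8 (h : ℕ → ℤ) (l : ℤ)
    (hl : ∑ k ∈ range 3, (h k : ℝ) * ph 8 (k + 1) = l * Real.pi) : ∀ k < 3, h k = 0 := by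
  have hpi := Real.pi_pos
  have hrel := rel_exp 8 {1, 2, 3} (fun k => h (k - 1)) l (by
    rw [← hl]
    simp [Finset.sum_range_succ]
    ring)
  have hK : ∀ k ∈ ({1, 2, 3} : Finset ℕ), |be 8 k| ≤ 2 := fun k hk => be8_le hk
  have e1 := indep_step 8 11 (by norm_num) (by norm_num) {1, 2, 3} _ hK hrel 1 (by simp)
    (by rw [cos_shift _ (Real.pi / 8) 2 (by push_cast; ring)]
        exact cos_gt_half (by positivity) (by linarith))
    (by
      intro k hk hne
      fin_cases hk
      · exact absurd rfl hne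
      · rw [cos_shift _ (7 * Real.pi / 8) 3 (by push_cast; ring)]
        exact cos_le_half (by linarith) (by linarith)
      · rw [cos_shift _ (13 * Real.pi / 8) 4 (by push_cast; ring)]
        exact cos_le_half (by linarith) (by linarith))
  have e2 := indep_step 8 13 (by norm_num) (by norm_num) {1, 2, 3} _ hK hrel 2 (by simp)
    (by rw [cos_shift _ (Real.pi / 8) 4 (by push_cast; ring)]
        exact cos_gt_half (by positivity) (by linarith))
    (by
      intro k hk hne
      fin_cases hk
      · rw [cos_shift _ (7 * Real.pi / 8) 2 (by push_cast; ring)]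
        exact cos_le_half (by linarith) (by linarith)
      · exact absurd rfl hne
      · rw [cos_shift _ (11 * Real.pi / 8) 5 (by push_cast; ring)]
        exact cos_le_half (by linarith) (by linarith))
  have e3 := indep_step 8 7 (by norm_num) (by norm_num) {1, 2, 3} _ hK hrel 3 (by simp)
    (by rw [cos_shift _ (Real.pi / 8) 3 (by push_cast; ring)]
        exact cos_gt_half (by positivity) (by linarith))
    (by
      intro k hk hne
      fin_cases hk
      · rw [cos_shift _ (5 * Real.pi / 8) 1 (by push_cast; ring)]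
        exact cos_le_half (by linarith) (by linarith)
      · rw [cos_shift _ (3 * Real.pi / 8) 2 (by push_cast; ring)]
        exact cos_le_half (by linarith) (by linarith)
      · exact absurd rfl hne)
  intro k hk
  interval_cases k
  · exact e1
  · exact e2
  · exact e3

end Pool.Agent.FD
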