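import Pool.Agent.FD.Indep8

/-!
# FD: independence of the phases, `N = 9`
-/

open Finset

namespace Pool.Agent.FD

theorem be9_le {k : ℕ} (hk : k ∈ ({2, 3} : Finset ℕ)) : |be 9 k| ≤ 2 := by
  have hpi := Real.pi_pos
  have h1 : Real.cos (th 9 k) ≤ 1 / 2 := by
    fin_cases hk <;> unfold th <;> apply cos_le_half <;> push_cast <;> linarith
  have h2 := Real.neg_one_le_cos (th 9 k)
  unfold be
  rw [abs_le]
  constructor <;> linarith

theorem indep9 (h : ℕ → ℤ) (l : ℤ)
    (hl : ∑ k ∈ range 2, (h k : ℝ) * ph 9 (k + 2) = l * Real.pi) : ∀ k < 2, h k = 0 := by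
  have hpi := Real.pi_pos
  have hrel := rel_exp 9 {2, 3} (fun k => h (k - 2)) l (by
    rw [← hl]
    simp [Finset.sum_range_succ])
  have hK : ∀ k ∈ ({2, 3} : Finset ℕ), |be 9 k| ≤ 2 := fun k hk => be9_le hk
  have e1 := indep_step 9 11 (by norm_num) (by norm_num) {2, 3} _ hK hrel 2 (by simp)
    (by rw [cos_shift _ (Real.pi / 9) 3 (by push_cast; ring)]
        exact cos_gt_half (by positivity) (by linarith))
    (by
      intro k hk hne
      fin_cases hk
      · exact absurd rfl hne
      · rw [cos_shift _ (5 * Real.pi / 9) 4 (by push_cast; ring)]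
        exact cos_le_half (by linarith) (by linarith))
  have e2 := indep_step 9 13 (by norm_num) (by norm_num) {2, 3} _ hK hrel 3 (by simp)
    (by rw [cos_shift _ (Real.pi / 9) 5 (by push_cast; ring)]
        exact cos_gt_half (by positivity) (by linarith))
    (by
      intro k hk hne
      fin_cases hk
      · rw [cos_shift _ (11 * Real.pi / 9) 3 (by push_cast; ring)]
        exact cos_le_half (by linarith) (by linarith)
      · exact absurd rfl hne)
  intro k hk
  interval_cases k
  · exact e1
  · exact e2

end Pool.Agent.FD
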