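import Pool.Agent.FD.Gal

/-!
# FD: a multiplicative relation between the phases is killed by an automorphism
-/

open Finset Polynomial

namespace Pool.Agent.FD

/-- a root of `x ^ 2 - r x + 1` with `|r| ≤ 2` is on the unit circle -/
theorem norm_root_one {x : ℂ} {r : ℝ} (hx : x ^ 2 - r * x + 1 = 0) (hr : |r| ≤ 2) : ‖x‖ = 1 := by
  have h1 := congrArg Complex.re hx
  have h2 := congrArg Complex.im hx
  simp [pow_two] at h1 h2
  have hr2 : r ^ 2 ≤ 4 := by
    have := abs_le.mp hr
    nlinarith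
  have hn : x.re ^ 2 + x.im ^ 2 = 1 := by
    by_cases hb : x.im = 0
    · rw [hb] at h1 ⊢
      have h3 : (x.re - r / 2) ^ 2 = r ^ 2 / 4 - 1 := by nlinarith
      have h4 : (x.re - r / 2) ^ 2 ≤ 0 := by nlinarith
      have h5 : x.re - r / 2 = 0 := by
        have := sq_nonneg (x.re - r / 2)
        exact pow_eq_zero_iff (two_ne_zero) |>.mp (le_antisymm h4 this)
      have h6 : x.re = r / 2 := by linarith
      rw [h6] at h3 ⊢
      nlinarith
    · have h3 : x.re = r / 2 := by
        have : x.im * (2 * x.re - r) = 0 := by linarith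
        rcases mul_eq_zero.mp this with h | h
        · exact absurd h hb
        · linarith
      have h4 : r = 2 * x.re := by linarith
      rw [h4] at h1
      nlinarith
  rw [Complex.norm_eq_sqrt_sq_add_sq, hn, Real.sqrt_one]

/-- a root of `x ^ 2 - r x + 1` with `|r| > 2` is not on the unit circle -/
theorem norm_root_ne_one {x : ℂ} {r : ℝ} (hx : x ^ 2 - r * x + 1 = 0) (hr : 2 < |r|) :
    ‖x‖ ≠ 1 := by
  intro hn
  have h1 := congrArg Complex.re hx
  have h2 := congrArg Complex.im hx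
  simp [pow_two] at h1 h2
  have hn' : x.re ^ 2 + x.im ^ 2 = 1 := by
    have := Complex.sq_norm x
    rw [hn, Complex.normSq_apply] at this
    nlinarith
  have h3 : (2 * x.re - r) * x.re = 0 := by nlinarith
  have h4 : (2 * x.re - r) * x.im = 0 := by nlinarith
  have h5 : 2 * x.re = r := by
    by_contra hne
    have h6 : 2 * x.re - r ≠ 0 := sub_ne_zero.mpr hne
    have h7 : x.re = 0 := (mul_eq_zero.mp h3).resolve_left h6
    have h8 : x.im = 0 := (mul_eq_zero.mp h4).resolve_left h6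
    rw [h7, h8] at hn'
    norm_num at hn'
  have h6 : |x.re| ≤ 1 := abs_le_one_iff_mul_self_le_one.mpr (by nlinarith [sq_nonneg x.im])
  rw [← h5, abs_mul, abs_two] at hr
  linarith

/-- `ζ ^ j + ζ ^ (- j) = 2 cos (π j / N)` -/
theorem zeta_pow_add (N j : ℕ) :
    Complex.exp (Complex.I * (Real.pi / N : ℝ)) ^ j +
      (Complex.exp (Complex.I * (Real.pi / N : ℝ)) ^ j)⁻¹ =
        ((2 * Real.cos (Real.pi * j / N) : ℝ) : ℂ) := by
  rw [← Complex.exp_nat_mul, ← Complex.exp_neg]
  push_cast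
  rw [Complex.cos]
  have h : (j : ℂ) * (Complex.I * (↑Real.pi / ↑N)) = ↑Real.pi * ↑j / ↑N * Complex.I := by ring
  rw [h]
  ring_nf

theorem indep_step (N k' : ℕ) (hN : 0 < N) (hk' : Nat.Coprime k' (2 * N)) (K : Finset ℕ)
    (h : ℕ → ℤ) (hK : ∀ k ∈ K, |be N k| ≤ 2)
    (hrel : ∏ k ∈ K, Complex.exp (Complex.I * (ph N k : ℝ)) ^ (2 * h k) = 1) (k0 : ℕ)
    (hk0 : k0 ∈ K) (h0 : 1 / 2 < Real.cos (Real.pi * (k' * (2 * k0 + 1) : ℕ) / N))
    (hoth : ∀ k ∈ K, k ≠ k0 → Real.cos (Real.pi * (k' * (2 * k + 1) : ℕ) / N) ≤ 1 / 2) :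
    h k0 = 0 := by
  obtain ⟨σ, hσ⟩ := exists_sigma N k' hN hk'
  set ζ : ℂ := Complex.exp (Complex.I * (Real.pi / N : ℝ)) with hζ
  have h2N : 0 < 2 * N := by omega
  have hprim : IsPrimitiveRoot ζ (2 * N) := by
    have := Complex.isPrimitiveRoot_exp (2 * N) (by omega)
    convert this using 2
    push_cast
    field_simp
  have hintQ : IsIntegral ℚ ζ := (hprim.isIntegral h2N).tower_top
  let z : algebraicClosure ℚ ℂ := ⟨ζ, mem_algebraicClosure_iff'.mpr hintQ⟩
  have hz : (z : ℂ) = ζ := rfl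
  have hσz : σ z = ζ ^ k' := hσ z hz
  -- the traces
  let b : ℕ → algebraicClosure ℚ ℂ := fun k => -(1 + (z ^ (2 * k + 1) + (z ^ (2 * k + 1))⁻¹))
  have hb : ∀ k, ((b k : algebraicClosure ℚ ℂ) : ℂ) = ((-be N k : ℝ) : ℂ) := by
    intro k
    have h1 : ((b k : algebraicClosure ℚ ℂ) : ℂ) = -(1 + (ζ ^ (2 * k + 1) + (ζ ^ (2 * k + 1))⁻¹)) := by
      simp [b, hz]
    rw [h1, hζ, zeta_pow_add]
    unfold be th
    push_cast
    ring_nf
  have hσb : ∀ k, σ (b k) =
      ((-(1 + 2 * Real.cos (Real.pi * (k' * (2 * k + 1) : ℕ) / N)) : ℝ) : ℂ) := by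
    intro k
    have h1 : σ (b k) = -(1 + (ζ ^ (k' * (2 * k + 1)) + (ζ ^ (k' * (2 * k + 1)))⁻¹)) := by
      simp only [b, map_neg, map_add, map_one, map_pow, map_inv₀, hσz, pow_mul]
    rw [h1, hζ, zeta_pow_add]
    push_cast
    ring_nf
  -- the unimodular numbers
  have he : ∀ k ∈ K, Complex.exp (Complex.I * (ph N k : ℝ)) ^ 2 -
      ((-be N k : ℝ) : ℂ) * Complex.exp (Complex.I * (ph N k : ℝ)) + 1 = 0 := by
    intro k hk
    have hb2 := abs_le.mp (hK k hk)
    have hc : Real.cos (ph N k) = -(be N k) / 2 := by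
      unfold ph
      exact Real.cos_arccos (by linarith) (by linarith)
    have h1 : ((-be N k : ℝ) : ℂ) = Complex.exp (Complex.I * (ph N k : ℝ)) +
        (Complex.exp (Complex.I * (ph N k : ℝ)))⁻¹ := by
      have h2 : (-be N k : ℝ) = 2 * Real.cos (ph N k) := by rw [hc]; ring
      rw [h2, ← Complex.exp_neg]
      push_cast
      rw [Complex.cos, mul_comm Complex.I]
      ring_nf
    rw [h1]
    have h3 := Complex.exp_ne_zero (Complex.I * (ph N k : ℝ))
    field_simp
    ring
  have hint : ∀ k ∈ K, IsIntegral ℚ (Complex.exp (Complex.I * (ph N k : ℝ))) := by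
    intro k hk
    have h1 : IsIntegral (algebraicClosure ℚ ℂ) (Complex.exp (Complex.I * (ph N k : ℝ))) := by
      refine ⟨X ^ 2 - C (b k) * X + 1, ?_, ?_⟩
      · have : (X ^ 2 - C (b k) * X + 1 : (algebraicClosure ℚ ℂ)[X]) =
            X ^ 2 + (-C (b k) * X + 1) := by ring
        rw [this]
        refine monic_X_pow_add ?_
        refine lt_of_le_of_lt (degree_add_le _ _) ?_
        rw [max_lt_iff]
        constructor
        · rw [← C_neg]
          exact lt_of_le_of_lt (degree_C_mul_X_le _) (by norm_num)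
        · rw [degree_one]
          norm_num
      · have h2 := he k hk
        rw [← hb k] at h2
        simp only [eval₂_add, eval₂_sub, eval₂_pow, eval₂_X, eval₂_mul, eval₂_C, eval₂_one]
        exact h2
    have halg := algebraicClosure.isAlgebraic ℚ ℂ
    have hint' : Algebra.IsIntegral ℚ (algebraicClosure ℚ ℂ) := halg.isIntegral
    exact isIntegral_trans (R := ℚ) (A := algebraicClosure ℚ ℂ) _ h1
  classical
  let e : ℕ → algebraicClosure ℚ ℂ := fun k =>
    if hk : k ∈ K then ⟨Complex.exp (Complex.I * (ph N k : ℝ)), mem_algebraicClosure_iff'.mpr (hint k hk)⟩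
    else 1
  have hev : ∀ k ∈ K, ((e k : algebraicClosure ℚ ℂ) : ℂ) = Complex.exp (Complex.I * (ph N k : ℝ)) := by
    intro k hk
    simp [e, hk]
  have heq : ∀ k ∈ K, e k ^ 2 - b k * e k + 1 = 0 := by
    intro k hk
    apply Subtype.ext
    have := he k hk
    rw [← hb k, ← hev k hk] at this
    push_cast
    exact this
  have hrelA : ∏ k ∈ K, e k ^ (2 * h k) = 1 := by
    apply Subtype.ext
    have h1 : ((∏ k ∈ K, e k ^ (2 * h k) : algebraicClosure ℚ ℂ) : ℂ) =
        ∏ k ∈ K, ((e k : algebraicClosure ℚ ℂ) : ℂ) ^ (2 * h k) := by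
      push_cast
      rfl
    rw [h1]
    rw [Finset.prod_congr rfl (fun k hk => by rw [hev k hk])]
    rw [hrel]
    rfl
  have hσe : ∀ k ∈ K, (σ (e k)) ^ 2 -
      ((-(1 + 2 * Real.cos (Real.pi * (k' * (2 * k + 1) : ℕ) / N)) : ℝ) : ℂ) * σ (e k) + 1 = 0 := by
    intro k hk
    have := congrArg σ (heq k hk)
    rw [map_add, map_sub, map_pow, map_mul, map_one, map_zero, hσb k] at this
    exact this
  have hσrel : ∏ k ∈ K, σ (e k) ^ (2 * h k) = 1 := by
    have := congrArg σ hrelA
    rw [map_prod, map_one] at this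
    rw [← this]
    exact Finset.prod_congr rfl (fun k _ => by rw [map_zpow₀])
  have hnorm : ∏ k ∈ K, ‖σ (e k)‖ ^ (2 * h k) = 1 := by
    have := congrArg norm hσrel
    rw [norm_prod, norm_one] at this
    rw [← this]
    exact Finset.prod_congr rfl (fun k _ => by rw [norm_zpow])
  rw [Finset.prod_eq_single k0] at hnorm
  · have h1 : ‖σ (e k0)‖ ≠ 1 := by
      refine norm_root_ne_one (hσe k0 hk0) ?_
      rw [abs_neg, lt_abs]
      left
      linarith
    have h2 : 0 < ‖σ (e k0)‖ := by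
      rw [norm_pos_iff]
      intro h3
      have h4 := hσe k0 hk0
      rw [h3] at h4
      simp at h4
    rcases lt_trichotomy ‖σ (e k0)‖ 1 with h3 | h3 | h3
    · have := zpow_right_injective₀ h2 h3.ne (a₁ := 2 * h k0) (a₂ := 0) (by simpa using hnorm)
      omega
    · exact absurd h3 h1
    · have := zpow_right_injective₀ h2 h3.ne' (a₁ := 2 * h k0) (a₂ := 0) (by simpa using hnorm)
      omega
  · intro k hk hne
    have h1 : ‖σ (e k)‖ = 1 := by
      refine norm_root_one (hσe k hk) ?_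
      rw [abs_neg, abs_le]
      have h2 := hoth k hk hne
      have h3 := Real.neg_one_le_cos (Real.pi * (k' * (2 * k + 1) : ℕ) / N)
      constructor <;> linarith
    rw [h1, one_zpow]
  · intro h1
    exact absurd hk0 h1

end Pool.Agent.FD
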