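import Pool.Agent.FD.Spec
import Pool.Agent.FD.Gal

/-!
# FD: `Vt N 0` is irrational
-/

open Finset

namespace Pool.Agent.FD

namespace IrrAux

/-- `be` with the angle multiplied by `c` -/
noncomputable def bc (N c k : ℕ) : ℝ := 1 + 2 * Real.cos (c * th N k)

/-- the term of the sum as a function of `β` -/
noncomputable def TT (N : ℕ) (b : ℝ) : ℝ :=
  2 / N * ((1 + b) / ((3 - b) * (2 + b))) * √((b - 2) / (b + 2))

theorem TT_pos {N : ℕ} (hN : 0 < N) {b : ℝ} (h1 : 2 < b) (h2 : b < 3) : 0 < TT N b := by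
  unfold TT
  have hN' : (0 : ℝ) < N := by exact_mod_cast hN
  have h3 : 0 < (b - 2) / (b + 2) := div_pos (by linarith) (by linarith)
  have h4 : 0 < (1 + b) / ((3 - b) * (2 + b)) :=
    div_pos (by linarith) (mul_pos (by linarith) (by linarith))
  have := Real.sqrt_pos.2 h3
  positivity

theorem kap_ct {N k : ℕ} (hk : k ∈ range (N / 2)) :
    kap N k * ct N k = 2 / N * ((1 + be N k) / ((3 - be N k) * (2 + be N k))) := by
  have h := ct_sq hk
  have h1 := be_gt hk
  have h2 := be_lt hk
  have h3 : 3 - be N k ≠ 0 := by linarith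
  have h4 : 2 + be N k ≠ 0 := by linarith
  unfold kap
  have : 2 / (N : ℝ) * ct N k / (2 + be N k) * ct N k = 2 / N * (ct N k ^ 2) / (2 + be N k) := by
    ring
  rw [this, h, mul_div_assoc, div_div]

theorem cos_th_le {N k : ℕ} (_hN : 0 < N) : bc N 1 k = be N k := by
  simp [bc, be]

/-- the value of `bc` is the value of `be` at another index (when it is bigger than `2`) -/
theorem exists_index {N c k : ℕ} (hN : 5 ≤ N) (hc : Odd c) (h : 2 < bc N c k) :
    ∃ j ∈ range (N / 2), be N j = bc N c k := by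
  have hN0 : (0 : ℝ) < N := by exact_mod_cast (by omega : 0 < N)
  set m : ℕ := c * (2 * k + 1) with hm
  have hmo : Odd m := hc.mul ⟨k, rfl⟩
  set r : ℕ := m % (2 * N) with hr
  have hro : Odd r := by
    have h1 := Nat.div_add_mod m (2 * N)
    rw [Nat.odd_iff] at hmo ⊢
    have h2 : 2 * (N * (m / (2 * N))) + r = m := by
      rw [← mul_assoc]
      exact h1
    omega
  have hr2 : r < 2 * N := Nat.mod_lt _ (by omega)
  have hcosm : Real.cos (c * th N k) = Real.cos (Real.pi * r / N) := by
    have h1 : (c : ℝ) * th N k = Real.pi * r / N + (m / (2 * N) : ℕ) * (2 * Real.pi) := by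
      have h2 : (m : ℝ) = (2 * N : ℕ) * (m / (2 * N) : ℕ) + (r : ℕ) := by
        have := Nat.div_add_mod m (2 * N)
        exact_mod_cast this.symm
      unfold th
      have h3 : (c : ℝ) * (Real.pi * (2 * k + 1) / N) = Real.pi * m / N := by
        rw [hm]; push_cast; ring
      rw [h3, h2]
      push_cast
      field_simp
      ring
    rw [h1, Real.cos_add_nat_mul_two_pi]
  have key : ∀ s : ℕ, Odd s → s ≤ N → Real.cos (c * th N k) = Real.cos (Real.pi * s / N) →
      ∃ j ∈ range (N / 2), be N j = bc N c k := by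
    intro s hs hsN hcs
    obtain ⟨j, hj⟩ := hs
    have hsne : s ≠ N := by
      rintro rfl
      rw [mul_div_assoc, div_self hN0.ne', mul_one, Real.cos_pi] at hcs
      unfold bc at h
      rw [hcs] at h
      norm_num at h
    refine ⟨j, ?_, ?_⟩
    · rw [mem_range]; omega
    · unfold be bc th
      unfold th at hcs
      rw [hcs, hj]
      push_cast
      rfl
  by_cases hrN : r ≤ N
  · exact key r hro hrN hcosm
  · refine key (2 * N - r) ?_ (by omega) ?_
    · rw [Nat.odd_iff] at hro ⊢; omega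
    · rw [hcosm]
      have h1 : Real.pi * ((2 * N - r : ℕ) : ℝ) / N = 2 * Real.pi - Real.pi * r / N := by
        rw [Nat.cast_sub (by omega)]
        push_cast
        field_simp
      rw [h1, Real.cos_two_pi_sub]

theorem be_inj {N j k : ℕ} (hj : j ∈ range (N / 2)) (hk : k ∈ range (N / 2))
    (h : be N j = be N k) : j = k := by
  have hN0 : (0 : ℝ) < N := by
    rw [mem_range] at hj
    exact_mod_cast (by omega : 0 < N)
  have hth : ∀ i ∈ range (N / 2), th N i ∈ Set.Icc 0 Real.pi := by
    intro i hi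
    rw [mem_range] at hi
    unfold th
    constructor
    · positivity
    · rw [div_le_iff₀ hN0]
      have : ((2 * i + 1 : ℕ) : ℝ) ≤ N := by exact_mod_cast (by omega : 2 * i + 1 ≤ N)
      push_cast at this
      exact mul_le_mul_of_nonneg_left this Real.pi_pos.le
  have h1 : Real.cos (th N j) = Real.cos (th N k) := by
    unfold be at h; linarith
  have h2 := Real.injOn_cos (hth j hj) (hth k hk) h1
  unfold th at h2
  have h3 : Real.pi * (2 * (j : ℝ) + 1) = Real.pi * (2 * k + 1) :=
    (div_left_inj' hN0.ne').1 h2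
  have h4 := mul_left_cancel₀ Real.pi_ne_zero h3
  have h5 : (j : ℝ) = k := by linarith
  exact_mod_cast h5

theorem re_le_sqrt {w : ℂ} {D : ℝ} (h : w ^ 2 = (D : ℂ)) : w.re ≤ √D := by
  have h1 := congrArg Complex.re h
  have h2 := congrArg Complex.im h
  simp only [pow_two, Complex.mul_re, Complex.mul_im, Complex.ofReal_re, Complex.ofReal_im] at h1 h2
  by_cases hr : w.re ≤ 0
  · exact hr.trans (Real.sqrt_nonneg D)
  · push Not at hr
    have h3 : w.im = 0 := by
      have : w.re * w.im = 0 := by linarith [mul_comm w.re w.im]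
      exact (mul_eq_zero.1 this).resolve_left hr.ne'
    apply Real.le_sqrt_of_sq_le
    rw [h3] at h1
    nlinarith

theorem exists_mult {N : ℕ} (hN : 5 ≤ N) :
    ∃ c : ℕ, Nat.Coprime c (2 * N) ∧ Odd c ∧ bc N c 0 ≤ 2 := by
  have hN0 : (0 : ℝ) < N := by exact_mod_cast (by omega : 0 < N)
  have hN5 : (5 : ℝ) ≤ N := by exact_mod_cast hN
  have key : ∀ d c : ℕ, c + d = N → (d : ℝ) ≤ 2 → bc N c 0 ≤ 2 := by
    intro d c hcd hd
    unfold bc th
    have h1 : (c : ℝ) * (Real.pi * (2 * (0 : ℕ) + 1) / N) = Real.pi - Real.pi * d / N := by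
      have : (c : ℝ) = N - d := by
        have : (c : ℝ) + d = N := by exact_mod_cast hcd
        linarith
      rw [this]
      push_cast
      field_simp
      ring
    rw [h1, Real.cos_pi_sub]
    have h2 : 0 ≤ Real.cos (Real.pi * d / N) := by
      apply Real.cos_nonneg_of_neg_pi_div_two_le_of_le
      · have : 0 ≤ Real.pi * d / N := by positivity
        linarith [Real.pi_pos]
      · rw [div_le_iff₀ hN0]
        have : (d : ℝ) ≤ N / 2 := by linarith
        calc Real.pi * d ≤ Real.pi * (N / 2) := mul_le_mul_of_nonneg_left this Real.pi_pos.le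
          _ = Real.pi / 2 * N := by ring
    linarith
  rcases Nat.even_or_odd N with he | ho
  · refine ⟨N - 1, ?_, ?_, key 1 (N - 1) (by omega) (by norm_num)⟩
    · have hodd : Odd (N - 1) := by
        rw [Nat.even_iff] at he; rw [Nat.odd_iff]; omega
      refine Nat.Coprime.mul_right (Nat.coprime_two_right.2 hodd) ?_
      have h := Nat.coprime_self_sub_left (m := 1) (n := N) (by omega)
      exact h.2 (Nat.coprime_one_left N)
    · rw [Nat.even_iff] at he; rw [Nat.odd_iff]; omega
  · refine ⟨N - 2, ?_, ?_, key 2 (N - 2) (by omega) (by norm_num)⟩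
    · have hodd : Odd (N - 2) := by
        rw [Nat.odd_iff] at ho ⊢; omega
      refine Nat.Coprime.mul_right (Nat.coprime_two_right.2 hodd) ?_
      have h := Nat.coprime_self_sub_left (m := 2) (n := N) (by omega)
      exact h.2 (Nat.coprime_two_left.2 ho)
    · rw [Nat.odd_iff] at ho ⊢; omega

end IrrAux

open IrrAux

theorem Vt_irr {N : ℕ} (hN : 5 ≤ N) : Irrational (Vt N (fun _ => 0)) := by
  have hN0 : (0 : ℝ) < N := by exact_mod_cast (by omega : 0 < N)
  have hN0C : (N : ℂ) ≠ 0 := by exact_mod_cast (by omega : N ≠ 0)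
  obtain ⟨α, hα⟩ := alph_rat (N := N) (by omega)
  obtain ⟨c, hcc, hco, hc0⟩ := exists_mult hN
  obtain ⟨σ, hσ⟩ := exists_sigma N c (by omega) hcc
  set S := (range (N / 2)).filter (fun k => 2 < be N k) with hS
  have hV : Vt N (fun _ => 0) = alph N - ∑ k ∈ S, TT N (be N k) := by
    unfold Vt alph
    rw [hS, sum_filter, ← sum_sub_distrib]
    refine sum_congr rfl fun k hk => ?_
    by_cases h : 2 < be N k
    · simp only [h, if_true]
      rw [kap_ct hk]
      unfold TT
      ring
    · simp only [h, if_false]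
      ring
  rintro ⟨q, hq⟩
  have hH : ∑ k ∈ S, TT N (be N k) = ((α - q : ℚ) : ℝ) := by
    push_cast
    rw [hV, hα] at hq
    linarith
  -- the algebraic numbers
  set z0 : ℂ := Complex.exp (Complex.I * (Real.pi / N : ℝ)) with hz0
  have hz0p : ∀ m : ℕ, z0 ^ m = Complex.exp ((Real.pi * m / N : ℝ) * Complex.I) := by
    intro m
    rw [hz0, ← Complex.exp_nat_mul]
    congr 1
    push_cast
    ring
  have hz0N : z0 ^ (2 * N) = 1 := by
    rw [hz0p]
    have : ((Real.pi * ((2 * N : ℕ) : ℝ) / N : ℝ) * Complex.I : ℂ) = 2 * Real.pi * Complex.I := by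
      push_cast
      field_simp
    rw [this, Complex.exp_two_pi_mul_I]
  have hz0a : IsAlgebraic ℚ z0 := by
    refine IsAlgebraic.of_pow (n := 2 * N) (by omega) ?_
    rw [hz0N]
    exact isAlgebraic_one
  set z : algebraicClosure ℚ ℂ := ⟨z0, mem_algebraicClosure_iff.2 hz0a⟩ with hz
  have hzc : ((z : algebraicClosure ℚ ℂ) : ℂ) = z0 := rfl
  have hσz : σ z = z0 ^ c := hσ z rfl
  have hsum : ∀ m : ℕ, z0 ^ m + (z0 ^ m)⁻¹ = ((2 * Real.cos (Real.pi * m / N) : ℝ) : ℂ) := by
    intro m
    rw [hz0p, ← Complex.exp_neg, ← neg_mul]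
    push_cast
    rw [Complex.two_cos]
  set B : ℕ → algebraicClosure ℚ ℂ := fun k => 1 + (z ^ (2 * k + 1) + (z ^ (2 * k + 1))⁻¹) with hB
  have hBc : ∀ k, ((B k : algebraicClosure ℚ ℂ) : ℂ) = (be N k : ℝ) := by
    intro k
    simp only [hB]
    push_cast
    rw [hzc, hsum]
    unfold be th
    push_cast
    rfl
  have hσB : ∀ k, σ (B k) = (bc N c k : ℝ) := by
    intro k
    simp only [hB, map_add, map_one, map_inv₀, map_pow]
    rw [hσz, ← pow_mul, hsum]
    unfold bc th
    push_cast
    congr 3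
    ring
  have hBinj : ∀ j ∈ range (N / 2), ∀ k ∈ range (N / 2), bc N c j = bc N c k → j = k := by
    intro j hj k hk h
    have h1 : σ (B j) = σ (B k) := by rw [hσB, hσB, h]
    have h2 : B j = B k := σ.toRingHom.injective h1
    have h3 : (be N j : ℂ) = be N k := by rw [← hBc, ← hBc, h2]
    exact be_inj hj hk (by exact_mod_cast h3)
  have hQ : ∀ k, ∃ Q : algebraicClosure ℚ ℂ, k ∈ S →
      ((Q : algebraicClosure ℚ ℂ) : ℂ) = (√((be N k - 2) / (be N k + 2)) : ℝ) ∧
      Q ^ 2 = (B k - 2) / (B k + 2) := by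
    intro k
    by_cases hk : k ∈ S
    swap
    · exact ⟨0, fun h => absurd h hk⟩
    have hk2 : 2 < be N k := (mem_filter.1 hk).2
    have h0 : 0 ≤ (be N k - 2) / (be N k + 2) := div_nonneg (by linarith) (by linarith)
    have h1 : ((√((be N k - 2) / (be N k + 2)) : ℝ) : ℂ) ^ 2 =
        (((B k - 2) / (B k + 2) : algebraicClosure ℚ ℂ) : ℂ) := by
      rw [← Complex.ofReal_pow, Real.sq_sqrt h0]
      push_cast
      rw [hBc]
      rfl
    have h2 : IsAlgebraic ℚ ((√((be N k - 2) / (be N k + 2)) : ℝ) : ℂ) := by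
      refine IsAlgebraic.of_pow (n := 2) (by omega) ?_
      rw [h1]
      exact mem_algebraicClosure_iff.1 (SetLike.coe_mem _)
    refine ⟨⟨_, mem_algebraicClosure_iff.2 h2⟩, fun _ => ⟨rfl, ?_⟩⟩
    apply Subtype.ext
    push_cast
    rw [h1]
    push_cast
    rfl
  choose Q hQ using hQ
  set T : ℕ → algebraicClosure ℚ ℂ := fun k =>
    2 / (N : algebraicClosure ℚ ℂ) * ((1 + B k) / ((3 - B k) * (2 + B k))) * Q k with hT
  have hTc : ∀ k ∈ S, ((T k : algebraicClosure ℚ ℂ) : ℂ) = (TT N (be N k) : ℝ) := by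
    intro k hk
    simp only [hT]
    unfold TT
    push_cast
    rw [hBc, (hQ k hk).1]
    rfl
  have hsumT : (∑ k ∈ S, T k) = algebraMap ℚ (algebraicClosure ℚ ℂ) (α - q) := by
    apply Subtype.ext
    push_cast
    rw [sum_congr rfl hTc, ← Complex.ofReal_sum, hH]
    simp
  have hσsum : ∑ k ∈ S, σ (T k) = ((α - q : ℚ) : ℂ) := by
    rw [← map_sum, hsumT, AlgHom.commutes]
    simp
  have hre : ∑ k ∈ S, (σ (T k)).re = ∑ k ∈ S, TT N (be N k) := by
    rw [hH, ← Complex.re_sum, hσsum]
    exact Complex.ratCast_re _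
  have hle : ∀ k ∈ S, (σ (T k)).re ≤ TT N (bc N c k) := by
    intro k hk
    have hw2 : (σ (Q k)) ^ 2 = (((bc N c k - 2) / (bc N c k + 2) : ℝ) : ℂ) := by
      rw [← map_pow, (hQ k hk).2, map_div₀, map_sub σ (B k), map_add σ (B k), hσB, map_ofNat]
      push_cast
      rfl
    have hσT : σ (T k) = ((2 / N * ((1 + bc N c k) / ((3 - bc N c k) * (2 + bc N c k))) : ℝ) : ℂ) *
        σ (Q k) := by
      simp only [hT, map_mul, map_div₀, map_add, map_sub, map_one, hσB, map_ofNat, map_natCast]
      push_cast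
      rfl
    rw [hσT, Complex.re_ofReal_mul]
    unfold TT
    refine mul_le_mul_of_nonneg_left (re_le_sqrt hw2) ?_
    have h1 : -1 ≤ bc N c k := by
      unfold bc; linarith [Real.neg_one_le_cos ((c : ℝ) * th N k)]
    have h2 : bc N c k ≤ 3 := by
      unfold bc; linarith [Real.cos_le_one ((c : ℝ) * th N k)]
    have h3 : 0 ≤ (1 + bc N c k) / ((3 - bc N c k) * (2 + bc N c k)) :=
      div_nonneg (by linarith) (mul_nonneg (by linarith) (by linarith))
    positivity
  set S' := S.filter (fun k => 2 < bc N c k) with hS'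
  have hsum' : ∑ k ∈ S, TT N (bc N c k) = ∑ k ∈ S', TT N (bc N c k) := by
    conv_rhs => rw [hS', sum_filter]
    refine sum_congr rfl fun k _ => ?_
    by_cases h : 2 < bc N c k
    · simp [h]
    · simp only [h, if_false]
      unfold TT
      have h1 : -1 ≤ bc N c k := by
        unfold bc; linarith [Real.neg_one_le_cos ((c : ℝ) * th N k)]
      rw [Real.sqrt_eq_zero_of_nonpos, mul_zero]
      exact div_nonpos_of_nonpos_of_nonneg (by linarith) (by linarith)
  have hj : ∀ k, ∃ j, k ∈ S' → j ∈ range (N / 2) ∧ be N j = bc N c k := by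
    intro k
    by_cases hk : k ∈ S'
    · obtain ⟨j, h1, h2⟩ := exists_index hN hco (mem_filter.1 hk).2
      exact ⟨j, fun _ => ⟨h1, h2⟩⟩
    · exact ⟨0, fun h => absurd h hk⟩
  choose j hj using hj
  have hjinj : Set.InjOn j S' := by
    intro k1 h1 k2 h2 h
    have h1' := mem_coe.1 h1
    have h2' := mem_coe.1 h2
    refine hBinj k1 (mem_filter.1 (mem_filter.1 h1').1).1 k2
      (mem_filter.1 (mem_filter.1 h2').1).1 ?_
    rw [← (hj k1 h1').2, ← (hj k2 h2').2, h]
  have himg : S'.image j ⊆ S := by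
    intro i hi
    obtain ⟨k, hk, rfl⟩ := mem_image.1 hi
    refine mem_filter.2 ⟨(hj k hk).1, ?_⟩
    rw [(hj k hk).2]
    exact (mem_filter.1 hk).2
  have h0S : 0 ∈ S := by
    refine mem_filter.2 ⟨mem_range.2 (by omega), ?_⟩
    have h1 : Real.cos (Real.pi / 3) < Real.cos (th N 0) := by
      apply Real.cos_lt_cos_of_nonneg_of_le_pi
      · unfold th; positivity
      · linarith [Real.pi_pos]
      · unfold th
        simp only [Nat.cast_zero, mul_zero, zero_add, mul_one]
        apply div_lt_div_of_pos_left Real.pi_pos (by norm_num)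
        exact_mod_cast (by omega : 3 < N)
    rw [Real.cos_pi_div_three] at h1
    unfold be
    linarith
  have h0S' : 0 ∉ S' := by
    intro h
    have := (mem_filter.1 h).2
    linarith
  have hcard : (S'.image j).card < S.card := by
    refine lt_of_le_of_lt card_image_le ?_
    apply card_lt_card
    refine ⟨filter_subset _ _, fun h => h0S' (h h0S)⟩
  obtain ⟨i, hiS, hi⟩ := exists_mem_notMem_of_card_lt_card hcard
  have hTTpos : ∀ i ∈ S, 0 < TT N (be N i) := fun i hi =>
    TT_pos (by omega) (mem_filter.1 hi).2 (be_lt (mem_filter.1 hi).1)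
  have hlt : ∑ i ∈ S'.image j, TT N (be N i) < ∑ i ∈ S, TT N (be N i) :=
    sum_lt_sum_of_subset himg hiS hi (hTTpos i hiS) fun i hi _ => (hTTpos i hi).le
  rw [sum_image hjinj] at hlt
  have hfin : ∑ k ∈ S', TT N (be N (j k)) = ∑ k ∈ S', TT N (bc N c k) :=
    sum_congr rfl fun k hk => by rw [(hj k hk).2]
  have := sum_le_sum hle
  linarith

end Pool.Agent.FD
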