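import Pool.Agent.FD.Defs

/-!
# Fixed point interval arithmetic and trigonometric tables: definitions (kernel computable)
-/

namespace Pool.Agent.FD

/-- the scale -/
def SC : ℤ := 1000000000000000

/-- an interval `[lo / SC, hi / SC]` -/
structure Iv where
  lo : ℤ
  hi : ℤ

namespace Iv

/-- `x` belongs to the interval -/
def Has (I : Iv) (x : ℝ) : Prop := (I.lo : ℝ) ≤ SC * x ∧ (SC : ℝ) * x ≤ I.hi

/-- ceiling of a quotient -/
def cdiv (a b : ℤ) : ℤ := -((-a) / b)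

def rat (p : ℤ) (q : ℤ) : Iv := ⟨p * SC / q, cdiv (p * SC) q⟩
def neg (I : Iv) : Iv := ⟨-I.hi, -I.lo⟩
def add (I J : Iv) : Iv := ⟨I.lo + J.lo, I.hi + J.hi⟩
def sub (I J : Iv) : Iv := ⟨I.lo - J.hi, I.hi - J.lo⟩
/-- multiplication by an integer `n ≥ 0` -/
def nmul (n : ℤ) (I : Iv) : Iv := ⟨n * I.lo, n * I.hi⟩
/-- division by an integer `n > 0` -/
def ndiv (I : Iv) (n : ℤ) : Iv := ⟨I.lo / n, cdiv I.hi n⟩
def mul (I J : Iv) : Iv :=
  let a := I.lo * J.lo
  let b := I.lo * J.hi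
  let c := I.hi * J.lo
  let d := I.hi * J.hi
  ⟨min (min a b) (min c d) / SC, cdiv (max (max a b) (max c d)) SC⟩
/-- inverse of a positive interval -/
def inv (I : Iv) : Iv := ⟨SC * SC / I.hi, cdiv (SC * SC) I.lo⟩
def abs (I : Iv) : Iv := ⟨max 0 (max I.lo (-I.hi)), max I.hi (-I.lo)⟩
/-- square, tight -/
def sq (I : Iv) : Iv :=
  let A := I.abs
  ⟨A.lo * A.lo / SC, cdiv (A.hi * A.hi) SC⟩
def imax (I J : Iv) : Iv := ⟨max I.lo J.lo, max I.hi J.hi⟩

/-- Newton iteration for the integer square root -/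
def newt (n : ℕ) : ℕ → ℕ → ℕ
  | 0, s => s
  | f + 1, s => newt n f ((s + n / (s + 1)) / 2 + 1)

/-- approximate integer square root -/
def isq (n : ℕ) : ℕ := newt n 60 SC.toNat

/-- square root of a nonnegative interval -/
def sqrt (I : Iv) : Iv :=
  let n := (I.lo * SC).toNat
  let m := (I.hi * SC).toNat
  let s := isq n - 3
  let t := isq m + 3
  ⟨if 0 ≤ I.lo ∧ s * s ≤ n then s else 0, if m ≤ t * t then t else I.hi + SC⟩

end Iv

/-! ### complex numbers of modulus one -/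

/-- fixed point multiplication of complex numbers -/
def cmul (z w : ℤ × ℤ) : ℤ × ℤ :=
  ((z.1 * w.1 - z.2 * w.2) / SC, (z.1 * w.2 + z.2 * w.1) / SC)

/-- the list `[w, w z, w z ^ 2, …]` of length `n` -/
def powTab (z : ℤ × ℤ) : ℕ → ℤ × ℤ → List (ℤ × ℤ)
  | 0, _ => []
  | n + 1, w => w :: powTab z n (cmul w z)

/-- `z / SC` is within `E / SC` of `exp (i θ)` -/
def Near (z : ℤ × ℤ) (θ : ℝ) (E : ℝ) : Prop :=
  ‖((z.1 : ℂ) + (z.2 : ℂ) * Complex.I) - (SC : ℂ) * Complex.exp ((θ : ℂ) * Complex.I)‖ ≤ E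

/-- Taylor terms: `(X / SC) ^ m / m !`, real and imaginary part of `∑ (i x) ^ m / m !`;
`(re, im)` accumulates, `T` is the current term, `m` its index -/
def tay (X : ℤ) : ℕ → ℕ → ℤ → ℤ × ℤ → ℤ × ℤ
  | 0, _, _, a => a
  | f + 1, m, T, a =>
    let a' : ℤ × ℤ :=
      if m % 4 = 0 then (a.1 + T, a.2) else if m % 4 = 1 then (a.1, a.2 + T)
      else if m % 4 = 2 then (a.1 - T, a.2) else (a.1, a.2 - T)
    tay X f (m + 1) (T * X / (SC * (m + 1))) a'

/-- approximation of `exp (i π / N)` -/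
def unit (N : ℕ) : ℤ × ℤ := tay (3141592653589793 / N) 18 0 SC (0, 0)

/-- interval for the real / imaginary part of a number near to within `E` -/
def reI (z : ℤ × ℤ) (E : ℤ) : Iv := ⟨z.1 - E, z.1 + E⟩
def imI (z : ℤ × ℤ) (E : ℤ) : Iv := ⟨z.2 - E, z.2 + E⟩

end Pool.Agent.FD
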