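import Mathlib

/-!
# FD: Kronecker's theorem
-/

open Finset Filter Topology

namespace Pool.Agent.FD

/-- `|1 + z|^(2L)` as a Laurent polynomial -/
theorem kron_pow {z : ℂ} (hz : ‖z‖ = 1) (L : ℕ) :
    (((‖1 + z‖ ^ 2) ^ L : ℝ) : ℂ) =
      ∑ j ∈ range (2 * L + 1), ((2 * L).choose j : ℂ) * z ^ ((j : ℤ) - L) := by
  have h0 : z ≠ 0 := by
    intro h; rw [h, norm_zero] at hz; norm_num at hz
  have h1 : ((‖1 + z‖ ^ 2 : ℝ) : ℂ) = (1 + z) ^ 2 * z⁻¹ := by
    have h2 : (starRingEnd ℂ) z = z⁻¹ := by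
      rw [Complex.inv_def, Complex.normSq_eq_norm_sq, hz]; simp
    have h3 : ((‖1 + z‖ ^ 2 : ℝ) : ℂ) = (1 + z) * (starRingEnd ℂ) (1 + z) := by
      rw [Complex.mul_conj, Complex.normSq_eq_norm_sq]
    rw [h3, map_add, map_one, h2]
    field_simp
    ring
  rw [Complex.ofReal_pow, h1, mul_pow, ← pow_mul, add_comm 1 z, add_pow, sum_mul]
  refine sum_congr rfl (fun j hj => ?_)
  rw [one_pow, mul_one, zpow_sub₀ h0, zpow_natCast, zpow_natCast, inv_pow, div_eq_mul_inv]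
  ring

/-- geometric sums are bounded -/
theorem kron_geom {w : ℂ} (hw : ‖w‖ = 1) (h1 : w ≠ 1) (T : ℕ) :
    ‖∑ l ∈ range T, w ^ l‖ ≤ 2 / ‖w - 1‖ := by
  rw [geom_sum_eq h1, norm_div]
  gcongr
  calc ‖w ^ T - 1‖ ≤ ‖w ^ T‖ + ‖(1 : ℂ)‖ := norm_sub_le _ _
    _ = 2 := by rw [norm_pow, hw, one_pow, norm_one]; norm_num

/-- the average of the product of Fejér type kernels -/
theorem kron_avg (K : ℕ) (u v : Fin K → ℂ) (hu : ∀ k, ‖u k‖ = 1) (hv : ∀ k, ‖v k‖ = 1)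
    (hind : ∀ h : Fin K → ℤ, ∏ k, u k ^ h k = 1 → h = 0) (L : ℕ) :
    ∃ E : ℝ, ∀ T : ℕ,
      (T : ℝ) * ((2 * L).choose L : ℝ) ^ K - E ≤
        ∑ l ∈ range T, ∏ k, (‖1 + u k ^ l * v k‖ ^ 2) ^ L := by
  classical
  have hu0 : ∀ k, u k ≠ 0 := fun k h => by have := hu k; rw [h, norm_zero] at this; norm_num at this
  have hv0 : ∀ k, v k ≠ 0 := fun k h => by have := hv k; rw [h, norm_zero] at this; norm_num at this
  set W : (Fin K → ℕ) → ℂ := fun p => ∏ k, u k ^ ((p k : ℤ) - L) with hW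
  set c : (Fin K → ℕ) → ℂ := fun p => ∏ k, (((2 * L).choose (p k) : ℂ) * v k ^ ((p k : ℤ) - L)) with hc
  set F := Fintype.piFinset (fun _ : Fin K => range (2 * L + 1)) with hF
  have key : ∀ l : ℕ, ((∏ k, (‖1 + u k ^ l * v k‖ ^ 2) ^ L : ℝ) : ℂ) = ∑ p ∈ F, c p * W p ^ l := by
    intro l
    rw [Complex.ofReal_prod]
    have h1 : ∀ k : Fin K, (((‖1 + u k ^ l * v k‖ ^ 2) ^ L : ℝ) : ℂ) =
        ∑ j ∈ range (2 * L + 1), ((2 * L).choose j : ℂ) * (u k ^ l * v k) ^ ((j : ℤ) - L) := by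
      intro k
      exact kron_pow (by rw [norm_mul, norm_pow, hu, hv, one_pow, one_mul]) L
    rw [Finset.prod_congr rfl (fun k _ => h1 k), Finset.prod_univ_sum]
    refine sum_congr rfl (fun p _ => ?_)
    simp only [hc, hW]
    rw [← prod_pow, ← prod_mul_distrib]
    refine prod_congr rfl (fun k _ => ?_)
    rw [mul_zpow, ← zpow_natCast (u k) l, ← zpow_mul, ← zpow_natCast (u k ^ ((p k : ℤ) - L)) l,
      ← zpow_mul, mul_comm (l : ℤ)]
    ring
  set p0 : Fin K → ℕ := fun _ => L with hp0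
  have hp0F : p0 ∈ F := by
    rw [hF, Fintype.mem_piFinset]
    intro k
    simp only [hp0, mem_range]
    omega
  have hc0 : c p0 = ((2 * L).choose L : ℂ) ^ K := by
    simp [hc, hp0]
  have hW0 : W p0 = 1 := by simp [hW, hp0]
  have hWne : ∀ p ∈ F.erase p0, W p ≠ 1 := by
    intro p hp h
    have h2 := hind (fun k => (p k : ℤ) - L) h
    apply (mem_erase.1 hp).1
    funext k
    have h3 := congrFun h2 k
    simp only [Pi.zero_apply] at h3
    simp only [hp0]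
    omega
  have hWn : ∀ p, ‖W p‖ = 1 := by
    intro p
    simp only [hW]
    rw [norm_prod]
    refine prod_eq_one (fun k _ => ?_)
    rw [norm_zpow, hu, one_zpow]
  refine ⟨∑ p ∈ F.erase p0, ‖c p‖ * (2 / ‖W p - 1‖), fun T => ?_⟩
  have h1 : ((∑ l ∈ range T, ∏ k, (‖1 + u k ^ l * v k‖ ^ 2) ^ L : ℝ) : ℂ) =
      (T : ℂ) * ((2 * L).choose L : ℂ) ^ K + ∑ p ∈ F.erase p0, c p * ∑ l ∈ range T, W p ^ l := by
    rw [Complex.ofReal_sum, sum_congr rfl (fun l _ => key l), sum_comm]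
    rw [← add_sum_erase F _ hp0F, hW0, hc0]
    congr 1
    · simp
    · exact sum_congr rfl (fun p _ => by rw [mul_sum])
  have h2 : ‖∑ p ∈ F.erase p0, c p * ∑ l ∈ range T, W p ^ l‖ ≤
      ∑ p ∈ F.erase p0, ‖c p‖ * (2 / ‖W p - 1‖) := by
    refine (norm_sum_le _ _).trans (sum_le_sum (fun p hp => ?_))
    rw [norm_mul]
    exact mul_le_mul_of_nonneg_left (kron_geom (hWn p) (hWne p hp) T) (norm_nonneg _)
  have h3 := congrArg Complex.re h1
  rw [Complex.ofReal_re, Complex.add_re] at h3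
  have h4 : ((T : ℂ) * ((2 * L).choose L : ℂ) ^ K).re = (T : ℝ) * ((2 * L).choose L : ℝ) ^ K := by
    have : ((T : ℂ) * ((2 * L).choose L : ℂ) ^ K) = (((T : ℝ) * ((2 * L).choose L : ℝ) ^ K : ℝ) : ℂ) := by
      push_cast; ring
    rw [this, Complex.ofReal_re]
  rw [h3, h4]
  have h5 := (abs_le.1 ((Complex.abs_re_le_norm _).trans h2)).1
  linarith

/-- approximation on the circle -/
theorem kron_close (K : ℕ) (u v : Fin K → ℂ) (hu : ∀ k, ‖u k‖ = 1) (hv : ∀ k, ‖v k‖ = 1)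
    (hind : ∀ h : Fin K → ℤ, ∏ k, u k ^ h k = 1 → h = 0) {η : ℝ} (hη : 0 < η) (l0 : ℕ) :
    ∃ l ≥ l0, ∀ k, ‖u k ^ l * v k - 1‖ < η := by
  classical
  wlog h2 : η ≤ 2 generalizing η
  · obtain ⟨l, hl, h⟩ := this (η := 2) (by norm_num) le_rfl
    exact ⟨l, hl, fun k => (h k).trans (not_le.1 h2)⟩
  by_contra hcon
  push Not at hcon
  set c : ℝ := 1 - η ^ 2 / 4 with hc
  have hc0 : 0 ≤ c := by rw [hc]; nlinarith
  have hc1 : c < 1 := by rw [hc]; nlinarith [sq_pos_of_pos hη]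
  -- bound of one factor
  have hpar : ∀ z : ℂ, ‖z‖ = 1 → ‖1 + z‖ ^ 2 + ‖z - 1‖ ^ 2 = 4 := by
    intro z hz
    have := parallelogram_law_with_norm ℝ (1 : ℂ) z
    rw [norm_sub_rev, hz, norm_one] at this
    nlinarith [this]
  have hn : ∀ l k, ‖u k ^ l * v k‖ = 1 := by
    intro l k; rw [norm_mul, norm_pow, hu, hv, one_pow, one_mul]
  have hf : ∀ l k, ‖1 + u k ^ l * v k‖ ^ 2 ≤ 4 := by
    intro l k
    have := hpar _ (hn l k)
    nlinarith [sq_nonneg ‖u k ^ l * v k - 1‖]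
  have hB : ∀ L : ℕ, ∀ l ≥ l0, ∏ k, (‖1 + u k ^ l * v k‖ ^ 2) ^ L ≤ (4 ^ L) ^ K * c ^ L := by
    intro L l hl
    obtain ⟨k0, hk0⟩ := hcon l hl
    rw [← mul_prod_erase univ _ (mem_univ k0)]
    have h1 : (‖1 + u k0 ^ l * v k0‖ ^ 2) ^ L ≤ 4 ^ L * c ^ L := by
      rw [← mul_pow]
      refine pow_le_pow_left₀ (by positivity) ?_ L
      have := hpar _ (hn l k0)
      rw [hc]
      nlinarith [norm_nonneg (u k0 ^ l * v k0 - 1)]
    have h3 : ∏ k ∈ univ.erase k0, (‖1 + u k ^ l * v k‖ ^ 2) ^ L ≤ (4 ^ L) ^ (K - 1) := by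
      have : ∏ k ∈ univ.erase k0, (‖1 + u k ^ l * v k‖ ^ 2) ^ L ≤
          ∏ k ∈ univ.erase k0, (4 : ℝ) ^ L :=
        prod_le_prod (fun k _ => by positivity) (fun k _ =>
          pow_le_pow_left₀ (by positivity) (hf l k) L)
      refine this.trans_eq ?_
      rw [prod_const, card_erase_of_mem (mem_univ _), card_univ, Fintype.card_fin]
    have hK : 1 ≤ K := by have := k0.2; omega
    calc (‖1 + u k0 ^ l * v k0‖ ^ 2) ^ L * ∏ k ∈ univ.erase k0, (‖1 + u k ^ l * v k‖ ^ 2) ^ L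
        ≤ (4 ^ L * c ^ L) * (4 ^ L) ^ (K - 1) :=
          mul_le_mul h1 h3 (prod_nonneg (fun k _ => by positivity)) (by positivity)
      _ = (4 ^ L) ^ K * c ^ L := by
          obtain ⟨K', rfl⟩ : ∃ K', K = K' + 1 := ⟨K - 1, by omega⟩
          rw [Nat.add_sub_cancel, pow_succ]
          ring
  have hmain : ∀ L : ℕ, ((2 * L).choose L : ℝ) ^ K ≤ (4 ^ L) ^ K * c ^ L := by
    intro L
    obtain ⟨E, hE⟩ := kron_avg K u v hu hv hind L
    by_contra hlt
    push Not at hlt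
    set δ : ℝ := ((2 * L).choose L : ℝ) ^ K - (4 ^ L) ^ K * c ^ L with hδ
    have hδ0 : 0 < δ := by rw [hδ]; linarith
    obtain ⟨T, hT⟩ := exists_nat_gt ((E + l0 * (4 ^ L) ^ K) / δ)
    rw [div_lt_iff₀ hδ0] at hT
    have h1 := hE T
    have h2 : ∑ l ∈ range T, ∏ k, (‖1 + u k ^ l * v k‖ ^ 2) ^ L ≤
        l0 * (4 ^ L) ^ K + T * ((4 ^ L) ^ K * c ^ L) := by
      have h3 : ∀ l ∈ range T, ∏ k, (‖1 + u k ^ l * v k‖ ^ 2) ^ L ≤
          (if l < l0 then (4 ^ L) ^ K else 0) + (4 ^ L) ^ K * c ^ L := by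
        intro l _
        split_ifs with hl
        · have : ∏ k, (‖1 + u k ^ l * v k‖ ^ 2) ^ L ≤ (4 ^ L) ^ K := by
            have h5 : ∏ k, (‖1 + u k ^ l * v k‖ ^ 2) ^ L ≤ ∏ _k : Fin K, (4 : ℝ) ^ L :=
              prod_le_prod (fun k _ => by positivity) (fun k _ =>
                pow_le_pow_left₀ (by positivity) (hf l k) L)
            refine h5.trans_eq ?_
            rw [prod_const, card_univ, Fintype.card_fin]
          have h6 : (0 : ℝ) ≤ (4 ^ L) ^ K * c ^ L := by positivity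
          linarith
        · have := hB L l (not_lt.1 hl)
          linarith
      refine (sum_le_sum h3).trans ?_
      rw [sum_add_distrib, sum_const, card_range, nsmul_eq_mul]
      have h7 : ∑ l ∈ range T, (if l < l0 then ((4 : ℝ) ^ L) ^ K else 0) ≤ l0 * (4 ^ L) ^ K := by
        rw [← sum_filter, sum_const, nsmul_eq_mul]
        refine mul_le_mul_of_nonneg_right ?_ (by positivity)
        have : ((range T).filter (fun l => l < l0)).card ≤ l0 := by
          calc _ ≤ (range l0).card := card_le_card (fun x hx => by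
                rw [mem_filter] at hx; exact mem_range.2 hx.2)
            _ = l0 := card_range _
        exact_mod_cast this
      linarith
    have : (T : ℝ) * δ = T * ((2 * L).choose L : ℝ) ^ K - T * ((4 ^ L) ^ K * c ^ L) := by
      rw [hδ]; ring
    linarith
  -- growth
  have hlow : ∀ L : ℕ, 0 < L → (1 : ℝ) ≤ 2 ^ K * ((L : ℝ) ^ K * c ^ L) := by
    intro L hL
    have h1 := Nat.four_pow_le_two_mul_self_mul_centralBinom L hL
    rw [Nat.centralBinom_eq_two_mul_choose] at h1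
    have h2 : (4 : ℝ) ^ L ≤ 2 * L * ((2 * L).choose L : ℝ) := by exact_mod_cast h1
    have h3 : ((4 : ℝ) ^ L) ^ K ≤ (2 * L) ^ K * ((4 ^ L) ^ K * c ^ L) := by
      calc ((4 : ℝ) ^ L) ^ K ≤ (2 * L * ((2 * L).choose L : ℝ)) ^ K :=
            pow_le_pow_left₀ (by positivity) h2 K
        _ = (2 * L) ^ K * ((2 * L).choose L : ℝ) ^ K := by rw [mul_pow]
        _ ≤ _ := mul_le_mul_of_nonneg_left (hmain L) (by positivity)
    have h4 : (0 : ℝ) < (4 ^ L) ^ K := by positivity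
    have h5 : ((4 : ℝ) ^ L) ^ K * 1 ≤ (4 ^ L) ^ K * (2 ^ K * ((L : ℝ) ^ K * c ^ L)) := by
      calc ((4 : ℝ) ^ L) ^ K * 1 ≤ (2 * L) ^ K * ((4 ^ L) ^ K * c ^ L) := by rw [mul_one]; exact h3
        _ = _ := by rw [mul_pow]; ring
    exact le_of_mul_le_mul_left h5 h4
  have hlim := tendsto_pow_const_mul_const_pow_of_abs_lt_one K
    (show |c| < 1 by rw [abs_of_nonneg hc0]; exact hc1)
  have hlim2 := hlim.const_mul ((2 : ℝ) ^ K)
  rw [mul_zero] at hlim2
  have h8 := (hlim2.eventually (gt_mem_nhds (show (0 : ℝ) < 1 by norm_num))).and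
    (eventually_gt_atTop 0)
  obtain ⟨L, hL1, hL2⟩ := h8.exists
  exact absurd (hlow L hL2) (not_le.2 hL1)

theorem kron (K : ℕ) (φ ϑ : ℕ → ℝ)
    (hind : ∀ (h : ℕ → ℤ) (l : ℤ), ∑ k ∈ range K, (h k : ℝ) * φ k = l * Real.pi →
      ∀ k < K, h k = 0) (q : ℕ) (hq : 0 < q) : ∃ M : ℕ → ℕ, Tendsto M atTop atTop ∧
    (∀ i, 2 * q ∣ M i ∧ 2 ≤ M i) ∧ ∀ k < K,
      Tendsto (fun i => Complex.exp (Complex.I * ((M i : ℝ) * φ k : ℝ))) atTop
        (𝓝 (Complex.exp (Complex.I * (ϑ k : ℝ)))) := by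
  classical
  set u : Fin K → ℂ := fun k => Complex.exp (((2 * q * φ k : ℝ) : ℂ) * Complex.I) with hu
  set v : Fin K → ℂ := fun k => Complex.exp (((-ϑ k : ℝ) : ℂ) * Complex.I) with hv
  have hun : ∀ k, ‖u k‖ = 1 := fun k => Complex.norm_exp_ofReal_mul_I _
  have hvn : ∀ k, ‖v k‖ = 1 := fun k => Complex.norm_exp_ofReal_mul_I _
  have hI : ∀ h : Fin K → ℤ, ∏ k, u k ^ h k = 1 → h = 0 := by
    intro h hh
    have h1 : ∏ k, u k ^ h k =
        Complex.exp (((∑ k : Fin K, (h k : ℝ) * (2 * q * φ k) : ℝ) : ℂ) * Complex.I) := by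
      rw [Complex.ofReal_sum, sum_mul, Complex.exp_sum]
      refine prod_congr rfl (fun k _ => ?_)
      rw [hu]
      simp only
      rw [← Complex.exp_int_mul]
      congr 1
      push_cast
      ring
    rw [h1, Complex.exp_eq_one_iff] at hh
    obtain ⟨n, hn⟩ := hh
    have h2 : (∑ k : Fin K, (h k : ℝ) * (2 * q * φ k) : ℝ) = n * (2 * Real.pi) := by
      have h3 : (((∑ k : Fin K, (h k : ℝ) * (2 * q * φ k) : ℝ) : ℂ)) * Complex.I =
          (((n : ℝ) * (2 * Real.pi) : ℝ) : ℂ) * Complex.I := by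
        rw [hn]; push_cast; ring
      exact_mod_cast mul_right_cancel₀ Complex.I_ne_zero h3
    set h' : ℕ → ℤ := fun k => if hk : k < K then q * h ⟨k, hk⟩ else 0 with hh'
    have h3 : ∑ k ∈ range K, (h' k : ℝ) * φ k = (n : ℝ) * Real.pi := by
      rw [← Fin.sum_univ_eq_sum_range (fun k => (h' k : ℝ) * φ k) K]
      have h4 : ∀ k : Fin K, (h' k : ℝ) * φ k = (1 / 2) * ((h k : ℝ) * (2 * q * φ k)) := by
        intro k
        simp only [hh', Fin.is_lt, dite_true, Fin.eta]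
        push_cast
        ring
      rw [sum_congr rfl (fun k _ => h4 k), ← mul_sum, h2]
      ring
    have h5 := hind h' n h3
    funext k
    have h6 := h5 k k.2
    simp only [hh', Fin.is_lt, dite_true, Fin.eta] at h6
    rcases mul_eq_zero.1 h6 with h7 | h7
    · exact absurd h7 (by exact_mod_cast hq.ne')
    · simpa using h7
  choose l hl using fun i : ℕ => kron_close K u v hun hvn hI
    (show (0 : ℝ) < 1 / ((i : ℝ) + 1) by positivity) (i + 1)
  refine ⟨fun i => 2 * q * l i, ?_, ?_, ?_⟩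
  · refine tendsto_atTop_mono (fun i => ?_) tendsto_id
    have h1 := (hl i).1
    have h2 : 1 * (i + 1) ≤ 2 * q * l i := Nat.mul_le_mul (by omega) h1
    simp only [id]
    omega
  · intro i
    refine ⟨dvd_mul_right _ _, ?_⟩
    have h1 := (hl i).1
    have h2 : 2 * 1 ≤ 2 * q * l i := Nat.mul_le_mul (by omega) (by omega)
    omega
  · intro k hk
    rw [tendsto_iff_norm_sub_tendsto_zero]
    refine squeeze_zero (fun _ => norm_nonneg _) (fun i => ?_)
      (tendsto_one_div_add_atTop_nhds_zero_nat (𝕜 := ℝ))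
    have h1 := ((hl i).2 ⟨k, hk⟩).le
    have h2 : u ⟨k, hk⟩ ^ l i * v ⟨k, hk⟩ - 1 =
        (Complex.exp (Complex.I * (((2 * q * l i : ℕ) : ℝ) * φ k : ℝ)) -
          Complex.exp (Complex.I * (ϑ k : ℝ))) * v ⟨k, hk⟩ := by
      rw [sub_mul]
      simp only [hu, hv]
      rw [← Complex.exp_nat_mul, ← Complex.exp_add, ← Complex.exp_add, ← Complex.exp_add]
      have e1 : Complex.I * (ϑ k : ℝ) + ((-ϑ k : ℝ) : ℂ) * Complex.I = 0 := by
        push_cast; ring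
      rw [e1, Complex.exp_zero]
      congr 2
      push_cast
      ring
    rw [h2, norm_mul, hvn, mul_one] at h1
    exact h1

end Pool.Agent.FD
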