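import Mathlib

/-!
# FD: step majorant quadrature
-/

open Finset

namespace Pool.Agent.FD

theorem quad_tel (m : ℕ → ℝ) (n c : ℕ) (hc : c ≤ n) :
    m c = m n - ∑ k ∈ range n, (m (k + 1) - m k) * (if c ≤ k then 1 else 0) := by
  induction n with
  | zero =>
    have : c = 0 := by omega
    subst this
    simp
  | succ n ih =>
    rw [sum_range_succ]
    rcases Nat.lt_or_ge n c with h | h
    · have hcn : c = n + 1 := by omega
      subst hcn
      have h0 : ∑ k ∈ range n, (m (k + 1) - m k) * (if n + 1 ≤ k then (1 : ℝ) else 0) = 0 := by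
        refine sum_eq_zero (fun k hk => ?_)
        rw [mem_range] at hk
        rw [if_neg (by omega), mul_zero]
      rw [h0, if_neg (by omega)]
      ring
    · rw [if_pos h]
      linarith [ih h]

theorem quad_count (K N k : ℕ) (hK : 1 ≤ K) (hN : 2 ≤ N) (hk : k < K - 1) :
    |2 * (((range (N / 2)).filter (fun t => K * (2 * t + 1) / N ≤ k)).card : ℝ) / N -
      ((k : ℝ) + 1) / K| ≤ 1 / N := by
  classical
  have hN0 : 0 < N := by omega
  have hex : ∃ t, (k + 1) * N ≤ K * (2 * t + 1) := by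
    refine ⟨N, ?_⟩
    exact Nat.mul_le_mul (by omega) (by omega)
  set c := Nat.find hex with hc
  have h1 : (k + 1) * N ≤ K * (2 * c + 1) := Nat.find_spec hex
  have h2 : ∀ t < c, K * (2 * t + 1) < (k + 1) * N := fun t ht => by
    have := Nat.find_min hex ht
    omega
  have hcN : c ≤ N / 2 := by
    by_contra h
    push Not at h
    have h3 := h2 _ h
    have h4 : (k + 1) * N ≤ K * (2 * (N / 2) + 1) := Nat.mul_le_mul (by omega) (by omega)
    omega
  have hset : (range (N / 2)).filter (fun t => K * (2 * t + 1) / N ≤ k) = range c := by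
    ext t
    rw [mem_filter, mem_range, mem_range]
    constructor
    · rintro ⟨_, h⟩
      by_contra hlt
      have h3 : K * (2 * t + 1) < N * (k + 1) := by
        have := (Nat.div_lt_iff_lt_mul hN0).1 (Nat.lt_succ_of_le h)
        rw [Nat.succ_eq_add_one] at this
        rw [mul_comm N]
        exact this
      have h4 : K * (2 * c + 1) ≤ K * (2 * t + 1) := Nat.mul_le_mul_left _ (by omega)
      have h5 : N * (k + 1) = (k + 1) * N := mul_comm _ _
      omega
    · intro h
      refine ⟨by omega, Nat.lt_succ_iff.1 ((Nat.div_lt_iff_lt_mul hN0).2 ?_)⟩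
      have := h2 t h
      rw [Nat.succ_eq_add_one]
      exact this
  rw [hset, card_range]
  have hKr : (0 : ℝ) < K := by exact_mod_cast hK
  have hNr : (0 : ℝ) < N := by exact_mod_cast hN0
  have e : 2 * (c : ℝ) / N - ((k : ℝ) + 1) / K = (2 * c * K - (k + 1) * N) / (N * K) := by
    field_simp
  have e2 : (1 : ℝ) / N = K / (N * K) := by field_simp
  rw [e, e2, abs_div, abs_of_pos (mul_pos hNr hKr)]
  refine div_le_div_of_nonneg_right ?_ (mul_pos hNr hKr).le
  rw [abs_le]
  have h1r : ((k : ℝ) + 1) * N ≤ K * (2 * c + 1) := by exact_mod_cast h1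
  constructor
  · nlinarith
  · rcases Nat.eq_zero_or_pos c with h0 | h0
    · rw [h0]
      have : (0 : ℝ) ≤ (k + 1) * N := by positivity
      push_cast
      nlinarith
    · have h3 := h2 (c - 1) (by omega)
      obtain ⟨d, hd⟩ : ∃ d, c = d + 1 := ⟨c - 1, by omega⟩
      rw [hd] at h3 ⊢
      rw [Nat.add_sub_cancel] at h3
      have h3r : (K : ℝ) * (2 * d + 1) < (k + 1) * N := by exact_mod_cast h3
      push_cast
      nlinarith

theorem quad (K N : ℕ) (hK : 1 ≤ K) (hN : 2 ≤ N) (m : ℕ → ℝ) (hm : 0 ≤ m (K - 1)) :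
    2 / N * ∑ t ∈ range (N / 2), m (K * (2 * t + 1) / N) ≤
      (∑ k ∈ range K, m k) / K + (∑ k ∈ range (K - 1), |m (k + 1) - m k|) / N := by
  classical
  have hN0 : 0 < N := by omega
  have hKr : (0 : ℝ) < K := by exact_mod_cast hK
  have hNr : (0 : ℝ) < N := by exact_mod_cast hN0
  have hcell : ∀ t ∈ range (N / 2), K * (2 * t + 1) / N ≤ K - 1 := by
    intro t ht
    rw [mem_range] at ht
    have : K * (2 * t + 1) / N < K := by
      rw [Nat.div_lt_iff_lt_mul hN0]
      exact Nat.mul_lt_mul_of_pos_left (by omega) (by omega)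
    omega
  -- left hand side
  have hL : ∑ t ∈ range (N / 2), m (K * (2 * t + 1) / N) =
      (N / 2 : ℕ) * m (K - 1) - ∑ k ∈ range (K - 1), (m (k + 1) - m k) *
        (((range (N / 2)).filter (fun t => K * (2 * t + 1) / N ≤ k)).card : ℝ) := by
    rw [sum_congr rfl (fun t ht => quad_tel m (K - 1) _ (hcell t ht)), sum_sub_distrib, sum_const,
      card_range, nsmul_eq_mul, sum_comm]
    congr 1
    refine sum_congr rfl (fun k _ => ?_)
    rw [← mul_sum, card_filter]
    push_cast
    rfl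
  -- right hand side
  have hR : (∑ k ∈ range K, m k) / K =
      m (K - 1) - ∑ k ∈ range (K - 1), (m (k + 1) - m k) * (((k : ℝ) + 1) / K) := by
    have h1 : ∀ n : ℕ, ∑ k ∈ range (n + 1), m k =
        (n + 1) * m n - ∑ k ∈ range n, (m (k + 1) - m k) * ((k : ℝ) + 1) := by
      intro n
      induction n with
      | zero => simp
      | succ n ih =>
        rw [sum_range_succ, ih, sum_range_succ]
        push_cast
        ring
    obtain ⟨n, rfl⟩ : ∃ n, K = n + 1 := ⟨K - 1, by omega⟩
    rw [h1, Nat.add_sub_cancel]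
    have h2 : ∑ k ∈ range n, (m (k + 1) - m k) * (((k : ℝ) + 1) / ((n + 1 : ℕ) : ℝ)) =
        (∑ k ∈ range n, (m (k + 1) - m k) * ((k : ℝ) + 1)) / ((n + 1 : ℕ) : ℝ) := by
      rw [sum_div]
      exact sum_congr rfl (fun k _ => by ring)
    rw [h2, sub_div]
    congr 1
    have : ((n + 1 : ℕ) : ℝ) ≠ 0 := by positivity
    field_simp
    push_cast
    ring
  rw [hL, hR, sum_div]
  have h3 : 2 / (N : ℝ) * ((N / 2 : ℕ) * m (K - 1)) ≤ m (K - 1) := by
    have h4 : ((N / 2 : ℕ) : ℝ) ≤ N / 2 := Nat.cast_div_le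
    have h5 : 2 / (N : ℝ) * ((N / 2 : ℕ) : ℝ) ≤ 1 := by
      rw [div_mul_eq_mul_div, div_le_one hNr]
      linarith
    calc 2 / (N : ℝ) * ((N / 2 : ℕ) * m (K - 1)) = (2 / (N : ℝ) * ((N / 2 : ℕ) : ℝ)) * m (K - 1) := by
          ring
      _ ≤ 1 * m (K - 1) := mul_le_mul_of_nonneg_right h5 hm
      _ = _ := one_mul _
  have h6 : ∀ k ∈ range (K - 1), (m (k + 1) - m k) * (((k : ℝ) + 1) / K) -
      2 / (N : ℝ) * ((m (k + 1) - m k) *
        (((range (N / 2)).filter (fun t => K * (2 * t + 1) / N ≤ k)).card : ℝ)) ≤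
      |m (k + 1) - m k| / N := by
    intro k hk
    have h7 := quad_count K N k hK hN (mem_range.1 hk)
    calc (m (k + 1) - m k) * (((k : ℝ) + 1) / K) - 2 / (N : ℝ) * ((m (k + 1) - m k) *
          (((range (N / 2)).filter (fun t => K * (2 * t + 1) / N ≤ k)).card : ℝ))
        = -((m (k + 1) - m k) *
          (2 * (((range (N / 2)).filter (fun t => K * (2 * t + 1) / N ≤ k)).card : ℝ) / N -
            ((k : ℝ) + 1) / K)) := by ring
      _ ≤ |(m (k + 1) - m k) *
          (2 * (((range (N / 2)).filter (fun t => K * (2 * t + 1) / N ≤ k)).card : ℝ) / N -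
            ((k : ℝ) + 1) / K)| := neg_le_abs _
      _ = |m (k + 1) - m k| * |2 * (((range (N / 2)).filter
            (fun t => K * (2 * t + 1) / N ≤ k)).card : ℝ) / N - ((k : ℝ) + 1) / K| := abs_mul _ _
      _ ≤ |m (k + 1) - m k| * (1 / N) := mul_le_mul_of_nonneg_left h7 (abs_nonneg _)
      _ = _ := by ring
  have h8 := sum_le_sum h6
  rw [sum_sub_distrib, ← mul_sum] at h8
  rw [mul_sub]
  linarith

end Pool.Agent.FD
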