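import Pool.Agent.FD.Defs

/-!
# FD: discrete sine transform of the constant vector, the vector `b`
-/

open Finset

namespace Pool.Agent.FD

private theorem spec_idx {N k : ℕ} (hk : k ∈ range (N / 2)) : 2 * k + 1 < N := by
  rw [Finset.mem_range] at hk
  omega

theorem th_pos {N k : ℕ} (hk : k ∈ range (N / 2)) : 0 < th N k := by
  have h := spec_idx hk
  have hN : (0 : ℝ) < N := by
    have : 0 < N := by omega
    exact_mod_cast this
  rw [th]
  have := Real.pi_pos
  positivity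

theorem th_lt_pi {N k : ℕ} (hk : k ∈ range (N / 2)) : th N k < Real.pi := by
  have h := spec_idx hk
  have hN : (0 : ℝ) < N := by
    have : 0 < N := by omega
    exact_mod_cast this
  have h' : (2 * k + 1 : ℝ) < N := by exact_mod_cast h
  rw [th, div_lt_iff₀ hN]
  exact mul_lt_mul_of_pos_left h' Real.pi_pos

private theorem spec_cos_gt {N k : ℕ} (hk : k ∈ range (N / 2)) : -1 < Real.cos (th N k) := by
  have h1 := th_pos hk
  have h2 := th_lt_pi hk
  have h3 : Real.cos Real.pi < Real.cos (th N k) :=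
    Real.cos_lt_cos_of_nonneg_of_le_pi h1.le le_rfl h2
  rwa [Real.cos_pi] at h3

private theorem spec_cos_lt {N k : ℕ} (hk : k ∈ range (N / 2)) : Real.cos (th N k) < 1 := by
  have h1 := th_pos hk
  have h2 := th_lt_pi hk
  have h3 : Real.cos (th N k) < Real.cos 0 :=
    Real.cos_lt_cos_of_nonneg_of_le_pi le_rfl h2.le h1
  rwa [Real.cos_zero] at h3

theorem be_gt {N k : ℕ} (hk : k ∈ range (N / 2)) : -1 < be N k := by
  have := spec_cos_gt hk
  rw [be]
  linarith

theorem be_lt {N k : ℕ} (hk : k ∈ range (N / 2)) : be N k < 3 := by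
  have := spec_cos_lt hk
  rw [be]
  linarith

private theorem spec_half {N k : ℕ} (hk : k ∈ range (N / 2)) :
    0 < Real.cos (th N k / 2) ∧ 0 < Real.sin (th N k / 2) := by
  have h1 := th_pos hk
  have h2 := th_lt_pi hk
  exact ⟨Real.cos_pos_of_mem_Ioo ⟨by linarith, by linarith⟩,
    Real.sin_pos_of_pos_of_lt_pi (by linarith) (by linarith)⟩

theorem ct_pos {N k : ℕ} (hk : k ∈ range (N / 2)) : 0 < ct N k := by
  obtain ⟨h1, h2⟩ := spec_half hk
  rw [ct]
  positivity

theorem ct_sq {N k : ℕ} (hk : k ∈ range (N / 2)) :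
    ct N k ^ 2 = (1 + be N k) / (3 - be N k) := by
  obtain ⟨h1, h2⟩ := spec_half hk
  have h3 : Real.cos (th N k) = 2 * Real.cos (th N k / 2) ^ 2 - 1 := by
    rw [← Real.cos_two_mul]
    congr 1
    ring
  have h4 := Real.sin_sq_add_cos_sq (th N k / 2)
  rw [ct, be, h3]
  have e1 : 1 + (1 + 2 * (2 * Real.cos (th N k / 2) ^ 2 - 1)) =
      4 * Real.cos (th N k / 2) ^ 2 := by ring
  have e2 : 3 - (1 + 2 * (2 * Real.cos (th N k / 2) ^ 2 - 1)) =
      4 * Real.sin (th N k / 2) ^ 2 := by linarith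
  rw [e1, e2, div_pow, mul_div_mul_left _ _ (by norm_num)]

theorem kap_pos {N k : ℕ} (hk : k ∈ range (N / 2)) : 0 < kap N k := by
  have h1 := ct_pos hk
  have h2 := be_gt hk
  have h := spec_idx hk
  have hN : (0 : ℝ) < N := by
    have : 0 < N := by omega
    exact_mod_cast this
  have h3 : 0 < 2 + be N k := by linarith
  rw [kap]
  positivity

private theorem spec_Nth {N : ℕ} (k : ℕ) (hN : 0 < N) :
    (N : ℝ) * th N k = ((2 * k + 1 : ℕ) : ℝ) * Real.pi := by
  have hN' : (N : ℝ) ≠ 0 := by exact_mod_cast hN.ne'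
  rw [th]
  push_cast
  field_simp

theorem sin_N (N k : ℕ) (hN : 0 < N) : Real.sin (N * th N k) = 0 := by
  rw [spec_Nth k hN]
  exact Real.sin_nat_mul_pi _

private theorem cos_N (N k : ℕ) (hN : 0 < N) : Real.cos (N * th N k) = -1 := by
  rw [spec_Nth k hN, Real.cos_nat_mul_pi]
  exact Odd.neg_one_pow ⟨k, rfl⟩

/-- `sin ((N - r) θ_k) = sin (r θ_k)` -/
theorem sin_symm {N : ℕ} (k : ℕ) {r : ℕ} (hN : 0 < N) (hr : r ≤ N) :
    Real.sin ((N - r : ℕ) * th N k) = Real.sin (r * th N k) := by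
  rw [Nat.cast_sub hr, sub_mul, Real.sin_sub, sin_N N k hN, cos_N N k hN]
  ring

/-- `A u = 2 cos θ u` -/
theorem sin_rec {N : ℕ} (k : ℕ) {r : ℕ} (hr : 1 ≤ r) :
    Real.sin ((r - 1 : ℕ) * th N k) + Real.sin ((r + 1 : ℕ) * th N k) =
      (be N k - 1) * Real.sin (r * th N k) := by
  rw [Nat.cast_sub hr, be]
  push_cast
  rw [sub_mul, add_mul, one_mul, Real.sin_sub, Real.sin_add]
  ring

private theorem spec_sum_cos (x : ℝ) (K : ℕ) :
    2 * Real.sin x * ∑ k ∈ range K, Real.cos ((2 * k + 1 : ℝ) * x) = Real.sin (2 * K * x) := by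
  induction K with
  | zero => simp
  | succ K ih =>
    rw [Finset.sum_range_succ, mul_add, ih]
    have h1 : 2 * ((K + 1 : ℕ) : ℝ) * x = (2 * K + 1 : ℝ) * x + x := by push_cast; ring
    have h2 : 2 * (K : ℝ) * x = (2 * K + 1 : ℝ) * x - x := by ring
    rw [h1, h2, Real.sin_add, Real.sin_sub]
    ring

/-- the cosine sums -/
private theorem spec_C {N r : ℕ} (h1 : 1 ≤ r) (h2 : r < N) :
    ∑ k ∈ range (N / 2), Real.cos (r * th N k) =
      if Even N then 0 else -(-1) ^ r / 2 := by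
  have hN : 0 < N := by omega
  have hN' : (0 : ℝ) < N := by exact_mod_cast hN
  set x : ℝ := r * Real.pi / N with hx
  have hx0 : 0 < x := by
    have : (0 : ℝ) < r := by exact_mod_cast h1
    have := Real.pi_pos
    positivity
  have hx1 : x < Real.pi := by
    rw [hx, div_lt_iff₀ hN', mul_comm]
    exact mul_lt_mul_of_pos_left (by exact_mod_cast h2) Real.pi_pos
  have hs : 0 < Real.sin x := Real.sin_pos_of_pos_of_lt_pi hx0 hx1
  have e1 : ∀ k : ℕ, (r : ℝ) * th N k = (2 * k + 1 : ℝ) * x := by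
    intro k
    rw [th, hx]
    ring
  have hNx : (N : ℝ) * x = r * Real.pi := by
    rw [hx]
    field_simp
  simp_rw [e1]
  have key := spec_sum_cos x (N / 2)
  set S := ∑ k ∈ range (N / 2), Real.cos ((2 * k + 1 : ℝ) * x) with hS
  split_ifs with hE
  · obtain ⟨c, hc⟩ := hE
    have h3 : 2 * ((N / 2 : ℕ) : ℝ) = N := by
      have : 2 * (N / 2) = N := by omega
      exact_mod_cast this
    rw [h3, hNx, Real.sin_nat_mul_pi] at key
    have : 2 * Real.sin x ≠ 0 := by positivity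
    exact (mul_eq_zero.1 key).resolve_left this
  · rw [Nat.not_even_iff_odd] at hE
    obtain ⟨c, hc⟩ := hE
    have h3 : 2 * ((N / 2 : ℕ) : ℝ) = N - 1 := by
      have : 2 * (N / 2) + 1 = N := by omega
      have h4 : (2 * ((N / 2 : ℕ) : ℝ)) + 1 = N := by exact_mod_cast this
      linarith
    rw [h3, sub_mul, one_mul, hNx, Real.sin_sub, Real.sin_nat_mul_pi, Real.cos_nat_mul_pi] at key
    have h5 : Real.sin x * (2 * S + (-1) ^ r) = 0 := by linarith
    have h6 := (mul_eq_zero.1 h5).resolve_left hs.ne'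
    linarith

private theorem spec_step {N : ℕ} (r : ℕ) :
    (∑ k ∈ range (N / 2), 2 / N * ct N k * Real.sin ((r + 1 : ℕ) * th N k)) -
      ∑ k ∈ range (N / 2), 2 / N * ct N k * Real.sin (r * th N k) =
    2 / N * (∑ k ∈ range (N / 2), Real.cos ((r + 1 : ℕ) * th N k) +
      ∑ k ∈ range (N / 2), Real.cos (r * th N k)) := by
  rw [← Finset.sum_sub_distrib, ← Finset.sum_add_distrib, Finset.mul_sum]
  refine Finset.sum_congr rfl fun k hk => ?_
  obtain ⟨h1, h2⟩ := spec_half hk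
  set y := th N k / 2 with hy
  have e0 : th N k = 2 * y := by rw [hy]; ring
  have e1 : ((r + 1 : ℕ) : ℝ) * th N k = (2 * r + 1) * y + y := by
    rw [e0]
    push_cast
    ring
  have e2 : (r : ℝ) * th N k = (2 * r + 1) * y - y := by
    rw [e0]
    ring
  rw [ct, ← hy, e1, e2, Real.sin_add, Real.sin_sub, Real.cos_add, Real.cos_sub]
  field_simp
  ring

/-- `1 = ∑ (2 / N) cot(θ_k / 2) sin (r θ_k)` -/
theorem one_eq {N r : ℕ} (h1 : 1 ≤ r) (h2 : r < N) :
    ∑ k ∈ range (N / 2), 2 / N * ct N k * Real.sin (r * th N k) = 1 := by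
  have hN : 0 < N := by omega
  have hN' : (0 : ℝ) < N := by exact_mod_cast hN
  induction r, h1 using Nat.le_induction with
  | base =>
    have h3 := spec_step (N := N) 0
    have h4 : ∑ k ∈ range (N / 2), 2 / (N : ℝ) * ct N k * Real.sin ((0 : ℕ) * th N k) = 0 := by
      simp
    have h5 : ∑ k ∈ range (N / 2), Real.cos ((0 : ℕ) * th N k) = ((N / 2 : ℕ) : ℝ) := by
      simp
    have h6 := spec_C (N := N) (r := 1) le_rfl h2
    rw [h4, sub_zero, zero_add, h5, h6] at h3
    rw [h3]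
    split_ifs with hE
    · obtain ⟨c, hc⟩ := hE
      have h7 : 2 * ((N / 2 : ℕ) : ℝ) = N := by
        have : 2 * (N / 2) = N := by omega
        exact_mod_cast this
      rw [zero_add, div_mul_eq_mul_div, h7]
      field_simp
    · rw [Nat.not_even_iff_odd] at hE
      obtain ⟨c, hc⟩ := hE
      have h7 : 2 * ((N / 2 : ℕ) : ℝ) = N - 1 := by
        have : 2 * (N / 2) + 1 = N := by omega
        have h4 : (2 * ((N / 2 : ℕ) : ℝ)) + 1 = N := by exact_mod_cast this
        linarith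
      rw [div_mul_eq_mul_div, mul_add, h7]
      field_simp
      ring
  | succ r hr ih =>
    have h3 := spec_step (N := N) r
    rw [ih (by omega), spec_C (by omega) h2, spec_C hr (by omega)] at h3
    have h4 : (if Even N then (0 : ℝ) else -(-1) ^ (r + 1) / 2) +
        (if Even N then (0 : ℝ) else -(-1) ^ r / 2) = 0 := by
      split_ifs
      · simp
      · rw [pow_succ]
        ring
    rw [h4, mul_zero] at h3
    linarith

theorem sum_sin {N k : ℕ} (hk : k ∈ range (N / 2)) :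
    ∑ r ∈ Icc 1 (N - 1), Real.sin (r * th N k) = ct N k := by
  have h := spec_idx hk
  have hN : 0 < N := by omega
  obtain ⟨h1, h2⟩ := spec_half hk
  set y := th N k / 2 with hy
  have e0 : th N k = 2 * y := by rw [hy]; ring
  have tel : ∀ n : ℕ, 2 * Real.sin y * ∑ r ∈ Icc 1 n, Real.sin (r * th N k) =
      Real.cos y - Real.cos ((2 * n + 1) * y) := by
    intro n
    induction n with
    | zero => simp
    | succ n ih =>
      rw [Finset.sum_Icc_succ_top (by omega), mul_add, ih]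
      have e1 : ((n + 1 : ℕ) : ℝ) * th N k = (2 * (n + 1)) * y := by
        rw [e0]
        push_cast
        ring
      have e2 : (2 * ((n + 1 : ℕ) : ℝ) + 1) * y = (2 * (n + 1)) * y + y := by
        push_cast
        ring
      have e3 : (2 * (n : ℝ) + 1) * y = (2 * (n + 1)) * y - y := by ring
      rw [e1, e2, e3, Real.cos_add, Real.cos_sub]
      ring
  have h3 := tel (N - 1)
  have e4 : (2 * ((N - 1 : ℕ) : ℝ) + 1) * y = N * th N k - y := by
    rw [e0, Nat.cast_sub (by omega)]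
    push_cast
    ring
  rw [e4, Real.cos_sub, cos_N N k hN, sin_N N k hN] at h3
  rw [ct, ← hy, eq_div_iff h2.ne']
  linarith

theorem bb_zero (N : ℕ) : bb N 0 = 0 := by
  simp [bb]

theorem bb_N {N : ℕ} (hN : 0 < N) : bb N N = 0 := by
  rw [bb]
  exact Finset.sum_eq_zero fun k _ => by rw [sin_N N k hN, mul_zero]

theorem bb_symm {N r : ℕ} (hN : 0 < N) (hr : r ≤ N) : bb N (N - r) = bb N r := by
  rw [bb, bb]
  exact Finset.sum_congr rfl fun k _ => by rw [sin_symm k hN hr]

theorem bb_eq {N r : ℕ} (h1 : 1 ≤ r) (h2 : r < N) :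
    3 * bb N r + bb N (r - 1) + bb N (r + 1) = 1 := by
  rw [← one_eq h1 h2, bb, bb, bb, Finset.mul_sum, ← Finset.sum_add_distrib,
    ← Finset.sum_add_distrib]
  refine Finset.sum_congr rfl fun k hk => ?_
  have h3 := sin_rec (N := N) k h1
  have h4 : 2 + be N k ≠ 0 := by
    have := be_gt hk
    linarith
  have h5 : kap N k * (2 + be N k) = 2 / N * ct N k := by
    rw [kap]
    field_simp
  rw [← h5]
  linear_combination kap N k * h3

/-! ### the recurrence -/

/-- the positive solution of the homogeneous recurrence -/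
private def specA : ℕ → ℚ
  | 0 => 0
  | 1 => 1
  | n + 2 => 3 * specA (n + 1) - specA n

/-- a particular solution -/
private def specP : ℕ → ℚ
  | 0 => 0
  | 1 => 0
  | n + 2 => 1 - 3 * specP (n + 1) - specP n

private theorem specA_pos (n : ℕ) : 0 ≤ specA n ∧ specA n < specA (n + 1) := by
  induction n with
  | zero => norm_num [specA]
  | succ n ih =>
    obtain ⟨h1, h2⟩ := ih
    refine ⟨by linarith, ?_⟩
    rw [specA]
    linarith

private theorem specA_ne {n : ℕ} (hn : 0 < n) : specA n ≠ 0 := by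
  obtain ⟨m, rfl⟩ : ∃ m, n = m + 1 := ⟨n - 1, by omega⟩
  have := specA_pos m
  linarith [this.1, this.2]

private theorem spec_sol {N : ℕ} {d : ℕ → ℝ} (h0 : d 0 = 0)
    (h : ∀ r, 1 ≤ r → r < N → 3 * d r + d (r - 1) + d (r + 1) = 1) :
    ∀ r, r ≤ N → d r = d 1 * ((-1) ^ (r + 1) * (specA r : ℝ)) + (specP r : ℝ) := by
  intro r
  induction r using Nat.strong_induction_on with
  | _ r ih =>
    intro hr
    match r, ih, hr with
    | 0, _, _ => simp [specA, specP, h0]
    | 1, _, _ => simp [specA, specP]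
    | r + 2, ih, hr =>
      have h1 := h (r + 1) (by omega) (by omega)
      have h2 := ih (r + 1) (by omega) (by omega)
      have h3 := ih r (by omega) (by omega)
      rw [Nat.add_sub_cancel, h2, h3] at h1
      have h4 : d (r + 2) = 1 - 3 * (d 1 * ((-1) ^ (r + 1 + 1) * (specA (r + 1) : ℝ)) +
        (specP (r + 1) : ℝ)) - (d 1 * ((-1) ^ (r + 1) * (specA r : ℝ)) + (specP r : ℝ)) := by
        linarith
      rw [h4, specA, specP]
      push_cast
      ring

private theorem spec_uniq {N : ℕ} (hN : 0 < N) {d : ℕ → ℝ} (h0 : d 0 = 0) (hd : d N = 0)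
    (h : ∀ r, 1 ≤ r → r < N → 3 * d r + d (r - 1) + d (r + 1) = 1) :
    ∀ r, r ≤ N → d r = (((-specP N / ((-1) ^ (N + 1) * specA N)) * ((-1) ^ (r + 1) * specA r) +
      specP r : ℚ) : ℝ) := by
  intro r hr
  have h1 := spec_sol h0 h N le_rfl
  have h2 := spec_sol h0 h r hr
  have h3 : ((-1) ^ (N + 1) * specA N : ℚ) ≠ 0 :=
    mul_ne_zero (pow_ne_zero _ (by norm_num)) (specA_ne hN)
  have h3' : ((-1) ^ (N + 1) * (specA N : ℝ)) ≠ 0 := by exact_mod_cast h3
  have h4 : d 1 = -(specP N : ℝ) / ((-1) ^ (N + 1) * (specA N : ℝ)) := by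
    rw [eq_div_iff h3']
    linarith
  rw [h2, h4]
  push_cast
  ring

private theorem rho_bounds : 0 < rho ∧ rho < 1 ∧ (-rho) ^ 2 + 3 * (-rho) + 1 = 0 := by
  have h1 : √5 ^ 2 = 5 := Real.sq_sqrt (by norm_num)
  have h2 : √5 < 3 := by
    rw [Real.sqrt_lt' (by norm_num)]
    norm_num
  have h3 : 2 < √5 := by
    rw [Real.lt_sqrt (by norm_num)]
    norm_num
  refine ⟨by rw [rho]; linarith, by rw [rho]; linarith, ?_⟩
  rw [rho]
  ring_nf
  rw [h1]
  ring

private theorem rho_pow {n : ℕ} (hn : 0 < n) : |(-rho) ^ n| < 1 := by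
  obtain ⟨h1, h2, _⟩ := rho_bounds
  rw [abs_pow, abs_neg, abs_of_pos h1]
  exact pow_lt_one₀ h1.le h2 hn.ne'

theorem bb_closed {N r : ℕ} (hN : 0 < N) (hr : r ≤ N) :
    bb N r = (1 - ((-rho) ^ r + (-rho) ^ (N - r)) / (1 + (-rho) ^ N)) / 5 := by
  obtain ⟨_, _, hq⟩ := rho_bounds
  have hqN := rho_pow hN
  set q := -rho with hqdef
  have hden : 1 + q ^ N ≠ 0 := by
    rw [abs_lt] at hqN
    linarith [hqN.1]
  have e1 := spec_uniq hN (bb_zero N) (bb_N hN) (fun r h1 h2 => bb_eq h1 h2) r hr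
  have e2 := spec_uniq (d := fun r => (1 - (q ^ r + q ^ (N - r)) / (1 + q ^ N)) / 5) hN
    (by simp [hden]) (by
      simp only [Nat.sub_self, pow_zero]
      rw [add_comm (q ^ N) 1, div_self hden]
      norm_num) (by
      intro r h1 h2
      obtain ⟨s, rfl⟩ : ∃ s, r = s + 1 := ⟨r - 1, by omega⟩
      obtain ⟨u, rfl⟩ : ∃ u, N = s + 1 + (u + 1) := ⟨N - (s + 1) - 1, by omega⟩
      have a1 : s + 1 + (u + 1) - (s + 1) = u + 1 := by omega
      have a2 : s + 1 - 1 = s := by omega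
      have a3 : s + 1 + (u + 1) - s = u + 2 := by omega
      have a4 : s + 1 + (u + 1) - (s + 1 + 1) = u := by omega
      simp only [a1, a2, a3, a4]
      field_simp
      have b1 : q ^ (u + 2) + 3 * q ^ (u + 1) + q ^ u = 0 := by
        have : q ^ (u + 2) + 3 * q ^ (u + 1) + q ^ u = q ^ u * (q ^ 2 + 3 * q + 1) := by ring
        rw [this, hq, mul_zero]
      have b2 : q ^ (s + 1 + 1) + 3 * q ^ (s + 1) + q ^ s = 0 := by
        have : q ^ (s + 1 + 1) + 3 * q ^ (s + 1) + q ^ s = q ^ s * (q ^ 2 + 3 * q + 1) := by ring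
        rw [this, hq, mul_zero]
      linear_combination (-1 : ℝ) * b1 - b2) r hr
  rw [e1]
  exact e2.symm

theorem bb_pos {N r : ℕ} (h1 : 1 ≤ r) (h2 : r < N) : 0 < bb N r := by
  rw [bb_closed (by omega) h2.le]
  have a1 := abs_lt.1 (rho_pow (n := r) (by omega))
  have a2 := abs_lt.1 (rho_pow (n := N - r) (by omega))
  have a3 := abs_lt.1 (rho_pow (n := N) (by omega))
  have a4 : (-rho) ^ N = (-rho) ^ r * (-rho) ^ (N - r) := by
    rw [← pow_add]
    congr 1
    omega
  have a5 : 0 < 1 + (-rho) ^ N := by linarith [a3.1]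
  refine div_pos ?_ (by norm_num)
  rw [sub_pos, div_lt_one a5, a4]
  nlinarith [mul_pos (sub_pos.2 a1.2) (sub_pos.2 a2.2)]

theorem alph_eq {N : ℕ} (hN : 2 ≤ N) : ∑ r ∈ Icc 1 (N - 1), bb N r = alph N := by
  simp_rw [bb]
  rw [Finset.sum_comm, alph]
  refine Finset.sum_congr rfl fun k hk => ?_
  rw [← Finset.mul_sum, sum_sin hk]

theorem bb_rat {N r : ℕ} (hN : 2 ≤ N) (hr : r ≤ N) : ∃ a : ℚ, bb N r = a :=
  ⟨_, spec_uniq (by omega) (bb_zero N) (bb_N (by omega)) (fun r h1 h2 => bb_eq h1 h2) r hr⟩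

theorem alph_rat {N : ℕ} (hN : 2 ≤ N) : ∃ a : ℚ, alph N = a := by
  choose! a ha using fun (r : ℕ) (hr : r ≤ N) => bb_rat hN hr
  refine ⟨∑ r ∈ Icc 1 (N - 1), a r, ?_⟩
  rw [← alph_eq hN]
  push_cast
  refine Finset.sum_congr rfl fun r hr => ?_
  rw [Finset.mem_Icc] at hr
  exact ha r (by omega)

end Pool.Agent.FD
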