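import Pool.Agent.FD.EndDefs
import Pool.Agent.FD.Spec

/-!
# Fractional domination of grids: the half strip solution
-/

open Finset Filter Topology

namespace Pool.Agent.FD

/-! ### modes -/

theorem xtm_be_ge (N k : ℕ) : -1 ≤ be N k := by
  unfold be; linarith [Real.neg_one_le_cos (th N k)]

theorem xtm_be_le (N k : ℕ) : be N k ≤ 3 := by
  unfold be; linarith [Real.cos_le_one (th N k)]

theorem xtm_aa_eq {N k : ℕ} (h : 2 < be N k) : aa N k ^ 2 - be N k * aa N k + 1 = 0 := by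
  have hs : √(be N k ^ 2 - 4) ^ 2 = be N k ^ 2 - 4 := Real.sq_sqrt (by nlinarith)
  unfold aa
  nlinarith [hs]

theorem xtm_aa_pos {N k : ℕ} (h : 2 < be N k) : 0 < aa N k := by
  have h1 : √(be N k ^ 2 - 4) < be N k := by
    rw [Real.sqrt_lt' (by linarith)]
    linarith
  unfold aa
  linarith

theorem xtm_aa_le {N k : ℕ} (h : 2 < be N k) : aa N k ≤ 1 := by
  have h1 : be N k - 2 ≤ √(be N k ^ 2 - 4) := by
    apply Real.le_sqrt_of_sq_le
    nlinarith
  unfold aa
  linarith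

theorem xtm_cos_ph {N k : ℕ} (h : be N k ≤ 2) : Real.cos (ph N k) = -(be N k) / 2 := by
  unfold ph
  rw [Real.cos_arccos]
  · linarith
  · linarith [xtm_be_ge N k]

theorem xtm_wt_zero (N : ℕ) (t : ℕ → ℝ) (k : ℕ) : wt N t k 0 = 1 := by
  unfold wt
  split_ifs <;> simp

theorem xtm_wt_rec (N : ℕ) (t : ℕ → ℝ) (k j : ℕ) :
    wt N t k j + wt N t k (j + 2) + be N k * wt N t k (j + 1) = 0 := by
  unfold wt
  split_ifs with h
  · have := xtm_aa_eq h
    have e : (-1 : ℝ) ^ j * aa N k ^ j + (-1) ^ (j + 2) * aa N k ^ (j + 2) +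
        be N k * ((-1) ^ (j + 1) * aa N k ^ (j + 1)) =
        (-1) ^ j * aa N k ^ j * (aa N k ^ 2 - be N k * aa N k + 1) := by ring
    rw [e, this, mul_zero]
  · push Not at h
    have hc := xtm_cos_ph h
    have e1 : ((j : ℕ) : ℝ) * ph N k = ((j + 1 : ℕ) : ℝ) * ph N k - ph N k := by push_cast; ring
    have e2 : ((j + 2 : ℕ) : ℝ) * ph N k = ((j + 1 : ℕ) : ℝ) * ph N k + ph N k := by
      push_cast; ring
    rw [e1, e2, Real.cos_sub, Real.cos_add, Real.sin_sub, Real.sin_add, hc]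
    ring

theorem xtm_wt_one_hyp {N : ℕ} {t : ℕ → ℝ} {k : ℕ} (h : 2 < be N k) :
    wt N t k 1 = -(be N k) / 2 + √(be N k ^ 2 - 4) / 2 := by
  unfold wt
  rw [if_pos h]
  unfold aa
  ring

theorem xtm_wt_one_osc {N : ℕ} {t : ℕ → ℝ} {k : ℕ} (h : be N k ≤ 2) :
    wt N t k 1 = -(be N k) / 2 + t k * (√(4 - be N k ^ 2) / 2) := by
  unfold wt
  rw [if_neg (not_lt.2 h)]
  have h1 : Real.sin (ph N k) = √(4 - be N k ^ 2) / 2 := by
    unfold ph
    rw [Real.sin_arccos]
    have e : 1 - (-(be N k) / 2) ^ 2 = (4 - be N k ^ 2) / 2 ^ 2 := by ring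
    rw [e, Real.sqrt_div' _ (by norm_num), Real.sqrt_sq (by norm_num)]
  simp only [Nat.cast_one, one_mul]
  rw [xtm_cos_ph h, h1]

theorem xtm_kap_ct {N k : ℕ} : kap N k * (2 + be N k) = 2 / N * ct N k := by
  have h : 0 < 2 + be N k := by linarith [xtm_be_ge N k]
  unfold kap
  rw [div_mul_cancel₀ _ h.ne']

/-! ### the half strip solution -/

theorem xt_zero (N : ℕ) (t : ℕ → ℝ) (r : ℕ) : xt N t r 0 = 0 := by
  unfold xt bb
  simp only [xtm_wt_zero, mul_one, sub_self]

theorem xt_r0 (N : ℕ) (t : ℕ → ℝ) (j : ℕ) : xt N t 0 j = 0 := by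
  unfold xt bb
  simp

theorem xt_N {N : ℕ} (hN : 0 < N) (t : ℕ → ℝ) (j : ℕ) : xt N t N j = 0 := by
  unfold xt
  rw [bb_N hN]
  simp only [sin_N N _ hN, mul_zero, zero_mul, sum_const_zero, sub_zero]

theorem xt_symm {N r : ℕ} (hN : 0 < N) (hr : r ≤ N) (t : ℕ → ℝ) (j : ℕ) :
    xt N t (N - r) j = xt N t r j := by
  unfold xt
  rw [bb_symm hN hr]
  simp only [sin_symm _ hN hr]

theorem xt_rec {N r : ℕ} (h1 : 1 ≤ r) (h2 : r < N) (t : ℕ → ℝ) (j : ℕ) :
    xt N t r j + xt N t r (j + 2) + xt N t (r - 1) (j + 1) + xt N t r (j + 1) +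
      xt N t (r + 1) (j + 1) = 1 := by
  have hb := bb_eq h1 h2
  have key : ∑ k ∈ range (N / 2), kap N k * Real.sin (r * th N k) * wt N t k j +
      ∑ k ∈ range (N / 2), kap N k * Real.sin (r * th N k) * wt N t k (j + 2) +
      ∑ k ∈ range (N / 2), kap N k * Real.sin ((r - 1 : ℕ) * th N k) * wt N t k (j + 1) +
      ∑ k ∈ range (N / 2), kap N k * Real.sin (r * th N k) * wt N t k (j + 1) +
      ∑ k ∈ range (N / 2), kap N k * Real.sin ((r + 1 : ℕ) * th N k) * wt N t k (j + 1) = 0 := by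
    rw [← sum_add_distrib, ← sum_add_distrib, ← sum_add_distrib, ← sum_add_distrib]
    refine sum_eq_zero fun k _ => ?_
    have hs := sin_rec (N := N) k h1
    have hw := xtm_wt_rec N t k j
    have e : kap N k * Real.sin (r * th N k) * wt N t k j +
        kap N k * Real.sin (r * th N k) * wt N t k (j + 2) +
        kap N k * Real.sin ((r - 1 : ℕ) * th N k) * wt N t k (j + 1) +
        kap N k * Real.sin (r * th N k) * wt N t k (j + 1) +
        kap N k * Real.sin ((r + 1 : ℕ) * th N k) * wt N t k (j + 1) =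
        kap N k * (Real.sin (r * th N k) * (wt N t k j + wt N t k (j + 2)) +
          (Real.sin ((r - 1 : ℕ) * th N k) + Real.sin ((r + 1 : ℕ) * th N k) +
            Real.sin (r * th N k)) * wt N t k (j + 1)) := by ring
    rw [e, hs]
    have e2 : Real.sin (r * th N k) * (wt N t k j + wt N t k (j + 2)) +
        ((be N k - 1) * Real.sin (r * th N k) + Real.sin (r * th N k)) * wt N t k (j + 1) =
        Real.sin (r * th N k) * (wt N t k j + wt N t k (j + 2) + be N k * wt N t k (j + 1)) := by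
      ring
    rw [e2, hw, mul_zero, mul_zero]
  unfold xt
  linarith

theorem xt_one {N r : ℕ} (h1 : 1 ≤ r) (h2 : r < N) (t : ℕ → ℝ) :
    xt N t r 1 = 1 / 2 - ∑ k ∈ range (N / 2), kap N k * Real.sin (r * th N k) *
      (if 2 < be N k then √(be N k ^ 2 - 4) / 2 else t k * (√(4 - be N k ^ 2) / 2)) := by
  have ho := one_eq h1 h2
  have e : ∀ k, kap N k * Real.sin (r * th N k) -
      kap N k * Real.sin (r * th N k) * wt N t k 1 =
      1 / 2 * (2 / N * ct N k * Real.sin (r * th N k)) - kap N k * Real.sin (r * th N k) *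
      (if 2 < be N k then √(be N k ^ 2 - 4) / 2 else t k * (√(4 - be N k ^ 2) / 2)) := by
    intro k
    rw [← xtm_kap_ct]
    split_ifs with h
    · rw [xtm_wt_one_hyp h]; ring
    · rw [xtm_wt_one_osc (not_lt.1 h)]; ring
  unfold xt bb
  rw [← sum_sub_distrib, sum_congr rfl fun k _ => e k, sum_sub_distrib, ← mul_sum, ho, mul_one]

theorem xtm_abs_osc (c s t : ℝ) (h : c ^ 2 + s ^ 2 = 1) : |c + t * s| ≤ √(1 + t ^ 2) := by
  apply Real.abs_le_sqrt
  nlinarith [sq_nonneg (s - t * c)]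

theorem xtm_wt_le {N J j : ℕ} (t : ℕ → ℝ) (k : ℕ) (hj : J ≤ j) :
    |wt N t k j| ≤ if 2 < be N k then aa N k ^ J else √(1 + t k ^ 2) := by
  unfold wt
  split_ifs with h
  · rw [abs_mul, abs_pow, abs_neg, abs_one, one_pow, one_mul, abs_of_pos (by
      have := xtm_aa_pos h; positivity)]
    exact pow_le_pow_of_le_one (xtm_aa_pos h).le (xtm_aa_le h) hj
  · exact xtm_abs_osc _ _ _ (Real.cos_sq_add_sin_sq _)

theorem xt_far {N r J j : ℕ} (t : ℕ → ℝ) (hj : J ≤ j) :
    ∑ k ∈ range (N / 2), kap N k * (Real.sin (r * th N k) - |Real.sin (r * th N k)| *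
      (if 2 < be N k then aa N k ^ J else √(1 + t k ^ 2))) ≤ xt N t r j := by
  unfold xt bb
  rw [← sum_sub_distrib]
  refine sum_le_sum fun k hk => ?_
  have hk0 := (kap_pos hk).le
  have hw := xtm_wt_le (N := N) t k hj
  rw [mul_assoc, ← mul_sub]
  refine mul_le_mul_of_nonneg_left ?_ hk0
  have h1 : Real.sin (r * th N k) * wt N t k j ≤ |Real.sin (r * th N k)| * |wt N t k j| := by
    rw [← abs_mul]; exact le_abs_self _
  have h2 := mul_le_mul_of_nonneg_left hw (abs_nonneg (Real.sin (r * th N k)))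
  linarith

theorem xtm_wt_hh (N k j : ℕ) : wt N (fun _ => 0) k j = (-1) ^ j * hh N k j := by
  unfold wt hh
  split_ifs with h
  · rfl
  · have e : ph N k = Real.pi - Real.arccos (be N k / 2) := by
      unfold ph
      rw [neg_div, Real.arccos_neg]
    rw [e, zero_mul, add_zero]
    have e2 : (j : ℝ) * (Real.pi - Real.arccos (be N k / 2)) =
        j * Real.pi - j * Real.arccos (be N k / 2) := by ring
    rw [e2, Real.cos_nat_mul_pi_sub]

theorem xt_dev (N r j : ℕ) :
    |xt N (fun _ => 0) r j - bb N r * (1 - (-rho) ^ j)| ≤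
      ∑ k ∈ range (N / 2), kap N k * |Real.sin (r * th N k)| * |hh N k j - rho ^ j| := by
  have e : xt N (fun _ => 0) r j - bb N r * (1 - (-rho) ^ j) =
      ∑ k ∈ range (N / 2), -((-1) ^ j * (kap N k * Real.sin (r * th N k) *
        (hh N k j - rho ^ j))) := by
    unfold xt bb
    rw [sum_mul, ← sum_sub_distrib, ← sum_sub_distrib]
    refine sum_congr rfl fun k _ => ?_
    rw [xtm_wt_hh, neg_pow]
    ring
  rw [e]
  refine (abs_sum_le_sum_abs _ _).trans (sum_le_sum fun k hk => ?_)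
  rw [abs_neg, abs_mul, abs_pow, abs_neg, abs_one, one_pow, one_mul, abs_mul, abs_mul,
    abs_of_pos (kap_pos hk)]

end Pool.Agent.FD
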