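import Pool.Agent.FD.LargeD
import Pool.Agent.FD.Xt
import Pool.Agent.FD.Quad
import Pool.Agent.FD.Spec

/-!
# Project FD, module LARGE: positivity of the half strip solution for `N ≥ 141`
-/

open Finset Filter Topology

namespace Pool.Agent.FD

/-! ## one cell -/

theorem lg_cell {c j k : ℕ} (hcj : lgR c j) (hk : k < 240) {z w : ℤ × ℤ}
    (hz : Near z (Real.pi * k / 240) (lgE : ℤ)) (hw : Near w (Real.pi * (k + 1) / 240) (lgE : ℤ))
    (hok : (lgCell c k z w).1 = true) {θ : ℝ} (h0 : 0 < θ) (hπ : θ < Real.pi)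
    (h1 : Real.pi * k / 240 ≤ θ) (h2 : θ < Real.pi * (k + 1) / 240) :
    fF θ * gW c θ * |hj θ j - rho ^ j| ≤ ((lgCell c k z w).2 : ℝ) / SC := by
  have hpi := Real.pi_pos
  have hk240 : (k : ℝ) + 1 ≤ 240 := by exact_mod_cast hk
  have hk0 : (0 : ℝ) ≤ k := Nat.cast_nonneg k
  have hθ1π : Real.pi * (k + 1) / 240 ≤ Real.pi := by
    rw [div_le_iff₀ (by norm_num)]
    nlinarith
  have hcos1 : Real.cos (Real.pi * (k + 1) / 240) ≤ Real.cos θ :=
    Real.cos_le_cos_of_nonneg_of_le_pi h0.le hθ1π h2.le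
  have hcos0 : Real.cos θ ≤ Real.cos (Real.pi * k / 240) :=
    Real.cos_le_cos_of_nonneg_of_le_pi (by positivity) hπ.le h1
  have hf := fF_nonneg h0 hπ
  unfold lgCell at hok ⊢
  by_cases hk80 : k < 80
  · -- hyperbolic
    rw [if_pos hk80] at hok ⊢
    have hk80' : (k : ℝ) + 1 ≤ 80 := by exact_mod_cast hk80
    have hθ3 : Real.pi * (k + 1) / 240 ≤ Real.pi / 3 := by
      rw [div_le_div_iff₀ (by norm_num) (by norm_num)]
      nlinarith
    have hc3 : 1 ≤ 2 * Real.cos (Real.pi * (k + 1) / 240) := by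
      have := Real.cos_le_cos_of_nonneg_of_le_pi (by positivity : 0 ≤ Real.pi * (k + 1) / 240)
        (by linarith : Real.pi / 3 ≤ Real.pi) hθ3
      rw [Real.cos_pi_div_three] at this
      linarith
    have hclt : Real.cos (Real.pi * (k + 1) / 240) < Real.cos θ :=
      Real.cos_lt_cos_of_nonneg_of_le_pi h0.le hθ1π h2
    have hgt : 1 < 2 * Real.cos θ := by linarith
    have hsin0 : 0 ≤ Real.sin θ := (Real.sin_pos_of_pos_of_lt_pi h0 hπ).le
    have hsin1 : Real.sin θ ≤ Real.sin (Real.pi * (k + 1) / 240) :=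
      Real.sin_le_sin_of_le_of_le_pi_div_two (by linarith) (by linarith) h2.le
    have hmono := gHyp_mono c hc3 hcos1 hsin0 hsin1
    have hhj : hj θ j = hA θ ^ j := by
      unfold hj
      rw [if_pos (by linarith)]
    have hpow := lg_powG hcj (hA_ge hgt.le) (hA_le hgt.le)
    have hA0 : 0 ≤ hA θ := lgr_pos.le.trans (hA_ge hgt.le)
    have hF : fF θ * |hj θ j - rho ^ j| ≤ gHyp c θ := by
      rw [hhj]
      calc fF θ * |hA θ ^ j - rho ^ j| ≤ fF θ * ((hA θ - rho) * gG c (hA θ)) := by gcongr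
        _ = fF θ * (hA θ - rho) * gG c (hA θ) := by ring
        _ = gHyp c θ := by
            rw [fF_hyp h0 hπ hgt]
            unfold gHyp
            ring
    have hsound := lgHyp_has (k := k) hw hok
    refine le_trans ?_ hsound
    have hW : 0 ≤ gW c θ := by
      unfold gW
      split_ifs
      · exact abs_nonneg _
      · exact zero_le_one
    have hWW : gW c θ ≤ (if 6 ≤ c ∧ k < 60 then 2 * (Real.sin (Real.pi * (k + 1) / 240) *
        Real.cos (Real.pi * (k + 1) / 240)) else 1) := by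
      unfold gW
      by_cases hc : 6 ≤ c
      · rw [if_pos hc]
        by_cases hk60 : k < 60
        · rw [if_pos ⟨hc, hk60⟩]
          have hk60' : (k : ℝ) + 1 ≤ 60 := by exact_mod_cast hk60
          have hθ4 : 2 * (Real.pi * (k + 1) / 240) ≤ Real.pi / 2 := by
            have : 2 * (Real.pi * (k + 1) / 240) = Real.pi * (k + 1) / 120 := by ring
            rw [this, div_le_div_iff₀ (by norm_num) (by norm_num)]
            nlinarith
          rw [abs_of_nonneg (Real.sin_nonneg_of_nonneg_of_le_pi (by linarith) (by linarith)),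
            ← mul_assoc, ← Real.sin_two_mul]
          exact Real.sin_le_sin_of_le_of_le_pi_div_two (by linarith) hθ4 (by linarith)
        · rw [if_neg (fun h => hk60 h.2)]
          exact Real.abs_sin_le_one _
      · rw [if_neg hc, if_neg (fun h => hc h.1)]
    calc fF θ * gW c θ * |hj θ j - rho ^ j| = (fF θ * |hj θ j - rho ^ j|) * gW c θ := by ring
      _ ≤ gHyp c (Real.pi * (k + 1) / 240) * (if 6 ≤ c ∧ k < 60 then
          2 * (Real.sin (Real.pi * (k + 1) / 240) * Real.cos (Real.pi * (k + 1) / 240))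
            else 1) := by
          have h3 := hF.trans hmono
          exact mul_le_mul h3 hWW hW ((mul_nonneg hf (abs_nonneg _)).trans h3)
  · -- oscillating
    rw [if_neg hk80] at hok ⊢
    push Not at hk80
    have hk80' : (80 : ℝ) ≤ k := by exact_mod_cast hk80
    have hθ3 : Real.pi / 3 ≤ Real.pi * k / 240 := by
      rw [div_le_div_iff₀ (by norm_num) (by norm_num)]
      nlinarith
    have hc3 : 2 * Real.cos θ ≤ 1 := by
      have := Real.cos_le_cos_of_nonneg_of_le_pi (by positivity : 0 ≤ Real.pi / 3) hπ.le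
        (hθ3.trans h1)
      rw [Real.cos_pi_div_three] at this
      linarith
    have hneg := Real.neg_one_le_cos θ
    have hhj : hj θ j = Real.cos (j * Real.arccos (1 / 2 + Real.cos θ)) := by
      unfold hj
      rw [if_neg (by linarith)]
      congr 3
      ring
    have hcheb := lg_cheb hcj (x := 1 / 2 + Real.cos θ)
    have hθ0 : 0 < Real.pi * k / 240 := by
      have : (0 : ℝ) < k := by linarith
      positivity
    have hθ0π : Real.pi * k / 240 < Real.pi := lt_of_le_of_lt h1 hπ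
    have hsound := lgOsc_has (c := c) hz hw hok hcos1 hcos0
    refine le_trans ?_ hsound
    rw [hhj]
    have hsin : 0 < Real.sin θ := Real.sin_pos_of_pos_of_lt_pi h0 hπ
    have h3c : 0 < 3 + 2 * Real.cos θ := by linarith
    have hx : -1 ≤ 1 / 2 + Real.cos θ := by linarith
    have hT := hcheb hx (by linarith)
    have hfw : fF θ * gW c θ ≤ (if 6 ≤ c then
        2 * ((1 + Real.cos θ) * |Real.cos θ|) * (3 + 2 * Real.cos θ)⁻¹
        else (1 + Real.cos (Real.pi * k / 240)) * (Real.sin (Real.pi * k / 240) *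
          (3 + 2 * Real.cos (Real.pi * k / 240)))⁻¹) := by
      unfold gW
      by_cases hc : 6 ≤ c
      · rw [if_pos hc, if_pos hc, fF_eq h0 hπ, Real.sin_two_mul, abs_mul, abs_mul,
          abs_of_pos hsin, abs_of_pos (by norm_num : (0 : ℝ) < 2)]
        apply le_of_eq
        field_simp
      · rw [if_neg hc, if_neg hc, mul_one, ← fF_eq hθ0 hθ0π]
        exact fF_anti hθ0 h1 hπ
    have hW : 0 ≤ gW c θ := by
      unfold gW
      split_ifs
      · exact abs_nonneg _
      · exact zero_le_one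
    exact mul_le_mul hfw hT (abs_nonneg _) ((mul_nonneg hf hW).trans hfw)

/-! ## lists -/

theorem lgRun_length (c : ℕ) : ∀ (L : List (ℤ × ℤ)) (k : ℕ),
    (lgRun c k L).length = L.length - 1
  | [], _ => rfl
  | [_], _ => rfl
  | z :: w :: l, k => by
    rw [lgRun, List.length_cons, lgRun_length c (w :: l) (k + 1)]
    simp

theorem lgRun_getD (c : ℕ) (d : Bool × ℤ) : ∀ (L : List (ℤ × ℤ)) (k i : ℕ), i + 1 < L.length →
    (lgRun c k L).getD i d = lgCell c (k + i) (L.getD i (0, 0)) (L.getD (i + 1) (0, 0))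
  | [], _, _, h => by simp at h
  | [_], _, _, h => by simp at h
  | z :: w :: l, k, 0, _ => by
    rw [lgRun]
    simp
  | z :: w :: l, k, i + 1, h => by
    rw [lgRun, List.getD_cons_succ, lgRun_getD c d (w :: l) (k + 1) i (by simpa using h),
      List.getD_cons_succ, List.getD_cons_succ]
    congr 1
    ring

theorem lgAll_getD (d : Bool × ℤ) : ∀ (L : List (Bool × ℤ)) (_ : lgAll L = true) (i : ℕ),
    i < L.length → (L.getD i d).1 = true
  | [], _, _, h => by simp at h
  | a :: l, h, 0, _ => by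
    rw [lgAll, Bool.and_eq_true] at h
    simpa using h.1
  | a :: l, h, i + 1, hi => by
    rw [lgAll, Bool.and_eq_true] at h
    rw [List.getD_cons_succ]
    exact lgAll_getD d l h.2 i (by simpa using hi)

theorem lgSum_eq (d : Bool × ℤ) : ∀ L : List (Bool × ℤ),
    ((lgSum L : ℤ) : ℝ) = ∑ i ∈ range L.length, (((L.getD i d).2 : ℤ) : ℝ)
  | [] => by simp [lgSum]
  | a :: l => by
    rw [lgSum, List.length_cons, Finset.sum_range_succ', Int.cast_add, lgSum_eq d l, add_comm]
    simp

theorem lgTV_eq (d : Bool × ℤ) : ∀ L : List (Bool × ℤ),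
    ((lgTV L : ℤ) : ℝ) = ∑ i ∈ range (L.length - 1),
      |(((L.getD (i + 1) d).2 : ℤ) : ℝ) - (((L.getD i d).2 : ℤ) : ℝ)|
  | [] => by simp [lgTV]
  | [_] => by simp [lgTV]
  | a :: b :: l => by
    have ih := lgTV_eq d (b :: l)
    rw [lgTV, Int.cast_add, ih]
    have e1 : (a :: b :: l).length - 1 = ((b :: l).length - 1) + 1 := by simp
    rw [e1, Finset.sum_range_succ', add_comm]
    congr 1
    · simp only [List.getD_cons_zero, List.getD_cons_succ]
      push_cast
      rw [← neg_sub ((b.2 : ℤ) : ℝ) ((a.2 : ℤ) : ℝ)]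
      rfl

theorem lg_powTab_length (z : ℤ × ℤ) : ∀ (n : ℕ) (w : ℤ × ℤ), (powTab z n w).length = n
  | 0, _ => rfl
  | n + 1, w => by
    rw [powTab, List.length_cons, lg_powTab_length z n]

theorem lgZ_near {i : ℕ} (hi : i < 241) :
    Near (lgZ.getD i (0, 0)) (Real.pi * i / 240) (lgE : ℤ) := by
  have h1 : Near (unit 240) (Real.pi / (240 : ℕ)) 100 := near_unit (by norm_num) (by norm_num)
  have h2 := near_powTab h1 near_one (by norm_num) le_rfl (by norm_num) 241 i (by norm_num) hi
  have h3 : (0 : ℝ) + i * (Real.pi / (240 : ℕ)) = Real.pi * i / 240 := by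
    push_cast
    ring
  rw [h3] at h2
  unfold Near at h2 ⊢
  refine h2.trans ?_
  have h4 : (i : ℝ) ≤ 240 := by
    have : i ≤ 240 := by omega
    exact_mod_cast this
  have h5 : ((lgE : ℤ) : ℝ) = 50000 := by
    unfold lgE
    norm_num
  rw [h5]
  linarith

/-! ## the sum over the modes -/

/-- the step majorant -/
noncomputable def lgm (c i : ℕ) : ℝ := (((lgRun c 0 lgZ).getD i (false, 0)).2 : ℝ) / SC

theorem lgRun_len (c : ℕ) : (lgRun c 0 lgZ).length = 240 := by
  rw [lgRun_length, lgZ, lg_powTab_length]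

theorem lgm_ge {c j i : ℕ} (hcj : lgR c j) (hall : lgAll (lgRun c 0 lgZ) = true) (hi : i < 240)
    {θ : ℝ} (h0 : 0 < θ) (hπ : θ < Real.pi) (h1 : Real.pi * i / 240 ≤ θ)
    (h2 : θ < Real.pi * (i + 1) / 240) :
    fF θ * gW c θ * |hj θ j - rho ^ j| ≤ lgm c i := by
  have hg := lgRun_getD c (false, 0) lgZ 0 i (by rw [lgZ, lg_powTab_length]; omega)
  have hok := lgAll_getD (false, 0) _ hall i (by rw [lgRun_len]; exact hi)
  unfold lgm
  rw [hg, zero_add] at hok
  rw [hg, zero_add]
  have hz := lgZ_near (i := i) (by omega)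
  have hw := lgZ_near (i := i + 1) (by omega)
  push_cast at hw
  exact lg_cell hcj hi hz hw hok h0 hπ h1 h2

theorem gW_nonneg (c : ℕ) (θ : ℝ) : 0 ≤ gW c θ := by
  unfold gW
  split_ifs
  · exact abs_nonneg _
  · exact zero_le_one

theorem lg_abs {c : ℕ} {N : ℕ} (hN : 141 ≤ N) {j r : ℕ} (hr : 6 ≤ c → r = 2) (m : ℕ → ℝ)
    (hge : ∀ i : ℕ, i < 240 → ∀ θ : ℝ, 0 < θ → θ < Real.pi → Real.pi * i / 240 ≤ θ →
      θ < Real.pi * (i + 1) / 240 → fF θ * gW c θ * |hj θ j - rho ^ j| ≤ m i) :
    ∑ k ∈ range (N / 2), kap N k * |Real.sin (r * th N k)| * |hh N k j - rho ^ j| ≤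
      (∑ k ∈ range 240, m k) / 240 + (∑ k ∈ range (240 - 1), |m (k + 1) - m k|) / 141 := by
  have hpi := Real.pi_pos
  have hNpos : (0 : ℝ) < N := by
    have : 0 < N := by omega
    exact_mod_cast this
  have hterm : ∀ k ∈ range (N / 2),
      kap N k * |Real.sin (r * th N k)| * |hh N k j - rho ^ j| ≤
        2 / N * m (240 * (2 * k + 1) / N) := by
    intro k hk
    have hk' : 2 * k + 1 < N := by
      rw [Finset.mem_range] at hk
      omega
    have hkN : (2 * (k : ℝ) + 1) < N := by exact_mod_cast hk'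
    have hi1 : 240 * (2 * k + 1) / N * N ≤ 240 * (2 * k + 1) := Nat.div_mul_le_self _ _
    have hi2 : 240 * (2 * k + 1) < (240 * (2 * k + 1) / N + 1) * N := by
      have := Nat.lt_mul_div_succ (240 * (2 * k + 1)) (show 0 < N by omega)
      rwa [mul_comm N] at this
    have hi3 : 240 * (2 * k + 1) / N < 240 := by
      rw [Nat.div_lt_iff_lt_mul (by omega)]
      exact Nat.mul_lt_mul_of_pos_left hk' (by norm_num)
    generalize 240 * (2 * k + 1) / N = i at hi1 hi2 hi3 ⊢
    have hi1' : (i : ℝ) * N ≤ 240 * (2 * k + 1) := by exact_mod_cast hi1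
    have hi2' : (240 : ℝ) * (2 * k + 1) < (i + 1) * N := by exact_mod_cast hi2
    have hθ0 : 0 < th N k := by
      unfold th
      positivity
    have hθπ : th N k < Real.pi := by
      unfold th
      rw [div_lt_iff₀ hNpos]
      exact mul_lt_mul_of_pos_left hkN hpi
    have hθ1 : Real.pi * i / 240 ≤ th N k := by
      unfold th
      rw [div_le_div_iff₀ (by norm_num) hNpos]
      calc Real.pi * i * N = Real.pi * (i * N) := by ring
        _ ≤ Real.pi * (240 * (2 * k + 1)) := by gcongr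
        _ = _ := by ring
    have hθ2 : th N k < Real.pi * (i + 1) / 240 := by
      unfold th
      rw [div_lt_div_iff₀ hNpos (by norm_num)]
      calc Real.pi * (2 * k + 1) * 240 = Real.pi * (240 * (2 * k + 1)) := by ring
        _ < Real.pi * ((i + 1) * N) := by gcongr
        _ = _ := by ring
    have hm := hge i hi3 _ hθ0 hθπ hθ1 hθ2
    have hhj : hh N k j = hj (th N k) j := rfl
    have hkap : kap N k = 2 / N * fF (th N k) := by
      have h1 : 2 + be N k = 2 + (1 + 2 * Real.cos (th N k)) := rfl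
      unfold kap fF ct
      rw [h1]
      ring
    have hsW : |Real.sin (r * th N k)| ≤ gW c (th N k) := by
      unfold gW
      by_cases hc : 6 ≤ c
      · rw [if_pos hc, hr hc]
        exact le_of_eq (by norm_num)
      · rw [if_neg hc]
        exact Real.abs_sin_le_one _
    rw [hhj, hkap]
    have hf := fF_nonneg hθ0 hθπ
    calc 2 / N * fF (th N k) * |Real.sin (r * th N k)| * |hj (th N k) j - rho ^ j| =
        2 / N * (fF (th N k) * |Real.sin (r * th N k)| * |hj (th N k) j - rho ^ j|) := by ring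
      _ ≤ 2 / N * (fF (th N k) * gW c (th N k) * |hj (th N k) j - rho ^ j|) := by gcongr
      _ ≤ 2 / N * m i := by gcongr
  have hm239 : 0 ≤ m (240 - 1) := by
    refine le_trans ?_ (hge (240 - 1) (by norm_num) (Real.pi * 239 / 240) (by positivity)
      (by linarith) (le_of_eq (by norm_num)) (by norm_num; linarith))
    have := fF_nonneg (θ := Real.pi * 239 / 240) (by positivity) (by linarith)
    have := gW_nonneg c (Real.pi * 239 / 240)
    positivity
  have hquad := quad 240 N (by norm_num) (by omega) m hm239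
  have hsum : ∑ k ∈ range (N / 2), kap N k * |Real.sin (r * th N k)| * |hh N k j - rho ^ j| ≤
      2 / N * ∑ k ∈ range (N / 2), m (240 * (2 * k + 1) / N) := by
    rw [Finset.mul_sum]
    exact Finset.sum_le_sum hterm
  refine (hsum.trans hquad).trans ?_
  have hV0 : 0 ≤ ∑ k ∈ range (240 - 1), |m (k + 1) - m k| :=
    Finset.sum_nonneg fun k _ => abs_nonneg _
  have hN141 : (141 : ℝ) ≤ N := by exact_mod_cast hN
  have h1 : (∑ k ∈ range (240 - 1), |m (k + 1) - m k|) / N ≤
      (∑ k ∈ range (240 - 1), |m (k + 1) - m k|) / 141 :=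
    div_le_div_of_nonneg_left hV0 (by norm_num) hN141
  refine (add_le_add le_rfl h1).trans (le_of_eq ?_)
  norm_num

theorem lg_fin {S V need sc : ℤ} (hsc : (0 : ℝ) < sc)
    (h : (S * 141 + V * 240) * 10000 ≤ need * (240 * 141) * sc) :
    (S : ℝ) / sc / 240 + (V : ℝ) / sc / 141 ≤ (need : ℝ) / 10000 := by
  have h2 : (((S * 141 + V * 240) * 10000 : ℤ) : ℝ) ≤
      ((need * (240 * 141) * sc : ℤ) : ℝ) := by exact_mod_cast h
  push_cast at h2
  rw [div_div, div_div, div_add_div _ _ (by positivity) (by positivity),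
    div_le_div_iff₀ (by positivity) (by norm_num)]
  nlinarith

theorem lg_case {c : ℕ} {need : ℤ} (hchk : lgCheck c need = true) {N : ℕ} (hN : 141 ≤ N)
    {j r : ℕ} (hcj : lgR c j) (hr : 6 ≤ c → r = 2) :
    ∑ k ∈ range (N / 2), kap N k * |Real.sin (r * th N k)| * |hh N k j - rho ^ j| ≤
      (need : ℝ) / 10000 := by
  unfold lgCheck at hchk
  simp only [Bool.and_eq_true, decide_eq_true_eq] at hchk
  obtain ⟨hall, hineq⟩ := hchk
  refine (lg_abs hN hr (lgm c) fun i hi θ h0 hπ h1 h2 => lgm_ge hcj hall hi h0 hπ h1 h2).trans ?_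
  have hS : ∑ k ∈ range 240, lgm c k = ((lgSum (lgRun c 0 lgZ) : ℤ) : ℝ) / SC := by
    rw [lgSum_eq (false, 0), lgRun_len, Finset.sum_div]
    rfl
  have hV : ∑ k ∈ range (240 - 1), |lgm c (k + 1) - lgm c k| =
      ((lgTV (lgRun c 0 lgZ) : ℤ) : ℝ) / SC := by
    rw [lgTV_eq (false, 0), lgRun_len, Finset.sum_div]
    refine Finset.sum_congr rfl fun k _ => ?_
    unfold lgm
    rw [← sub_div, abs_div, abs_of_pos lgSC_pos]
  rw [hS, hV]
  exact lg_fin lgSC_pos hineq

theorem lgCheck1 : lgCheck 1 2359 = true := by decide +kernel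
theorem lgCheck2 : lgCheck 2 1670 = true := by decide +kernel
theorem lgCheck3 : lgCheck 3 1999 = true := by decide +kernel
theorem lgCheck4 : lgCheck 4 1899 = true := by decide +kernel
theorem lgCheck5 : lgCheck 5 1949 = true := by decide +kernel
theorem lgCheck6 : lgCheck 6 1457 = true := by decide +kernel
theorem lgCheck7 : lgCheck 7 1670 = true := by decide +kernel

/-! ## bounds for the bulk -/

theorem lgr2_hi : rho ^ 2 ≤ 0.1459 := by
  have := lgr_hi
  have := lgr_pos
  nlinarith

theorem lgr4_hi : rho ^ 4 ≤ 0.0213 := by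
  have h := lgr2_hi
  have h0 : 0 ≤ rho ^ 2 := by positivity
  have : rho ^ 4 = rho ^ 2 * rho ^ 2 := by ring
  nlinarith

theorem lg_neg_pow_le (n m : ℕ) (hm : m ≤ n) : (-rho) ^ n ≤ rho ^ m := by
  have h0 := lgr_pos
  have h1 := lgr_hi
  have h2 : (-rho) ^ n ≤ |(-rho) ^ n| := le_abs_self _
  rw [abs_pow, abs_neg, abs_of_pos h0] at h2
  exact h2.trans (pow_le_pow_of_le_one h0.le (by linarith) hm)

theorem lg_neg_pow_ge (n m : ℕ) (hm : m ≤ n) : -rho ^ m ≤ (-rho) ^ n := by
  have h0 := lgr_pos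
  have h1 := lgr_hi
  have h2 : -|(-rho) ^ n| ≤ (-rho) ^ n := neg_abs_le _
  rw [abs_pow, abs_neg, abs_of_pos h0] at h2
  have h3 : rho ^ n ≤ rho ^ m := pow_le_pow_of_le_one h0.le (by linarith) hm
  linarith

theorem lg_tiny : rho ^ 20 ≤ 0.0000001 := by
  have h0 := lgr_pos
  have h1 : rho ≤ 2 / 5 := by linarith [lgr_hi]
  calc rho ^ 20 ≤ (2 / 5) ^ 20 := pow_le_pow_left₀ h0.le h1 20
    _ ≤ _ := by norm_num

theorem lg_bb {N r : ℕ} (hN : 141 ≤ N) (hr : 2 * r ≤ N) {x : ℝ} (hx : (-rho) ^ r ≤ x)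
    (hx0 : 0 ≤ x) (hx1 : x ≤ 1) : (1 - x - 0.000001) / 5 ≤ bb N r := by
  have ht := lg_tiny
  have h1 : (-rho) ^ (N - r) ≤ rho ^ 20 := lg_neg_pow_le _ _ (by omega)
  have h2 : (-rho) ^ N ≤ rho ^ 20 := lg_neg_pow_le _ _ (by omega)
  have h3 : -rho ^ 20 ≤ (-rho) ^ N := lg_neg_pow_ge _ _ (by omega)
  rw [bb_closed (by omega) (by omega)]
  have hden : 0 < 1 + (-rho) ^ N := by linarith
  have h4 : ((-rho) ^ r + (-rho) ^ (N - r)) / (1 + (-rho) ^ N) ≤ x + 0.000001 := by
    rw [div_le_iff₀ hden]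
    nlinarith
  linarith

theorem lg_bb2 {N : ℕ} (hN : 141 ≤ N) : 0.1708 ≤ bb N 2 := by
  have h := lg_bb (r := 2) hN (by omega) (x := 0.1459) (by
    have := lgr2_hi
    rw [neg_sq]; exact this) (by norm_num) (by norm_num)
  linarith

theorem lg_bb' {N r : ℕ} (hN : 141 ≤ N) (hr : 2 * r ≤ N) (h1 : 1 ≤ r) (h2 : r ≠ 2) :
    0.1957 ≤ bb N r := by
  have h := lg_bb hN hr (x := 0.0213) (by
    rcases Nat.lt_or_ge r 4 with h4 | h4
    · have hr13 : r = 1 ∨ r = 3 := by omega
      have h0 := lgr_pos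
      rcases hr13 with rfl | rfl
      · rw [pow_one]; linarith
      · have : (-rho) ^ 3 = -(rho ^ 3) := by ring
        rw [this]
        have : 0 < rho ^ 3 := by positivity
        linarith
    · exact (lg_neg_pow_le r 4 h4).trans lgr4_hi) (by norm_num) (by norm_num)
  linarith

theorem lg_half {N : ℕ} (hN : 141 ≤ N) {r j : ℕ} (hr : 2 * r ≤ N) (h1 : 1 ≤ r) (hj : 1 ≤ j) :
    1 / 10000 ≤ xt N (fun _ => 0) r j := by
  have h0 := lgr_pos
  have hlo := lgr_lo
  have hhi := lgr_hi
  -- general step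
  have step : ∀ (c : ℕ) (need : ℤ), lgCheck c need = true → lgR c j → (6 ≤ c → r = 2) →
      (need : ℝ) / 10000 + 1 / 10000 ≤ bb N r * (1 - (-rho) ^ j) →
      1 / 10000 ≤ xt N (fun _ => 0) r j := by
    intro c need hchk hcj hc hb
    have hd := xt_dev N r j
    have hs := lg_case hchk hN hcj hc
    have := (abs_le.mp (hd.trans hs)).1
    linarith
  have hr2 := lgr2_hi
  have hr4 := lgr4_hi
  have hr3 : 0.05 ≤ rho ^ 3 := by
    have : (0.38 : ℝ) ^ 3 ≤ rho ^ 3 := pow_le_pow_left₀ (by norm_num) (by linarith) 3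
    have h38 : (0.05 : ℝ) ≤ 0.38 ^ 3 := by norm_num
    linarith
  have hr6 : rho ^ 6 ≤ 0.0032 := by
    have h6 : rho ^ 6 = rho ^ 4 * rho ^ 2 := by ring
    have : 0 ≤ rho ^ 4 := by positivity
    have : 0 ≤ rho ^ 2 := by positivity
    rw [h6]
    nlinarith
  by_cases hrr : r = 2
  · subst hrr
    have hb := lg_bb2 hN
    have hb0 : 0 ≤ bb N 2 := by linarith
    rcases Nat.lt_or_ge j 3 with h3 | h3
    · have hj12 : j = 1 ∨ j = 2 := by omega
      rcases hj12 with rfl | rfl
      · refine step 1 2359 lgCheck1 (Or.inl ⟨rfl, rfl⟩) (by omega) ?_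
        rw [pow_one]
        push_cast
        nlinarith
      · refine step 6 1457 lgCheck6 (by unfold lgR; omega) (fun _ => rfl) ?_
        rw [neg_sq]
        push_cast
        nlinarith
    · refine step 7 1670 lgCheck7 (by unfold lgR; omega) (fun _ => rfl) ?_
      rcases Nat.lt_or_ge j 4 with h4 | h4
      · have : j = 3 := by omega
        subst this
        have : (-rho) ^ 3 = -(rho ^ 3) := by ring
        rw [this]
        push_cast
        nlinarith
      · have := (lg_neg_pow_le j 4 h4).trans hr4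
        push_cast
        nlinarith
  · have hb := lg_bb' hN hr h1 hrr
    rcases Nat.lt_or_ge j 5 with h5 | h5
    · have hj14 : j = 1 ∨ j = 2 ∨ j = 3 ∨ j = 4 := by omega
      rcases hj14 with rfl | rfl | rfl | rfl
      · refine step 1 2359 lgCheck1 (Or.inl ⟨rfl, rfl⟩) (by omega) ?_
        rw [pow_one]
        push_cast
        nlinarith
      · refine step 2 1670 lgCheck2 (by unfold lgR; omega) (by omega) ?_
        rw [neg_sq]
        push_cast
        nlinarith
      · refine step 3 1999 lgCheck3 (by unfold lgR; omega) (by omega) ?_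
        have : (-rho) ^ 3 = -(rho ^ 3) := by ring
        rw [this]
        push_cast
        nlinarith
      · refine step 4 1899 lgCheck4 (by unfold lgR; omega) (by omega) ?_
        have := (lg_neg_pow_le 4 4 le_rfl).trans hr4
        push_cast
        nlinarith
    · refine step 5 1949 lgCheck5 (by unfold lgR; omega) (by omega) ?_
      rcases Nat.lt_or_ge j 6 with h6 | h6
      · have : j = 5 := by omega
        subst this
        have : (-rho) ^ 5 = -(rho ^ 5) := by ring
        rw [this]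
        have : 0 < rho ^ 5 := by positivity
        push_cast
        nlinarith
      · have := (lg_neg_pow_le j 6 h6).trans hr6
        push_cast
        nlinarith

theorem pos_large {N : ℕ} (hN : 141 ≤ N) :
    ∃ δ > 0, ∀ r ∈ Icc 1 (N - 1), ∀ j : ℕ, 1 ≤ j → δ ≤ xt N (fun _ => 0) r j := by
  refine ⟨1 / 10000, by norm_num, fun r hr j hj => ?_⟩
  rw [Finset.mem_Icc] at hr
  rcases Nat.lt_or_ge N (2 * r) with h | h
  · have h1 := xt_symm (N := N) (r := r) (by omega) (by omega) (fun _ => 0) j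
    rw [← h1]
    exact lg_half hN (by omega) (by omega) hj
  · exact lg_half hN h hr.1 hj

end Pool.Agent.FD
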