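import Pool.Agent.FD.IvDefs

/-!
# Project FD, module LARGE: the computation (480 replaced by 240 cells)
-/

open Finset Filter Topology

namespace Pool.Agent.FD

open Iv

/-- number of cells -/
def lgE : ℤ := 50000

def lgC (n : ℤ) : Iv := ⟨n * SC, n * SC⟩

def lgRho : Iv := ⟨381966011250105, 381966011250106⟩

def lgRho2 : Iv := lgRho.mul lgRho

def lgRho3 : Iv := lgRho2.mul lgRho

def lgRho4 : Iv := lgRho2.mul lgRho2

def lgRho5 : Iv := lgRho4.mul lgRho

/-- the polynomial `G` of the case; cases 1..4: full `j`, 5: crude, 6: row 2 with `j = 2`,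
7: row 2 with `j ≥ 3` -/
def lgG (c : ℕ) (a : Iv) : Iv :=
  if c = 1 then lgC 1
  else if c = 2 ∨ c = 6 then a.add lgRho
  else if c = 3 then (a.mul (a.add lgRho)).add lgRho2
  else if c = 4 then (a.mul ((a.mul (a.add lgRho)).add lgRho2)).add lgRho3
  else if c = 5 then
    ((a.mul ((a.mul ((a.mul (a.add lgRho)).add lgRho2)).add lgRho3)).add lgRho4).add
      (lgRho5.nmul 2)
  else ((a.mul (a.add lgRho)).add lgRho2).add (lgRho3.nmul 2)

/-- `a(θ)` from `cos θ` -/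
def lgA (c : Iv) : Iv :=
  let be := (lgC 1).add (c.nmul 2)
  (be.sub (be.sq.sub (lgC 4)).sqrt).ndiv 2

def lgDen (a : Iv) : Iv := ((lgC 1).add a).sq.mul (((lgC 3).sub lgRho).sub a)

/-- hyperbolic cell -/
def lgHyp (c : ℕ) (k : ℕ) (w : ℤ × ℤ) : Bool × ℤ :=
  let c1 := reI w lgE
  let s1 := imI w lgE
  let a := lgA c1
  let den := lgDen a
  let v := ((s1.nmul 2).mul (a.sq.mul (lgG c a))).mul den.inv
  let v' := if 6 ≤ c ∧ k < 60 then v.mul ((s1.mul c1).nmul 2) else v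
  (decide (0 < den.lo), v'.hi)

/-- `T_j(x) - ρ^j` -/
def lgT (c : ℕ) (x : Iv) : Iv :=
  if c = 1 then (x.sub lgRho).abs
  else if c = 2 ∨ c = 6 then ((x.sq.nmul 2).sub ((lgC 1).add lgRho2)).abs
  else if c = 3 then ((x.mul ((x.sq.nmul 4).sub (lgC 3))).sub lgRho3).abs
  else if c = 4 then
    (((((x.sq.nmul 2).sub (lgC 1)).sq).nmul 2).sub ((lgC 1).add lgRho4)).abs
  else if c = 5 then (lgC 1).add lgRho5
  else (lgC 1).add lgRho3

/-- oscillating cell -/
def lgOsc (c : ℕ) (z w : ℤ × ℤ) : Bool × ℤ :=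
  let U : Iv := ⟨(reI w lgE).lo, (reI z lgE).hi⟩
  let x := (rat 1 2).add U
  let u0 := reI z lgE
  let s0 := imI z lgE
  if 6 ≤ c then
    let den := (lgC 3).add (U.nmul 2)
    let v := (((((lgC 1).add U).mul U.abs).nmul 2).mul den.inv).mul (lgT c x)
    (decide (0 < den.lo), v.hi)
  else
    let den := s0.mul ((lgC 3).add (u0.nmul 2))
    let v := (((lgC 1).add u0).mul den.inv).mul (lgT c x)
    (decide (0 < den.lo), v.hi)

def lgCell (c k : ℕ) (z w : ℤ × ℤ) : Bool × ℤ :=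
  if k < 80 then lgHyp c k w else lgOsc c z w

def lgRun (c : ℕ) : ℕ → List (ℤ × ℤ) → List (Bool × ℤ)
  | _, [] => []
  | _, [_] => []
  | k, z :: w :: l => lgCell c k z w :: lgRun c (k + 1) (w :: l)

def lgTV : List (Bool × ℤ) → ℤ
  | [] => 0
  | [_] => 0
  | a :: b :: l => max (b.2 - a.2) (a.2 - b.2) + lgTV (b :: l)

def lgSum : List (Bool × ℤ) → ℤ
  | [] => 0
  | a :: l => a.2 + lgSum l

def lgAll : List (Bool × ℤ) → Bool
  | [] => true
  | a :: l => a.1 && lgAll l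

def lgZ : List (ℤ × ℤ) := powTab (unit 240) 241 (SC, 0)

def lgCheck (c : ℕ) (need : ℤ) : Bool :=
  let L := lgRun c 0 lgZ
  lgAll L && decide ((lgSum L * 141 + lgTV L * 240) * 10000 ≤ need * (240 * 141) * SC)

end Pool.Agent.FD
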