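import Pool.Agent.FD.LargeA
import Pool.Agent.FD.Ivl
import Pool.Agent.FD.Trig

/-!
# Project FD, module LARGE: soundness of the cells
-/

open Finset Filter Topology

namespace Pool.Agent.FD

open Iv

/-! ## intervals for the constants -/

theorem lgC_has (n : ℤ) : (lgC n).Has (n : ℝ) := by
  unfold lgC Iv.Has
  push_cast
  constructor <;> linarith

theorem lgSC : (SC : ℝ) = 10 ^ 15 := by
  unfold SC
  norm_num

theorem lgSC_pos : (0 : ℝ) < SC := by
  rw [lgSC]; positivity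

theorem lg_le_hi {I : Iv} {x : ℝ} (h : I.Has x) : x ≤ (I.hi : ℝ) / SC := by
  rw [le_div_iff₀ lgSC_pos]
  linarith [h.2]

theorem lg_sqrt5 : (2.236067977499788 : ℝ) ≤ √5 ∧ √5 ≤ 2.23606797749979 := by
  constructor
  · apply Real.le_sqrt_of_sq_le
    norm_num
  · rw [Real.sqrt_le_left (by norm_num)]
    norm_num

theorem lgRho_has : lgRho.Has rho := by
  have h := lg_sqrt5
  unfold lgRho Iv.Has rho
  rw [lgSC]
  push_cast
  constructor
  · have := h.2
    linarith
  · have := h.1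
    linarith

theorem lgRho2_has : lgRho2.Has (rho ^ 2) := by
  rw [pow_two]; exact Has.mul lgRho_has lgRho_has

theorem lgRho3_has : lgRho3.Has (rho ^ 3) := by
  have := Has.mul lgRho2_has lgRho_has
  rwa [← pow_succ] at this

theorem lgRho4_has : lgRho4.Has (rho ^ 4) := by
  have := Has.mul lgRho2_has lgRho2_has
  rwa [← pow_add] at this

theorem lgRho5_has : lgRho5.Has (rho ^ 5) := by
  have := Has.mul lgRho4_has lgRho_has
  rwa [← pow_succ] at this

theorem lg_two {I : Iv} {x : ℝ} (h : I.Has x) : (I.nmul 2).Has (2 * x) := by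
  have := Has.nmul (n := 2) (by norm_num) h
  simpa using this

theorem lg_four {I : Iv} {x : ℝ} (h : I.Has x) : (I.nmul 4).Has (4 * x) := by
  have := Has.nmul (n := 4) (by norm_num) h
  simpa using this

theorem lg_c1 : (lgC 1).Has (1 : ℝ) := by
  have := lgC_has 1
  simpa using this

theorem lg_c3 : (lgC 3).Has (3 : ℝ) := by
  have := lgC_has 3
  simpa using this

theorem lg_c4 : (lgC 4).Has (4 : ℝ) := by
  have := lgC_has 4
  simpa using this

/-! ## real functions -/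

/-- the polynomials `G` -/
noncomputable def gG (c : ℕ) (a : ℝ) : ℝ :=
  if c = 1 then 1
  else if c = 2 ∨ c = 6 then a + rho
  else if c = 3 then a * (a + rho) + rho ^ 2
  else if c = 4 then a * (a * (a + rho) + rho ^ 2) + rho ^ 3
  else if c = 5 then
    a * (a * (a * (a + rho) + rho ^ 2) + rho ^ 3) + rho ^ 4 + 2 * rho ^ 5
  else a * (a + rho) + rho ^ 2 + 2 * rho ^ 3

theorem lgG_has (c : ℕ) {I : Iv} {a : ℝ} (h : I.Has a) : (lgG c I).Has (gG c a) := by
  have h1 := Has.add h lgRho_has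
  have h2 := Has.add (Has.mul h h1) lgRho2_has
  have h3 := Has.add (Has.mul h h2) lgRho3_has
  have h4 := Has.add (Has.mul h h3) lgRho4_has
  unfold lgG gG
  split_ifs
  · exact lg_c1
  · exact h1
  · exact h2
  · exact h3
  · exact Has.add h4 (lg_two lgRho5_has)
  · exact Has.add h2 (lg_two lgRho3_has)

/-- the decay rate as a function of the angle -/
noncomputable def hA (θ : ℝ) : ℝ :=
  ((1 + 2 * Real.cos θ) - √((1 + 2 * Real.cos θ) ^ 2 - 4)) / 2

theorem lgA_has {I : Iv} {θ : ℝ} (h : I.Has (Real.cos θ)) : (lgA I).Has (hA θ) := by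
  unfold lgA hA
  have h1 := Has.add lg_c1 (lg_two h)
  have h2 := Has.sub h1 (Has.sqrt (Has.sub (Has.sq h1) lg_c4))
  have h3 := Has.ndiv (n := 2) (by norm_num) h2
  simpa using h3

noncomputable def gDen (a : ℝ) : ℝ := (1 + a) ^ 2 * (3 - rho - a)

theorem lgDen_has {I : Iv} {a : ℝ} (h : I.Has a) : (lgDen I).Has (gDen a) :=
  Has.mul (Has.sq (Has.add lg_c1 h)) (Has.sub (Has.sub lg_c3 lgRho_has) h)

/-- the hyperbolic majorant -/
noncomputable def gHyp (c : ℕ) (θ : ℝ) : ℝ :=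
  2 * Real.sin θ * (hA θ ^ 2 * gG c (hA θ)) * (gDen (hA θ))⁻¹

theorem lgHyp_has {c k : ℕ} {w : ℤ × ℤ} {θ : ℝ} (h : Near w θ (lgE : ℤ))
    (hok : (lgHyp c k w).1 = true) :
    gHyp c θ * (if 6 ≤ c ∧ k < 60 then 2 * (Real.sin θ * Real.cos θ) else 1) ≤
      ((lgHyp c k w).2 : ℝ) / SC := by
  have hc := has_cos h
  have hs := has_sin h
  have ha := lgA_has hc
  have hden := lgDen_has ha
  have hpos : 0 < (lgDen (lgA (reI w lgE))).lo := of_decide_eq_true hok
  have hv : ((((imI w lgE).nmul 2).mul ((lgA (reI w lgE)).sq.mul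
      (lgG c (lgA (reI w lgE))))).mul (lgDen (lgA (reI w lgE))).inv).Has (gHyp c θ) :=
    Has.mul (Has.mul (lg_two hs) (Has.mul (Has.sq ha) (lgG_has c ha))) (Has.inv hden hpos)
  unfold lgHyp
  simp only
  by_cases hck : 6 ≤ c ∧ k < 60
  · rw [if_pos hck, if_pos hck]
    exact lg_le_hi (Has.mul hv (lg_two (Has.mul hs hc)))
  · rw [if_neg hck, if_neg hck, mul_one]
    exact lg_le_hi hv

/-- the Chebyshev majorant -/
noncomputable def gT (c : ℕ) (x : ℝ) : ℝ :=
  if c = 1 then |x - rho|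
  else if c = 2 ∨ c = 6 then |2 * x ^ 2 - (1 + rho ^ 2)|
  else if c = 3 then |x * (4 * x ^ 2 - 3) - rho ^ 3|
  else if c = 4 then |2 * (2 * x ^ 2 - 1) ^ 2 - (1 + rho ^ 4)|
  else if c = 5 then 1 + rho ^ 5
  else 1 + rho ^ 3

theorem lgT_has (c : ℕ) {I : Iv} {x : ℝ} (h : I.Has x) : (lgT c I).Has (gT c x) := by
  unfold lgT gT
  split_ifs
  · exact Has.abs (Has.sub h lgRho_has)
  · exact Has.abs (Has.sub (lg_two (Has.sq h)) (Has.add lg_c1 lgRho2_has))
  · exact Has.abs (Has.sub (Has.mul h (Has.sub (lg_four (Has.sq h)) lg_c3)) lgRho3_has)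
  · exact Has.abs (Has.sub (lg_two (Has.sq (Has.sub (lg_two (Has.sq h)) lg_c1)))
      (Has.add lg_c1 lgRho4_has))
  · exact Has.add lg_c1 lgRho5_has
  · exact Has.add lg_c1 lgRho3_has

/-- the oscillating majorant -/
theorem lgOsc_has {c : ℕ} {z w : ℤ × ℤ} {θ₀ θ₁ θ : ℝ} (hz : Near z θ₀ (lgE : ℤ))
    (hw : Near w θ₁ (lgE : ℤ)) (hok : (lgOsc c z w).1 = true)
    (h0 : Real.cos θ₁ ≤ Real.cos θ) (h1 : Real.cos θ ≤ Real.cos θ₀) :
    (if 6 ≤ c then 2 * ((1 + Real.cos θ) * |Real.cos θ|) * (3 + 2 * Real.cos θ)⁻¹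
      else (1 + Real.cos θ₀) * (Real.sin θ₀ * (3 + 2 * Real.cos θ₀))⁻¹) *
        gT c (1 / 2 + Real.cos θ) ≤ ((lgOsc c z w).2 : ℝ) / SC := by
  have hu0 := has_cos hz
  have hs0 := has_sin hz
  have hu1 := has_cos hw
  have hU : (⟨(reI w lgE).lo, (reI z lgE).hi⟩ : Iv).Has (Real.cos θ) := by
    refine ⟨hu1.1.trans ?_, le_trans ?_ hu0.2⟩
    · exact mul_le_mul_of_nonneg_left h0 lgSC_pos.le
    · exact mul_le_mul_of_nonneg_left h1 lgSC_pos.le
  have hx : ((rat 1 2).add ⟨(reI w lgE).lo, (reI z lgE).hi⟩).Has (1 / 2 + Real.cos θ) := by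
    have := has_rat 1 (q := 2) (by norm_num)
    have h2 := Has.add this hU
    simpa using h2
  have hT := lgT_has c hx
  unfold lgOsc at hok ⊢
  simp only at hok ⊢
  by_cases hc : 6 ≤ c
  · simp only [if_pos hc] at hok ⊢
    have hpos := of_decide_eq_true hok
    exact lg_le_hi (Has.mul (Has.mul (lg_two (Has.mul (Has.add lg_c1 hU) (Has.abs hU)))
      (Has.inv (Has.add lg_c3 (lg_two hU)) hpos)) hT)
  · simp only [if_neg hc] at hok ⊢
    have hpos := of_decide_eq_true hok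
    exact lg_le_hi (Has.mul (Has.mul (Has.add lg_c1 hu0)
      (Has.inv (Has.mul hs0 (Has.add lg_c3 (lg_two hu0))) hpos)) hT)

end Pool.Agent.FD
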