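import Pool.Agent.FD.LargeB

/-!
# Project FD, module LARGE: the majorants of one angle
-/

open Finset Filter Topology

namespace Pool.Agent.FD

/-! ## the number `ρ` -/

theorem lgr_sq : rho ^ 2 = 3 * rho - 1 := by
  unfold rho
  have h : √5 ^ 2 = 5 := Real.sq_sqrt (by norm_num)
  nlinarith

theorem lgr_lo : (0.381966 : ℝ) < rho := by
  have := lg_sqrt5
  unfold rho
  linarith [this.2]

theorem lgr_hi : rho < (0.381967 : ℝ) := by
  have := lg_sqrt5
  unfold rho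
  linarith [this.1]

theorem lgr_pos : 0 < rho := by linarith [lgr_lo]

/-! ## the decay rate -/

theorem hA_root {θ : ℝ} (h : 1 ≤ 2 * Real.cos θ) :
    hA θ ^ 2 - (1 + 2 * Real.cos θ) * hA θ + 1 = 0 := by
  have h1 : √((1 + 2 * Real.cos θ) ^ 2 - 4) ^ 2 = (1 + 2 * Real.cos θ) ^ 2 - 4 :=
    Real.sq_sqrt (by nlinarith)
  unfold hA
  nlinarith

theorem hA_mono {θ θ' : ℝ} (h : 1 ≤ 2 * Real.cos θ') (h' : Real.cos θ' ≤ Real.cos θ) :
    hA θ ≤ hA θ' := by
  set b := 1 + 2 * Real.cos θ with hb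
  set b' := 1 + 2 * Real.cos θ' with hb'
  have hb2 : 2 ≤ b' := by linarith
  have hbb : b' ≤ b := by linarith
  have hs : √(b ^ 2 - 4) ^ 2 = b ^ 2 - 4 := Real.sq_sqrt (by nlinarith)
  have hs' : √(b' ^ 2 - 4) ^ 2 = b' ^ 2 - 4 := Real.sq_sqrt (by nlinarith)
  have hn : 0 ≤ √(b ^ 2 - 4) := Real.sqrt_nonneg _
  have hn' : 0 ≤ √(b' ^ 2 - 4) := Real.sqrt_nonneg _
  have hl : √(b ^ 2 - 4) ≤ b := by
    rw [Real.sqrt_le_left (by linarith)]; linarith
  have hl' : √(b' ^ 2 - 4) ≤ b' := by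
    rw [Real.sqrt_le_left (by linarith)]; linarith
  have key : b - b' ≤ √(b ^ 2 - 4) - √(b' ^ 2 - 4) := by
    rcases (add_nonneg hn hn').eq_or_lt with h0 | h0
    · have e1 : √(b ^ 2 - 4) = 0 := by linarith
      have e2 : √(b' ^ 2 - 4) = 0 := by linarith
      rw [e1] at hs
      rw [e2] at hs'
      rw [e1, e2]
      nlinarith
    · by_contra hcon
      push Not at hcon
      have h3 : (√(b ^ 2 - 4) - √(b' ^ 2 - 4)) * (√(b ^ 2 - 4) + √(b' ^ 2 - 4)) <
          (b - b') * (√(b ^ 2 - 4) + √(b' ^ 2 - 4)) := mul_lt_mul_of_pos_right hcon h0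
      have h4 : (b - b') * (√(b ^ 2 - 4) + √(b' ^ 2 - 4)) ≤ (b - b') * (b + b') :=
        mul_le_mul_of_nonneg_left (by linarith) (by linarith)
      nlinarith
  unfold hA
  linarith

theorem hA_zero : hA 0 = rho := by
  unfold hA rho
  rw [Real.cos_zero]
  norm_num

theorem hA_ge {θ : ℝ} (h : 1 ≤ 2 * Real.cos θ) : rho ≤ hA θ := by
  rw [← hA_zero]
  apply hA_mono h
  rw [Real.cos_zero]
  exact Real.cos_le_one _

theorem hA_le {θ : ℝ} (h : 1 ≤ 2 * Real.cos θ) : hA θ ≤ 1 := by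
  have h1 : hA θ ≤ hA (Real.pi / 3) := by
    apply hA_mono
    · rw [Real.cos_pi_div_three]; norm_num
    · rw [Real.cos_pi_div_three]; linarith
  have h2 : hA (Real.pi / 3) = 1 := by
    unfold hA
    rw [Real.cos_pi_div_three]
    norm_num
  linarith

theorem gG_nonneg (c : ℕ) {a : ℝ} (ha : 0 ≤ a) : 0 ≤ gG c a := by
  have := lgr_pos
  unfold gG
  split_ifs <;> positivity

theorem gG_mono (c : ℕ) {a a' : ℝ} (ha : 0 ≤ a) (h : a ≤ a') : gG c a ≤ gG c a' := by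
  have := lgr_pos
  have ha' : 0 ≤ a' := ha.trans h
  unfold gG
  split_ifs
  · exact le_rfl
  all_goals gcongr

theorem gDen_pos {a : ℝ} (ha : 0 ≤ a) (h : a ≤ 1) : 0 < gDen a := by
  have := lgr_hi
  unfold gDen
  have : 0 < 3 - rho - a := by linarith
  positivity

theorem gHyp_mono (c : ℕ) {θ θ' : ℝ} (h : 1 ≤ 2 * Real.cos θ') (h' : Real.cos θ' ≤ Real.cos θ)
    (hs : 0 ≤ Real.sin θ) (hs' : Real.sin θ ≤ Real.sin θ') : gHyp c θ ≤ gHyp c θ' := by
  have hρ := lgr_pos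
  have hρ' := lgr_hi
  have hθ : 1 ≤ 2 * Real.cos θ := by linarith
  have h1 := hA_mono h h'
  have h2 := hA_ge hθ
  have h3 := hA_le h
  have h4 : 0 ≤ hA θ := by linarith
  have h4' : 0 ≤ hA θ' := by linarith
  have h5 := gG_nonneg c h4
  have h6 := gG_mono c h4 h1
  have h7 : hA θ ^ 2 * (gDen (hA θ))⁻¹ ≤ hA θ' ^ 2 * (gDen (hA θ'))⁻¹ := by
    rw [← div_eq_mul_inv, ← div_eq_mul_inv, div_le_div_iff₀ (gDen_pos h4 (h1.trans h3))
      (gDen_pos h4' h3)]
    unfold gDen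
    have h8 : hA θ ^ 2 * (1 + hA θ') ^ 2 ≤ hA θ' ^ 2 * (1 + hA θ) ^ 2 := by
      rw [← mul_pow, ← mul_pow]
      apply pow_le_pow_left₀ (by positivity)
      nlinarith
    have h9 : 3 - rho - hA θ' ≤ 3 - rho - hA θ := by linarith
    calc hA θ ^ 2 * ((1 + hA θ') ^ 2 * (3 - rho - hA θ')) =
        hA θ ^ 2 * (1 + hA θ') ^ 2 * (3 - rho - hA θ') := by ring
      _ ≤ hA θ' ^ 2 * (1 + hA θ) ^ 2 * (3 - rho - hA θ) := by
          apply mul_le_mul h8 h9 (by linarith) (by positivity)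
      _ = _ := by ring
  have hd := gDen_pos h4 (h1.trans h3)
  have hd' := gDen_pos h4' h3
  unfold gHyp
  calc 2 * Real.sin θ * (hA θ ^ 2 * gG c (hA θ)) * (gDen (hA θ))⁻¹ =
      2 * Real.sin θ * gG c (hA θ) * (hA θ ^ 2 * (gDen (hA θ))⁻¹) := by ring
    _ ≤ 2 * Real.sin θ' * gG c (hA θ') * (hA θ' ^ 2 * (gDen (hA θ'))⁻¹) := by
        have : 0 ≤ hA θ ^ 2 * (gDen (hA θ))⁻¹ := by positivity
        have : 0 ≤ Real.sin θ' := hs.trans hs'
        have : 0 ≤ gG c (hA θ') := gG_nonneg c h4'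
        gcongr
    _ = _ := by ring

/-! ## the weight of a mode -/

/-- `f = cot (θ/2) / (2 + β)` -/
noncomputable def fF (θ : ℝ) : ℝ :=
  Real.cos (θ / 2) / Real.sin (θ / 2) / (2 + (1 + 2 * Real.cos θ))

theorem fF_eq {θ : ℝ} (h0 : 0 < θ) (h1 : θ < Real.pi) :
    fF θ = (1 + Real.cos θ) * (Real.sin θ * (3 + 2 * Real.cos θ))⁻¹ := by
  have hs : 0 < Real.sin (θ / 2) := Real.sin_pos_of_pos_of_lt_pi (by linarith) (by linarith)
  have hc : 0 < Real.cos (θ / 2) :=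
    Real.cos_pos_of_mem_Ioo ⟨by linarith, by linarith⟩
  have e1 : Real.sin θ = 2 * Real.sin (θ / 2) * Real.cos (θ / 2) := by
    rw [← Real.sin_two_mul]; ring_nf
  have e2 : Real.cos θ = 2 * Real.cos (θ / 2) ^ 2 - 1 := by
    rw [← Real.cos_two_mul]; ring_nf
  have h3 : 0 < 3 + 2 * Real.cos θ := by
    have := Real.neg_one_le_cos θ
    linarith
  have h4 : 0 < 2 + (1 + 2 * Real.cos θ) := by linarith
  have h5 : 0 < Real.sin θ := Real.sin_pos_of_pos_of_lt_pi h0 h1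
  unfold fF
  rw [← div_eq_mul_inv, div_div, div_eq_div_iff (mul_pos hs h4).ne' (mul_pos h5 h3).ne', e1, e2]
  ring

theorem fF_nonneg {θ : ℝ} (h0 : 0 < θ) (h1 : θ < Real.pi) : 0 ≤ fF θ := by
  rw [fF_eq h0 h1]
  have := Real.neg_one_le_cos θ
  have := Real.sin_pos_of_pos_of_lt_pi h0 h1
  have : 0 < 3 + 2 * Real.cos θ := by linarith
  have : 0 ≤ 1 + Real.cos θ := by linarith
  positivity

theorem fF_anti {θ θ' : ℝ} (h0 : 0 < θ) (h : θ ≤ θ') (h1 : θ' < Real.pi) : fF θ' ≤ fF θ := by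
  have hs : 0 < Real.sin (θ / 2) := Real.sin_pos_of_pos_of_lt_pi (by linarith) (by linarith)
  have hc : 0 < Real.cos (θ / 2) := Real.cos_pos_of_mem_Ioo ⟨by linarith, by linarith⟩
  have hs' : 0 < Real.sin (θ' / 2) := Real.sin_pos_of_pos_of_lt_pi (by linarith) (by linarith)
  have hc' : 0 < Real.cos (θ' / 2) := Real.cos_pos_of_mem_Ioo ⟨by linarith, by linarith⟩
  -- formula in the tangent of the half angle
  have key : ∀ τ : ℝ, 0 < Real.sin (τ / 2) → 0 < Real.cos (τ / 2) →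
      fF τ = (1 + (Real.sin (τ / 2) / Real.cos (τ / 2)) ^ 2) /
        ((Real.sin (τ / 2) / Real.cos (τ / 2)) *
          (5 + (Real.sin (τ / 2) / Real.cos (τ / 2)) ^ 2)) := by
    intro τ h1 h2
    have e2 : Real.cos τ = 2 * Real.cos (τ / 2) ^ 2 - 1 := by
      rw [← Real.cos_two_mul]; ring_nf
    have e3 := Real.sin_sq_add_cos_sq (τ / 2)
    unfold fF
    rw [e2]
    have h4 : 2 + (1 + 2 * (2 * Real.cos (τ / 2) ^ 2 - 1)) =
        Real.sin (τ / 2) ^ 2 + 5 * Real.cos (τ / 2) ^ 2 := by nlinarith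
    rw [h4]
    have h5 : 1 + (Real.sin (τ / 2) / Real.cos (τ / 2)) ^ 2 = 1 / Real.cos (τ / 2) ^ 2 := by
      rw [div_pow, eq_div_iff (by positivity)]
      field_simp
      linarith
    rw [h5]
    field_simp
    ring
  rw [key θ hs hc, key θ' hs' hc']
  set x := Real.sin (θ / 2) / Real.cos (θ / 2) with hx
  set y := Real.sin (θ' / 2) / Real.cos (θ' / 2) with hy
  have hx0 : 0 < x := by positivity
  have hxy : x ≤ y := by
    rw [hx, hy, div_le_div_iff₀ hc hc']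
    have h5 : Real.sin (θ / 2) ≤ Real.sin (θ' / 2) :=
      Real.sin_le_sin_of_le_of_le_pi_div_two (by linarith) (by linarith) (by linarith)
    have h6 : Real.cos (θ' / 2) ≤ Real.cos (θ / 2) :=
      Real.cos_le_cos_of_nonneg_of_le_pi (by linarith) (by linarith) (by linarith)
    exact mul_le_mul h5 h6 hc'.le hs'.le
  have hy0 : 0 < y := by positivity
  rw [div_le_div_iff₀ (by positivity) (by positivity)]
  have h7 : 0 ≤ (y - x) * ((x - y) ^ 2 + (x * y - 1) ^ 2 + 4) :=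
    mul_nonneg (by linarith) (by positivity)
  nlinarith

/-- the value `h_j` as a function of the angle -/
noncomputable def hj (θ : ℝ) (j : ℕ) : ℝ :=
  if 2 < 1 + 2 * Real.cos θ then hA θ ^ j
  else Real.cos (j * Real.arccos ((1 + 2 * Real.cos θ) / 2))

/-- the row weight -/
noncomputable def gW (c : ℕ) (θ : ℝ) : ℝ := if 6 ≤ c then |Real.sin (2 * θ)| else 1

/-- case `c` is used for the column `j` -/
def lgR (c j : ℕ) : Prop :=
  (c = 1 ∧ j = 1) ∨ (c = 2 ∧ j = 2) ∨ (c = 3 ∧ j = 3) ∨ (c = 4 ∧ j = 4) ∨ (c = 5 ∧ 5 ≤ j) ∨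
    (c = 6 ∧ j = 2) ∨ (c = 7 ∧ 3 ≤ j)

theorem lg_pow5 {a : ℝ} (h0 : rho ≤ a) (h1 : a ≤ 1) {j : ℕ} (hj : 5 ≤ j) :
    a ^ j - rho ^ j ≤ (a - rho) * (a * (a * (a * (a + rho) + rho ^ 2) + rho ^ 3) + rho ^ 4 +
      2 * rho ^ 5 - 2 * rho ^ j) := by
  have hρ := lgr_pos
  have hρ' := lgr_hi
  induction j, hj using Nat.le_induction with
  | base => exact le_of_eq (by ring)
  | succ j hj ih =>
    have h2 : rho ^ j ≤ a ^ j := pow_le_pow_left₀ hρ.le h0 j
    have h3 : a ^ (j + 1) - rho ^ (j + 1) = a * (a ^ j - rho ^ j) + rho ^ j * (a - rho) := by ring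
    have h4 : a * (a ^ j - rho ^ j) ≤ 1 * (a ^ j - rho ^ j) :=
      mul_le_mul_of_nonneg_right h1 (by linarith)
    have h5 : rho ^ (j + 1) = rho * rho ^ j := by ring
    have h6 : 0 < rho ^ j := by positivity
    have h7 : 2 * (rho * rho ^ j) ≤ rho ^ j := by nlinarith
    rw [h3, h5]
    have h8 : 0 ≤ a - rho := by linarith
    have h9 : (a - rho) * (2 * (rho * rho ^ j)) ≤ (a - rho) * rho ^ j :=
      mul_le_mul_of_nonneg_left h7 h8
    nlinarith

theorem lg_pow3 {a : ℝ} (h0 : rho ≤ a) (h1 : a ≤ 1) {j : ℕ} (hj : 3 ≤ j) :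
    a ^ j - rho ^ j ≤ (a - rho) * (a * (a + rho) + rho ^ 2 + 2 * rho ^ 3 - 2 * rho ^ j) := by
  have hρ := lgr_pos
  have hρ' := lgr_hi
  induction j, hj using Nat.le_induction with
  | base => exact le_of_eq (by ring)
  | succ j hj ih =>
    have h2 : rho ^ j ≤ a ^ j := pow_le_pow_left₀ hρ.le h0 j
    have h3 : a ^ (j + 1) - rho ^ (j + 1) = a * (a ^ j - rho ^ j) + rho ^ j * (a - rho) := by ring
    have h4 : a * (a ^ j - rho ^ j) ≤ 1 * (a ^ j - rho ^ j) :=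
      mul_le_mul_of_nonneg_right h1 (by linarith)
    have h5 : rho ^ (j + 1) = rho * rho ^ j := by ring
    have h6 : 0 < rho ^ j := by positivity
    have h7 : 2 * (rho * rho ^ j) ≤ rho ^ j := by nlinarith
    rw [h3, h5]
    have h8 : 0 ≤ a - rho := by linarith
    have h9 : (a - rho) * (2 * (rho * rho ^ j)) ≤ (a - rho) * rho ^ j :=
      mul_le_mul_of_nonneg_left h7 h8
    nlinarith

theorem lg_powG {c j : ℕ} (hcj : lgR c j) {a : ℝ} (h0 : rho ≤ a) (h1 : a ≤ 1) :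
    |a ^ j - rho ^ j| ≤ (a - rho) * gG c a := by
  have hρ := lgr_pos
  have h2 : rho ^ j ≤ a ^ j := pow_le_pow_left₀ hρ.le h0 j
  have h8 : 0 ≤ a - rho := by linarith
  have h9 : 0 < rho ^ j := by positivity
  rw [abs_of_nonneg (by linarith)]
  rcases hcj with ⟨rfl, rfl⟩ | ⟨rfl, rfl⟩ | ⟨rfl, rfl⟩ | ⟨rfl, rfl⟩ | ⟨rfl, hj⟩ | ⟨rfl, rfl⟩ |
    ⟨rfl, hj⟩
  · exact le_of_eq (by simp only [gG]; norm_num)
  · exact le_of_eq (by simp only [gG]; norm_num; ring)
  · exact le_of_eq (by simp only [gG]; norm_num; ring)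
  · exact le_of_eq (by simp only [gG]; norm_num; ring)
  · refine (lg_pow5 h0 h1 hj).trans ?_
    have : gG 5 a = a * (a * (a * (a + rho) + rho ^ 2) + rho ^ 3) + rho ^ 4 + 2 * rho ^ 5 := by
      simp only [gG]; norm_num
    rw [this]
    apply mul_le_mul_of_nonneg_left _ h8
    linarith
  · exact le_of_eq (by simp only [gG]; norm_num; ring)
  · refine (lg_pow3 h0 h1 hj).trans ?_
    have : gG 7 a = a * (a + rho) + rho ^ 2 + 2 * rho ^ 3 := by
      simp only [gG]; norm_num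
    rw [this]
    apply mul_le_mul_of_nonneg_left _ h8
    linarith

theorem fF_hyp {θ : ℝ} (h0 : 0 < θ) (h1 : θ < Real.pi) (h : 1 < 2 * Real.cos θ) :
    fF θ * (hA θ - rho) = 2 * Real.sin θ * hA θ ^ 2 * (gDen (hA θ))⁻¹ := by
  have hroot := hA_root h.le
  have hge := hA_ge h.le
  have hle := hA_le h.le
  have hρ := lgr_pos
  have hρ2 := lgr_sq
  have hs : 0 < Real.sin θ := Real.sin_pos_of_pos_of_lt_pi h0 h1
  have hcl : Real.cos θ < 1 := by
    have hsq := Real.sin_sq_add_cos_sq θ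
    by_contra hcon
    push Not at hcon
    nlinarith
  have h3 : 0 < 3 + 2 * Real.cos θ := by linarith
  have hden := gDen_pos (by linarith : 0 ≤ hA θ) hle
  rw [fF_eq h0 h1]
  set a := hA θ with ha
  set u := Real.cos θ with hu
  set s := Real.sin θ with hs'
  have hsu : s ^ 2 + u ^ 2 = 1 := Real.sin_sq_add_cos_sq θ
  have e1 : (a - rho) * (3 - rho - a) = 2 * (1 - u) * a := by nlinarith
  have e2 : (3 + 2 * u) * a = (1 + a) ^ 2 := by nlinarith
  have ha0 : 0 < a := by linarith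
  rw [← div_eq_mul_inv, ← div_eq_mul_inv, div_mul_eq_mul_div, div_eq_div_iff (by positivity)
    hden.ne']
  unfold gDen
  have h1u : 0 < 1 - u := by linarith
  calc (1 + u) * (a - rho) * ((1 + a) ^ 2 * (3 - rho - a)) =
      (1 + u) * (1 + a) ^ 2 * ((a - rho) * (3 - rho - a)) := by ring
    _ = (1 + u) * ((3 + 2 * u) * a) * (2 * (1 - u) * a) := by rw [e1, e2]
    _ = 2 * (1 - u ^ 2) * a ^ 2 * (3 + 2 * u) := by ring
    _ = 2 * s ^ 2 * a ^ 2 * (3 + 2 * u) := by rw [← hsu]; ring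
    _ = _ := by ring

theorem lg_cheb {c j : ℕ} (hcj : lgR c j) {x : ℝ} (h0 : -1 ≤ x) (h1 : x ≤ 1) :
    |Real.cos (j * Real.arccos x) - rho ^ j| ≤ gT c x := by
  have hρ := lgr_pos
  have hρ' := lgr_hi
  have hcos : Real.cos (Real.arccos x) = x := Real.cos_arccos h0 h1
  have hc2 : Real.cos (2 * Real.arccos x) = 2 * x ^ 2 - 1 := by rw [Real.cos_two_mul, hcos]
  have hgen : ∀ m : ℕ, m ≤ j → |Real.cos (j * Real.arccos x) - rho ^ j| ≤ 1 + rho ^ m := by
    intro m hm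
    refine (abs_sub _ _).trans (add_le_add (Real.abs_cos_le_one _) ?_)
    rw [abs_of_pos (by positivity)]
    exact pow_le_pow_of_le_one hρ.le (by linarith) hm
  rcases hcj with ⟨rfl, rfl⟩ | ⟨rfl, rfl⟩ | ⟨rfl, rfl⟩ | ⟨rfl, rfl⟩ | ⟨rfl, hj⟩ | ⟨rfl, rfl⟩ |
    ⟨rfl, hj⟩
  · simp only [gT]
    norm_num [hcos]
  · simp only [gT]
    norm_num
    rw [hc2]
    apply le_of_eq
    congr 1
    ring
  · simp only [gT]
    norm_num
    rw [Real.cos_three_mul, hcos]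
    apply le_of_eq
    congr 1
    ring
  · simp only [gT]
    norm_num
    have : (4 : ℝ) * Real.arccos x = 2 * (2 * Real.arccos x) := by ring
    rw [this, Real.cos_two_mul, hc2]
    apply le_of_eq
    congr 1
    ring
  · have : gT 5 x = 1 + rho ^ 5 := by simp only [gT]; norm_num
    rw [this]
    exact hgen 5 hj
  · simp only [gT]
    norm_num
    rw [hc2]
    apply le_of_eq
    congr 1
    ring
  · have : gT 7 x = 1 + rho ^ 3 := by simp only [gT]; norm_num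
    rw [this]
    exact hgen 3 hj

end Pool.Agent.FD
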