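import Pool.Agent.FD.Defs

/-!
# The fractional domination number is attained
-/

open Finset

namespace Pool.Agent.FD

theorem isFDF_one {V : Type*} [Fintype V] (G : SimpleGraph V) : IsFDF G (fun _ => (1 : ℝ)) := by
  classical
  refine ⟨fun v => ⟨zero_le_one, le_refl _⟩, fun v => ?_⟩
  have h := Finset.single_le_sum (f := fun u => if u = v ∨ G.Adj v u then (1 : ℝ) else 0)
    (fun u _ => by split_ifs <;> norm_num) (Finset.mem_univ v)
  have h1 : (if v = v ∨ G.Adj v v then (1 : ℝ) else 0) = 1 := if_pos (Or.inl rfl)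
  rw [h1] at h
  convert h using 3

theorem isCompact_fdf {V : Type*} [Fintype V] (G : SimpleGraph V) :
    IsCompact {x : V → ℝ | IsFDF G x} := by
  classical
  have h1 : IsCompact (Set.pi Set.univ fun _ : V => Set.Icc (0 : ℝ) 1) :=
    isCompact_univ_pi fun _ => isCompact_Icc
  refine h1.of_isClosed_subset ?_ (fun x hx => fun v _ => ⟨(hx.1 v).1, (hx.1 v).2⟩)
  have h2 : {x : V → ℝ | IsFDF G x} = (⋂ v, {x : V → ℝ | 0 ≤ x v}) ∩ ((⋂ v, {x : V → ℝ | x v ≤ 1}) ∩
      ⋂ v, {x : V → ℝ | 1 ≤ ∑ u : V, (if u = v ∨ G.Adj v u then x u else 0)}) := by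
    ext x
    simp only [Set.mem_ofPred_eq, Set.mem_inter_iff, Set.mem_iInter]
    constructor
    · intro h
      refine ⟨fun v => (h.1 v).1, fun v => (h.1 v).2, fun v => ?_⟩
      have := h.2 v
      convert this using 3
    · intro h
      refine ⟨fun v => ⟨h.1 v, h.2.1 v⟩, fun v => ?_⟩
      have := h.2.2 v
      convert this using 3
  rw [h2]
  refine IsClosed.inter ?_ (IsClosed.inter ?_ ?_)
  · exact isClosed_iInter fun v => isClosed_le continuous_const (continuous_apply v)
  · exact isClosed_iInter fun v => isClosed_le (continuous_apply v) continuous_const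
  · refine isClosed_iInter fun v => isClosed_le continuous_const ?_
    refine continuous_finsetSum _ fun u _ => ?_
    split_ifs
    · exact continuous_apply u
    · exact continuous_const

/-- the infimum in the definition of `gammaF` is a minimum -/
theorem isLeast_gammaF {V : Type*} [Fintype V] (G : SimpleGraph V) :
    IsLeast {s | ∃ x : V → ℝ, IsFDF G x ∧ s = ∑ v, x v} (gammaF G) := by
  have hcont : ContinuousOn (fun x : V → ℝ => ∑ v, x v) {x : V → ℝ | IsFDF G x} :=
    (continuous_finsetSum _ fun v _ => continuous_apply v).continuousOn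
  have himg : {s | ∃ x : V → ℝ, IsFDF G x ∧ s = ∑ v, x v} =
      (fun x : V → ℝ => ∑ v, x v) '' {x : V → ℝ | IsFDF G x} := by
    ext s
    simp only [Set.mem_ofPred_eq, Set.mem_image]
    constructor
    · rintro ⟨x, hx, rfl⟩; exact ⟨x, hx, rfl⟩
    · rintro ⟨x, hx, rfl⟩; exact ⟨x, hx, rfl⟩
  have hc : IsCompact {s | ∃ x : V → ℝ, IsFDF G x ∧ s = ∑ v, x v} := by
    rw [himg]; exact (isCompact_fdf G).image_of_continuousOn hcont
  exact hc.isLeast_sInf ⟨_, _, isFDF_one G, rfl⟩

end Pool.Agent.FD
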