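import Pool.Agent.FD.EndDefs
import Pool.Agent.FD.AllTight
import Pool.Agent.FD.Grid

/-!
# Upper and lower bounds of the fractional domination number by modified ends
-/

open Finset Filter Topology

namespace Pool.Agent.FD

/-- the bulk array, cut off outside the strip -/
noncomputable def bulk (N M : ℕ) (r j : ℕ) : ℝ := if 1 ≤ j ∧ j + 1 ≤ M then bb N r else 0

/-- the array with two modified ends -/
noncomputable def yM (N M : ℕ) (lam : ℝ) (e : ℕ → ℕ → ℝ) (r j : ℕ) : ℝ :=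
  lam * xM N M r j + (1 - lam) * bulk N M r j + e r j + e r (M - j)

theorem e_zero {N : ℕ} {t : ℕ → ℝ} {lam : ℝ} {e : ℕ → ℕ → ℝ} {J : ℕ} {δ : ℝ}
    (he : EndData N t lam e J δ) {r j : ℕ} (h : r < 1 ∨ N - 1 < r ∨ j < 1 ∨ J < j) :
    e r j = 0 := by
  by_contra hne
  have := he.supp r j hne
  simp only [mem_Icc] at this
  omega

theorem yM_bd {N M : ℕ} (hN : 2 ≤ N) (h : Adm N M) {t : ℕ → ℝ} {lam : ℝ} {e : ℕ → ℕ → ℝ} {J : ℕ}
    {δ : ℝ} (he : EndData N t lam e J δ) (hJ : J < M) : Bd (N - 1) (M - 1) (yM N M lam e) := by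
  have hb := xM_bd hN h
  have hM := h.two
  have hN1 : N - 1 + 1 = N := by omega
  have hM1 : M - 1 + 1 = M := by omega
  constructor
  · intro j
    have h1 := e_zero he (r := 0) (j := j) (by omega)
    have h2 := e_zero he (r := 0) (j := M - j) (by omega)
    simp [yM, hb.r0 j, h1, h2, bulk, bb_zero]
  · intro j
    have h0 := hb.rN j
    rw [hN1] at h0 ⊢
    have h1 := e_zero he (r := N) (j := j) (by omega)
    have h2 := e_zero he (r := N) (j := M - j) (by omega)
    simp [yM, h0, h1, h2, bulk, bb_N (show 0 < N by omega)]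
  · intro r
    have h1 := e_zero he (r := r) (j := 0) (by omega)
    have h2 := e_zero he (r := r) (j := M - 0) (by omega)
    simp [yM, hb.j0 r, h1, bulk]
    simpa using h2
  · intro r
    have h0 := hb.jN r
    rw [hM1] at h0 ⊢
    have h1 := e_zero he (r := r) (j := M) (by omega)
    have h2 := e_zero he (r := r) (j := M - M) (by omega)
    simp [yM, h0, h1, bulk]
    simpa using h2

/-- the defect of one end -/
noncomputable def gd (N : ℕ) (lam : ℝ) (e : ℕ → ℕ → ℝ) (r j : ℕ) : ℝ :=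
  nb e r j - if j = 1 then (1 - lam) * bb N r else 0

theorem nb_bulk {N M r j : ℕ} (hr : r ∈ Icc 1 (N - 1)) (hj : j ∈ Icc 1 (M - 1)) :
    nb (bulk N M) r j = 1 - (if j = 1 then bb N r else 0) - (if M - j = 1 then bb N r else 0) := by
  simp only [mem_Icc] at hr hj
  have hb := bb_eq (N := N) (r := r) hr.1 (by omega)
  have h1 : bulk N M r j = bb N r := if_pos ⟨hj.1, by omega⟩
  have h2 : bulk N M (r - 1) j = bb N (r - 1) := if_pos ⟨hj.1, by omega⟩
  have h3 : bulk N M (r + 1) j = bb N (r + 1) := if_pos ⟨hj.1, by omega⟩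
  have h4 : bulk N M r (j - 1) = bb N r - (if j = 1 then bb N r else 0) := by
    by_cases hj1 : j = 1
    · simp [bulk, hj1]
    · have : 1 ≤ j - 1 ∧ j - 1 + 1 ≤ M := by omega
      simp [bulk, hj1, this]
  have h5 : bulk N M r (j + 1) = bb N r - (if M - j = 1 then bb N r else 0) := by
    by_cases hj1 : M - j = 1
    · have : ¬ (j + 1 + 1 ≤ M) := by omega
      simp [bulk, hj1, this]
    · have : 1 ≤ j + 1 ∧ j + 1 + 1 ≤ M := by omega
      simp [bulk, hj1, this]
  unfold nb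
  rw [h1, h2, h3, h4, h5]
  linarith

theorem nb_refl {e : ℕ → ℕ → ℝ} {M r j : ℕ} (hj : j ∈ Icc 1 (M - 1)) :
    nb (fun r j => e r (M - j)) r j = nb e r (M - j) := by
  simp only [mem_Icc] at hj
  have h1 : M - (j - 1) = M - j + 1 := by omega
  have h2 : M - (j + 1) = M - j - 1 := by omega
  simp only [nb, h1, h2]
  ring

theorem nb_yM {N M : ℕ} (h : Adm N M) (lam : ℝ) (e : ℕ → ℕ → ℝ) {r j : ℕ}
    (hr : r ∈ Icc 1 (N - 1)) (hj : j ∈ Icc 1 (M - 1)) :
    nb (yM N M lam e) r j = 1 + gd N lam e r j + gd N lam e r (M - j) := by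
  have h1 := xM_nb h hr hj
  have h2 := nb_bulk (N := N) (M := M) hr hj
  have h3 := nb_refl (e := e) (r := r) hj
  have h4 : nb (yM N M lam e) r j = lam * nb (xM N M) r j + (1 - lam) * nb (bulk N M) r j +
      nb e r j + nb (fun r j => e r (M - j)) r j := by
    simp only [nb, yM]
    ring
  rw [h4, h1, h2, h3]
  unfold gd
  split_ifs <;> ring

/-- the error of the comparison with the half strip -/
noncomputable def err (N : ℕ) (t : ℕ → ℝ) (M : ℕ) : ℝ :=
  ∑ k ∈ range (N / 2), kap N k *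
    (if 2 < be N k then aa N k ^ (M / 2) else |tau N M k - t k|)

theorem xt_sub {N : ℕ} (t t' : ℕ → ℝ) (r j : ℕ) :
    |xt N t r j - xt N t' r j| ≤ ∑ k ∈ range (N / 2), kap N k *
      (if 2 < be N k then 0 else |t k - t' k|) := by
  have h1 : xt N t r j - xt N t' r j = ∑ k ∈ range (N / 2),
      kap N k * Real.sin (r * th N k) * (wt N t' k j - wt N t k j) := by
    unfold xt
    rw [← sub_eq_zero]
    simp only [mul_sub, sum_sub_distrib]
    ring
  rw [h1]
  refine (abs_sum_le_sum_abs _ _).trans (sum_le_sum fun k hk => ?_)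
  have hkp := (kap_pos hk).le
  rw [abs_mul, abs_mul, abs_of_nonneg hkp, mul_assoc]
  refine mul_le_mul_of_nonneg_left ?_ hkp
  by_cases hb : 2 < be N k
  · simp [wt, hb]
  · simp only [wt, hb, if_false]
    have h2 : Real.cos (j * ph N k) + t' k * Real.sin (j * ph N k) -
        (Real.cos (j * ph N k) + t k * Real.sin (j * ph N k)) =
        -((t k - t' k) * Real.sin (j * ph N k)) := by ring
    rw [h2, abs_neg, abs_mul]
    have h3 := Real.abs_sin_le_one (r * th N k)
    have h4 := Real.abs_sin_le_one (j * ph N k)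
    have h5 := abs_nonneg (t k - t' k)
    have h6 := abs_nonneg (Real.sin (j * ph N k))
    calc |Real.sin (r * th N k)| * (|t k - t' k| * |Real.sin (j * ph N k)|)
        ≤ 1 * (|t k - t' k| * 1) := by gcongr
      _ = |t k - t' k| := by ring

theorem xM_near {N M r j : ℕ} (h : Adm N M) (t : ℕ → ℝ) (hj : 2 * j ≤ M) :
    |xM N M r j - xt N t r j| ≤ err N t M := by
  have h1 := xM_close (r := r) h hj
  have h2 := xt_sub (N := N) (tau N M) t r j
  have h3 : err N t M = ∑ k ∈ range (N / 2), kap N k *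
      (if 2 < be N k then aa N k ^ (M / 2) else 0) + ∑ k ∈ range (N / 2), kap N k *
      (if 2 < be N k then 0 else |tau N M k - t k|) := by
    unfold err
    rw [← sum_add_distrib]
    refine sum_congr rfl fun k _ => ?_
    split_ifs <;> ring
  rw [h3]
  have h4 := abs_add_le (xM N M r j - xt N (tau N M) r j) (xt N (tau N M) r j - xt N t r j)
  have h5 : xM N M r j - xt N (tau N M) r j + (xt N (tau N M) r j - xt N t r j) =
      xM N M r j - xt N t r j := by ring
  rw [h5] at h4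
  linarith

theorem err_tendsto {N : ℕ} {t : ℕ → ℝ} {M : ℕ → ℕ} (hM : AdmSeq N t M) :
    Tendsto (fun i => err N t (M i)) atTop (𝓝 0) := by
  unfold err
  rw [show (0 : ℝ) = ∑ k ∈ range (N / 2), 0 by simp]
  refine tendsto_finsetSum _ fun k hk => ?_
  by_cases hb : 2 < be N k
  · simp only [hb, if_true]
    have h1 : Tendsto (fun i => M i / 2) atTop atTop :=
      (Nat.tendsto_div_const_atTop (by norm_num)).comp hM.top
    have h2 := (tendsto_pow_atTop_nhds_zero_of_lt_one (aa_pos hk hb).le (aa_lt_one hk hb)).comp h1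
    simpa using h2.const_mul (kap N k)
  · simp only [hb, if_false]
    have h1 := hM.tau k hk (not_lt.mp hb)
    have h2 := (h1.sub_const (t k)).abs
    simpa using h2.const_mul (kap N k)

theorem yM_symm {N M : ℕ} (h : Adm N M) (lam : ℝ) (e : ℕ → ℕ → ℝ) {r j : ℕ} (hj : j ≤ M) :
    yM N M lam e r (M - j) = yM N M lam e r j := by
  have h1 := xM_symm (r := r) h hj
  have h2 : M - (M - j) = j := by omega
  have h3 : bulk N M r (M - j) = bulk N M r j := by
    unfold bulk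
    congr 1
    rw [eq_iff_iff]
    omega
  unfold yM
  rw [h1, h2, h3]
  ring

theorem yM_nonneg {N M : ℕ} (h : Adm N M) {t : ℕ → ℝ} {lam : ℝ} {e : ℕ → ℕ → ℝ} {J : ℕ}
    {δ : ℝ} (he : EndData N t lam e J δ) (hJ : 2 * J < M) (herr : err N t M ≤ δ) :
    ∀ r ∈ Icc 1 (N - 1), ∀ j ∈ Icc 1 (M - 1), 0 ≤ yM N M lam e r j := by
  have key : ∀ r ∈ Icc 1 (N - 1), ∀ j ∈ Icc 1 (M - 1), 2 * j ≤ M → 0 ≤ yM N M lam e r j := by
    intro r hr j hj hj2
    have hj' := mem_Icc.mp hj
    have h1 := he.pos r hr j hj'.1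
    have h2 := xM_near (r := r) h t hj2
    have h3 : e r (M - j) = 0 := e_zero he (by omega)
    have h4 : bulk N M r j = bb N r := if_pos ⟨hj'.1, by omega⟩
    have h5 : lam * xt N t r j - lam * xM N M r j ≤ δ := by
      have h6 := he.lam0
      have h7 := he.lam1
      have h8 := abs_le.mp h2
      have h9 : xt N t r j - xM N M r j ≤ δ := by linarith
      have h10 := he.dpos
      calc lam * xt N t r j - lam * xM N M r j = lam * (xt N t r j - xM N M r j) := by ring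
        _ ≤ lam * δ := mul_le_mul_of_nonneg_left h9 h6
        _ ≤ 1 * δ := by gcongr
        _ = δ := one_mul _
    unfold yM
    rw [h3, h4]
    linarith
  intro r hr j hj
  by_cases hj2 : 2 * j ≤ M
  · exact key r hr j hj hj2
  · have hj' := mem_Icc.mp hj
    rw [← yM_symm h lam e (show j ≤ M by omega)]
    exact key r hr (M - j) (by rw [mem_Icc]; omega) (by omega)

/-- total weight of the two ends, minus the bulk -/
noncomputable def vM (N M : ℕ) : ℝ :=
  ∑ k ∈ range (N / 2), kap N k * ct N k *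
    (if 2 < be N k then 2 * (1 + (aa N k + aa N k ^ (M - 1)) / (1 + aa N k ^ M)) / (2 + be N k)
      else 1 - tau N M k * √((2 - be N k) / (2 + be N k)))

theorem vM_tendsto {N : ℕ} {t : ℕ → ℝ} {M : ℕ → ℕ} (hM : AdmSeq N t M) :
    Tendsto (fun i => vM N (M i)) atTop (𝓝 (Vt N t)) := by
  unfold vM Vt
  refine tendsto_finsetSum _ fun k hk => ?_
  refine Tendsto.const_mul _ ?_
  by_cases hb : 2 < be N k
  · simp only [hb, if_true]
    rw [← two_aa hk hb]
    have hp := tendsto_pow_atTop_nhds_zero_of_lt_one (aa_pos hk hb).le (aa_lt_one hk hb)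
    have h1 : Tendsto (fun i => aa N k ^ (M i)) atTop (𝓝 0) := hp.comp hM.top
    have h2 : Tendsto (fun i => aa N k ^ (M i - 1)) atTop (𝓝 0) :=
      hp.comp ((tendsto_sub_atTop_nat 1).comp hM.top)
    have h3 : Tendsto (fun i => (aa N k + aa N k ^ (M i - 1)) / (1 + aa N k ^ (M i))) atTop
        (𝓝 ((aa N k + 0) / (1 + 0))) :=
      (h2.const_add _).div (h1.const_add _) (by norm_num)
    have h4 := ((h3.const_add 1).const_mul 2).div_const (2 + be N k)
    simpa using h4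
  · simp only [hb, if_false]
    have h1 := hM.tau k hk (not_lt.mp hb)
    exact (h1.mul_const _).const_sub 1

theorem sum_end {N : ℕ} {t : ℕ → ℝ} {lam : ℝ} {e : ℕ → ℕ → ℝ} {J : ℕ} {δ : ℝ}
    (he : EndData N t lam e J δ) {M : ℕ} (hJ : J < M) (r : ℕ) :
    ∑ j ∈ Icc 1 (M - 1), e r j = ∑ j ∈ Icc 1 J, e r j := by
  symm
  refine sum_subset (Icc_subset_Icc_right (by omega)) fun j hj hj' => ?_
  simp only [mem_Icc] at hj hj'
  exact e_zero he (by omega)

theorem sum_refl (g : ℕ → ℝ) (M : ℕ) :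
    ∑ j ∈ Icc 1 (M - 1), g (M - j) = ∑ j ∈ Icc 1 (M - 1), g j := by
  refine sum_nbij' (fun j => M - j) (fun j => M - j) ?_ ?_ ?_ ?_ ?_
  · intro j hj
    simp only [mem_Icc] at hj ⊢
    omega
  · intro j hj
    simp only [mem_Icc] at hj ⊢
    omega
  · intro j hj
    simp only [mem_Icc] at hj
    omega
  · intro j hj
    simp only [mem_Icc] at hj
    omega
  · intro j _
    rfl

theorem tot_yM {N M : ℕ} (hN : 2 ≤ N) (h : Adm N M) {t : ℕ → ℝ} {lam : ℝ} {e : ℕ → ℕ → ℝ}
    {J : ℕ} {δ : ℝ} (he : EndData N t lam e J δ) (hJ : J < M) :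
    tot (N - 1) (M - 1) (yM N M lam e) = (M - 1) * alph N + lam * vM N M +
      2 * ∑ r ∈ Icc 1 (N - 1), ∑ j ∈ Icc 1 J, e r j := by
  have h1 := xM_tot hN h
  have h2 := alph_eq hN
  have hM := h.two
  have h3 : vM N M = -∑ k ∈ range (N / 2), kap N k * ct N k *
        (if 2 < be N k then
          -(2 * (1 + (aa N k + aa N k ^ (M - 1)) / (1 + aa N k ^ M)) / (2 + be N k))
        else -(1 - tau N M k * √((2 - be N k) / (2 + be N k)))) := by
    unfold vM
    rw [← sum_neg_distrib]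
    refine sum_congr rfl fun k _ => ?_
    split_ifs <;> ring
  have h4 : tot (N - 1) (M - 1) (yM N M lam e) = lam * tot (N - 1) (M - 1) (xM N M) +
      (1 - lam) * tot (N - 1) (M - 1) (bulk N M) + ∑ r ∈ Icc 1 (N - 1), ∑ j ∈ Icc 1 (M - 1), e r j
      + ∑ r ∈ Icc 1 (N - 1), ∑ j ∈ Icc 1 (M - 1), e r (M - j) := by
    simp only [tot, yM, mul_sum, sum_add_distrib]
  have h5 : tot (N - 1) (M - 1) (bulk N M) = (M - 1) * alph N := by
    unfold tot
    rw [← h2, mul_sum]
    refine sum_congr rfl fun r _ => ?_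
    have h6 : ∀ j ∈ Icc 1 (M - 1), bulk N M r j = bb N r := by
      intro j hj
      simp only [mem_Icc] at hj
      exact if_pos ⟨hj.1, by omega⟩
    rw [sum_congr rfl h6, sum_const, Nat.card_Icc, nsmul_eq_mul]
    congr 1
    rw [Nat.cast_sub (by omega)]
    push_cast [Nat.cast_sub (show 1 ≤ M by omega)]
    ring
  have h7 : ∑ r ∈ Icc 1 (N - 1), ∑ j ∈ Icc 1 (M - 1), e r j =
      ∑ r ∈ Icc 1 (N - 1), ∑ j ∈ Icc 1 J, e r j :=
    sum_congr rfl fun r _ => sum_end he hJ r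
  have h8 : ∑ r ∈ Icc 1 (N - 1), ∑ j ∈ Icc 1 (M - 1), e r (M - j) =
      ∑ r ∈ Icc 1 (N - 1), ∑ j ∈ Icc 1 J, e r j := by
    refine sum_congr rfl fun r _ => ?_
    rw [sum_refl (fun j => e r j) M, sum_end he hJ r]
  rw [h4, h5, h7, h8, h1, h3]
  ring

theorem gd_nonneg {N : ℕ} {lam : ℝ} {e : ℕ → ℕ → ℝ} (hu : UpC N lam e) {r j : ℕ}
    (hr : r ∈ Icc 1 (N - 1)) (hj : 1 ≤ j) : 0 ≤ gd N lam e r j := by
  unfold gd
  by_cases hj1 : j = 1
  · have := hu.1 r hr
    simp only [hj1, if_true]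
    linarith
  · have := hu.2 r hr j (by omega)
    simp only [hj1, if_false]
    linarith

theorem gd_nonpos {N : ℕ} {lam : ℝ} {e : ℕ → ℕ → ℝ} (hu : LoC N lam e) {r j : ℕ}
    (hr : r ∈ Icc 1 (N - 1)) (hj : 1 ≤ j) : gd N lam e r j ≤ 0 := by
  unfold gd
  by_cases hj1 : j = 1
  · have := hu.1 r hr
    simp only [hj1, if_true]
    linarith
  · have := hu.2 r hr j (by omega)
    simp only [hj1, if_false]
    linarith

theorem tot_tendsto {N : ℕ} {t : ℕ → ℝ} {M : ℕ → ℕ} (hM : AdmSeq N t M) (lam S : ℝ) :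
    Tendsto (fun i => lam * vM N (M i) + 2 * S) atTop (𝓝 (lam * Vt N t + 2 * S)) :=
  ((vM_tendsto hM).const_mul lam).add_const _

theorem upper {N : ℕ} (hN : 2 ≤ N) {t : ℕ → ℝ} {M : ℕ → ℕ} (hM : AdmSeq N t M) {lam : ℝ}
    {e : ℕ → ℕ → ℝ} {J : ℕ} {δ : ℝ} (he : EndData N t lam e J δ) (hu : UpC N lam e) {ε : ℝ}
    (hε : 0 < ε) :
    ∀ᶠ i in atTop, gammaF (grid (N - 1) (M i - 1)) - (M i - 1) * alph N ≤
      lam * Vt N t + 2 * ∑ r ∈ Icc 1 (N - 1), ∑ j ∈ Icc 1 J, e r j + ε := by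
  have e1 := hM.top.eventually_gt_atTop (2 * J)
  have e2 := (err_tendsto hM).eventually_lt_const he.dpos
  have e3 := (tot_tendsto hM lam (∑ r ∈ Icc 1 (N - 1), ∑ j ∈ Icc 1 J, e r j)).eventually_lt_const
    (show lam * Vt N t + 2 * ∑ r ∈ Icc 1 (N - 1), ∑ j ∈ Icc 1 J, e r j <
      lam * Vt N t + 2 * ∑ r ∈ Icc 1 (N - 1), ∑ j ∈ Icc 1 J, e r j + ε by linarith)
  filter_upwards [e1, e2, e3] with i h1 h2 h3
  have hA := hM.adm i
  have h4 := gamma_le (yM_bd hN hA he (by omega)) (yM_nonneg hA he h1 h2.le) (by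
    intro r hr j hj
    have hj' := mem_Icc.mp hj
    rw [nb_yM hA lam e hr hj]
    have h5 := gd_nonneg hu hr hj'.1
    have h6 := gd_nonneg hu hr (show 1 ≤ M i - j by omega)
    linarith)
  rw [tot_yM hN hA he (by omega)] at h4
  linarith

theorem lower {N : ℕ} (hN : 2 ≤ N) {t : ℕ → ℝ} {M : ℕ → ℕ} (hM : AdmSeq N t M) {lam : ℝ}
    {e : ℕ → ℕ → ℝ} {J : ℕ} {δ : ℝ} (he : EndData N t lam e J δ) (hu : LoC N lam e) {ε : ℝ}
    (hε : 0 < ε) :
    ∀ᶠ i in atTop, lam * Vt N t + 2 * ∑ r ∈ Icc 1 (N - 1), ∑ j ∈ Icc 1 J, e r j - ε ≤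
      gammaF (grid (N - 1) (M i - 1)) - (M i - 1) * alph N := by
  have e1 := hM.top.eventually_gt_atTop (2 * J)
  have e2 := (err_tendsto hM).eventually_lt_const he.dpos
  have e3 := (tot_tendsto hM lam (∑ r ∈ Icc 1 (N - 1), ∑ j ∈ Icc 1 J, e r j)).eventually_const_lt
    (show lam * Vt N t + 2 * ∑ r ∈ Icc 1 (N - 1), ∑ j ∈ Icc 1 J, e r j - ε <
      lam * Vt N t + 2 * ∑ r ∈ Icc 1 (N - 1), ∑ j ∈ Icc 1 J, e r j by linarith)
  filter_upwards [e1, e2, e3] with i h1 h2 h3
  have hA := hM.adm i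
  have h4 := le_gamma (yM_bd hN hA he (by omega)) (yM_nonneg hA he h1 h2.le) (by
    intro r hr j hj
    have hj' := mem_Icc.mp hj
    rw [nb_yM hA lam e hr hj]
    have h5 := gd_nonpos hu hr hj'.1
    have h6 := gd_nonpos hu hr (show 1 ≤ M i - j by omega)
    linarith)
  rw [tot_yM hN hA he (by omega)] at h4
  linarith

end Pool.Agent.FD
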