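import Pool.Agent.FD.Defs

/-!
# The behaviour at infinity of a rational function with rational coefficients
-/

open Filter Topology Polynomial

namespace Pool.Agent.FD

/-- `P / Q - a x` tends to a rational number, to `+∞` or to `-∞` -/
theorem rat_tri (P Q : Polynomial ℚ) (hQ : Q ≠ 0) (a : ℚ) :
    (∃ l : ℚ, Tendsto (fun x : ℕ => aeval (x : ℝ) P / aeval (x : ℝ) Q - x * a) atTop
        (𝓝 (l : ℝ))) ∨
      Tendsto (fun x : ℕ => aeval (x : ℝ) P / aeval (x : ℝ) Q - x * a) atTop atTop ∨
      Tendsto (fun x : ℕ => aeval (x : ℝ) P / aeval (x : ℝ) Q - x * a) atTop atBot := by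
  set i : ℚ →+* ℝ := algebraMap ℚ ℝ with hi
  set R : Polynomial ℚ := P - C a * X * Q with hR
  have hinj : Function.Injective i := (algebraMap ℚ ℝ).injective
  have hQ' : Q.map i ≠ 0 := (Polynomial.map_ne_zero_iff hinj).mpr hQ
  have hcast : Tendsto (fun x : ℕ => (x : ℝ)) atTop atTop := tendsto_natCast_atTop_atTop
  have hne : ∀ᶠ x : ℝ in atTop, (Q.map i).eval x ≠ 0 := by
    have h1 : ({x : ℝ | (Q.map i).IsRoot x}).Finite := Polynomial.finite_setOfPred_isRoot hQ'
    have h2 := h1.bddAbove
    obtain ⟨B, hB⟩ := h2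
    filter_upwards [eventually_gt_atTop B] with x hx h0
    exact absurd (hB (show x ∈ {x : ℝ | (Q.map i).IsRoot x} from h0)) (not_le.mpr hx)
  have heq : ∀ᶠ x : ℝ in atTop, (R.map i).eval x / (Q.map i).eval x =
      aeval x P / aeval x Q - x * a := by
    filter_upwards [hne] with x hx
    have e1 : aeval x P = (P.map i).eval x := by rw [eval_map_algebraMap]
    have e2 : aeval x Q = (Q.map i).eval x := by rw [eval_map_algebraMap]
    rw [e1, e2, hR]
    simp only [Polynomial.map_sub, Polynomial.map_mul, Polynomial.map_C, Polynomial.map_X,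
      eval_sub, eval_mul, eval_C, eval_X]
    have e3 : i a = (a : ℝ) := by simp [hi]
    rw [e3]
    field_simp
  have hdegR : (R.map i).degree = R.degree := Polynomial.degree_map_eq_of_injective hinj R
  have hdegQ : (Q.map i).degree = Q.degree := Polynomial.degree_map_eq_of_injective hinj Q
  have trans : ∀ F : Filter ℝ, Tendsto (fun x : ℝ => (R.map i).eval x / (Q.map i).eval x) atTop F →
      Tendsto (fun x : ℕ => aeval (x : ℝ) P / aeval (x : ℝ) Q - x * a) atTop F := by
    intro F hF
    exact (hF.congr' heq).comp hcast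
  rcases lt_trichotomy R.degree Q.degree with h | h | h
  · refine Or.inl ⟨0, trans _ ?_⟩
    have := Polynomial.div_tendsto_atTop_zero_of_degree_lt (R.map i) (Q.map i) (by rwa [hdegR, hdegQ])
    simpa using this
  · refine Or.inl ⟨R.leadingCoeff / Q.leadingCoeff, trans _ ?_⟩
    have := Polynomial.div_tendsto_atTop_leadingCoeff_div_of_degree_eq (R.map i) (Q.map i)
      (by rwa [hdegR, hdegQ])
    rw [Polynomial.leadingCoeff_map_of_injective hinj,
      Polynomial.leadingCoeff_map_of_injective hinj] at this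
    simpa [hi] using this
  · right
    rcases le_total 0 ((R.map i).leadingCoeff / (Q.map i).leadingCoeff) with h0 | h0
    · exact Or.inl (trans _ (Polynomial.div_tendsto_atTop_of_degree_gt (R.map i) (Q.map i)
        (by rwa [hdegR, hdegQ]) hQ' h0))
    · exact Or.inr (trans _ (Polynomial.div_tendsto_atBot_of_degree_gt (R.map i) (Q.map i)
        (by rwa [hdegR, hdegQ]) hQ' h0))

end Pool.Agent.FD
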