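import Mathlib

/-!
# FD: simultaneous recurrence
-/

open Finset Filter Topology

namespace Pool.Agent.FD

theorem recur (K : ℕ) (φ : ℕ → ℝ) (q : ℕ) (hq : 0 < q) : ∃ M : ℕ → ℕ, Tendsto M atTop atTop ∧
    (∀ i, 2 * q ∣ M i ∧ 2 ≤ M i) ∧ ∀ k < K,
      Tendsto (fun i => Complex.exp (Complex.I * ((M i : ℝ) * φ k : ℝ))) atTop (𝓝 1) := by
  set f : ℕ → (Fin K → Circle) := fun l k => Circle.exp ((2 * q * l : ℝ) * φ k) with hf
  obtain ⟨a, n, hn, ha⟩ := SeqCompactSpace.tendsto_subseq f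
  have hgrow : ∀ j, j ≤ n (2 * j) - n j := by
    intro j
    have h1 : ∀ d, n j + d ≤ n (j + d) := by
      intro d
      induction d with
      | zero => simp
      | succ d ih =>
        have := hn (show j + d < j + (d + 1) by omega)
        omega
    have := h1 j
    rw [show j + j = 2 * j by ring] at this
    omega
  have hle : ∀ j, n j ≤ n (2 * j) := fun j => hn.monotone (by omega)
  refine ⟨fun i => 2 * q * (n (2 * (i + 1)) - n (i + 1)), ?_, ?_, ?_⟩
  · refine tendsto_atTop_mono (fun i => ?_) tendsto_id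
    have h1 := hgrow (i + 1)
    have h2 : 1 * (i + 1) ≤ 2 * q * (n (2 * (i + 1)) - n (i + 1)) :=
      Nat.mul_le_mul (by omega) h1
    simp only [id]
    omega
  · intro i
    refine ⟨dvd_mul_right _ _, ?_⟩
    have h1 := hgrow (i + 1)
    have h2 : 2 * 1 ≤ 2 * q * (n (2 * (i + 1)) - n (i + 1)) :=
      Nat.mul_le_mul (by omega) (by omega)
    omega
  · intro k hk
    have hk' : Tendsto (fun j => f (n j) ⟨k, hk⟩) atTop (𝓝 (a ⟨k, hk⟩)) :=
      (tendsto_pi_nhds.1 ha) ⟨k, hk⟩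
    have t1 : Tendsto (fun i : ℕ => 2 * (i + 1)) atTop atTop :=
      tendsto_atTop_mono (fun i => by simp only [id]; omega) tendsto_id
    have t2 : Tendsto (fun i : ℕ => i + 1) atTop atTop := tendsto_add_atTop_nat 1
    have h1 := (hk'.comp t1).div' (hk'.comp t2)
    rw [div_self'] at h1
    have h2 : Tendsto (fun i : ℕ => ((f (n (2 * (i + 1))) ⟨k, hk⟩ / f (n (i + 1)) ⟨k, hk⟩ : Circle) : ℂ))
        atTop (𝓝 ((1 : Circle) : ℂ)) := (continuous_induced_dom.tendsto _).comp h1
    rw [Circle.coe_one] at h2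
    refine h2.congr (fun i => ?_)
    simp only [hf]
    rw [← Circle.exp_sub, Circle.coe_exp]
    congr 1
    rw [Nat.cast_mul, Nat.cast_sub (hle _)]
    push_cast
    ring

end Pool.Agent.FD
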