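import Pool.Agent.FD.EndDefs
import Pool.Agent.FD.Recur
import Pool.Agent.FD.Kron

/-!
# FD: admissible sequences
-/

open Finset Filter Topology

namespace Pool.Agent.FD

theorem seq_aux {N q : ℕ} {t θ : ℕ → ℝ} {M : ℕ → ℕ} (hM : Tendsto M atTop atTop)
    (hq : ∀ i, 2 * q ∣ M i ∧ 2 ≤ M i)
    (h : ∀ k ∈ range (N / 2), be N k ≤ 2 →
      Tendsto (fun i => Complex.exp (Complex.I * ((M i : ℝ) * ph N k : ℝ))) atTop
        (𝓝 (Complex.exp (Complex.I * (θ k : ℝ)))) ∧ 1 + Real.cos (θ k) ≠ 0 ∧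
      t k = Real.sin (θ k) / (1 + Real.cos (θ k))) :
    ∃ M' : ℕ → ℕ, AdmSeq N t M' ∧ ∀ i, 2 * q ∣ M' i := by
  have hcos : ∀ k ∈ range (N / 2), be N k ≤ 2 →
      Tendsto (fun i => Real.cos ((M i : ℝ) * ph N k)) atTop (𝓝 (Real.cos (θ k))) := by
    intro k hk hb
    have h1 := (Complex.continuous_re.tendsto _).comp (h k hk hb).1
    have e : ∀ x : ℝ, (Complex.exp (Complex.I * (x : ℝ))).re = Real.cos x := by
      intro x; rw [mul_comm, Complex.exp_ofReal_mul_I_re]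
    rw [e] at h1
    refine h1.congr (fun i => ?_)
    exact e _
  have hsin : ∀ k ∈ range (N / 2), be N k ≤ 2 →
      Tendsto (fun i => Real.sin ((M i : ℝ) * ph N k)) atTop (𝓝 (Real.sin (θ k))) := by
    intro k hk hb
    have h1 := (Complex.continuous_im.tendsto _).comp (h k hk hb).1
    have e : ∀ x : ℝ, (Complex.exp (Complex.I * (x : ℝ))).im = Real.sin x := by
      intro x; rw [mul_comm, Complex.exp_ofReal_mul_I_im]
    rw [e] at h1
    refine h1.congr (fun i => ?_)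
    exact e _
  have hev : ∀ᶠ i in atTop, ∀ k ∈ range (N / 2), be N k ≤ 2 →
      1 + Real.cos ((M i : ℝ) * ph N k) ≠ 0 := by
    rw [Filter.eventually_all_finset]
    intro k hk
    by_cases hb : be N k ≤ 2
    · have h1 := ((hcos k hk hb).const_add 1).eventually_ne (h k hk hb).2.1
      filter_upwards [h1] with i hi _
      exact hi
    · exact Eventually.of_forall (fun i h' => absurd h' hb)
  obtain ⟨i0, hi0⟩ := eventually_atTop.1 hev
  have hsh : Tendsto (fun i : ℕ => i + i0) atTop atTop := tendsto_add_atTop_nat i0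
  refine ⟨fun i => M (i + i0), ⟨hM.comp hsh, fun i => ⟨(hq _).2, ?_, ?_⟩, ?_⟩, fun i => (hq _).1⟩
  · obtain ⟨c, hc⟩ := (hq (i + i0)).1
    exact ⟨q * c, by rw [hc]; ring⟩
  · exact hi0 _ (by omega)
  · intro k hk hb
    have h1 := ((hsin k hk hb).comp hsh).div (((hcos k hk hb).const_add 1).comp hsh)
      (h k hk hb).2.1
    rw [(h k hk hb).2.2]
    exact h1

theorem seq_zero (N q : ℕ) (hN : 2 ≤ N) (hq : 0 < q) :
    ∃ M : ℕ → ℕ, AdmSeq N (fun _ => 0) M ∧ ∀ i, 2 * q ∣ M i := by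
  obtain ⟨M, h1, h2, h3⟩ := recur (N / 2) (ph N) q hq
  refine seq_aux (θ := fun _ => 0) h1 h2 (fun k hk _ => ⟨?_, ?_, ?_⟩)
  · simpa using h3 k (mem_range.1 hk)
  · rw [Real.cos_zero]; norm_num
  · simp

/-- `s` enumerates the modes with free phase; the other oscillating modes have phase `π` -/
theorem seq_t (N q : ℕ) (hN : 2 ≤ N) (hq : 0 < q) (K : ℕ) (s : ℕ → ℕ)
    (hs : ∀ k ∈ range (N / 2), be N k ≤ 2 → (∃ l < K, s l = k) ∨ (ph N k = Real.pi))
    (hind : ∀ (h : ℕ → ℤ) (l : ℤ), ∑ k ∈ range K, (h k : ℝ) * ph N (s k) = l * Real.pi →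
      ∀ k < K, h k = 0) (t : ℕ → ℝ)
    (ht : ∀ k ∈ range (N / 2), (∀ l < K, s l ≠ k) → t k = 0) :
    ∃ M : ℕ → ℕ, AdmSeq N t M ∧ ∀ i, 2 * q ∣ M i := by
  obtain ⟨M, h1, h2, h3⟩ := kron K (fun l => ph N (s l)) (fun l => 2 * Real.arctan (t (s l)))
    hind q hq
  have hcs : ∀ x : ℝ, 1 + Real.cos (2 * Real.arctan x) ≠ 0 ∧
      x = Real.sin (2 * Real.arctan x) / (1 + Real.cos (2 * Real.arctan x)) := by
    intro x
    have hc := Real.cos_arctan_pos x
    have e1 : 1 + Real.cos (2 * Real.arctan x) = 2 * Real.cos (Real.arctan x) ^ 2 := by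
      rw [Real.cos_two_mul]; ring
    have e2 : Real.sin (2 * Real.arctan x) =
        2 * Real.sin (Real.arctan x) * Real.cos (Real.arctan x) := Real.sin_two_mul _
    refine ⟨by rw [e1]; positivity, ?_⟩
    have e3 : Real.sin (Real.arctan x) = x * Real.cos (Real.arctan x) := by
      have := Real.tan_arctan x
      rw [Real.tan_eq_sin_div_cos, div_eq_iff hc.ne'] at this
      exact this
    rw [e1, e2, e3]
    field_simp
  classical
  refine seq_aux (θ := fun k => if ∃ l < K, s l = k then 2 * Real.arctan (t k) else 0) h1 h2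
    (fun k hk hb => ?_)
  by_cases hl : ∃ l < K, s l = k
  · rw [if_pos hl]
    obtain ⟨l, hl1, rfl⟩ := hl
    exact ⟨h3 l hl1, (hcs _).1, (hcs _).2⟩
  · rw [if_neg hl]
    have hpi : ph N k = Real.pi := (hs k hk hb).resolve_left hl
    have ht0 : t k = 0 := ht k hk (fun l hl' h => hl ⟨l, hl', h⟩)
    refine ⟨?_, by rw [Real.cos_zero]; norm_num, by rw [ht0]; simp⟩
    have : ∀ i, Complex.exp (Complex.I * ((M i : ℝ) * ph N k : ℝ)) =
        Complex.exp (Complex.I * ((0 : ℝ) : ℂ)) := by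
      intro i
      obtain ⟨c, hc⟩ := (h2 i).1
      rw [hpi, Complex.ofReal_zero, mul_zero, Complex.exp_zero, Complex.exp_eq_one_iff]
      refine ⟨(q * c : ℕ), ?_⟩
      rw [hc]
      push_cast
      ring
    simp only [this]
    exact tendsto_const_nhds

end Pool.Agent.FD
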