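import Pool.Agent.FD.Small

/-!
# Positivity of the half strip solution for `N ≤ 140`
-/

namespace Pool.Agent.FD

open Finset XtIv

set_option maxRecDepth 100000 in
theorem smallChk1 : chkAll 8 (S2 / 10000) (S2 / 100000) (S2 / 1000000) 3 5 = true := by
  decide +kernel

set_option maxRecDepth 100000 in
theorem smallChk2 : chkAll 8 (S2 / 10000) (S2 / 100000) (S2 / 1000000) 51 10 = true := by
  decide +kernel

set_option maxRecDepth 100000 in
theorem smallChk3 : chkAll 8 (S2 / 10000) (S2 / 100000) (S2 / 1000000) 30 61 = true := by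
  decide +kernel

set_option maxRecDepth 100000 in
theorem smallChk4 : chkAll 8 (S2 / 10000) (S2 / 100000) (S2 / 1000000) 20 91 = true := by
  decide +kernel

set_option maxRecDepth 100000 in
theorem smallChk5 : chkAll 8 (S2 / 10000) (S2 / 100000) (S2 / 1000000) 15 111 = true := by
  decide +kernel

set_option maxRecDepth 100000 in
theorem smallChk6 : chkAll 8 (S2 / 10000) (S2 / 100000) (S2 / 1000000) 15 126 = true := by
  decide +kernel

theorem pos_small {N : ℕ} (hN : 5 ≤ N) (hN' : N ≤ 140) (h8 : N ≠ 8) (h9 : N ≠ 9) :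
    ∃ δ > 0, ∀ r ∈ Icc 1 (N - 1), ∀ j : ℕ, 1 ≤ j → δ ≤ xt N (fun _ => 0) r j := by
  have hd : 0 < S2 / 10000 := by norm_num [S2]
  have hc : chk 8 (S2 / 10000) (S2 / 100000) (S2 / 1000000) N = true := by
    rcases Nat.lt_or_ge N 8 with h | h
    · exact chkAll_spec _ _ smallChk1 N (by omega) (by omega)
    · rcases Nat.lt_or_ge N 61 with h1 | h1
      · exact chkAll_spec _ _ smallChk2 N (by omega) (by omega)
      · rcases Nat.lt_or_ge N 91 with h2 | h2
        · exact chkAll_spec _ _ smallChk3 N (by omega) (by omega)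
        · rcases Nat.lt_or_ge N 111 with h3 | h3
          · exact chkAll_spec _ _ smallChk4 N (by omega) (by omega)
          · rcases Nat.lt_or_ge N 126 with h4 | h4
            · exact chkAll_spec _ _ smallChk5 N (by omega) (by omega)
            · exact chkAll_spec _ _ smallChk6 N (by omega) (by omega)
  exact chk_sound (by norm_num) hd hN (by omega) hc

end Pool.Agent.FD
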