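import Pool.Agent.FD.Grid
import Pool.Agent.FD.Limit
import Pool.Agent.FD.Seq
import Pool.Agent.FD.Rat
import Pool.Agent.FD.Irr
import Pool.Agent.FD.Indep8
import Pool.Agent.FD.Indep9
import Pool.Agent.FD.Large
import Pool.Agent.FD.SmallChk
import Pool.Agent.FD.Cert8
import Pool.Agent.FD.Cert9

/-!
# For every `m ≥ 4` no explicit expression gives `γ_f(P_m × P_n)`
-/

open Finset Filter Topology

namespace Pool.Agent.FD

/-- the trivial end -/
theorem endData_zero {N : ℕ} {t : ℕ → ℝ} {δ : ℝ} (hδ : 0 < δ)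
    (h : ∀ r ∈ Icc 1 (N - 1), ∀ j : ℕ, 1 ≤ j → δ ≤ xt N t r j) :
    EndData N t 1 (fun _ _ => 0) 0 δ where
  lam0 := zero_le_one
  lam1 := le_refl _
  supp := fun r j hh => absurd rfl hh
  dpos := hδ
  pos := fun r hr j hj => by
    have := h r hr j hj
    simpa using this

theorem upC_zero (N : ℕ) : UpC N 1 (fun _ _ => 0) :=
  ⟨fun r _ => by simp [nb], fun r _ j _ => by simp [nb]⟩

theorem loC_zero (N : ℕ) : LoC N 1 (fun _ _ => 0) :=
  ⟨fun r _ => by simp [nb], fun r _ j _ => by simp [nb]⟩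

theorem mod_eq {q M : ℕ} (h2 : 2 ≤ M) (h : 2 * q ∣ M) (hq : 0 < q) : (M - 1) % q = q - 1 := by
  obtain ⟨c, hc⟩ := h
  have hc0 : 0 < c := by
    rcases Nat.eq_zero_or_pos c with h | h
    · rw [h] at hc; omega
    · exact h
  have : M - 1 = (q - 1) + q * (2 * c - 1) := by
    rw [hc]
    obtain ⟨d, rfl⟩ : ∃ d, c = d + 1 := ⟨c - 1, by omega⟩
    obtain ⟨e, rfl⟩ : ∃ e, q = e + 1 := ⟨q - 1, by omega⟩
    have h1 : 2 * (d + 1) - 1 = 2 * d + 1 := by omega
    rw [h1]
    have h3 : 2 * (e + 1) * (d + 1) = (e + 1 - 1 + (e + 1) * (2 * d + 1)) + 1 := by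
      simp only [Nat.add_sub_cancel]; ring
    omega
  rw [this, Nat.add_mul_mod_self_left, Nat.mod_eq_of_lt (by omega)]

/-- values along an admissible sequence follow the rational function of the class `-1` -/
theorem tendsto_seq {N q : ℕ} (hq : 0 < q) {P Q : ℕ → Polynomial ℚ} {n0 : ℕ}
    (hF : ∀ n : ℕ, n0 ≤ n → Polynomial.aeval (n : ℝ) (Q (n % q)) ≠ 0 ∧
      gammaF (grid (N - 1) n) =
        Polynomial.aeval (n : ℝ) (P (n % q)) / Polynomial.aeval (n : ℝ) (Q (n % q)))
    {M : ℕ → ℕ} {t : ℕ → ℝ} (hM : AdmSeq N t M) (hMq : ∀ i, 2 * q ∣ M i) {G : Filter ℝ}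
    (hl : Tendsto (fun x : ℕ => Polynomial.aeval (x : ℝ) (P (q - 1)) /
        Polynomial.aeval (x : ℝ) (Q (q - 1)) - x * alph N) atTop G) :
    Tendsto (fun i => gammaF (grid (N - 1) (M i - 1)) - (M i - 1) * alph N) atTop G := by
  have hs : Tendsto (fun i => M i - 1) atTop atTop :=
    (tendsto_sub_atTop_nat 1).comp hM.top
  have hcast : ∀ i, (((M i - 1 : ℕ)) : ℝ) = (M i : ℝ) - 1 := by
    intro i
    have := (hM.adm i).two
    push_cast [Nat.cast_sub (show 1 ≤ M i by omega)]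
    ring
  refine (hl.comp hs).congr' ?_
  filter_upwards [hs.eventually_ge_atTop n0] with i hi
  have := (hF (M i - 1) hi).2
  rw [mod_eq (hM.adm i).two (hMq i) hq] at this
  simp only [Function.comp_apply]
  rw [this, hcast i]

/-- an explicit expression and an upper and a lower bound give a rational limit in between -/
theorem limit_of_explicit {N : ℕ} (hN : 2 ≤ N) {q : ℕ} (hq : 0 < q) {P Q : ℕ → Polynomial ℚ}
    {n0 : ℕ}
    (hF : ∀ n : ℕ, n0 ≤ n → Polynomial.aeval (n : ℝ) (Q (n % q)) ≠ 0 ∧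
      gammaF (grid (N - 1) n) =
        Polynomial.aeval (n : ℝ) (P (n % q)) / Polynomial.aeval (n : ℝ) (Q (n % q)))
    {M M' : ℕ → ℕ} {t t' : ℕ → ℝ} (hM : AdmSeq N t M) (hMq : ∀ i, 2 * q ∣ M i)
    (hM' : AdmSeq N t' M') (hMq' : ∀ i, 2 * q ∣ M' i) {A B : ℝ}
    (hA : ∀ ε > 0, ∀ᶠ i in atTop, gammaF (grid (N - 1) (M i - 1)) - (M i - 1) * alph N ≤ A + ε)
    (hB : ∀ ε > 0, ∀ᶠ i in atTop,
      B - ε ≤ gammaF (grid (N - 1) (M' i - 1)) - (M' i - 1) * alph N) :
    ∃ l : ℚ, (l : ℝ) ≤ A ∧ B ≤ l := by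
  obtain ⟨a, ha⟩ := alph_rat hN
  have hQ : Q (q - 1) ≠ 0 := by
    intro h0
    have hs : Tendsto (fun i => M i - 1) atTop atTop :=
      (tendsto_sub_atTop_nat 1).comp hM.top
    obtain ⟨i, hi⟩ := (hs.eventually_ge_atTop n0).exists
    have := (hF (M i - 1) hi).1
    rw [mod_eq (hM.adm i).two (hMq i) hq, h0] at this
    simp at this
  have key := rat_tri (P (q - 1)) (Q (q - 1)) hQ a
  rw [← ha] at key
  rcases key with ⟨l, hl⟩ | hl | hl
  · refine ⟨l, ?_, ?_⟩
    · refine le_of_forall_pos_le_add fun ε hε => ?_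
      exact le_of_tendsto (tendsto_seq hq hF hM hMq hl) (hA ε hε)
    · refine le_of_forall_pos_le_add fun ε hε => ?_
      have := ge_of_tendsto (tendsto_seq hq hF hM' hMq' hl) (hB ε hε)
      linarith
  · exfalso
    obtain ⟨i, h1, h2⟩ := ((hA 1 one_pos).and
      ((tendsto_seq hq hF hM hMq hl).eventually_gt_atTop (A + 1))).exists
    linarith
  · exfalso
    obtain ⟨i, h1, h2⟩ := ((hB 1 one_pos).and
      ((tendsto_seq hq hF hM' hMq' hl).eventually_lt_atBot (B - 1))).exists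
    linarith

/-- the all-tight case -/
theorem case_tight {N : ℕ} (hN : 5 ≤ N) (hpos : ∃ δ > 0, ∀ r ∈ Icc 1 (N - 1), ∀ j : ℕ, 1 ≤ j →
    δ ≤ xt N (fun _ => 0) r j) : ¬ ExplicitExpr (fun n => gammaF (grid (N - 1) n)) := by
  rintro ⟨q, hq, P, Q, n0, hF⟩
  have hN2 : 2 ≤ N := by omega
  obtain ⟨δ, hδ, hpos⟩ := hpos
  obtain ⟨M, hM, hMq⟩ := seq_zero N q hN2 hq
  have hE := endData_zero hδ hpos
  obtain ⟨l, h1, h2⟩ := limit_of_explicit (A := Vt N (fun _ => 0)) (B := Vt N (fun _ => 0)) hN2 hq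
    hF hM hMq hM hMq
    (fun ε hε => by
      filter_upwards [upper hN2 hM hE (upC_zero N) hε] with i hi
      simpa using hi)
    (fun ε hε => by
      filter_upwards [lower hN2 hM hE (loC_zero N) hε] with i hi
      simpa using hi)
  exact Vt_irr hN ⟨l, le_antisymm h1 h2⟩

/-- the case of independent phases -/
theorem case_free {N : ℕ} (hN2 : 2 ≤ N) {K : ℕ} {s : ℕ → ℕ}
    (hs : ∀ k ∈ range (N / 2), be N k ≤ 2 → (∃ l < K, s l = k) ∨ (ph N k = Real.pi))
    (hind : ∀ (h : ℕ → ℤ) (l : ℤ), ∑ k ∈ range K, (h k : ℝ) * ph N (s k) = l * Real.pi →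
      ∀ k < K, h k = 0)
    {t t' : ℕ → ℝ} {lam : ℝ} {e e' : ℕ → ℕ → ℝ} {J : ℕ} {δ : ℝ}
    (ht : ∀ k ∈ range (N / 2), (∀ l < K, s l ≠ k) → t k = 0)
    (ht' : ∀ k ∈ range (N / 2), (∀ l < K, s l ≠ k) → t' k = 0)
    (hE : EndData N t lam e J δ) (hU : UpC N lam e) (hE' : EndData N t' lam e' J δ)
    (hL : LoC N lam e')
    (hlt : lam * Vt N t + 2 * ∑ r ∈ Icc 1 (N - 1), ∑ j ∈ Icc 1 J, e r j <
        lam * Vt N t' + 2 * ∑ r ∈ Icc 1 (N - 1), ∑ j ∈ Icc 1 J, e' r j) :
    ¬ ExplicitExpr (fun n => gammaF (grid (N - 1) n)) := by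
  rintro ⟨q, hq, P, Q, n0, hF⟩
  obtain ⟨M, hM, hMq⟩ := seq_t N q hN2 hq K s hs hind t ht
  obtain ⟨M', hM', hMq'⟩ := seq_t N q hN2 hq K s hs hind t' ht'
  obtain ⟨l, h1, h2⟩ := limit_of_explicit hN2 hq hF hM hMq hM' hMq'
    (fun ε hε => upper hN2 hM hE hU hε) (fun ε hε => lower hN2 hM' hE' hL hε)
  linarith

/-- the first mode is hyperbolic -/
theorem two_lt_be_zero {N : ℕ} (hN : 4 ≤ N) : 2 < be N 0 := by
  have hN' : (4 : ℝ) ≤ N := by exact_mod_cast hN
  have h1 : th N 0 < Real.pi / 3 := by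
    unfold th
    rw [div_lt_div_iff₀ (by positivity) (by norm_num)]
    have := Real.pi_pos
    push_cast
    nlinarith
  have h0 : 0 ≤ th N 0 := by unfold th; positivity
  have h2 : Real.cos (Real.pi / 3) < Real.cos (th N 0) :=
    Real.cos_lt_cos_of_nonneg_of_le_pi h0 (by linarith [Real.pi_pos]) h1
  rw [Real.cos_pi_div_three] at h2
  unfold be; linarith

theorem ph_nine_one : ph 9 1 = Real.pi := by
  have h : th 9 1 = Real.pi / 3 := by unfold th; push_cast; ring
  unfold ph be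
  rw [h, Real.cos_pi_div_three]
  norm_num

/-- **Theorem.** For every `m ≥ 4` the fractional domination number of `P_m × P_n` is not given by
an explicit expression in `n`. -/
theorem main (m : ℕ) (hm : 4 ≤ m) : ¬ ExplicitExpr (fun n => gammaF (grid m n)) := by
  obtain ⟨N, hN, rfl⟩ : ∃ N, 5 ≤ N ∧ m = N - 1 := ⟨m + 1, by omega, by omega⟩
  by_cases h8 : N = 8
  · subst h8
    obtain ⟨t, t', lam, e, e', J, δ, h0, h0', hE, hU, hE', hL, hlt⟩ := cert8
    refine case_free (K := 3) (s := fun l => l + 1) (by norm_num) ?_ (fun h l => indep8 h l)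
      ?_ ?_ hE hU hE' hL hlt
    · intro k hk hb
      rcases Nat.eq_zero_or_pos k with h | h
      · subst h
        exact absurd hb (not_le.mpr (two_lt_be_zero (by norm_num)))
      · left
        have := Finset.mem_range.mp hk
        exact ⟨k - 1, by omega, by show k - 1 + 1 = k; omega⟩
    · intro k hk h
      rcases Nat.eq_zero_or_pos k with h1 | h1
      · rw [h1]; exact h0
      · have := Finset.mem_range.mp hk
        exact absurd (show k - 1 + 1 = k by omega) (h (k - 1) (by omega))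
    · intro k hk h
      rcases Nat.eq_zero_or_pos k with h1 | h1
      · rw [h1]; exact h0'
      · have := Finset.mem_range.mp hk
        exact absurd (show k - 1 + 1 = k by omega) (h (k - 1) (by omega))
  by_cases h9 : N = 9
  · subst h9
    obtain ⟨t, t', lam, e, e', J, δ, ⟨h0, h0', h1, h1'⟩, hE, hU, hE', hL, hlt⟩ := cert9
    refine case_free (K := 2) (s := fun l => l + 2) (by norm_num) ?_ (fun h l => indep9 h l)
      ?_ ?_ hE hU hE' hL hlt
    · intro k hk hb
      have hk' := Finset.mem_range.mp hk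
      rcases Nat.lt_or_ge k 2 with h | h
      · interval_cases k
        · exact absurd hb (not_le.mpr (two_lt_be_zero (by norm_num)))
        · right; exact ph_nine_one
      · left
        exact ⟨k - 2, by omega, by show k - 2 + 2 = k; omega⟩
    · intro k hk h
      have hk' := Finset.mem_range.mp hk
      rcases Nat.lt_or_ge k 2 with h3 | h3
      · interval_cases k
        · exact h0
        · exact h1
      · exact absurd (show k - 2 + 2 = k by omega) (h (k - 2) (by omega))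
    · intro k hk h
      have hk' := Finset.mem_range.mp hk
      rcases Nat.lt_or_ge k 2 with h3 | h3
      · interval_cases k
        · exact h0'
        · exact h1'
      · exact absurd (show k - 2 + 2 = k by omega) (h (k - 2) (by omega))
  · rcases Nat.lt_or_ge 140 N with h | h
    · exact case_tight hN (pos_large h)
    · exact case_tight hN (pos_small hN h h8 h9)

end Pool.Agent.FD
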