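import Pool.Agent.FD.XtIv

/-!
# Positivity of the half strip solution for `N ≤ 140` (kernel computation)
-/

namespace Pool.Agent.FD.XtIv

open Iv Finset

def stepL (prev last : ℕ) : List ℕ → List ℕ → List ℕ
  | a :: as, b :: bs =>
    (Nat.sub S2 (Nat.add (Nat.add a prev) (Nat.add b (bs.headD last)))) :: stepL b last as bs
  | _, _ => []

def lastOf (N : ℕ) (B : List ℕ) : ℕ :=
  if N % 2 = 0 then B.getD (N / 2 - 2) 0 else B.getD (N / 2 - 1) 0

def allge (c : ℕ) : List ℕ → Bool
  | [] => true
  | b :: bs => Nat.ble c b && allge c bs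

def cols (N : ℕ) (d : ℕ) : ℕ → List ℕ → List ℕ → ℕ → ℕ → Bool
  | 0, _, _, _, _ => true
  | f + 1, A, B, ea, eb => allge (Nat.add d eb) B &&
      cols N d f B (stepL 0 (lastOf N B) A B) eb (Nat.add ea (Nat.mul 3 eb))

def okA (c : ℕ) : List Acc → Bool
  | [] => true
  | A :: As => Nat.ble (Nat.add c A.na) A.pa && okA c As

def colL : List Acc → List ℕ
  | [] => []
  | A :: As => Nat.sub (Nat.add (S2 / 2) A.nl) A.pl :: colL As

/-- the complete check -/
def chk (J d eA eL N : ℕ) : Bool :=
  let T := pack (ZZ N)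
  let L := LL N J []
  let R := rows T N (2 * N) L (N / 2) 1
  allOk L && (Nat.ble (sumA L) eA && (Nat.ble (sumL L) eL && (okA (Nat.add d eA) R &&
    cols N d (J - 1) (List.replicate (N / 2) 0) (colL R) 0 eL)))

/-! ### soundness -/

theorem allge_spec {c : ℕ} {L : List ℕ} (h : allge c L = true) {i : ℕ} (hi : i < L.length) :
    c ≤ L.getD i 0 := by
  induction L generalizing i with
  | nil => simp at hi
  | cons b bs ih =>
    simp only [allge, Bool.and_eq_true, Nat.ble_eq] at h
    cases i with
    | zero => simpa using h.1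
    | succ i => rw [List.getD_cons_succ]; exact ih h.2 (by simpa using hi)

theorem okA_spec {c T N N2 : ℕ} {L : List MD} (f r : ℕ)
    (h : okA c (rows T N N2 L f r) = true) {i : ℕ} (hi : i < f) :
    c + (inr T N N2 (r + i) L 1 ⟨0, 0, 0, 0⟩).na ≤ (inr T N N2 (r + i) L 1 ⟨0, 0, 0, 0⟩).pa := by
  induction f generalizing r i with
  | zero => omega
  | succ f ih =>
    simp only [rows, okA, Bool.and_eq_true, Nat.ble_eq] at h
    cases i with
    | zero => exact h.1
    | succ i =>
      have := ih (r + 1) h.2 (i := i) (by omega)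
      rwa [show r + 1 + i = r + (i + 1) by ring] at this

theorem colL_spec {T N N2 : ℕ} {L : List MD} (f r : ℕ) {i : ℕ} (hi : i < f) :
    (colL (rows T N N2 L f r)).getD i 0 =
      (S2 / 2 + (inr T N N2 (r + i) L 1 ⟨0, 0, 0, 0⟩).nl) -
        (inr T N N2 (r + i) L 1 ⟨0, 0, 0, 0⟩).pl := by
  induction f generalizing r i with
  | zero => omega
  | succ f ih =>
    simp only [rows, colL]
    cases i with
    | zero => rfl
    | succ i =>
      rw [List.getD_cons_succ, ih (r + 1) (i := i) (by omega), show r + 1 + i = r + (i + 1) by ring]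

theorem colL_length {T N N2 : ℕ} {L : List MD} (f r : ℕ) :
    (colL (rows T N N2 L f r)).length = f := by
  induction f generalizing r with
  | zero => rfl
  | succ f ih => simp only [rows, colL, List.length_cons, ih]

theorem stepL_length (A B : List ℕ) (prev last : ℕ) (h : A.length = B.length) :
    (stepL prev last A B).length = B.length := by
  induction A generalizing B prev with
  | nil => cases B with
    | nil => rfl
    | cons b bs => simp at h
  | cons a as ih => cases B with
    | nil => simp at h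
    | cons b bs =>
      simp only [stepL, List.length_cons]
      rw [ih bs b (by simpa using h)]

theorem stepL_getD (A B : List ℕ) (prev last : ℕ) (h : A.length = B.length) {i : ℕ}
    (hi : i < B.length) :
    (stepL prev last A B).getD i 0 = S2 - ((A.getD i 0 + (if i = 0 then prev else B.getD (i - 1) 0)) +
      (B.getD i 0 + (if i + 1 < B.length then B.getD (i + 1) 0 else last))) := by
  induction A generalizing B prev i with
  | nil => cases B with
    | nil => simp at hi
    | cons b bs => simp at h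
  | cons a as ih => cases B with
    | nil => simp at h
    | cons b bs =>
      have h' : as.length = bs.length := by simpa using h
      simp only [stepL]
      cases i with
      | zero =>
        simp only [List.getD_cons_zero, if_true, List.getD_cons_succ, List.length_cons, zero_add]
        cases bs with
        | nil => simp
        | cons c cs => simp
      | succ i =>
        have hi' : i < bs.length := by simpa using hi
        rw [List.getD_cons_succ, ih bs b h' hi']
        cases i with
        | zero => simp; rfl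
        | succ i => simp

section
variable {N : ℕ} {t : ℕ → ℝ}

/-- `B` approximates the column `j` -/
def Apx (N : ℕ) (t : ℕ → ℝ) (j : ℕ) (B : List ℕ) (e : ℕ) : Prop :=
  B.length = N / 2 ∧ ∀ i < N / 2, |(S2 : ℝ) * xt N t (i + 1) j - (B.getD i 0 : ℝ)| ≤ e

/-- the same where the entries are positive -/
def WApx (N : ℕ) (t : ℕ → ℝ) (j : ℕ) (B : List ℕ) (e : ℕ) : Prop :=
  B.length = N / 2 ∧ ∀ i < N / 2, 0 < B.getD i 0 →
    |(S2 : ℝ) * xt N t (i + 1) j - (B.getD i 0 : ℝ)| ≤ e

theorem apx_last (hN : 5 ≤ N) {j : ℕ} {B : List ℕ} {e : ℕ} (h : Apx N t j B e) :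
    |(S2 : ℝ) * xt N t (N / 2 + 1) j - (lastOf N B : ℝ)| ≤ e := by
  have hs := xt_symm (N := N) (r := N / 2 + 1) (by omega) (by omega) t j
  unfold lastOf
  split_ifs with h2
  · have e1 : N - (N / 2 + 1) = (N / 2 - 2) + 1 := by omega
    rw [← hs, e1]
    exact h.2 _ (by omega)
  · have e1 : N - (N / 2 + 1) = (N / 2 - 1) + 1 := by omega
    rw [← hs, e1]
    exact h.2 _ (by omega)

theorem apx_step (hN : 5 ≤ N) {j : ℕ} {A B : List ℕ} {ea eb : ℕ} (hA : Apx N t j A ea)
    (hB : Apx N t (j + 1) B eb) :
    WApx N t (j + 2) (stepL 0 (lastOf N B) A B) (ea + 3 * eb) := by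
  have hlen : A.length = B.length := hA.1.trans hB.1.symm
  refine ⟨(stepL_length A B 0 _ hlen).trans hB.1, fun i hi hpos => ?_⟩
  rw [stepL_getD A B 0 _ hlen (by rw [hB.1]; exact hi)] at hpos ⊢
  rw [Nat.cast_sub (by omega)]
  have hrec := xt_rec (N := N) (r := i + 1) (by omega) (by omega) t j
  have a1 := hA.2 i hi
  have b1 := hB.2 i hi
  have p1 : |(S2 : ℝ) * xt N t (i + 1 - 1) (j + 1) -
      ((if i = 0 then 0 else B.getD (i - 1) 0 : ℕ) : ℝ)| ≤ eb := by
    split_ifs with h0
    · subst h0
      simp [xt_r0]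
    · have := hB.2 (i - 1) (by omega)
      rwa [show i - 1 + 1 = i + 1 - 1 by omega] at this
  have n1 : |(S2 : ℝ) * xt N t (i + 1 + 1) (j + 1) -
      ((if i + 1 < B.length then B.getD (i + 1) 0 else lastOf N B : ℕ) : ℝ)| ≤ eb := by
    split_ifs with h0
    · rw [hB.1] at h0
      exact hB.2 (i + 1) h0
    · rw [hB.1] at h0
      have e1 : i + 1 + 1 = N / 2 + 1 := by omega
      rw [e1]
      exact apx_last hN hB
  have hx : xt N t (i + 1) (j + 2) = 1 - xt N t (i + 1) j - xt N t (i + 1 - 1) (j + 1) -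
      xt N t (i + 1) (j + 1) - xt N t (i + 1 + 1) (j + 1) := by linarith
  rw [hx]
  push_cast
  rw [abs_le] at a1 b1 p1 n1 ⊢
  push_cast at p1 n1
  constructor <;> nlinarith [a1.1, a1.2, b1.1, b1.2, p1.1, p1.2, n1.1, n1.2]

theorem cols_spec (hN : 5 ≤ N) {d : ℕ} (hd : 0 < d) (f : ℕ) :
    ∀ (j : ℕ) (A B : List ℕ) (ea eb : ℕ), Apx N t j A ea → WApx N t (j + 1) B eb →
      cols N d f A B ea eb = true →
      ∀ m < f, ∀ i < N / 2, (d : ℝ) ≤ S2 * xt N t (i + 1) (j + 1 + m) := by
  induction f with
  | zero => intro j A B ea eb _ _ _ m hm; omega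
  | succ f ih =>
    intro j A B ea eb hA hB hc m hm i hi
    simp only [cols, Bool.and_eq_true] at hc
    obtain ⟨h1, h2⟩ := hc
    have hge : ∀ i < N / 2, d + eb ≤ B.getD i 0 := fun i hi =>
      allge_spec h1 (by rw [hB.1]; exact hi)
    have hB' : Apx N t (j + 1) B eb := ⟨hB.1, fun i hi => hB.2 i hi (by have := hge i hi; omega)⟩
    cases m with
    | zero =>
      have h3 := hB'.2 i hi
      have h4 : ((d + eb : ℕ) : ℝ) ≤ (B.getD i 0 : ℝ) := by exact_mod_cast hge i hi
      push_cast at h4
      rw [abs_le] at h3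
      rw [add_zero]
      linarith [h3.1]
    | succ m =>
      have h3 := apx_step hN hA hB'
      have := ih (j + 1) B _ eb (ea + 3 * eb) hB' h3 h2 m (by omega) i hi
      rwa [show j + 1 + 1 + m = j + 1 + (m + 1) by ring] at this

end

theorem chk_sound {J d eA eL N : ℕ} (hJ : 1 ≤ J) (hd : 0 < d) (hN : 5 ≤ N) (hN' : N ≤ 999)
    (h : chk J d eA eL N = true) :
    ∃ δ > 0, ∀ r ∈ Icc 1 (N - 1), ∀ j : ℕ, 1 ≤ j → δ ≤ xt N (fun _ => 0) r j := by
  simp only [chk, Bool.and_eq_true, Nat.ble_eq] at h
  obtain ⟨h1, h2, h3, h4, h5⟩ := h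
  have hT : okT [] = true := rfl
  have ht : tR [] = fun _ => 0 := by
    funext k
    simp [tR]
  have hS : (0 : ℝ) < S2 := by norm_num [S2]
  have key : ∀ i < N / 2, ∀ j : ℕ, 1 ≤ j → (d : ℝ) ≤ S2 * xt N (fun _ => 0) (i + 1) j := by
    intro i hi j hj
    rcases Nat.lt_or_ge j J with hlt | hge
    · have hA : Apx N (fun _ => 0) 0 (List.replicate (N / 2) 0) 0 := by
        refine ⟨List.length_replicate, fun i hi => ?_⟩
        rw [xt_zero, List.getD_replicate _ hi]
        simp
      have hB : WApx N (fun _ => 0) (0 + 1) (colL (rows (pack (ZZ N)) N (2 * N) (LL N J []) (N / 2) 1))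
          eL := by
        refine ⟨colL_length _ _, fun i hi hpos => ?_⟩
        rw [colL_spec _ _ hi] at hpos ⊢
        rw [Nat.cast_sub (by omega), Nat.cast_add]
        have hr := row_one (J := J) hN hN' hT h1 (r := i + 1) (by omega) (by omega)
        rw [ht] at hr
        have h3' : (sumL (LL N J []) : ℝ) ≤ eL := by exact_mod_cast h3
        refine le_trans ?_ (hr.trans h3')
        have e : ((S2 / 2 : ℕ) : ℝ) = (S2 : ℝ) / 2 := by norm_num [S2]
        rw [e]
        refine le_of_eq ?_
        unfold RR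
        rw [show 1 + i = i + 1 by ring, zero_add]
        congr 1
        ring
      have := cols_spec hN hd (J - 1) 0 _ _ 0 eL hA hB h5 (j - 1) (by omega) i hi
      rwa [show 0 + 1 + (j - 1) = j by omega] at this
    · have hr := row_far (J := J) hN hN' hT h1 (i + 1) hge
      rw [ht] at hr
      have h6 := okA_spec (N / 2) 1 h4 hi
      rw [show 1 + i = i + 1 by ring] at h6
      have h2' : (sumA (LL N J []) : ℝ) ≤ eA := by exact_mod_cast h2
      have h7 : ((Nat.add d eA + (RR N J [] (i + 1)).na : ℕ) : ℝ) ≤ ((RR N J [] (i + 1)).pa : ℝ) := by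
        exact_mod_cast h6
      have h8 : ((Nat.add d eA : ℕ) : ℝ) = (d : ℝ) + eA := by
        show ((d + eA : ℕ) : ℝ) = _; push_cast; ring
      rw [Nat.cast_add, h8] at h7
      linarith
  refine ⟨d / S2, by positivity, fun r hr j hj => ?_⟩
  rw [Finset.mem_Icc] at hr
  rw [div_le_iff₀ hS, mul_comm]
  rcases Nat.lt_or_ge (N / 2) r with hlt | hge
  · have hs := xt_symm (N := N) (r := r) (by omega) (by omega) (fun _ => 0) j
    rw [← hs]
    have := key (N - r - 1) (by omega) j hj
    rwa [show N - r - 1 + 1 = N - r by omega] at this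
  · have := key (r - 1) (by omega) j hj
    rwa [show r - 1 + 1 = r by omega] at this

/-- the check for `f` consecutive values of `N` -/
def chkAll (J d eA eL : ℕ) : ℕ → ℕ → Bool
  | 0, _ => true
  | f + 1, N => chk J d eA eL N && chkAll J d eA eL f (Nat.add N 1)

theorem chkAll_spec {J d eA eL : ℕ} (f : ℕ) : ∀ (N : ℕ), chkAll J d eA eL f N = true →
    ∀ M, N ≤ M → M < N + f → chk J d eA eL M = true := by
  induction f with
  | zero => intro N _ M h1 h2; omega
  | succ f ih =>
    intro N h M h1 h2
    simp only [chkAll, Bool.and_eq_true] at h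
    rcases Nat.eq_or_lt_of_le h1 with h3 | h3
    · subst h3; exact h.1
    · exact ih (N + 1) h.2 M h3 (by omega)

end Pool.Agent.FD.XtIv
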