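import Pool.Agent.FD.IvDefs
import Pool.Agent.FD.Ivl
import Pool.Agent.FD.Trig
import Pool.Agent.FD.Spec
import Pool.Agent.FD.Xt
import Pool.Agent.FD.AllTight

/-!
# Computation of the half strip solution: definitions and soundness

All numbers are natural numbers, scale `S2 = SC ^ 2`.
-/

namespace Pool.Agent.FD.XtIv

open Iv Finset

def S2 : ℕ := 1000000000000000000000000000000
def W : ℕ := 1125899906842624

/-- mode data: coefficients, errors, sanity flag -/
structure MD where
  p1 : ℕ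
  n1 : ℕ
  n2 : ℕ
  lp : ℕ
  ln : ℕ
  eA : ℕ
  eL : ℕ
  ok : Bool

/-- packed table -/
def pack : List (ℤ × ℤ) → ℕ
  | [] => 0
  | z :: zs => Nat.add (Nat.mod z.2.toNat W) (Nat.mul W (pack zs))

/-- entry of the packed table -/
def ent (T i : ℕ) : ℕ := Nat.mod (Nat.shiftRight T (Nat.mul 50 i)) W

/-- accumulated sums of a row -/
structure Acc where
  pa : ℕ
  na : ℕ
  pl : ℕ
  nl : ℕ

/-- the sums of row `r`; `st` is the current odd number `2 k + 1` -/
def inr (T N N2 r : ℕ) : List MD → ℕ → Acc → Acc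
  | [], _, A => A
  | M :: Ms, st, A =>
    inr T N N2 r Ms (Nat.add st 2)
      (match Nat.ble (Nat.mod (Nat.mul st r) N2) N with
      | true =>
        ⟨Nat.add A.pa (Nat.mul M.p1 (ent T (Nat.mod (Nat.mul st r) N2))),
         Nat.add A.na (Nat.mul M.n1 (ent T (Nat.mod (Nat.mul st r) N2))),
         Nat.add A.pl (Nat.mul M.lp (ent T (Nat.mod (Nat.mul st r) N2))),
         Nat.add A.nl (Nat.mul M.ln (ent T (Nat.mod (Nat.mul st r) N2)))⟩
      | false =>
        ⟨A.pa,
         Nat.add A.na (Nat.mul M.n2 (ent T (Nat.sub (Nat.mod (Nat.mul st r) N2) N))),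
         Nat.add A.pl (Nat.mul M.ln (ent T (Nat.sub (Nat.mod (Nat.mul st r) N2) N))),
         Nat.add A.nl (Nat.mul M.lp (ent T (Nat.sub (Nat.mod (Nat.mul st r) N2) N)))⟩)

/-- `kap` from `z ≈ exp (i θ)` -/
def kapI (N : ℕ) (C S : Iv) : Iv :=
  (ndiv (nmul 2 ((rat 1 1).add C)) N).mul (inv (S.mul ((rat 3 1).add (nmul 2 C))))

def wd (I : Iv) : ℕ := (I.hi - I.lo).toNat
def sc : ℕ := 1000000000000000

/-- assemble the data of a mode from the intervals for `kap * |1 - q|`, `kap * (1 + q)`,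
`kap * |t| * root / 2` -/
def mk (E : ℕ) (ok : Bool) (I1 : Iv) (neg1 : Bool) (I2 : Iv) (I3 : Iv) (negl : Bool) : MD :=
  let a := I1.lo.toNat
  let b := I2.lo.toNat
  let l := I3.lo.toNat
  ⟨if neg1 then 0 else a, if neg1 then a else 0, b, if negl then 0 else l, if negl then l else 0,
    (a + b + (wd I1 + wd I2)) * E + (sc + E) * (wd I1 + wd I2), (l + wd I3) * E + (sc + E) * wd I3, ok⟩

/-- the data of a mode; `tp / tr` is `|t|` and `sg` tells whether `t` is negative -/
def mode (N J : ℕ) (z : ℤ × ℤ) (E : ℕ) (hyp : Bool) (tp tr : ℤ) (sg : Bool) : MD :=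
  let C := reI z E
  let S := imI z E
  let ok := decide (0 < (S.mul ((rat 3 1).add (nmul 2 C))).lo)
  let kap := kapI N C S
  let b := (rat 1 1).add (nmul 2 C)
  match hyp with
  | true =>
    let D := Iv.sqrt (b.sq.sub (rat 4 1))
    let a := (b.sub D).ndiv 2
    let q := (List.range J).foldr (fun _ x => x.mul a) (rat 1 1)
    mk E ok (kap.mul ((rat 1 1).sub q)) false (kap.mul ((rat 1 1).add q)) ((kap.mul D).ndiv 2) false
  | false =>
    if tp = 0 then mk E ok (rat 0 1) false (nmul 2 kap) (rat 0 1) false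
    else
      let D := Iv.sqrt ((rat 4 1).sub b.sq)
      let q := Iv.sqrt ((rat 1 1).add ((rat tp tr).sq))
      mk E ok (kap.mul (q.sub (rat 1 1))) true (kap.mul ((rat 1 1).add q))
        ((kap.mul ((rat tp tr).mul D)).ndiv 2) sg

/-- parameters `t` given as a list of `(numerator, denominator, negative?)` -/
abbrev TL := List (ℤ × ℤ × Bool)

def mds (N J : ℕ) (Z : List (ℤ × ℤ)) (E : ℕ) (tl : TL) : ℕ → ℕ → List MD
  | 0, _ => []
  | f + 1, k => mode N J (Z.getD (2 * k + 1) (0, 0)) E (decide (3 * (2 * k + 1) < N))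
      (tl.getD k (0, 1, false)).1 (tl.getD k (0, 1, false)).2.1 (tl.getD k (0, 1, false)).2.2 ::
      mds N J Z E tl f (k + 1)

def rows (T N N2 : ℕ) (L : List MD) : ℕ → ℕ → List Acc
  | 0, _ => []
  | f + 1, r => inr T N N2 r L 1 ⟨0, 0, 0, 0⟩ :: rows T N N2 L f (r + 1)

def sumA : List MD → ℕ
  | [] => 0
  | M :: Ms => M.eA + sumA Ms
def sumL : List MD → ℕ
  | [] => 0
  | M :: Ms => M.eL + sumL Ms
def allOk : List MD → Bool
  | [] => true
  | M :: Ms => M.ok && allOk Ms

/-- the real parameter `t` -/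
noncomputable def tR (tl : TL) (k : ℕ) : ℝ :=
  (if (tl.getD k (0, 1, false)).2.2 then -1 else 1) *
    (((tl.getD k (0, 1, false)).1 : ℝ) / ((tl.getD k (0, 1, false)).2.1 : ℝ))

/-- sane parameter list: nonnegative numerators, positive denominators -/
def okT (tl : TL) : Bool := tl.all fun p => decide (0 ≤ p.1) && decide (0 < p.2.1)


/-! ### soundness of a mode -/

theorem prod_err {x u s a w E : ℝ} (h1 : |SC * x - a| ≤ w) (h2 : |SC * u - s| ≤ E)
    (hu0 : 0 ≤ u) (hu1 : u ≤ 1) (ha : 0 ≤ a) :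
    |(SC : ℝ) * SC * x * u - a * s| ≤ (a + w) * E + (SC + E) * w := by
  have hw : 0 ≤ w := (abs_nonneg _).trans h1
  have hE : 0 ≤ E := (abs_nonneg _).trans h2
  have hSC : (0 : ℝ) ≤ SC := by norm_num [SC]
  have e : (SC : ℝ) * SC * x * u - a * s = SC * x * (SC * u - s) + s * (SC * x - a) := by ring
  have h3 : |(SC : ℝ) * x| ≤ a + w := by
    have := abs_sub_abs_le_abs_sub ((SC : ℝ) * x) a
    rw [abs_of_nonneg ha] at this
    linarith
  have h4 : |s| ≤ SC + E := by
    have h5 := abs_sub_abs_le_abs_sub s ((SC : ℝ) * u)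
    rw [abs_sub_comm s] at h5
    have h6 : |(SC : ℝ) * u| ≤ SC := by
      rw [abs_of_nonneg (mul_nonneg hSC hu0)]
      nlinarith
    linarith
  rw [e]
  refine (abs_add_le _ _).trans ?_
  rw [abs_mul ((SC : ℝ) * x), abs_mul s]
  exact add_le_add (mul_le_mul h3 h2 (abs_nonneg _) (by linarith))
    (mul_le_mul h4 h1 (abs_nonneg _) (by linarith))

theorem fin_abs {I : Iv} {x : ℝ} (h : I.Has x) (hx : 0 ≤ x) :
    |(SC : ℝ) * x - (I.lo.toNat : ℝ)| ≤ (wd I : ℝ) := by
  have hSC : (0 : ℝ) ≤ SC := by norm_num [SC]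
  obtain ⟨h1, h2⟩ := h
  have hw : ((I.hi - I.lo : ℤ) : ℝ) ≤ (wd I : ℝ) := by
    unfold wd; exact_mod_cast Int.self_le_toNat _
  push_cast at hw
  rcases le_total 0 I.lo with h0 | h0
  · have e : ((I.lo.toNat : ℕ) : ℝ) = (I.lo : ℝ) := by
      have := Int.toNat_of_nonneg h0
      exact_mod_cast this
    rw [e, abs_of_nonneg (by linarith)]
    linarith
  · have e : I.lo.toNat = 0 := Int.toNat_of_nonpos h0
    have h0' : (I.lo : ℝ) ≤ 0 := by exact_mod_cast h0
    rw [e, Nat.cast_zero, sub_zero, abs_of_nonneg (mul_nonneg hSC hx)]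
    linarith

theorem sin_half_pos {N k : ℕ} (hk : k ∈ range (N / 2)) : 0 < Real.sin (th N k / 2) :=
  Real.sin_pos_of_pos_of_lt_pi (by have := th_pos hk; linarith)
    (by have := th_lt_pi hk; have := Real.pi_pos; linarith)

theorem cos_half_pos {N k : ℕ} (hk : k ∈ range (N / 2)) : 0 < Real.cos (th N k / 2) := by
  have h1 := th_pos hk
  have h2 := th_lt_pi hk
  exact Real.cos_pos_of_mem_Ioo ⟨by linarith [Real.pi_pos], by linarith⟩

theorem sin_th_pos {N k : ℕ} (hk : k ∈ range (N / 2)) : 0 < Real.sin (th N k) :=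
  Real.sin_pos_of_pos_of_lt_pi (th_pos hk) (th_lt_pi hk)

theorem ct_eq {N k : ℕ} (hk : k ∈ range (N / 2)) :
    ct N k = (1 + Real.cos (th N k)) / Real.sin (th N k) := by
  have hs := sin_half_pos hk
  have hc := cos_half_pos hk
  have e1 : Real.cos (th N k) = 2 * Real.cos (th N k / 2) ^ 2 - 1 := by
    rw [← Real.cos_two_mul]; ring_nf
  have e2 : Real.sin (th N k) = 2 * Real.sin (th N k / 2) * Real.cos (th N k / 2) := by
    rw [← Real.sin_two_mul]; ring_nf
  rw [ct, e1, e2]
  field_simp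
  ring

theorem kap_eq {N k : ℕ} (hk : k ∈ range (N / 2)) :
    kap N k = 2 * (1 + Real.cos (th N k)) / N *
      (Real.sin (th N k) * (3 + 2 * Real.cos (th N k)))⁻¹ := by
  have hs := sin_th_pos hk
  have hb := be_gt hk
  have hN : (N : ℝ) ≠ 0 := by
    rintro h
    have : N = 0 := by exact_mod_cast h
    subst this
    simp at hk
  unfold be at hb
  rw [kap, ct_eq hk, be]
  have : 3 + 2 * Real.cos (th N k) ≠ 0 := by linarith
  have h2 : 2 + (1 + 2 * Real.cos (th N k)) = 3 + 2 * Real.cos (th N k) := by ring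
  rw [h2]
  field_simp

theorem be_hyp {N k : ℕ} (hk : k ∈ range (N / 2)) : 2 < be N k ↔ 3 * (2 * k + 1) < N := by
  have hN : 0 < N := by
    rcases Nat.eq_zero_or_pos N with h | h
    · subst h; simp at hk
    · exact h
  have hN' : (0 : ℝ) < N := by exact_mod_cast hN
  have hpi := Real.pi_pos
  have h1 : 2 < be N k ↔ Real.cos (Real.pi / 3) < Real.cos (th N k) := by
    rw [Real.cos_pi_div_three, be]
    constructor <;> intro h <;> linarith
  rw [h1, Real.strictAntiOn_cos.lt_iff_gt ⟨by positivity, by linarith⟩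
    ⟨(th_pos hk).le, (th_lt_pi hk).le⟩, th, div_lt_div_iff₀ hN' (by norm_num)]
  constructor
  · intro h
    have h2 : Real.pi * (((3 * (2 * k + 1) : ℕ)) : ℝ) < Real.pi * (N : ℝ) := by push_cast; linarith
    have := lt_of_mul_lt_mul_left h2 hpi.le
    exact_mod_cast this
  · intro h
    have h2 : (((3 * (2 * k + 1) : ℕ)) : ℝ) < (N : ℝ) := by exact_mod_cast h
    have := mul_lt_mul_of_pos_left h2 hpi
    push_cast at this
    linarith

theorem has_one : (rat 1 1).Has (1 : ℝ) := by
  have := has_rat 1 (q := 1) one_pos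
  simpa using this

theorem has_three : (rat 3 1).Has (3 : ℝ) := by
  have := has_rat 3 (q := 1) one_pos
  simpa using this

theorem has_four : (rat 4 1).Has (4 : ℝ) := by
  have := has_rat 4 (q := 1) one_pos
  simpa using this

theorem has_zero : (rat 0 1).Has (0 : ℝ) := by
  have := has_rat 0 (q := 1) one_pos
  simpa using this

theorem has_kap {N k : ℕ} (hk : k ∈ range (N / 2)) {C S : Iv} (hC : C.Has (Real.cos (th N k)))
    (hS : S.Has (Real.sin (th N k))) (hok : 0 < (S.mul ((rat 3 1).add (nmul 2 C))).lo) :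
    (kapI N C S).Has (kap N k) := by
  have hN : 0 < (N : ℤ) := by
    rcases Nat.eq_zero_or_pos N with h | h
    · subst h; simp at hk
    · exact_mod_cast h
  rw [kap_eq hk]
  refine Has.mul ?_ (Has.inv (Has.mul hS (Has.add has_three ?_)) hok)
  · have := Has.ndiv hN (Has.nmul (n := 2) (by norm_num) (Has.add has_one hC))
    push_cast at this
    exact this
  · have := Has.nmul (n := 2) (by norm_num) hC
    push_cast at this
    exact this

theorem has_be {N k : ℕ} {C : Iv} (hC : C.Has (Real.cos (th N k))) :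
    ((rat 1 1).add (nmul 2 C)).Has (be N k) := by
  have := Has.add has_one (Has.nmul (n := 2) (by norm_num) hC)
  push_cast at this
  exact this

theorem has_pow {a : Iv} {x : ℝ} (h : a.Has x) (l : List ℕ) :
    (l.foldr (fun _ y => y.mul a) (rat 1 1)).Has (x ^ l.length) := by
  induction l with
  | nil => simpa using has_one
  | cons b l ih =>
    rw [List.foldr_cons, List.length_cons, pow_succ]
    exact Has.mul ih h

/-- the factor in the far bound -/
noncomputable def qf (N J k : ℕ) (t : ℝ) : ℝ := if 2 < be N k then aa N k ^ J else √(1 + t ^ 2)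
/-- the factor in the first column -/
noncomputable def lf (N k : ℕ) (t : ℝ) : ℝ :=
  if 2 < be N k then √(be N k ^ 2 - 4) / 2 else t * (√(4 - be N k ^ 2) / 2)

/-- soundness of the data of a mode -/
structure Snd (κ q l : ℝ) (E : ℕ) (M : MD) : Prop where
  A1 : ∀ u s : ℝ, |SC * u - s| ≤ E → 0 ≤ u → u ≤ 1 →
    |(SC : ℝ) * SC * (κ * (1 - q)) * u - ((M.p1 : ℝ) - M.n1) * s| ≤ M.eA
  A2 : ∀ u s : ℝ, |SC * u - s| ≤ E → 0 ≤ u → u ≤ 1 →
    |(SC : ℝ) * SC * (κ * (1 + q)) * u - (M.n2 : ℝ) * s| ≤ M.eA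
  L : ∀ u s : ℝ, |SC * u - s| ≤ E → 0 ≤ u → u ≤ 1 →
    |(SC : ℝ) * SC * (κ * l) * u - ((M.lp : ℝ) - M.ln) * s| ≤ M.eL

theorem sc_eq : (sc : ℝ) = (SC : ℝ) := by norm_num [sc, SC]

theorem mk_snd {κ q l x1 x2 x3 : ℝ} {E : ℕ} {ok neg1 negl : Bool} {I1 I2 I3 : Iv}
    (h1 : I1.Has x1) (h2 : I2.Has x2) (h3 : I3.Has x3) (p1 : 0 ≤ x1) (p2 : 0 ≤ x2) (p3 : 0 ≤ x3)
    (e1 : κ * (1 - q) = if neg1 then -x1 else x1) (e2 : κ * (1 + q) = x2)
    (e3 : κ * l = if negl then -x3 else x3) :
    Snd κ q l E (mk E ok I1 neg1 I2 I3 negl) := by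
  have f1 := fin_abs h1 p1
  have f2 := fin_abs h2 p2
  have f3 := fin_abs h3 p3
  have hE : (0 : ℝ) ≤ E := Nat.cast_nonneg _
  have hSC : (0 : ℝ) ≤ SC := by norm_num [SC]
  have a0 : (0 : ℝ) ≤ I1.lo.toNat := Nat.cast_nonneg _
  have b0 : (0 : ℝ) ≤ I2.lo.toNat := Nat.cast_nonneg _
  have l0 : (0 : ℝ) ≤ I3.lo.toNat := Nat.cast_nonneg _
  have w1 : (0 : ℝ) ≤ wd I1 := Nat.cast_nonneg _
  have w2 : (0 : ℝ) ≤ wd I2 := Nat.cast_nonneg _
  have w3 : (0 : ℝ) ≤ wd I3 := Nat.cast_nonneg _
  refine ⟨fun u s hs u0 u1 => ?_, fun u s hs u0 u1 => ?_, fun u s hs u0 u1 => ?_⟩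
  · have hp := prod_err f1 hs u0 u1 a0
    have hb : ((I1.lo.toNat : ℝ) + wd I1) * E + (SC + E) * wd I1 ≤
        (mk E ok I1 neg1 I2 I3 negl).eA := by
      simp only [mk]
      push_cast
      rw [sc_eq]
      nlinarith [mul_nonneg b0 hE, mul_nonneg w2 hE, mul_nonneg hSC w2, mul_nonneg hE w2]
    refine le_trans ?_ hb
    refine le_trans (le_of_eq ?_) hp
    rw [e1]
    cases neg1
    · simp [mk]
    · rw [← abs_neg]
      simp [mk]
      congr 1
      ring
  · have hp := prod_err f2 hs u0 u1 b0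
    have hb : ((I2.lo.toNat : ℝ) + wd I2) * E + (SC + E) * wd I2 ≤
        (mk E ok I1 neg1 I2 I3 negl).eA := by
      simp only [mk]
      push_cast
      rw [sc_eq]
      nlinarith [mul_nonneg a0 hE, mul_nonneg w1 hE, mul_nonneg hSC w1, mul_nonneg hE w1]
    refine le_trans ?_ hb
    refine le_trans (le_of_eq ?_) hp
    rw [e2]
    simp [mk]
  · have hp := prod_err f3 hs u0 u1 l0
    have hb : ((I3.lo.toNat : ℝ) + wd I3) * E + (SC + E) * wd I3 ≤
        (mk E ok I1 neg1 I2 I3 negl).eL := by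
      simp only [mk]
      push_cast
      rw [sc_eq]
    refine le_trans ?_ hb
    refine le_trans (le_of_eq ?_) hp
    rw [e3]
    cases negl
    · simp [mk]
    · rw [← abs_neg]
      simp [mk]
      congr 1
      ring

theorem mode_snd {N k J : ℕ} (hk : k ∈ range (N / 2)) {z : ℤ × ℤ} {E : ℕ}
    (hz : Near z (th N k) ((E : ℤ) : ℝ)) {tp tr : ℤ} {sg : Bool} (htp : 0 ≤ tp) (htr : 0 < tr)
    (hok : (mode N J z E (decide (3 * (2 * k + 1) < N)) tp tr sg).ok = true) :
    Snd (kap N k) (qf N J k ((if sg then -1 else 1) * ((tp : ℝ) / (tr : ℝ))))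
      (lf N k ((if sg then -1 else 1) * ((tp : ℝ) / (tr : ℝ)))) E
      (mode N J z E (decide (3 * (2 * k + 1) < N)) tp tr sg) := by
  have hC := has_cos hz
  have hS := has_sin hz
  have hκ0 := (kap_pos hk).le
  have hb := has_be hC
  by_cases hh : 3 * (2 * k + 1) < N
  · have h2 := (be_hyp hk).mpr hh
    rw [decide_eq_true hh] at hok ⊢
    have hok' : 0 < ((imI z E).mul ((rat 3 1).add (nmul 2 (reI z E)))).lo := by
      simpa [mode, mk] using hok
    have hκ := has_kap hk hC hS hok'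
    have hD : (Iv.sqrt ((((rat 1 1).add (nmul 2 (reI z E))).sq).sub (rat 4 1))).Has
        (√(be N k ^ 2 - 4)) := Has.sqrt (Has.sub (Has.sq hb) has_four)
    have ha : ((((rat 1 1).add (nmul 2 (reI z E))).sub
        (Iv.sqrt ((((rat 1 1).add (nmul 2 (reI z E))).sq).sub (rat 4 1)))).ndiv 2).Has (aa N k) := by
      have := Has.ndiv (n := 2) (by norm_num) (Has.sub hb hD)
      push_cast at this
      exact this
    have hq := has_pow ha (List.range J)
    rw [List.length_range] at hq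
    have q0 : 0 ≤ aa N k ^ J := pow_nonneg (aa_pos hk h2).le _
    have q1 : aa N k ^ J ≤ 1 := pow_le_one₀ (aa_pos hk h2).le (aa_lt_one hk h2).le
    have hqf : qf N J k ((if sg then -1 else 1) * ((tp : ℝ) / (tr : ℝ))) = aa N k ^ J := by
      rw [qf, if_pos h2]
    have hlf : lf N k ((if sg then -1 else 1) * ((tp : ℝ) / (tr : ℝ))) = √(be N k ^ 2 - 4) / 2 := by
      rw [lf, if_pos h2]
    rw [hqf, hlf]
    refine mk_snd (Has.mul hκ (Has.sub has_one hq)) (Has.mul hκ (Has.add has_one hq))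
      (Has.ndiv (n := 2) (by norm_num) (Has.mul hκ hD)) (mul_nonneg hκ0 (by linarith))
      (mul_nonneg hκ0 (by linarith)) ?_ (by simp) rfl ?_
    · push_cast; positivity
    · simp only [Bool.false_eq_true, if_false]; push_cast; ring
  · have h2 : ¬ 2 < be N k := fun h => hh ((be_hyp hk).mp h)
    rw [decide_eq_false hh] at hok ⊢
    have hok' : 0 < ((imI z E).mul ((rat 3 1).add (nmul 2 (reI z E)))).lo := by
      by_cases ht : tp = 0
      · simpa [mode, mk, ht] using hok
      · simpa [mode, mk, ht] using hok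
    have hκ := has_kap hk hC hS hok'
    rw [qf, lf, if_neg h2, if_neg h2]
    by_cases ht : tp = 0
    · subst ht
      have e : mode N J z E false 0 tr sg = mk E (decide (0 < ((imI z E).mul
          ((rat 3 1).add (nmul 2 (reI z E)))).lo)) (rat 0 1) false
          (nmul 2 (kapI N (reI z E) (imI z E))) (rat 0 1) false := by simp [mode]
      rw [e]
      refine mk_snd has_zero (Has.nmul (n := 2) (by norm_num) hκ) has_zero le_rfl ?_ le_rfl ?_ ?_ ?_
      · push_cast; positivity
      · simp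
      · push_cast; simp; ring
      · simp
    · have e : mode N J z E false tp tr sg = mk E (decide (0 < ((imI z E).mul
          ((rat 3 1).add (nmul 2 (reI z E)))).lo))
          ((kapI N (reI z E) (imI z E)).mul
            ((Iv.sqrt ((rat 1 1).add ((rat tp tr).sq))).sub (rat 1 1))) true
          ((kapI N (reI z E) (imI z E)).mul
            ((rat 1 1).add (Iv.sqrt ((rat 1 1).add ((rat tp tr).sq)))))
          (((kapI N (reI z E) (imI z E)).mul ((rat tp tr).mul
            (Iv.sqrt ((rat 4 1).sub (((rat 1 1).add (nmul 2 (reI z E))).sq))))).ndiv 2) sg := by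
        simp [mode, ht]
      rw [e]
      have htr' : (0 : ℝ) < tr := by exact_mod_cast htr
      have htp' : (0 : ℝ) ≤ tp := by exact_mod_cast htp
      have hT := has_rat tp htr
      have hT2 := Has.sqrt (Has.add has_one (Has.sq hT))
      have hsq : ((if sg then (-1 : ℝ) else 1) * ((tp : ℝ) / (tr : ℝ))) ^ 2 =
          ((tp : ℝ) / (tr : ℝ)) ^ 2 := by
        cases sg <;> simp
      rw [hsq]
      have hq1 : 1 ≤ √(1 + ((tp : ℝ) / (tr : ℝ)) ^ 2) := by
        rw [Real.one_le_sqrt]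
        nlinarith [sq_nonneg ((tp : ℝ) / (tr : ℝ))]
      have hD := Has.sqrt (Has.sub has_four (Has.sq hb))
      refine mk_snd (Has.mul hκ (Has.sub hT2 has_one)) (Has.mul hκ (Has.add has_one hT2))
        (Has.ndiv (n := 2) (by norm_num) (Has.mul hκ (Has.mul hT hD)))
        (mul_nonneg hκ0 (by linarith)) (mul_nonneg hκ0 (by linarith)) ?_ ?_ rfl ?_
      · push_cast
        have : 0 ≤ (tp : ℝ) / (tr : ℝ) := div_nonneg htp' htr'.le
        positivity
      · simp; ring
      · cases sg <;> (push_cast; simp; ring)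

/-! ### the table and the row sums -/

theorem W_eq : W = 2 ^ 50 := by norm_num [W]

theorem ent_pack (L : List (ℤ × ℤ)) (i : ℕ) :
    ent (pack L) i = (L.getD i (0, 0)).2.toNat % W := by
  induction L generalizing i with
  | nil => simp [ent, pack]; exact Nat.zero_mod W
  | cons z zs ih =>
    have hW : 0 < W := by norm_num [W]
    cases i with
    | zero =>
      simp only [ent, pack, Nat.mul_eq, Nat.add_eq, Nat.shiftRight_eq, mul_zero, Nat.shiftRight_zero,
        List.getD_cons_zero]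
      show (z.2.toNat % W + W * pack zs) % W = z.2.toNat % W
      rw [Nat.add_mul_mod_self_left, Nat.mod_mod]
    | succ i =>
      rw [List.getD_cons_succ, ← ih i]
      simp only [ent, pack]
      show ((z.2.toNat % W + W * pack zs) >>> (50 * (i + 1))) % W = (pack zs >>> (50 * i)) % W
      rw [Nat.shiftRight_eq_div_pow, Nat.shiftRight_eq_div_pow, mul_add, mul_one, add_comm (50 * i),
        pow_add, ← Nat.div_div_eq_div_mul, ← W_eq, Nat.add_mul_div_left _ _ hW,
        Nat.div_eq_of_lt (Nat.mod_lt _ hW), zero_add]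

theorem near_im {z : ℤ × ℤ} {θ E : ℝ} (h : Near z θ E) : |(z.2 : ℝ) - SC * Real.sin θ| ≤ E := by
  unfold Near at h
  refine le_trans ?_ ((Complex.abs_im_le_norm _).trans h)
  refine le_of_eq ?_
  congr 1
  simp [Complex.exp_im, Complex.mul_im, Complex.mul_re, Complex.exp_re]

/-- the table is accurate -/
theorem ent_near {N E : ℕ} {Z : List (ℤ × ℤ)} (hE : E ≤ 10 ^ 9) (hN : 0 < N)
    (hZ : ∀ i ≤ N, Near (Z.getD i (0, 0)) (i * (Real.pi / N)) E) {i : ℕ} (hi : i ≤ N) :
    |(SC : ℝ) * Real.sin (i * (Real.pi / N)) - (ent (pack Z) i : ℝ)| ≤ E := by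
  have h := near_im (hZ i hi)
  have hN' : (0 : ℝ) < N := by exact_mod_cast hN
  have hi' : (i : ℝ) ≤ N := by exact_mod_cast hi
  have hs0 : 0 ≤ Real.sin (i * (Real.pi / N)) := by
    apply Real.sin_nonneg_of_nonneg_of_le_pi (by positivity)
    rw [mul_div_assoc', div_le_iff₀ hN', mul_comm]
    exact mul_le_mul_of_nonneg_left hi' Real.pi_pos.le
  have hs1 := Real.sin_le_one (i * (Real.pi / N))
  have hE' : (E : ℝ) ≤ 10 ^ 9 := by exact_mod_cast hE
  set x := (Z.getD i (0, 0)).2 with hx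
  have hSC : (SC : ℝ) = 10 ^ 15 := by norm_num [SC]
  rw [hSC] at h ⊢
  rw [abs_le] at h
  have hlt : x.toNat < W := by
    have h1 : (x : ℝ) < (W : ℝ) := by
      have : (W : ℝ) = 1125899906842624 := by norm_num [W]
      rw [this]
      nlinarith [h.2]
    have h2 : x < (W : ℤ) := by exact_mod_cast h1
    have hW : 0 < W := by norm_num [W]
    omega
  rw [ent_pack, ← hx, Nat.mod_eq_of_lt hlt, abs_le]
  rcases le_total 0 x with h0 | h0
  · have e : ((x.toNat : ℕ) : ℝ) = (x : ℝ) := by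
      have := Int.toNat_of_nonneg h0
      exact_mod_cast this
    rw [e]
    constructor <;> linarith [h.1, h.2]
  · have e : x.toNat = 0 := Int.toNat_of_nonpos h0
    have h0' : (x : ℝ) ≤ 0 := by exact_mod_cast h0
    rw [e, Nat.cast_zero]
    have : (0 : ℝ) ≤ 10 ^ 15 * Real.sin (i * (Real.pi / N)) := by positivity
    constructor <;> linarith [h.1, h.2, (Nat.cast_nonneg E : (0 : ℝ) ≤ E)]

theorem sin_mod {N : ℕ} (hN : 0 < N) (k r : ℕ) :
    Real.sin (r * th N k) =
      if ((2 * k + 1) * r) % (2 * N) ≤ N then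
        Real.sin ((((2 * k + 1) * r) % (2 * N) : ℕ) * (Real.pi / N))
      else -Real.sin ((((2 * k + 1) * r) % (2 * N) - N : ℕ) * (Real.pi / N)) := by
  have hN' : (N : ℝ) ≠ 0 := by exact_mod_cast hN.ne'
  set i := ((2 * k + 1) * r) % (2 * N) with hi
  set c := ((2 * k + 1) * r) / (2 * N) with hc
  have e : (2 * k + 1) * r = 2 * N * c + i := by rw [hi, hc]; exact (Nat.div_add_mod _ _).symm
  have e' : ((2 * k + 1) * r : ℝ) = 2 * N * c + i := by exact_mod_cast e
  have h1 : Real.sin (r * th N k) = Real.sin (i * (Real.pi / N)) := by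
    have : (r : ℝ) * th N k = i * (Real.pi / N) + c * (2 * Real.pi) := by
      rw [th]
      have : (r : ℝ) * (Real.pi * (2 * k + 1) / N) = ((2 * k + 1) * r : ℝ) * (Real.pi / N) := by ring
      rw [this, e']
      field_simp
      ring
    rw [this, Real.sin_add_nat_mul_two_pi]
  rw [h1]
  split_ifs with h
  · rfl
  · have h2 : (i : ℝ) * (Real.pi / N) = ((i - N : ℕ) : ℝ) * (Real.pi / N) + Real.pi := by
      rw [Nat.cast_sub (by omega)]
      field_simp
      ring
    rw [h2, Real.sin_add_pi]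

/-- sound list of modes -/
def SndL (N J : ℕ) (E : ℕ) (t : ℕ → ℝ) : ℕ → List MD → Prop
  | _, [] => True
  | k, M :: Ms => Snd (kap N k) (qf N J k (t k)) (lf N k (t k)) E M ∧ SndL N J E t (k + 1) Ms

theorem inr_spec {N J E r : ℕ} {Z : List (ℤ × ℤ)} {t : ℕ → ℝ} (hE : E ≤ 10 ^ 9) (hN : 0 < N)
    (hZ : ∀ i ≤ N, Near (Z.getD i (0, 0)) (i * (Real.pi / N)) E) (L : List MD) :
    ∀ (k : ℕ) (A : Acc), SndL N J E t k L →
      |(SC : ℝ) * SC * (∑ i ∈ range L.length, kap N (k + i) *
          (Real.sin (r * th N (k + i)) - |Real.sin (r * th N (k + i))| *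
            qf N J (k + i) (t (k + i)))) -
        ((((inr (pack Z) N (2 * N) r L (2 * k + 1) A).pa : ℝ) -
          (inr (pack Z) N (2 * N) r L (2 * k + 1) A).na) - ((A.pa : ℝ) - A.na))| ≤ sumA L ∧
      |(SC : ℝ) * SC * (∑ i ∈ range L.length, kap N (k + i) *
          (Real.sin (r * th N (k + i)) * lf N (k + i) (t (k + i)))) -
        ((((inr (pack Z) N (2 * N) r L (2 * k + 1) A).pl : ℝ) -
          (inr (pack Z) N (2 * N) r L (2 * k + 1) A).nl) - ((A.pl : ℝ) - A.nl))| ≤ sumL L := by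
  induction L with
  | nil => intro k A _; simp [inr, sumA, sumL]
  | cons M Ms ih =>
    intro k A hL
    obtain ⟨hM, hMs⟩ := hL
    have hsum1 : ∀ f : ℕ → ℝ, ∑ i ∈ range (M :: Ms).length, f (k + i) =
        f k + ∑ i ∈ range Ms.length, f (k + 1 + i) := by
      intro f
      rw [List.length_cons, Finset.sum_range_succ', add_comm]
      simp only [add_zero]
      congr 1
      refine Finset.sum_congr rfl fun i _ => ?_
      congr 1
      ring
    have h1 := hsum1 fun i => kap N i * (Real.sin (r * th N i) - |Real.sin (r * th N i)| *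
      qf N J i (t i))
    have h2 := hsum1 fun i => kap N i * (Real.sin (r * th N i) * lf N i (t i))
    rw [h1, h2]
    have hst : Nat.add (2 * k + 1) 2 = 2 * (k + 1) + 1 := by show 2 * k + 1 + 2 = _; ring
    have hsin := sin_mod hN k r
    set i := ((2 * k + 1) * r) % (2 * N) with hi
    have hi2 : Nat.mod (Nat.mul (2 * k + 1) r) (2 * N) = i := rfl
    by_cases hle : i ≤ N
    · rw [if_pos hle] at hsin
      have hble : Nat.ble i N = true := Nat.ble_eq.mpr hle
      have hu := ent_near hE hN hZ hle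
      have hu0 : 0 ≤ Real.sin (i * (Real.pi / N)) := by
        have hN' : (0 : ℝ) < N := by exact_mod_cast hN
        have hi' : (i : ℝ) ≤ N := by exact_mod_cast hle
        apply Real.sin_nonneg_of_nonneg_of_le_pi (by positivity)
        rw [mul_div_assoc', div_le_iff₀ hN', mul_comm]
        exact mul_le_mul_of_nonneg_left hi' Real.pi_pos.le
      have a1 := hM.A1 _ _ hu hu0 (Real.sin_le_one _)
      have l1 := hM.L _ _ hu hu0 (Real.sin_le_one _)
      rw [← hsin] at a1 l1 hu0
      have hA' : inr (pack Z) N (2 * N) r (M :: Ms) (2 * k + 1) A =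
          inr (pack Z) N (2 * N) r Ms (2 * (k + 1) + 1)
            ⟨A.pa + M.p1 * ent (pack Z) i, A.na + M.n1 * ent (pack Z) i,
              A.pl + M.lp * ent (pack Z) i, A.nl + M.ln * ent (pack Z) i⟩ := by
        rw [inr, hi2, hble, hst]
        rfl
      rw [hA']
      obtain ⟨b1, b2⟩ := ih (k + 1) ⟨A.pa + M.p1 * ent (pack Z) i, A.na + M.n1 * ent (pack Z) i,
              A.pl + M.lp * ent (pack Z) i, A.nl + M.ln * ent (pack Z) i⟩ hMs
      rw [abs_of_nonneg hu0]
      simp only [sumA, sumL]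
      push_cast at a1 l1 b1 b2 ⊢
      constructor
      · rw [abs_le] at a1 b1 ⊢
        constructor <;> nlinarith [a1.1, a1.2, b1.1, b1.2]
      · rw [abs_le] at l1 b2 ⊢
        constructor <;> nlinarith [l1.1, l1.2, b2.1, b2.2]
    · rw [if_neg hle] at hsin
      have hble : Nat.ble i N = false := by
        cases hb : Nat.ble i N
        · rfl
        · exact absurd (Nat.ble_eq.mp hb) hle
      have hiN : i - N ≤ N := by
        have : i < 2 * N := Nat.mod_lt _ (by omega)
        omega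
      have hu := ent_near hE hN hZ hiN
      have hu0 : 0 ≤ Real.sin ((i - N : ℕ) * (Real.pi / N)) := by
        have hN' : (0 : ℝ) < N := by exact_mod_cast hN
        have hi' : ((i - N : ℕ) : ℝ) ≤ N := by exact_mod_cast hiN
        apply Real.sin_nonneg_of_nonneg_of_le_pi (by positivity)
        rw [mul_div_assoc', div_le_iff₀ hN', mul_comm]
        exact mul_le_mul_of_nonneg_left hi' Real.pi_pos.le
      have a1 := hM.A2 _ _ hu hu0 (Real.sin_le_one _)
      have l1 := hM.L _ _ hu hu0 (Real.sin_le_one _)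
      have hA' : inr (pack Z) N (2 * N) r (M :: Ms) (2 * k + 1) A =
          inr (pack Z) N (2 * N) r Ms (2 * (k + 1) + 1)
            ⟨A.pa, A.na + M.n2 * ent (pack Z) (i - N),
              A.pl + M.ln * ent (pack Z) (i - N), A.nl + M.lp * ent (pack Z) (i - N)⟩ := by
        rw [inr, hi2, hble, hst]
        rfl
      rw [hA']
      obtain ⟨b1, b2⟩ := ih (k + 1) ⟨A.pa, A.na + M.n2 * ent (pack Z) (i - N),
              A.pl + M.ln * ent (pack Z) (i - N), A.nl + M.lp * ent (pack Z) (i - N)⟩ hMs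
      rw [hsin, abs_neg, abs_of_nonneg hu0]
      simp only [sumA, sumL]
      push_cast at a1 l1 b1 b2 ⊢
      constructor
      · rw [abs_le] at a1 b1 ⊢
        constructor <;> nlinarith [a1.1, a1.2, b1.1, b1.2]
      · rw [abs_le] at l1 b2 ⊢
        constructor <;> nlinarith [l1.1, l1.2, b2.1, b2.2]

/-! ### assembly -/

/-- the table of `exp (i π j / N)` -/
def ZZ (N : ℕ) : List (ℤ × ℤ) := powTab (unit N) (N + 1) (SC, 0)

theorem Z_near {N : ℕ} (hN : 5 ≤ N) (hN' : N ≤ 999) {i : ℕ} (hi : i ≤ N) :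
    Near ((ZZ N).getD i (0, 0)) (i * (Real.pi / N)) ((204 * N : ℕ) : ℝ) := by
  have h := near_powTab (near_unit hN (by omega)) near_one (by norm_num) le_rfl (by norm_num)
    (N + 1) i (by omega) (by omega)
  unfold Near at h ⊢
  rw [zero_add] at h
  refine h.trans ?_
  have : (i : ℝ) ≤ N := by exact_mod_cast hi
  push_cast
  linarith

theorem mds_snd {N J : ℕ} {tl : TL} (hN : 5 ≤ N) (hN' : N ≤ 999) (hT : okT tl = true) :
    ∀ f k : ℕ, k + f ≤ N / 2 → allOk (mds N J (ZZ N) (204 * N) tl f k) = true →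
      SndL N J (204 * N) (tR tl) k (mds N J (ZZ N) (204 * N) tl f k) := by
  intro f
  induction f with
  | zero => intro k _ _; simp [mds, SndL]
  | succ f ih =>
    intro k hk hok
    simp only [mds, allOk, Bool.and_eq_true] at hok
    have hk' : k ∈ range (N / 2) := Finset.mem_range.mpr (by omega)
    have hz := Z_near hN hN' (i := 2 * k + 1) (by omega)
    have e : ((2 * k + 1 : ℕ) : ℝ) * (Real.pi / N) = th N k := by rw [th]; push_cast; ring
    rw [e] at hz
    have htt : 0 ≤ (tl.getD k (0, 1, false)).1 ∧ 0 < (tl.getD k (0, 1, false)).2.1 := by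
      rw [List.getD_eq_getElem?_getD]
      rcases h : tl[k]? with _ | x
      · simp
      · have hx : x ∈ tl := List.mem_of_getElem? h
        have := List.all_eq_true.mp hT x hx
        simpa using this
    have h1 := mode_snd hk' (J := J) (z := (ZZ N).getD (2 * k + 1) (0, 0)) (E := 204 * N)
      (by push_cast at hz ⊢; exact hz) (sg := (tl.getD k (0, 1, false)).2.2) htt.1 htt.2 hok.1
    exact ⟨h1, ih (k + 1) (by omega) hok.2⟩

/-- the list of modes -/
def LL (N J : ℕ) (tl : TL) : List MD := mds N J (ZZ N) (204 * N) tl (N / 2) 0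

/-- the sums of row `r` -/
def RR (N J : ℕ) (tl : TL) (r : ℕ) : Acc :=
  inr (pack (ZZ N)) N (2 * N) r (LL N J tl) 1 ⟨0, 0, 0, 0⟩

theorem mds_length (N J : ℕ) (Z : List (ℤ × ℤ)) (E : ℕ) (tl : TL) (f k : ℕ) :
    (mds N J Z E tl f k).length = f := by
  induction f generalizing k with
  | zero => rfl
  | succ f ih => rw [mds, List.length_cons, ih]

theorem S2_eq : (S2 : ℝ) = SC * SC := by norm_num [S2, SC]

theorem row_spec {N J : ℕ} {tl : TL} (hN : 5 ≤ N) (hN' : N ≤ 999) (hT : okT tl = true)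
    (hok : allOk (LL N J tl) = true) (r : ℕ) :
    |(S2 : ℝ) * (∑ k ∈ range (N / 2), kap N k *
          (Real.sin (r * th N k) - |Real.sin (r * th N k)| * qf N J k (tR tl k))) -
        (((RR N J tl r).pa : ℝ) - (RR N J tl r).na)| ≤ sumA (LL N J tl) ∧
      |(S2 : ℝ) * (∑ k ∈ range (N / 2), kap N k *
          (Real.sin (r * th N k) * lf N k (tR tl k))) -
        (((RR N J tl r).pl : ℝ) - (RR N J tl r).nl)| ≤ sumL (LL N J tl) := by
  have h := inr_spec (r := r) (E := 204 * N) (N := N) (by omega) (by omega)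
    (fun i hi => Z_near hN hN' hi) (LL N J tl) 0 ⟨0, 0, 0, 0⟩
    (mds_snd hN hN' hT (N / 2) 0 (by omega) hok)
  have e : (LL N J tl).length = N / 2 := mds_length _ _ _ _ _ _ _
  simp only [zero_add, e, mul_zero, Nat.cast_zero, sub_zero] at h
  rw [S2_eq]
  exact h

theorem row_far {N J : ℕ} {tl : TL} (hN : 5 ≤ N) (hN' : N ≤ 999) (hT : okT tl = true)
    (hok : allOk (LL N J tl) = true) (r : ℕ) {j : ℕ} (hj : J ≤ j) :
    ((RR N J tl r).pa : ℝ) - (RR N J tl r).na - sumA (LL N J tl) ≤ S2 * xt N (tR tl) r j := by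
  have h := (row_spec hN hN' hT hok r).1
  have h2 := xt_far (N := N) (r := r) (tR tl) hj
  have hS : (0 : ℝ) ≤ S2 := Nat.cast_nonneg _
  have h3 := mul_le_mul_of_nonneg_left h2 hS
  rw [abs_le] at h
  have e : ∑ k ∈ range (N / 2), kap N k * (Real.sin (r * th N k) - |Real.sin (r * th N k)| *
      (if 2 < be N k then aa N k ^ J else √(1 + tR tl k ^ 2))) =
      ∑ k ∈ range (N / 2), kap N k *
          (Real.sin (r * th N k) - |Real.sin (r * th N k)| * qf N J k (tR tl k)) := rfl
  rw [e] at h3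
  linarith [h.1]

theorem row_one {N J : ℕ} {tl : TL} (hN : 5 ≤ N) (hN' : N ≤ 999) (hT : okT tl = true)
    (hok : allOk (LL N J tl) = true) {r : ℕ} (h1 : 1 ≤ r) (h2 : r < N) :
    |(S2 : ℝ) * xt N (tR tl) r 1 - (S2 / 2 - (((RR N J tl r).pl : ℝ) - (RR N J tl r).nl))| ≤
      sumL (LL N J tl) := by
  have h := (row_spec hN hN' hT hok r).2
  rw [xt_one h1 h2 (tR tl)]
  have e : ∑ k ∈ range (N / 2), kap N k * Real.sin (r * th N k) *
      (if 2 < be N k then √(be N k ^ 2 - 4) / 2 else tR tl k * (√(4 - be N k ^ 2) / 2)) =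
      ∑ k ∈ range (N / 2), kap N k * (Real.sin (r * th N k) * lf N k (tR tl k)) := by
    refine Finset.sum_congr rfl fun k _ => ?_
    rw [lf]; ring
  rw [e, ← abs_neg]
  refine le_trans (le_of_eq ?_) h
  congr 1
  ring

end Pool.Agent.FD.XtIv
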